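import Pool.Agent.Lib.MP_f78106_gt.Fam
import Pool.Agent.Lib.MP_f78106_gt.Once

/-!
The phase function of the iterated insertion family follows a list of arcs.
-/

namespace Pool.Agent.Lib.MP_f78106_gt

open MeasureTheory Set Filter Topology

namespace Arcs

section om
variable {n : ℕ}

theorem om_eq (x y : V n) : om x y = (inner ℂ x y).im := by
  unfold om rin
  rw [inner_smul_right]
  simp

theorem om_add_left (x y z : V n) : om (x + y) z = om x z + om y z := by
  rw [om_eq, om_eq, om_eq, inner_add_left, Complex.add_im]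

theorem om_add_right (x y z : V n) : om x (y + z) = om x y + om x z := by
  rw [om_eq, om_eq, om_eq, inner_add_right, Complex.add_im]

theorem om_sub_left (x y z : V n) : om (x - y) z = om x z - om y z := by
  rw [om_eq, om_eq, om_eq, inner_sub_left, Complex.sub_im]

theorem om_sub_right (x y z : V n) : om x (y - z) = om x y - om x z := by
  rw [om_eq, om_eq, om_eq, inner_sub_right, Complex.sub_im]

theorem om_smul_left (r : ℝ) (x y : V n) : om (r • x) y = r * om x y := by
  rw [om_eq, om_eq, ← Complex.coe_smul, inner_smul_left]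
  simp

theorem om_smul_right (r : ℝ) (x y : V n) : om x (r • y) = r * om x y := by
  rw [om_eq, om_eq, ← Complex.coe_smul, inner_smul_right]
  simp

theorem om_self (x : V n) : om x x = 0 := by
  rw [om_eq]
  exact inner_self_im (𝕜 := ℂ) x

end om

/-- The bounds on a single arc. -/
def Ok (T : ℝ) (a : Arc) : Prop := 0 ≤ a.l ∧ 0 ≤ a.s ∧ a.s ≤ a.e ∧ a.e ≤ T

/-- The jump condition. -/
def Jp (T : ℝ) (a b : Arc) : Prop := a.e = T ∨ b.s = 0

theorem Ok.dur_nonneg {T : ℝ} {a : Arc} (h : Ok T a) : 0 ≤ a.dur :=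
  mul_nonneg h.1 (sub_nonneg.2 h.2.2.1)

theorem dur_cons (a : Arc) (L : List Arc) : dur (a :: L) = a.dur + dur L := by simp [dur]

theorem dur_nonneg {T : ℝ} {L : List Arc} (h : ∀ a ∈ L, Ok T a) : 0 ≤ dur L :=
  List.sum_nonneg fun x hx => by
    obtain ⟨a, ha, rfl⟩ := List.mem_map.1 hx
    exact (h a ha).dur_nonneg

theorem wsum_cons (g : ℝ → ℝ) (a : Arc) (L : List Arc) :
    wsum g (a :: L) = g a.l * (a.e - a.s) + wsum g L := by simp [wsum]

theorem wsum_append (g : ℝ → ℝ) (L L' : List Arc) :
    wsum g (L ++ L') = wsum g L + wsum g L' := by simp [wsum]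

theorem dur_eq (L : List Arc) : dur L = wsum (fun x => x) L := rfl

theorem disp_cons {n : ℕ} (G : ℝ → V n) (a : Arc) (L : List Arc) :
    disp G (a :: L) = a.l • (G a.e - G a.s) + disp G L := by simp [disp]

theorem spec_append (φ : ℝ → ℝ) (L L' : List Arc) (t0 : ℝ) :
    Spec φ (L ++ L') t0 ↔ Spec φ L t0 ∧ Spec φ L' (t0 + dur L) := by
  induction L generalizing t0 with
  | nil => simp [Spec, dur]
  | cons a L ih => simp only [List.cons_append, Spec, ih, dur_cons, add_assoc, and_assoc]

theorem spec_transfer {T : ℝ} {φ φ' : ℝ → ℝ} {L : List Arc} (hL : ∀ a ∈ L, Ok T a) {t0 t1 : ℝ}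
    (h : Spec φ L t0) (he : ∀ r, 0 < r → r < dur L → φ' (t1 + r) = φ (t0 + r)) :
    Spec φ' L t1 := by
  induction L generalizing t0 t1 with
  | nil => trivial
  | cons a L ih =>
    have h1 := (hL a List.mem_cons_self).dur_nonneg
    have hL' : ∀ b ∈ L, Ok T b := fun b hb => hL b (List.mem_cons_of_mem _ hb)
    have h2 := dur_nonneg hL'
    rw [dur_cons] at he
    refine ⟨fun t t1 t2 => ?_, ih hL' h.2 fun r r1 r2 => ?_⟩
    · rename_i u
      have e := he (t - u) (by linarith) (by linarith)
      rw [add_sub_cancel, h.1 _ (by linarith) (by linarith), add_sub_cancel_left] at e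
      exact e
    · rw [add_assoc, add_assoc]
      exact he _ (by linarith) (by linarith)

/-- Cutting a list of arcs at a given time. -/
theorem split (n : ℕ) {T : ℝ} {φ : ℝ → ℝ} {L : List Arc} (hL : ∀ a ∈ L, Ok T a) {t0 c : ℝ}
    (h : Spec φ L t0) (c0 : 0 ≤ c) (c1 : c < dur L) :
    ∃ M M' : List Arc, (∀ a ∈ M, Ok T a) ∧ (∀ a ∈ M', Ok T a) ∧
      (∀ x, (x :: L).IsChain (Jp T) → (x :: M).IsChain (Jp T) ∧ M'.IsChain (Jp T)) ∧
      dur M = c ∧ M.length + M'.length = L.length + 1 ∧ Spec φ M t0 ∧ Spec φ M' (t0 + c) ∧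
      (∀ g, wsum g (M ++ M') = wsum g L) ∧
      ∀ G : ℝ → V n, disp G (M ++ M') = disp G L ∧ pol G (M ++ M') = pol G L := by
  induction L generalizing t0 c with
  | nil => exact absurd c1 (by simpa [dur] using c0)
  | cons a L ih =>
    have ha := hL a List.mem_cons_self
    have hL' : ∀ b ∈ L, Ok T b := fun b hb => hL b (List.mem_cons_of_mem _ hb)
    rw [dur_cons] at c1
    rcases lt_or_ge c a.dur with hc | hc
    · have hl : 0 < a.l := by
        rcases ha.1.lt_or_eq with q | q
        · exact q
        · rw [Arc.dur, ← q, zero_mul] at hc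
          linarith
      have q0 : 0 ≤ c / a.l := div_nonneg c0 hl.le
      have q1 : c / a.l < a.e - a.s := by
        rw [div_lt_iff₀ hl, mul_comm]
        exact hc
      have d1 : Arc.dur ⟨a.l, a.s, a.s + c / a.l⟩ = c := by
        simp only [Arc.dur]
        field_simp
        ring
      have d2 : c + Arc.dur ⟨a.l, a.s + c / a.l, a.e⟩ = a.dur := by
        simp only [Arc.dur]
        field_simp
        ring
      obtain ⟨a1, a2, a3, a4⟩ := ha
      refine ⟨[⟨a.l, a.s, a.s + c / a.l⟩], ⟨a.l, a.s + c / a.l, a.e⟩ :: L, ?_, ?_, ?_, ?_, ?_, ?_,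
        ?_, ?_, ?_⟩
      · intro b hb
        rw [List.mem_singleton.1 hb]
        exact ⟨a1, a2, by simp only; linarith, by simp only; linarith⟩
      · intro b hb
        rcases List.mem_cons.1 hb with rfl | hb
        · exact ⟨a1, by simp only; linarith, by simp only; linarith, a4⟩
        · exact hL' b hb
      · intro x hx
        rw [List.isChain_cons_cons] at hx
        refine ⟨List.isChain_cons_cons.2 ⟨hx.1, List.isChain_singleton _⟩, ?_⟩
        cases L with
        | nil => exact List.isChain_singleton _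
        | cons b L =>
          have := List.isChain_cons_cons.1 hx.2
          exact List.isChain_cons_cons.2 ⟨this.1, this.2⟩
      · rw [dur_cons, d1]
        simp [dur]
      · simp only [List.length_cons, List.length_nil]
        omega
      · refine ⟨fun t t1 t2 => h.1 t t1 ?_, trivial⟩
        rw [d1] at t2
        linarith
      · refine ⟨fun t t1 t2 => ?_, ?_⟩
        · rw [h.1 t (by linarith) (by linarith)]
          simp only
          ring
        · rw [add_assoc, d2]
          exact h.2
      · intro g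
        simp only [List.cons_append, List.nil_append, wsum_cons]
        ring
      · intro G
        simp only [List.cons_append, List.nil_append, disp_cons, pol, om_add_right, om_smul_left,
          om_smul_right, om_sub_left, om_sub_right, om_self]
        refine ⟨?_, by ring⟩
        rw [← add_assoc, ← smul_add]
        congr 2
        abel
    · obtain ⟨M, M', m1, m2, m3, m4, m5, m6, m7, m8, m9⟩ :=
        ih hL' (c := c - a.dur) h.2 (by linarith) (by linarith)
      refine ⟨a :: M, M', ?_, m2, ?_, ?_, ?_, ⟨h.1, m6⟩, ?_, ?_, ?_⟩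
      · intro b hb
        rcases List.mem_cons.1 hb with rfl | hb
        · exact ha
        · exact m1 b hb
      · intro x hx
        rw [List.isChain_cons_cons] at hx
        exact ⟨List.isChain_cons_cons.2 ⟨hx.1, (m3 a hx.2).1⟩, (m3 a hx.2).2⟩
      · rw [dur_cons, m4]
        ring
      · simp only [List.length_cons]
        omega
      · rwa [add_assoc, add_sub_cancel] at m7
      · intro g
        rw [List.cons_append, wsum_cons, wsum_cons, m8]
      · intro G
        simp only [List.cons_append, disp_cons, pol, (m9 G).1, (m9 G).2, and_self]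

/-- Inserting a full lobe changes neither the displacement nor the polygonal part. -/
theorem insert_full {n : ℕ} {T : ℝ} {G : ℝ → V n} (hG : G T = G 0) (l : ℝ) (M M' : List Arc) :
    disp G (M ++ ⟨l, 0, T⟩ :: M') = disp G (M ++ M') ∧
      pol G (M ++ ⟨l, 0, T⟩ :: M') = pol G (M ++ M') := by
  induction M with
  | nil => simp [disp_cons, pol, hG, om_self, om_eq]
  | cons a M ih => simp only [List.cons_append, disp_cons, pol, ih.1, ih.2, and_self]

theorem chain_insert {T : ℝ} (l : ℝ) {M M' : List Arc} (h : M.IsChain (Jp T))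
    (h' : M'.IsChain (Jp T)) : (M ++ ⟨l, 0, T⟩ :: M').IsChain (Jp T) := by
  rw [List.isChain_split]
  constructor
  · rw [List.isChain_append]
    refine ⟨h, List.isChain_singleton _, fun x _ y hy => ?_⟩
    simp only [List.head?_cons, Option.mem_def, Option.some.injEq] at hy
    rw [← hy]
    exact Or.inr rfl
  · rw [List.isChain_cons]
    exact ⟨fun y _ => Or.inl rfl, h'⟩

theorem ph_int (T : ℝ) (lam s : ℕ → ℝ) (j : ℕ) (t : ℝ) (z : ℤ) :
    ph T lam s j (t + z) = ph T lam s j t := by
  cases j with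
  | zero => rfl
  | succ j => simp only [ph, add_sub_right_comm, Int.fract_add_intCast]

theorem fract_eq (s x : ℝ) (z : ℤ) (h0 : 0 ≤ x) (h1 : x < 1) : Int.fract (s + z + x - s) = x := by
  rw [show s + z + x - s = x + z by ring, Int.fract_add_intCast, Int.fract_eq_self.2 ⟨h0, h1⟩]

/-- The new lobe. -/
theorem ph_new {T : ℝ} (hT : 0 < T) {lam : ℕ → ℝ} (hl : ∀ i, 0 ≤ lam i) (s : ℕ → ℝ) (j : ℕ)
    (z : ℤ) {r : ℝ} (r0 : 0 < r) (r1 : r < lam j * T) :
    ph T lam s (j + 1) ((T * (∑ i ∈ Finset.range (j + 1), lam i) * (s j + z) + r) /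
      (T * ∑ i ∈ Finset.range (j + 1), lam i)) = r / lam j := by
  have hA : 0 ≤ ∑ i ∈ Finset.range j, lam i := Finset.sum_nonneg fun i _ => hl i
  have hj : 0 < lam j := (mul_pos_iff_of_pos_right hT).1 (r0.trans r1)
  have hB : lam j ≤ ∑ i ∈ Finset.range (j + 1), lam i := by
    rw [Finset.sum_range_succ]; linarith
  simp only [ph]
  generalize ∑ i ∈ Finset.range (j + 1), lam i = B at hB
  have hB0 : 0 < B := hj.trans_le hB
  have x1 : r / (T * B) < lam j / B := by
    rw [div_lt_div_iff₀ (by positivity) hB0]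
    nlinarith
  rw [show (T * B * (s j + z) + r) / (T * B) = s j + z + r / (T * B) by field_simp,
    fract_eq _ _ _ (by positivity) (x1.trans_le ((div_le_one hB0).2 hB)), if_pos x1]
  field_simp

/-- The old part. -/
theorem ph_old {T : ℝ} (hT : 0 < T) {lam : ℕ → ℝ} (hl : ∀ i, 0 ≤ lam i) (s : ℕ → ℝ) (j : ℕ)
    (z : ℤ) {r : ℝ} (r0 : 0 < r) (r1 : r < T * ∑ i ∈ Finset.range j, lam i) :
    ph T lam s (j + 1) ((T * (∑ i ∈ Finset.range (j + 1), lam i) * (s j + z) + (lam j * T + r)) /
      (T * ∑ i ∈ Finset.range (j + 1), lam i)) =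
    ph T lam s j (s j + r / (T * ∑ i ∈ Finset.range j, lam i)) := by
  have hj := hl j
  simp only [ph, Finset.sum_range_succ]
  generalize ∑ i ∈ Finset.range j, lam i = A at r1
  have hA : 0 < A := by
    by_contra q
    nlinarith [mul_nonneg hT.le (neg_nonneg.2 (not_lt.1 q))]
  have hB : 0 < A + lam j := by linarith
  have x1 : (lam j * T + r) / (T * (A + lam j)) < 1 := by
    rw [div_lt_one (by positivity)]
    linarith
  have x2 : ¬ (lam j * T + r) / (T * (A + lam j)) < lam j / (A + lam j) := by
    rw [not_lt, div_le_div_iff₀ hB (by positivity)]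
    nlinarith
  rw [show (T * (A + lam j) * (s j + z) + (lam j * T + r)) / (T * (A + lam j)) =
      s j + z + (lam j * T + r) / (T * (A + lam j)) by field_simp,
    fract_eq _ _ _ (by positivity) x1, if_neg x2]
  congr 2
  rw [show 1 - lam j / (A + lam j) = A / (A + lam j) by field_simp; ring]
  field_simp
  ring

theorem main (n : ℕ) {T : ℝ} (hT : 0 < T) {lam : ℕ → ℝ} (hl : ∀ i, 0 ≤ lam i) (s : ℕ → ℝ)
    (k : ℕ) :
    ∃ (t0 : ℝ) (L : List Arc), (∀ a ∈ L, Ok T a) ∧ L.IsChain (Jp T) ∧ L.length ≤ 2 * k ∧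
      Spec (fun t => ph T lam s k (t / (T * ∑ i ∈ Finset.range k, lam i))) L t0 ∧
      (∀ g : ℝ → ℝ, wsum g L = T * ∑ i ∈ Finset.range k, g (lam i)) ∧
      ∀ G : ℝ → V n, G T = G 0 → disp G L = 0 ∧ pol G L = 0 := by
  induction k with
  | zero => exact ⟨0, [], by simp, by simp, by simp, trivial, by simp [wsum], by simp [disp, pol]⟩
  | succ j ih =>
    obtain ⟨t0, L, h1, h2, h3, h4, h5, h6⟩ := ih
    have hd : dur L = T * ∑ i ∈ Finset.range j, lam i := h5 fun x => x
    have hn : Ok T ⟨lam j, 0, T⟩ := ⟨hl j, le_rfl, hT.le, le_rfl⟩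
    have hnd : Arc.dur ⟨lam j, 0, T⟩ = lam j * T := by simp [Arc.dur]
    have key : ∃ (z : ℤ) (c : ℝ) (M M' : List Arc), (∀ a ∈ M, Ok T a) ∧ (∀ a ∈ M', Ok T a) ∧
        M.IsChain (Jp T) ∧ M'.IsChain (Jp T) ∧ dur M = c ∧ M.length + M'.length ≤ L.length + 1 ∧
        (dur L = 0 ∨ t0 + c = dur L * (s j + z)) ∧
        Spec (fun t => ph T lam s j (t / dur L)) M t0 ∧
        Spec (fun t => ph T lam s j (t / dur L)) M' (t0 + c) ∧
        (∀ g, wsum g (M ++ M') = wsum g L) ∧
        ∀ G : ℝ → V n, disp G (M ++ M') = disp G L ∧ pol G (M ++ M') = pol G L := by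
      rw [← hd] at h4
      rcases (dur_nonneg h1).lt_or_eq with q | q
      · have z1 := Int.le_ceil (t0 / dur L - s j)
        have z2 := Int.ceil_lt_add_one (t0 / dur L - s j)
        generalize ⌈t0 / dur L - s j⌉ = z at z1 z2
        have e : dur L * (t0 / dur L) = t0 := by field_simp
        obtain ⟨M, M', m1, m2, m3, m4, m5, m6, m7, m8, m9⟩ :=
          split n h1 (c := dur L * (s j + z) - t0) h4 (by nlinarith) (by nlinarith)
        have m := m3 ⟨0, 0, T⟩ (List.isChain_cons.2 ⟨fun y _ => Or.inl rfl, h2⟩)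
        exact ⟨z, _, M, M', m1, m2, m.1.tail, m.2, m4, m5.le, Or.inr (by ring), m6, m7, m8, m9⟩
      · exact ⟨0, _, L, [], h1, by simp, h2, by simp, rfl, by simp, Or.inl q.symm, h4, trivial,
          by simp, by simp⟩
    obtain ⟨z, c, M, M', m1, m2, m3, m3', m4, m5, mc, m6, m7, m8, m9⟩ := key
    have hc : c + dur M' = dur L := by
      rw [← m4, dur_eq, dur_eq, dur_eq, ← wsum_append, m8]
    have c0 : 0 ≤ c := m4 ▸ dur_nonneg m1
    have c1 := dur_nonneg m2
    refine ⟨T * (∑ i ∈ Finset.range (j + 1), lam i) * (s j + z) - c, M ++ ⟨lam j, 0, T⟩ :: M',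
      ?_, chain_insert _ m3 m3', ?_, ?_, ?_, ?_⟩
    · intro a ha
      rcases List.mem_append.1 ha with ha | ha
      · exact m1 a ha
      · rcases List.mem_cons.1 ha with rfl | ha
        · exact hn
        · exact m2 a ha
    · simp only [List.length_append, List.length_cons]
      omega
    · rw [spec_append, m4, sub_add_cancel]
      refine ⟨spec_transfer m1 m6 fun r r0 r1 => ?_, fun t t1 t2 => ?_,
        spec_transfer m2 m7 fun r r0 r1 => ?_⟩
      · rw [m4] at r1
        have hp : 0 < dur L := by linarith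
        have e := ph_old hT hl s j (z - 1) (r := dur L - c + r) (by linarith) (by linarith)
        have e' := ph_int T lam s j (s j + (dur L - c + r) / dur L) (z - 1)
        rw [← hd, ← e'] at e
        convert e using 2
        · congr 1
          rw [hd, Finset.sum_range_succ]
          push_cast
          ring
        · rw [show t0 = dur L * (s j + z) - c by linarith [mc.resolve_left hp.ne']]
          push_cast
          field_simp
          ring
      · have e := ph_new hT hl s j z (sub_pos.2 t1) (by rw [hnd] at t2; linarith)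
        rw [add_sub_cancel] at e
        simp only [e, zero_add]
      · have hp : 0 < dur L := by linarith
        have e := ph_old hT hl s j z r0 (by linarith)
        have e' := ph_int T lam s j (s j + r / dur L) z
        rw [← hd, ← e'] at e
        rw [hnd, add_assoc, e, mc.resolve_left hp.ne']
        congr 1
        field_simp
        ring
    · intro g
      have e := m8 g
      rw [wsum_append, h5] at e
      rw [wsum_append, wsum_cons, Finset.sum_range_succ]
      simp only
      linarith
    · intro G hG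
      rw [(insert_full hG _ M M').1, (insert_full hG _ M M').2, (m9 G).1, (m9 G).2]
      exact h6 G hG

end Arcs

theorem exists_arcs (n : ℕ) {T : ℝ} (hT : 0 < T) {lam : ℕ → ℝ} (hl : ∀ i, 0 ≤ lam i) (s : ℕ → ℝ)
    (k : ℕ) (hk : 0 < ∑ i ∈ Finset.range k, lam i) :
    ∃ (t0 : ℝ) (L : List Arc), Valid T L ∧ L.length ≤ 2 * k ∧
      Spec (fun t => ph T lam s k (t / (T * ∑ i ∈ Finset.range k, lam i))) L t0 ∧
      (∀ g : ℝ → ℝ, wsum g L = T * ∑ i ∈ Finset.range k, g (lam i)) ∧
      ∀ G : ℝ → V n, G T = G 0 → disp G L = 0 ∧ pol G L = 0 := by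
  have _ := hk
  obtain ⟨t0, L, h1, h2, h3⟩ := Arcs.main n hT hl s k
  exact ⟨t0, L, ⟨h1, h2⟩, h3⟩

end Pool.Agent.Lib.MP_f78106_gt
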