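import Pool.Agent.Lib.MP_f78106_gt.Fam

/-!
Integration by parts for primitives of integrable functions, and basic facts on `rin`, `om`.
-/

namespace Pool.Agent.Lib.MP_f78106_gt

open MeasureTheory Set Filter Topology

theorem integral_bilin_prim {E F G : Type} [NormedAddCommGroup E] [NormedSpace ℝ E]
    [CompleteSpace E] [NormedAddCommGroup F] [NormedSpace ℝ F] [CompleteSpace F]
    [NormedAddCommGroup G] [NormedSpace ℝ G] [CompleteSpace G]
    (B : E →L[ℝ] F →L[ℝ] G) {u : ℝ → E} {v : ℝ → F} {a b : ℝ} (hab : a ≤ b)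
    (hu : IntervalIntegrable u volume a b) (hv : IntervalIntegrable v volume a b) :
    (∫ t in a..b, B (∫ σ in a..t, u σ) (v t)) + (∫ t in a..b, B (u t) (∫ σ in a..t, v σ)) =
      B (∫ t in a..b, u t) (∫ t in a..b, v t) := by
  set μ : Measure ℝ := volume.restrict (Ioc a b) with hμ
  have hu' : Integrable u μ := hu.1
  have hv' : Integrable v μ := hv.1
  have hF : Integrable (fun p : ℝ × ℝ => B (u p.1) (v p.2)) (μ.prod μ) :=
    hu'.op_fst_snd (by fun_prop) ⟨‖B‖, fun x y => B.le_opNorm₂ x y⟩ hv'
  have hS : MeasurableSet {p : ℝ × ℝ | p.1 ≤ p.2} := measurableSet_le measurable_fst measurable_snd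
  have h1 : ∫ p, {p : ℝ × ℝ | p.1 ≤ p.2}.indicator (fun p : ℝ × ℝ => B (u p.1) (v p.2)) p
      ∂(μ.prod μ) = ∫ t in a..b, B (∫ σ in a..t, u σ) (v t) := by
    rw [integral_prod_symm _ (hF.indicator hS), intervalIntegral.integral_of_le hab]
    refine setIntegral_congr_fun measurableSet_Ioc fun t ht => ?_
    have e1 : (fun σ => {p : ℝ × ℝ | p.1 ≤ p.2}.indicator
        (fun p : ℝ × ℝ => B (u p.1) (v p.2)) (σ, t)) =
        (Iic t).indicator (fun σ => (B.flip (v t)) (u σ)) := by
      ext σ
      by_cases h : σ ≤ t <;> simp [indicator, h]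
    rw [e1, integral_indicator measurableSet_Iic, hμ, Measure.restrict_restrict measurableSet_Iic,
      intervalIntegral.integral_of_le ht.1.le]
    have e2 : Iic t ∩ Ioc a b = Ioc a t := by
      ext σ
      simp only [mem_inter_iff, mem_Iic, mem_Ioc]
      constructor
      · rintro ⟨h1, h2, _⟩; exact ⟨h2, h1⟩
      · rintro ⟨h1, h2⟩; exact ⟨h2, h1, h2.trans ht.2⟩
    rw [e2, (B.flip (v t)).integral_comp_comm (hu.1.mono_set (Ioc_subset_Ioc_right ht.2))]
    rfl
  have h2 : ∫ p, {p : ℝ × ℝ | p.1 ≤ p.2}ᶜ.indicator (fun p : ℝ × ℝ => B (u p.1) (v p.2)) p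
      ∂(μ.prod μ) = ∫ t in a..b, B (u t) (∫ σ in a..t, v σ) := by
    rw [integral_prod _ (hF.indicator hS.compl), intervalIntegral.integral_of_le hab]
    refine setIntegral_congr_fun measurableSet_Ioc fun t ht => ?_
    have e1 : (fun σ => {p : ℝ × ℝ | p.1 ≤ p.2}ᶜ.indicator
        (fun p : ℝ × ℝ => B (u p.1) (v p.2)) (t, σ)) =
        (Iio t).indicator (fun σ => (B (u t)) (v σ)) := by
      ext σ
      by_cases h : σ < t
      · simp [indicator, h, not_le.mpr h]
      · simp [indicator, h, not_lt.mp h]
    rw [e1, integral_indicator measurableSet_Iio, hμ, Measure.restrict_restrict measurableSet_Iio,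
      intervalIntegral.integral_of_le ht.1.le, integral_Ioc_eq_integral_Ioo]
    have e2 : Iio t ∩ Ioc a b = Ioo a t := by
      ext σ
      simp only [mem_inter_iff, mem_Iio, mem_Ioc, mem_Ioo]
      constructor
      · rintro ⟨h1, h2, _⟩; exact ⟨h2, h1⟩
      · rintro ⟨h1, h2⟩; exact ⟨h2, h1, h2.le.trans ht.2⟩
    rw [e2, (B (u t)).integral_comp_comm
      (hv.1.mono_set (Ioo_subset_Ioc_self.trans (Ioc_subset_Ioc_right ht.2)))]
  rw [← h1, ← h2, ← integral_add (hF.indicator hS) (hF.indicator hS.compl)]
  simp only [Set.indicator_self_add_compl_apply]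
  rw [integral_prod _ hF, intervalIntegral.integral_of_le hab, intervalIntegral.integral_of_le hab]
  have e3 : ∀ x, ∫ y, B (u x) (v y) ∂μ = (B.flip (∫ y, v y ∂μ)) (u x) := fun x =>
    (B (u x)).integral_comp_comm hv'
  simp only [e3]
  exact (B.flip (∫ y, v y ∂μ)).integral_comp_comm hu'

variable {n : ℕ}

theorem rin_add_left (x y z : V n) : rin (x + y) z = rin x z + rin y z := by
  simp [rin]

theorem rin_add_right (x y z : V n) : rin x (y + z) = rin x y + rin x z := by
  simp [rin]

theorem rin_smul_left (c : ℝ) (x y : V n) : rin (c • x) y = c * rin x y := by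
  rw [rin, rin, ← Complex.coe_smul, inner_smul_left]; simp

theorem rin_smul_right (c : ℝ) (x y : V n) : rin x (c • y) = c * rin x y := by
  rw [rin, rin, ← Complex.coe_smul, inner_smul_right]; simp

theorem rin_comm (x y : V n) : rin x y = rin y x := by
  rw [rin, rin, ← inner_conj_symm x y, Complex.conj_re]

theorem abs_rin_le (x y : V n) : |rin x y| ≤ ‖x‖ * ‖y‖ :=
  (Complex.abs_re_le_norm _).trans (norm_inner_le_norm x y)

theorem rin_self (x : V n) : rin x x = ‖x‖ ^ 2 := by
  have := inner_self_eq_norm_sq (𝕜 := ℂ) x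
  simpa [rin] using this

/-- `rin` as a continuous bilinear map. -/
noncomputable def rinL (n : ℕ) : V n →L[ℝ] V n →L[ℝ] ℝ :=
  LinearMap.mkContinuous₂
    (LinearMap.mk₂ ℝ rin rin_add_left rin_smul_left rin_add_right rin_smul_right) 1
    (fun x y => by simpa using abs_rin_le x y)

@[simp] theorem rinL_apply (x y : V n) : rinL n x y = rin x y := rfl

theorem rin_neg_left (x y : V n) : rin (-x) y = -rin x y := by simp [rin]

theorem rin_neg_right (x y : V n) : rin x (-y) = -rin x y := by simp [rin]

theorem rin_sub_left (x y z : V n) : rin (x - y) z = rin x z - rin y z := by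
  simp [rin]

theorem rin_sub_right (x y z : V n) : rin x (y - z) = rin x y - rin x z := by
  simp [rin]

theorem rin_zero_left (y : V n) : rin 0 y = 0 := by simp [rin]

theorem rin_zero_right (y : V n) : rin y 0 = 0 := by simp [rin]

theorem continuous_rin : Continuous fun p : V n × V n => rin p.1 p.2 := (rinL n).continuous₂

theorem om_add_left (x y z : V n) : om (x + y) z = om x z + om y z := rin_add_left _ _ _

theorem om_add_right (x y z : V n) : om x (y + z) = om x y + om x z := by
  rw [om, smul_add, rin_add_right]; rfl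

theorem om_smul_left (c : ℝ) (x y : V n) : om (c • x) y = c * om x y := rin_smul_left _ _ _

theorem om_smul_right (c : ℝ) (x y : V n) : om x (c • y) = c * om x y := by
  rw [om, smul_comm, rin_smul_right]; rfl

theorem norm_negI_smul (y : V n) : ‖(-Complex.I) • y‖ = ‖y‖ := by simp [norm_smul]

theorem abs_om_le (x y : V n) : |om x y| ≤ ‖x‖ * ‖y‖ := by
  simpa [om, norm_smul] using abs_rin_le x ((-Complex.I) • y)

theorem om_anti (x y : V n) : om x y = -om y x := by
  simp only [om, rin, inner_smul_right]
  rw [← inner_conj_symm x y]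
  generalize inner ℂ y x = w
  simp

theorem om_self (x : V n) : om x x = 0 := by
  have := om_anti x x
  linarith

/-- `om` as a continuous bilinear map. -/
noncomputable def omL (n : ℕ) : V n →L[ℝ] V n →L[ℝ] ℝ :=
  LinearMap.mkContinuous₂
    (LinearMap.mk₂ ℝ om om_add_left om_smul_left om_add_right om_smul_right) 1
    (fun x y => by simpa using abs_om_le x y)

@[simp] theorem omL_apply (x y : V n) : omL n x y = om x y := rfl

theorem om_sub_left (x y z : V n) : om (x - y) z = om x z - om y z := rin_sub_left _ _ _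

theorem om_sub_right (x y z : V n) : om x (y - z) = om x y - om x z := by
  rw [om, smul_sub, rin_sub_right]; rfl

theorem om_zero_left (y : V n) : om 0 y = 0 := rin_zero_left _

theorem om_zero_right (y : V n) : om y 0 = 0 := by rw [om, smul_zero, rin_zero_right]

theorem continuous_om : Continuous fun p : V n × V n => om p.1 p.2 := (omL n).continuous₂

/-- Symmetry of the area form on closed paths. -/
theorem integral_om_prim_symm {u v : ℝ → V n} {a b : ℝ} (hab : a ≤ b)
    (hu : IntervalIntegrable u volume a b) (hv : IntervalIntegrable v volume a b)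
    (h0 : ∫ t in a..b, u t = 0) :
    ∫ t in a..b, om (∫ σ in a..t, u σ) (v t) = ∫ t in a..b, om (∫ σ in a..t, v σ) (u t) := by
  have h := integral_bilin_prim (omL n) hab hu hv
  simp only [omL_apply, h0, om_zero_left] at h
  have e : ∫ t in a..b, om (u t) (∫ σ in a..t, v σ) =
      -∫ t in a..b, om (∫ σ in a..t, v σ) (u t) := by
    rw [← intervalIntegral.integral_neg]
    exact intervalIntegral.integral_congr fun t _ => om_anti _ _
  linarith

end Pool.Agent.Lib.MP_f78106_gt
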