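import Pool.Agent.Lib.MP_f78106_gt.ClarkeB

/-!
Clarke duality, last file: the Euler-Lagrange equation, regularity of the minimiser and the closed
characteristic of least action.
-/

namespace Pool.Agent.Lib.MP_f78106_gt

open MeasureTheory Set Filter Topology

namespace Clarke

variable {W : Type} [NormedAddCommGroup W] [InnerProductSpace ℝ W]
variable {J : W →L[ℝ] W} {Hs : W → ℝ} {Z : W → W} {a C K : ℝ}

theorem DD.BB_symm [CompleteSpace W] (h : DD J Hs Z a C K) {f g : ℝ → W} (hf : MemLp f 2 mu)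
    (hg : MemLp g 2 mu) (h0 : PP f 1 = 0) : BB J g f = BB J f g := by
  let B : W →L[ℝ] W →L[ℝ] ℝ := LinearMap.mkContinuous₂
    (LinearMap.mk₂ ℝ (fun x y => inner ℝ x (J y)) (fun x y z => inner_add_left _ _ _)
      (fun c x y => real_inner_smul_left _ _ _)
      (fun x y z => by rw [map_add, inner_add_right])
      (fun c x y => by rw [map_smul, real_inner_smul_right, smul_eq_mul])) 1
    (fun x y => by
      have := norm_inner_le_norm (𝕜 := ℝ) x (J y)
      rw [h.norm_J] at this
      simpa using this)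
  have hB : ∀ x y, B x y = inner ℝ x (J y) := fun _ _ => rfl
  have h1 := integral_bilin_prim B zero_le_one (ii hg (s := 0) (t := 1) (by simp) (by simp))
    (ii hf (s := 0) (t := 1) (by simp) (by simp))
  have h2 : (∫ t in (0 : ℝ)..1, f t) = 0 := h0
  have h3 : ∀ t, B (g t) (∫ σ in (0 : ℝ)..t, f σ) = -inner ℝ (PP f t) (J (g t)) := fun t => by
    rw [hB, h.skew, real_inner_comm]
    rfl
  simp_rw [h3] at h1
  rw [h2, map_zero, intervalIntegral.integral_neg, intervalIntegral.integral_of_le zero_le_one,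
    intervalIntegral.integral_of_le zero_le_one] at h1
  exact add_neg_eq_zero.1 h1

theorem DD.euler_lagrange [CompleteSpace W] (h : DD J Hs Z a C K) {c : ℝ} (hc : 0 < c)
    (hmin : ∀ g, Adm J g → c ≤ EE J Hs g) {u : ℝ → W} (hu : Adm J u) (hE : EE J Hs u = c)
    {v : ℝ → W} (hv : MemLp v 2 mu) (h0 : PP v 1 = 0) : LL J Z u v = c * BB J u v := by
  have h1 := discrim_le_zero (a := 2 * C * NN v - c * BB J v v)
    (b := 2 * (LL J Z u v - c * BB J u v)) (c := 0) (fun s => by
      have hs : MemLp (s • v) 2 mu := hv.const_smul s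
      have k := h.key hc hmin (hu.1.add hs)
        (by rw [PP_add hu.1 hs (by simp), PP_smul, hu.2.1, h0, smul_zero, add_zero])
      have q := h.EE_quad hu.1 hs
      rw [BB_expand J hu.1 hv, hu.2.2, h.BB_symm hu.1 hv hu.2.1] at k
      rw [LL_smul, NN_smul, hE] at q
      nlinarith)
  rw [discrim, mul_zero, sub_zero] at h1
  have h2 := pow_eq_zero_iff (two_ne_zero) |>.1 (le_antisymm h1 (sq_nonneg _))
  linarith

theorem DD.euler_ae [CompleteSpace W] (h : DD J Hs Z a C K) {c : ℝ} (hc : 0 < c)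
    (hmin : ∀ g, Adm J g → c ≤ EE J Hs g) {u : ℝ → W} (hu : Adm J u) (hE : EE J Hs u = c) :
    ∃ m : W, ∀ᵐ t ∂mu, Z (J (u t)) = c • PP u t + m := by
  set g : ℝ → W := fun t => Z (J (u t)) - c • PP u t with hg
  have Lg : MemLp g 2 mu := (h.Z_L2 (J_L2 J hu.1)).sub ((PP_L2 hu.1).const_smul c)
  set m : W := ∫ t, g t ∂mu with hm
  set k : ℝ → W := fun t => g t - m with hk
  have Lk : MemLp k 2 mu := Lg.sub (memLp_const m)
  have k0 : ∫ t, k t ∂mu = 0 := by
    rw [hk, integral_sub (Lg.integrable one_le_two) (integrable_const m)]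
    simp [hm]
  have Lv : MemLp (fun t => J (-k t)) 2 mu := J_L2 J Lk.neg
  have v0 : PP (fun t => J (-k t)) 1 = 0 := by
    rw [PP_one, J.integral_comp_comm (φ := fun t => -k t) (Lk.neg.integrable one_le_two),
      integral_neg, k0, neg_zero, map_zero]
  have h1 := h.euler_lagrange hc hmin hu hE Lv v0
  unfold LL BB at h1
  simp only [h.JJ, neg_neg] at h1
  have i1 := int_inner (h.Z_L2 (J_L2 J hu.1)) Lk
  have i2 := (int_inner (PP_L2 hu.1) Lk).const_mul c
  have i3 : Integrable (fun t => inner ℝ m (k t)) mu := int_inner (memLp_const m) Lk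
  have i4 : Integrable
      (fun t => inner ℝ (Z (J (u t))) (k t) - c * inner ℝ (PP u t) (k t)) mu := i1.sub i2
  have h2 : NN k = 0 := by
    have e : ∀ t, ‖k t‖ ^ 2 =
        inner ℝ (Z (J (u t))) (k t) - c * inner ℝ (PP u t) (k t) - inner ℝ m (k t) := fun t => by
      rw [← real_inner_smul_left, ← inner_sub_left, ← inner_sub_left, ← real_inner_self_eq_norm_sq]
    unfold NN
    simp_rw [e]
    rw [integral_sub i4 i3, integral_sub i1 i2, integral_const_mul, h1,
      integral_inner (Lk.integrable one_le_two), k0, inner_zero_right]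
    ring
  have h3 := (integral_eq_zero_iff_of_nonneg (fun t => sq_nonneg ‖k t‖) (int_sq Lk)).1 h2
  refine ⟨m, h3.mono fun t ht => ?_⟩
  have h4 : k t = 0 := norm_eq_zero.1 (pow_eq_zero_iff two_ne_zero |>.1 ht)
  have h5 : Z (J (u t)) - c • PP u t - m = 0 := h4
  rw [sub_sub, sub_eq_zero] at h5
  exact h5

theorem DD.const_H (h : DD J Hs Z a C K) {c : ℝ} {Y w : ℝ → W}
    (hY : ∀ t, HasDerivAt Y (c • w t) t) (hZ : ∀ t, Z (J (w t)) = Y t) (s t : ℝ) :
    Hs (J (w s)) = Hs (J (w t)) := by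
  have y : ∀ p q, inner ℝ (Z p) q ≤ Hs p + Hs q := fun p q => by
    have h1 := h.sub p (q - p)
    rw [add_sub_cancel, inner_sub_right, h.euler] at h1
    linarith
  have hd : ∀ s, HasDerivAt (fun t => Hs (J (w t))) 0 s := fun s => by
    have h0 := (hY s).sub_const (Y s)
    have h1 : HasDerivAt (fun t => inner ℝ (Y t - Y s) (J (w s))) 0 s := by
      have := h0.inner ℝ (hasDerivAt_const s (J (w s)))
      simpa [real_inner_smul_left, h.inner_J_self] using this
    have h2 : HasDerivAt (fun t => K * ‖Y t - Y s‖ ^ 2) 0 s := by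
      have := h0.norm_sq.const_mul K
      simpa using this
    rw [hasDerivAt_iff_isLittleO] at h1 h2 ⊢
    refine (Asymptotics.IsBigO.of_norm_le fun t => ?_).trans_isLittleO
      (h1.norm_left.add h2.norm_left)
    simp only [smul_zero, sub_zero, sub_self, inner_zero_left, norm_zero, Real.norm_eq_abs,
      ne_eq, OfNat.ofNat_ne_zero, not_false_eq_true, zero_pow, mul_zero]
    have a1 := y (J (w s)) (J (w t))
    have a2 := y (J (w t)) (J (w s))
    have a3 := h.euler (J (w s))
    have a4 := h.euler (J (w t))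
    have a5 := h.expand (J (w t)) (J (w s))
    rw [hZ] at a1 a2 a3 a4
    rw [hZ, hZ] at a5
    have a6 := real_inner_le_norm (Y t - Y s) (J (w t) - J (w s))
    have a7 := mul_le_mul_of_nonneg_left a5 (norm_nonneg (Y t - Y s))
    rw [inner_sub_right, inner_sub_left] at a6
    have a8 := inner_sub_left (𝕜 := ℝ) (Y t) (Y s) (J (w s))
    have a9 := le_abs_self (inner ℝ (Y t - Y s) (J (w s)))
    have a10 := neg_abs_le (inner ℝ (Y t - Y s) (J (w s)))
    have a11 := le_abs_self (K * ‖Y t - Y s‖ ^ 2)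
    have a12 := abs_nonneg (K * ‖Y t - Y s‖ ^ 2)
    rw [abs_le]
    constructor <;> nlinarith
  exact is_const_of_deriv_eq_zero (fun s => (hd s).differentiableAt) (fun s => (hd s).deriv) s t

theorem DD.regular [FiniteDimensional ℝ W] (h : DD J Hs Z a C K) {c : ℝ} {u : ℝ → W} {m : W}
    (hu : MemLp u 2 mu) (h0 : PP u 1 = 0) (hZ : ∀ᵐ t ∂mu, Z (J (u t)) = c • PP u t + m) :
    ∃ Y w : ℝ → W, Continuous w ∧ (∀ t, HasDerivAt Y (c • w t) t) ∧ Y 1 = Y 0 ∧
      (∀ t, Z (J (w t)) = Y t) ∧ u =ᵐ[mu] w := by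
  choose Zi hZi using h.Z_surj
  have cZi : Continuous Zi := (LipschitzWith.of_dist_le' (K := K) fun x y => by
    have := h.expand (Zi x) (Zi y)
    rwa [hZi, hZi, ← dist_eq_norm, ← dist_eq_norm] at this).continuous
  set y : ℝ → W := fun t => c • PP u t + m with hy
  have cy : ContinuousOn y (Icc 0 1) := ((PP_cont hu).const_smul c).add continuousOn_const
  have y01 : y 0 = y 1 := by simp only [hy, h0, PP_zero]
  have cf : Continuous (y ∘ Int.fract) := cy.comp_fract'' y01
  set w : ℝ → W := fun t => J (-Zi (y (Int.fract t))) with hw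
  have cw : Continuous w := J.continuous.comp (cZi.comp cf).neg
  have Jw : ∀ t, Z (J (w t)) = y (Int.fract t) := fun t => by
    simp only [hw, h.JJ, neg_neg, hZi]
  have uw : u =ᵐ[mu] w := by
    filter_upwards [hZ, ae_restrict_mem measurableSet_Ioc] with t h1 h2
    have h3 : y (Int.fract t) = y t := by
      rcases h2.2.eq_or_lt with h4 | h4
      · rw [h4, Int.fract_one, y01]
      · rw [Int.fract_eq_self.2 ⟨h2.1.le, h4⟩]
    have h4 : J (u t) = J (w t) := h.Z_inj (by rw [Jw, h3, h1])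
    have h5 := congrArg J h4
    rw [h.JJ, h.JJ] at h5
    exact neg_injective h5
  have Pw : ∀ t ∈ Icc (0 : ℝ) 1, PP w t = PP u t := fun t ht => by
    refine intervalIntegral.integral_congr_ae ?_
    filter_upwards [(ae_restrict_iff' measurableSet_Ioc).1 uw] with s hs hst
    rw [uIoc_of_le ht.1] at hst
    exact (hs ⟨hst.1, hst.2.trans ht.2⟩).symm
  have wper : Function.Periodic w 1 := fun t => by simp only [hw, Int.fract_add_one]
  have Pper : Function.Periodic (PP w) 1 := fun t => by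
    have h1 := wper.intervalIntegral_add_eq t 0
    have h2 := intervalIntegral.integral_add_adjacent_intervals (μ := volume)
      (cw.intervalIntegrable 0 t) (cw.intervalIntegrable t (t + 1))
    have h3 : (∫ x in (0 : ℝ)..1, w x) = 0 := (Pw 1 (by simp)).trans h0
    rw [zero_add, h3] at h1
    rw [h1, add_zero] at h2
    exact h2.symm
  refine ⟨fun t => c • PP w t + m, w, cw, fun t => ?_, ?_, fun t => ?_, uw⟩
  · exact ((cw.integral_hasStrictDerivAt 0 t).hasDerivAt.const_smul c).add_const m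
  · simp only [Pw 1 (by simp), h0, PP_zero]
  · have h1 := (Pper.int_mul ⌊t⌋).sub_eq t
    rw [mul_one] at h1
    rw [Jw, hy]
    simp only
    rw [← Pw _ ⟨Int.fract_nonneg t, (Int.fract_lt_one t).le⟩, ← h1]
    rfl

theorem DD.exists_char [FiniteDimensional ℝ W] (h : DD J Hs Z a C K) {e : W} (he : e ≠ 0) :
    ∃ (T : ℝ) (γ γ' : ℝ → W), 0 < T ∧ (∀ t, HasDerivAt γ (γ' t) t) ∧ Continuous γ' ∧
      γ T = γ 0 ∧ (∀ t, Z (J (γ' t)) = γ t) ∧ (∀ t, Hs (J (γ' t)) = 1) ∧
      ∀ g, Adm J g → T ≤ EE J Hs g := by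
  obtain ⟨c, u, hc, hu, hE, hmin⟩ := h.exists_min he
  obtain ⟨m, hm⟩ := h.euler_ae hc hmin hu hE
  obtain ⟨Y, w, cw, hY, Y1, hZ, uw⟩ := h.regular hu.1 hu.2.1 hm
  have hH : ∀ t, Hs (J (w t)) = c := fun t => by
    have h1 : EE J Hs u = ∫ _, Hs (J (w t)) ∂mu :=
      integral_congr_ae (uw.mono fun s hs => by
        simp only [hs]
        exact h.const_H hY hZ s t)
    rw [hE] at h1
    simpa using h1.symm
  have hk : 0 ≤ √(1 / c) := Real.sqrt_nonneg _
  refine ⟨c, fun t => √(1 / c) • Y (t / c), fun t => √(1 / c) • w (t / c), hc, fun t => ?_,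
    by fun_prop, by simp only [div_self hc.ne', zero_div, Y1], fun t => ?_, fun t => ?_, hmin⟩
  · have h1 := ((hY (t / c)).scomp t ((hasDerivAt_id' t).div_const c)).const_smul √(1 / c)
    rw [smul_smul (1 / c) c, one_div_mul_cancel hc.ne', one_smul] at h1
    exact h1
  · rw [map_smul, h.homZ _ hk, hZ]
  · rw [map_smul, h.homH _ hk, hH, Real.sq_sqrt (by positivity), one_div_mul_cancel hc.ne']

theorem rin_eq {n : ℕ} (x y : V n) : rin x y = inner ℝ x y := by
  simp only [rin, PiLp.inner_apply, Complex.re_sum]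
  rfl

/-- Multiplication by `-i` as a real linear map. -/
noncomputable def JV (n : ℕ) : V n →L[ℝ] V n := (-Complex.I) • ContinuousLinearMap.id ℝ (V n)

theorem JV_apply {n : ℕ} (x : V n) : JV n x = (-Complex.I) • x := rfl

theorem dd_of {n : ℕ} {Hs : V n → ℝ} {Z : V n → V n} {a C K : ℝ} (h : DualData Hs Z a C K) :
    DD (JV n) Hs Z a (max C 1) (max K 1) where
  skew x y := by
    rw [← rin_eq, ← rin_eq, rin_comm (JV n x) y]
    exact om_anti x y
  JJ x := by simp [JV_apply, smul_smul]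
  contH := h.contH
  contZ := h.contZ
  apos := h.apos
  Cpos := lt_max_of_lt_right one_pos
  Kpos := lt_max_of_lt_right one_pos
  lower := h.lower
  homH := h.homH
  homZ := h.homZ
  euler u := by rw [← rin_eq, h.euler]
  sub u w := by
    rw [← rin_eq]
    exact h.sub u w
  quad u w := by
    rw [← rin_eq]
    refine (h.quad u w).trans ?_
    gcongr
    exact le_max_left _ _
  expand u w := by
    refine (h.expand u w).trans ?_
    gcongr
    exact le_max_left _ _

end Clarke

theorem exists_characteristic {n : ℕ} (hn : 0 < n) {Hs : V n → ℝ} {Z : V n → V n} {a C K : ℝ}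
    (h : DualData Hs Z a C K) :
    ∃ (T : ℝ) (γ γ' : ℝ → V n), 0 < T ∧ (∀ t, HasDerivAt γ (γ' t) t) ∧ Continuous γ' ∧
      γ T = γ 0 ∧ (∀ t, Z ((-Complex.I) • γ' t) = γ t) ∧ (∀ t, Hs ((-Complex.I) • γ' t) = 1) ∧
      ∀ u : Loop n, prim u 1 = 0 → action u = 1 →
        T ≤ ∫ t in (0 : ℝ)..1, Hs ((-Complex.I) • u (t : UnitAddCircle)) := by
  have : Nonempty (Fin n) := ⟨⟨0, hn⟩⟩
  obtain ⟨e, he⟩ := exists_ne (0 : V n)
  obtain ⟨T, γ, γ', hT, h1, h2, h3, h4, h5, h6⟩ := (Clarke.dd_of h).exists_char he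
  refine ⟨T, γ, γ', hT, h1, h2, h3, h4, h5, fun u hu hA => ?_⟩
  have hm := (Lp.memLp u).comp_measurePreserving (UnitAddCircle.measurePreserving_mk 0)
  rw [zero_add] at hm
  rw [intervalIntegral.integral_of_le zero_le_one]
  refine h6 (fun s : ℝ => u (s : UnitAddCircle)) ⟨hm, hu, ?_⟩
  rw [action, intervalIntegral.integral_of_le zero_le_one] at hA
  simp_rw [Clarke.rin_eq] at hA
  have e' : Clarke.BB (Clarke.JV n) (fun s : ℝ => u (s : UnitAddCircle))
      (fun s : ℝ => u (s : UnitAddCircle)) =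
      ∫ t in Ioc (0 : ℝ) 1, inner ℝ (prim u t) ((-Complex.I) • u (t : UnitAddCircle)) := rfl
  rw [e']
  linarith

end Pool.Agent.Lib.MP_f78106_gt
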