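import Pool.Agent.Lib.MP_f78106_gt.Bilin

/-!
Clarke duality, first file: pointwise convexity facts and a small toolkit for square integrable
functions on the unit interval.
-/

namespace Pool.Agent.Lib.MP_f78106_gt.Clarke

open MeasureTheory Set Filter Topology

variable {W : Type} [NormedAddCommGroup W] [InnerProductSpace ℝ W]

/-- Abstract dual data on a real inner product space with a complex structure `J`. -/
structure DD (J : W →L[ℝ] W) (Hs : W → ℝ) (Z : W → W) (a C K : ℝ) : Prop where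
  skew : ∀ x y, inner ℝ x (J y) = -inner ℝ (J x) y
  JJ : ∀ x, J (J x) = -x
  contH : Continuous Hs
  contZ : Continuous Z
  apos : 0 < a
  Cpos : 0 < C
  Kpos : 0 < K
  lower : ∀ u, a * ‖u‖ ^ 2 ≤ Hs u
  homH : ∀ t : ℝ, 0 ≤ t → ∀ u, Hs (t • u) = t ^ 2 * Hs u
  homZ : ∀ t : ℝ, 0 ≤ t → ∀ u, Z (t • u) = t • Z u
  euler : ∀ u, inner ℝ (Z u) u = 2 * Hs u
  sub : ∀ u w, Hs u + inner ℝ (Z u) w ≤ Hs (u + w)
  quad : ∀ u w, Hs (u + w) ≤ Hs u + inner ℝ (Z u) w + C * ‖w‖ ^ 2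
  expand : ∀ u w, ‖u - w‖ ≤ K * ‖Z u - Z w‖

variable {J : W →L[ℝ] W} {Hs : W → ℝ} {Z : W → W} {a C K : ℝ}

theorem DD.norm_J (h : DD J Hs Z a C K) (x : W) : ‖J x‖ = ‖x‖ := by
  have h1 := h.skew (J x) x
  rw [h.JJ, inner_neg_left, neg_neg, real_inner_self_eq_norm_sq, real_inner_self_eq_norm_sq] at h1
  exact (pow_left_inj₀ (norm_nonneg _) (norm_nonneg _) two_ne_zero).1 h1

theorem DD.inner_J_self (h : DD J Hs Z a C K) (x : W) : inner ℝ x (J x) = 0 := by
  have h1 := h.skew x x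
  rw [real_inner_comm x (J x)] at h1
  linarith

theorem DD.H_zero (h : DD J Hs Z a C K) : Hs 0 = 0 := by
  have := h.homH 0 le_rfl 0
  simpa using this

theorem DD.Z_zero (h : DD J Hs Z a C K) : Z 0 = 0 := by
  have := h.homZ 0 le_rfl 0
  simpa using this

theorem DD.H_nonneg (h : DD J Hs Z a C K) (u : W) : 0 ≤ Hs u :=
  le_trans (mul_nonneg h.apos.le (sq_nonneg _)) (h.lower u)

theorem DD.H_le (h : DD J Hs Z a C K) (u : W) : Hs u ≤ C * ‖u‖ ^ 2 := by
  have := h.quad 0 u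
  simpa [h.H_zero, h.Z_zero] using this

theorem DD.coco (h : DD J Hs Z a C K) (u w : W) :
    Hs u + inner ℝ (Z u) (w - u) + ‖Z w - Z u‖ ^ 2 / (4 * C) ≤ Hs w := by
  have hC := h.Cpos
  set p := Z w - Z u with hp
  have h1 := h.sub u (w - u + (-(1 / (2 * C))) • p)
  have h2 := h.quad w ((-(1 / (2 * C))) • p)
  have e : u + (w - u + (-(1 / (2 * C))) • p) = w + (-(1 / (2 * C))) • p := by abel
  rw [e, inner_add_right, real_inner_smul_right] at h1
  rw [real_inner_smul_right, norm_smul, mul_pow, Real.norm_eq_abs, sq_abs] at h2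
  have h3 : inner ℝ (Z w) p - inner ℝ (Z u) p = ‖p‖ ^ 2 := by
    rw [← inner_sub_left, real_inner_self_eq_norm_sq]
  have h4 : C * ((-(1 / (2 * C))) ^ 2 * ‖p‖ ^ 2) = ‖p‖ ^ 2 / (4 * C) := by
    field_simp
    ring
  have h5 : -(1 / (2 * C)) * inner ℝ (Z w) p - -(1 / (2 * C)) * inner ℝ (Z u) p =
      -(2 * (‖p‖ ^ 2 / (4 * C))) := by
    rw [← mul_sub, h3]
    field_simp
    ring
  linarith

theorem DD.strong (h : DD J Hs Z a C K) (u w : W) :
    Hs u + inner ℝ (Z u) w + (1 / (4 * C * K ^ 2)) * ‖w‖ ^ 2 ≤ Hs (u + w) := by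
  have hC := h.Cpos
  have hK := h.Kpos
  have h1 := h.coco u (u + w)
  have h2 := h.expand (u + w) u
  rw [add_sub_cancel_left] at h1 h2
  have h3 : ‖w‖ ^ 2 ≤ (K * ‖Z (u + w) - Z u‖) ^ 2 := pow_le_pow_left₀ (norm_nonneg _) h2 2
  have h4 : (1 / (4 * C * K ^ 2)) * ‖w‖ ^ 2 ≤ ‖Z (u + w) - Z u‖ ^ 2 / (4 * C) := by
    calc (1 / (4 * C * K ^ 2)) * ‖w‖ ^ 2
        ≤ (1 / (4 * C * K ^ 2)) * (K * ‖Z (u + w) - Z u‖) ^ 2 := by gcongr
      _ = ‖Z (u + w) - Z u‖ ^ 2 / (4 * C) := by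
        field_simp
  linarith

theorem DD.Z_le (h : DD J Hs Z a C K) (u : W) : ‖Z u‖ ≤ 2 * C * ‖u‖ := by
  have hC := h.Cpos
  have h1 := h.coco 0 u
  have h2 := h.H_le u
  rw [h.H_zero, h.Z_zero, inner_zero_left, sub_zero, zero_add, zero_add] at h1
  have h3 : ‖Z u‖ ^ 2 ≤ (2 * C * ‖u‖) ^ 2 := by
    have := (div_le_iff₀ (by positivity : (0 : ℝ) < 4 * C)).1 (h1.trans h2)
    nlinarith
  exact (pow_le_pow_iff_left₀ (norm_nonneg _) (by positivity) two_ne_zero).1 h3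

theorem DD.Z_inj (h : DD J Hs Z a C K) {u w : W} (e : Z u = Z w) : u = w := by
  have := h.expand u w
  rw [e, sub_self, norm_zero, mul_zero] at this
  exact sub_eq_zero.1 (norm_le_zero_iff.1 this)

theorem DD.Z_surj [FiniteDimensional ℝ W] (h : DD J Hs Z a C K) (y : W) : ∃ x, Z x = y := by
  have hC := h.Cpos
  have ha := h.apos
  have hc : Continuous fun x => Hs x - inner ℝ y x :=
    h.contH.sub (continuous_const.inner continuous_id)
  obtain ⟨x, hx⟩ := hc.exists_forall_le_of_isBounded 0 (by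
    refine (Metric.isBounded_closedBall (x := (0 : W)) (r := ‖y‖ / a)).subset fun x hx => ?_
    have h0 : Hs x - inner ℝ y x ≤ Hs 0 - inner ℝ y (0 : W) := hx
    rw [h.H_zero, inner_zero_right] at h0
    have h1 := h.lower x
    have h2 := real_inner_le_norm y x
    rw [mem_closedBall_zero_iff, le_div_iff₀ ha]
    rcases (norm_nonneg x).eq_or_lt with h3 | h3
    · rw [← h3, zero_mul]
      exact norm_nonneg _
    · nlinarith)
  refine ⟨x, ?_⟩
  set p := Z x - y with hp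
  have h1 := hx (x + (-(1 / (2 * C))) • p)
  have h2 := h.quad x ((-(1 / (2 * C))) • p)
  rw [inner_add_right, real_inner_smul_right] at h1
  rw [real_inner_smul_right, norm_smul, mul_pow, Real.norm_eq_abs, sq_abs] at h2
  have h3 : inner ℝ (Z x) p - inner ℝ y p = ‖p‖ ^ 2 := by
    rw [← inner_sub_left, real_inner_self_eq_norm_sq]
  have h4 : C * ((-(1 / (2 * C))) ^ 2 * ‖p‖ ^ 2) = ‖p‖ ^ 2 / (4 * C) := by
    field_simp
    ring
  have h5 : -(1 / (2 * C)) * inner ℝ (Z x) p - -(1 / (2 * C)) * inner ℝ y p =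
      -(2 * (‖p‖ ^ 2 / (4 * C))) := by
    rw [← mul_sub, h3]
    field_simp
    ring
  have h6 : ‖p‖ ^ 2 / (4 * C) ≤ 0 := by linarith
  have h7 : ‖p‖ ^ 2 ≤ 0 := by
    have := (div_le_iff₀ (by positivity : (0 : ℝ) < 4 * C)).1 h6
    linarith
  have h8 : ‖p‖ = 0 := by nlinarith [norm_nonneg p]
  exact sub_eq_zero.1 (norm_eq_zero.1 h8)

/-- Lebesgue measure on the unit interval. -/
noncomputable abbrev mu : Measure ℝ := volume.restrict (Ioc (0 : ℝ) 1)

instance : IsProbabilityMeasure mu := ⟨by simp⟩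

/-- Primitive starting at the origin. -/
noncomputable def PP (f : ℝ → W) (t : ℝ) : W := ∫ s in (0 : ℝ)..t, f s

/-- Square of the `L²` norm. -/
noncomputable def NN (f : ℝ → W) : ℝ := ∫ t, ‖f t‖ ^ 2 ∂mu

/-- The bilinear form of the action. -/
noncomputable def BB (J : W →L[ℝ] W) (f g : ℝ → W) : ℝ := ∫ t, inner ℝ (PP f t) (J (g t)) ∂mu

/-- The dual functional. -/
noncomputable def EE (J : W →L[ℝ] W) (Hs : W → ℝ) (f : ℝ → W) : ℝ := ∫ t, Hs (J (f t)) ∂mu

omit [InnerProductSpace ℝ W] in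
theorem NN_nonneg (f : ℝ → W) : 0 ≤ NN f := integral_nonneg fun _ => sq_nonneg _

omit [InnerProductSpace ℝ W] in
theorem int_sq {m : Measure ℝ} {f : ℝ → W} (hf : MemLp f 2 m) :
    Integrable (fun t => ‖f t‖ ^ 2) m :=
  (memLp_two_iff_integrable_sq_norm hf.1).1 hf

theorem int_inner {m : Measure ℝ} {f g : ℝ → W} (hf : MemLp f 2 m) (hg : MemLp g 2 m) :
    Integrable (fun t => inner ℝ (f t) (g t)) m := by
  have h1 : Integrable ((fun t => ‖f t‖) * fun t => ‖g t‖) m := hf.norm.integrable_mul hg.norm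
  refine h1.mono' (hf.1.inner hg.1) (Eventually.of_forall fun t => ?_)
  exact norm_inner_le_norm (f t) (g t)

theorem cs {m : Measure ℝ} {f g : ℝ → W} (hf : MemLp f 2 m) (hg : MemLp g 2 m) :
    (∫ t, inner ℝ (f t) (g t) ∂m) ^ 2 ≤ (∫ t, ‖f t‖ ^ 2 ∂m) * ∫ t, ‖g t‖ ^ 2 ∂m := by
  have h := discrim_le_zero (a := ∫ t, ‖f t‖ ^ 2 ∂m) (b := 2 * ∫ t, inner ℝ (f t) (g t) ∂m)
    (c := ∫ t, ‖g t‖ ^ 2 ∂m) (fun x => by
      have e : ∀ t, ‖x • f t + g t‖ ^ 2 =
          ‖f t‖ ^ 2 * (x * x) + 2 * inner ℝ (f t) (g t) * x + ‖g t‖ ^ 2 := fun t => by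
        rw [norm_add_sq_real, norm_smul, real_inner_smul_left, mul_pow, Real.norm_eq_abs, sq_abs]
        ring
      have h0 : 0 ≤ ∫ t, ‖x • f t + g t‖ ^ 2 ∂m := integral_nonneg fun _ => sq_nonneg _
      simp_rw [e] at h0
      rw [integral_add, integral_add, integral_mul_const, integral_mul_const,
        integral_const_mul] at h0
      · exact h0
      · exact (int_sq hf).mul_const _
      · exact ((int_inner hf hg).const_mul _).mul_const _
      · exact ((int_sq hf).mul_const _).add (((int_inner hf hg).const_mul _).mul_const _)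
      · exact int_sq hg)
  rw [discrim] at h
  nlinarith

theorem abs_cs {f g : ℝ → W} (hf : MemLp f 2 mu) (hg : MemLp g 2 mu) :
    |∫ t, inner ℝ (f t) (g t) ∂mu| ≤ √(NN f) * √(NN g) := by
  rw [← Real.sqrt_mul (NN_nonneg f)]
  exact Real.abs_le_sqrt (cs hf hg)

omit [InnerProductSpace ℝ W] in
theorem ii {f : ℝ → W} (hf : MemLp f 2 mu) {s t : ℝ} (hs : s ∈ Icc (0 : ℝ) 1)
    (ht : t ∈ Icc (0 : ℝ) 1) : IntervalIntegrable f volume s t := by
  have h1 : IntervalIntegrable f volume 0 1 :=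
    (intervalIntegrable_iff_integrableOn_Ioc_of_le zero_le_one).2 (hf.integrable one_le_two)
  refine h1.mono_set ?_
  rw [uIcc_of_le zero_le_one]
  exact uIcc_subset_Icc hs ht

theorem PP_zero (f : ℝ → W) : PP f 0 = 0 := intervalIntegral.integral_same

theorem PP_one (f : ℝ → W) : PP f 1 = ∫ t, f t ∂mu := intervalIntegral.integral_of_le zero_le_one

theorem PP_add {f g : ℝ → W} (hf : MemLp f 2 mu) (hg : MemLp g 2 mu) {t : ℝ}
    (ht : t ∈ Icc (0 : ℝ) 1) : PP (f + g) t = PP f t + PP g t :=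
  intervalIntegral.integral_add (ii hf (by simp) ht) (ii hg (by simp) ht)

theorem PP_sub {f g : ℝ → W} (hf : MemLp f 2 mu) (hg : MemLp g 2 mu) {t : ℝ}
    (ht : t ∈ Icc (0 : ℝ) 1) : PP (f - g) t = PP f t - PP g t :=
  intervalIntegral.integral_sub (ii hf (by simp) ht) (ii hg (by simp) ht)

theorem PP_smul (c : ℝ) (f : ℝ → W) (t : ℝ) : PP (c • f) t = c • PP f t :=
  intervalIntegral.integral_smul c f

theorem PP_cont {f : ℝ → W} (hf : MemLp f 2 mu) : ContinuousOn (PP f) (Icc 0 1) := by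
  have h := intervalIntegral.continuousOn_primitive_interval' (a := 0)
    (ii hf (s := 0) (t := 1) (by simp) (by simp)) left_mem_uIcc
  rwa [uIcc_of_le zero_le_one] at h

theorem PP_holder {f : ℝ → W} (hf : MemLp f 2 mu) {s t : ℝ} (hs : 0 ≤ s) (hst : s ≤ t)
    (ht : t ≤ 1) : ‖PP f t - PP f s‖ ≤ √(t - s) * √(NN f) := by
  have hs' : s ∈ Icc (0 : ℝ) 1 := ⟨hs, hst.trans ht⟩
  have ht' : t ∈ Icc (0 : ℝ) 1 := ⟨hs.trans hst, ht⟩
  have e : PP f t - PP f s = ∫ x in s..t, f x :=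
    intervalIntegral.integral_interval_sub_left (ii hf (by simp) ht') (ii hf (by simp) hs')
  have hle : (volume : Measure ℝ).restrict (Ioc s t) ≤ mu :=
    Measure.restrict_mono (Ioc_subset_Ioc hs ht) le_rfl
  have h1 : MemLp (fun x => ‖f x‖) 2 (volume.restrict (Ioc s t)) := hf.norm.mono_measure hle
  have h2 := cs (W := ℝ) (memLp_const (1 : ℝ)) h1
  have h3 : ∫ x in Ioc s t, ‖‖f x‖‖ ^ 2 ≤ NN f := by
    simp_rw [norm_norm]
    exact integral_mono_measure hle (Eventually.of_forall fun _ => sq_nonneg _) (int_sq hf)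
  have h4 : ∫ x in Ioc s t, ‖(1 : ℝ)‖ ^ 2 = t - s := by simp [hst]
  have h5 : ∫ x in Ioc s t, inner ℝ (1 : ℝ) ‖f x‖ = ∫ x in Ioc s t, ‖f x‖ := by simp
  rw [h4, h5] at h2
  rw [e, intervalIntegral.integral_of_le hst, ← Real.sqrt_mul (sub_nonneg.2 hst)]
  refine (norm_integral_le_integral_norm _).trans (Real.le_sqrt_of_sq_le (h2.trans ?_))
  exact mul_le_mul_of_nonneg_left h3 (sub_nonneg.2 hst)

theorem PP_le {f : ℝ → W} (hf : MemLp f 2 mu) {t : ℝ} (ht : t ∈ Icc (0 : ℝ) 1) :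
    ‖PP f t‖ ≤ √(NN f) := by
  have h := PP_holder hf le_rfl ht.1 ht.2
  rw [PP_zero, sub_zero, sub_zero] at h
  refine h.trans (mul_le_of_le_one_left (Real.sqrt_nonneg _) ?_)
  simpa using Real.sqrt_le_sqrt ht.2

theorem ae_Icc : ∀ᵐ t ∂mu, t ∈ Icc (0 : ℝ) 1 :=
  (ae_restrict_mem measurableSet_Ioc).mono fun _ h => Ioc_subset_Icc_self h

omit [InnerProductSpace ℝ W] in
theorem memLp_of_contOn {f : ℝ → W} (hf : ContinuousOn f (Icc 0 1)) : MemLp f 2 mu := by
  obtain ⟨B, hB⟩ := isCompact_Icc.exists_bound_of_continuousOn hf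
  exact MemLp.of_bound ((hf.mono Ioc_subset_Icc_self).aestronglyMeasurable measurableSet_Ioc) B
    (ae_Icc.mono fun t ht => hB t ht)

theorem PP_L2 {f : ℝ → W} (hf : MemLp f 2 mu) : MemLp (PP f) 2 mu := memLp_of_contOn (PP_cont hf)

theorem J_L2 (J : W →L[ℝ] W) {f : ℝ → W} (hf : MemLp f 2 mu) : MemLp (fun t => J (f t)) 2 mu :=
  J.comp_memLp' hf

theorem DD.Z_L2 (h : DD J Hs Z a C K) {f : ℝ → W} (hf : MemLp f 2 mu) :
    MemLp (fun t => Z (f t)) 2 mu :=
  hf.of_le_mul (h.contZ.comp_aestronglyMeasurable hf.1) (Eventually.of_forall fun _ => h.Z_le _)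

theorem DD.int_H (h : DD J Hs Z a C K) {f : ℝ → W} (hf : MemLp f 2 mu) :
    Integrable (fun t => Hs (f t)) mu := by
  refine ((int_sq hf).const_mul C).mono' (h.contH.comp_aestronglyMeasurable hf.1)
    (Eventually.of_forall fun t => ?_)
  rw [Real.norm_of_nonneg (h.H_nonneg _)]
  exact h.H_le _

theorem DD.NN_J (h : DD J Hs Z a C K) (f : ℝ → W) : NN (fun t => J (f t)) = NN f := by
  simp only [NN, h.norm_J]

end Pool.Agent.Lib.MP_f78106_gt.Clarke
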