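import Pool.Agent.Lib.MP_f78106_gt.ClarkeA

/-!
Clarke duality, second file: existence of a minimiser of the dual functional.
-/

namespace Pool.Agent.Lib.MP_f78106_gt.Clarke

open MeasureTheory Set Filter Topology

variable {W : Type} [NormedAddCommGroup W] [InnerProductSpace ℝ W]
variable {J : W →L[ℝ] W} {Hs : W → ℝ} {Z : W → W} {a C K : ℝ}

theorem int_BB (J : W →L[ℝ] W) {f g : ℝ → W} (hf : MemLp f 2 mu) (hg : MemLp g 2 mu) :
    Integrable (fun t => inner ℝ (PP f t) (J (g t))) mu :=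
  int_inner (PP_L2 hf) (J_L2 J hg)

theorem BB_add_left (J : W →L[ℝ] W) {f f' g : ℝ → W} (hf : MemLp f 2 mu) (hf' : MemLp f' 2 mu)
    (hg : MemLp g 2 mu) : BB J (f + f') g = BB J f g + BB J f' g := by
  unfold BB
  rw [← integral_add (int_BB J hf hg) (int_BB J hf' hg)]
  refine integral_congr_ae (ae_Icc.mono fun t ht => ?_)
  simp only [PP_add hf hf' ht, inner_add_left]

theorem BB_add_right (J : W →L[ℝ] W) {f g g' : ℝ → W} (hf : MemLp f 2 mu) (hg : MemLp g 2 mu)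
    (hg' : MemLp g' 2 mu) : BB J f (g + g') = BB J f g + BB J f g' := by
  unfold BB
  rw [← integral_add (int_BB J hf hg) (int_BB J hf hg')]
  simp only [Pi.add_apply, map_add, inner_add_right]

theorem BB_smul_left (J : W →L[ℝ] W) (c : ℝ) (f g : ℝ → W) : BB J (c • f) g = c * BB J f g := by
  unfold BB
  rw [← integral_const_mul]
  simp only [PP_smul, real_inner_smul_left]

theorem BB_smul_right (J : W →L[ℝ] W) (c : ℝ) (f g : ℝ → W) : BB J f (c • g) = c * BB J f g := by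
  unfold BB
  rw [← integral_const_mul]
  simp only [Pi.smul_apply, map_smul, real_inner_smul_right]

theorem BB_expand (J : W →L[ℝ] W) {f d : ℝ → W} (hf : MemLp f 2 mu) (hd : MemLp d 2 mu) (s : ℝ) :
    BB J (f + s • d) (f + s • d) = BB J f f + s * (BB J f d + BB J d f) + s ^ 2 * BB J d d := by
  have hs : MemLp (s • d) 2 mu := hd.const_smul s
  rw [BB_add_left J hf hs (hf.add hs), BB_add_right J hf hf hs, BB_add_right J hs hf hs,
    BB_smul_left, BB_smul_left, BB_smul_right, BB_smul_right]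
  ring

theorem DD.abs_BB_of_bound (h : DD J Hs Z a C K) {f g : ℝ → W} (hf : MemLp f 2 mu)
    (hg : MemLp g 2 mu) {δ : ℝ} (hδ : ∀ t ∈ Icc (0 : ℝ) 1, ‖PP f t‖ ≤ δ) :
    |BB J f g| ≤ δ * √(NN g) := by
  have h1 := abs_cs (PP_L2 hf) (J_L2 J hg)
  rw [h.NN_J] at h1
  refine h1.trans (mul_le_mul_of_nonneg_right ?_ (Real.sqrt_nonneg _))
  have h0 : 0 ≤ δ := (norm_nonneg _).trans (hδ 0 (by simp))
  refine Real.sqrt_le_iff.2 ⟨h0, ?_⟩
  have h2 : NN (PP f) ≤ ∫ _, δ ^ 2 ∂mu :=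
    integral_mono_ae (int_sq (PP_L2 hf)) (integrable_const _)
      (ae_Icc.mono fun t ht => pow_le_pow_left₀ (norm_nonneg _) (hδ t ht) 2)
  simpa using h2

theorem DD.abs_BB (h : DD J Hs Z a C K) {f g : ℝ → W} (hf : MemLp f 2 mu) (hg : MemLp g 2 mu) :
    |BB J f g| ≤ √(NN f) * √(NN g) :=
  h.abs_BB_of_bound hf hg fun _ ht => PP_le hf ht

theorem NN_smul (c : ℝ) (f : ℝ → W) : NN (c • f) = c ^ 2 * NN f := by
  unfold NN
  rw [← integral_const_mul]
  simp only [Pi.smul_apply, norm_smul, mul_pow, Real.norm_eq_abs, sq_abs]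

/-- First variation of the dual functional. -/
noncomputable def LL (J : W →L[ℝ] W) (Z : W → W) (f d : ℝ → W) : ℝ :=
  ∫ t, inner ℝ (Z (J (f t))) (J (d t)) ∂mu

theorem LL_smul (J : W →L[ℝ] W) (Z : W → W) (c : ℝ) (f d : ℝ → W) :
    LL J Z f (c • d) = c * LL J Z f d := by
  unfold LL
  rw [← integral_const_mul]
  simp only [Pi.smul_apply, map_smul, real_inner_smul_right]

theorem DD.int_LL (h : DD J Hs Z a C K) {f d : ℝ → W} (hf : MemLp f 2 mu) (hd : MemLp d 2 mu) :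
    Integrable (fun t => inner ℝ (Z (J (f t))) (J (d t))) mu :=
  int_inner (h.Z_L2 (J_L2 J hf)) (J_L2 J hd)

theorem DD.EE_smul (h : DD J Hs Z a C K) {c : ℝ} (hc : 0 ≤ c) (f : ℝ → W) :
    EE J Hs (c • f) = c ^ 2 * EE J Hs f := by
  unfold EE
  rw [← integral_const_mul]
  simp only [Pi.smul_apply, map_smul, h.homH c hc]

theorem DD.EE_lower (h : DD J Hs Z a C K) {f : ℝ → W} (hf : MemLp f 2 mu) :
    a * NN f ≤ EE J Hs f := by
  unfold NN EE
  rw [← integral_const_mul]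
  refine integral_mono ((int_sq hf).const_mul a) (h.int_H (J_L2 J hf)) fun t => ?_
  have := h.lower (J (f t))
  rwa [h.norm_J] at this

theorem DD.EE_strong (h : DD J Hs Z a C K) {f d : ℝ → W} (hf : MemLp f 2 mu)
    (hd : MemLp d 2 mu) :
    EE J Hs f + LL J Z f d + (1 / (4 * C * K ^ 2)) * NN d ≤ EE J Hs (f + d) := by
  unfold NN EE LL
  have i1 := h.int_H (J_L2 J hf)
  have i2 := h.int_LL hf hd
  have i3 := (int_sq hd).const_mul (1 / (4 * C * K ^ 2))
  have i4 : Integrable (fun t => Hs (J (f t)) + inner ℝ (Z (J (f t))) (J (d t))) mu := i1.add i2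
  rw [← integral_const_mul, ← integral_add i1 i2, ← integral_add i4 i3]
  refine integral_mono (i4.add i3) (h.int_H (J_L2 J (hf.add hd))) fun t => ?_
  have := h.strong (J (f t)) (J (d t))
  rw [h.norm_J, ← map_add] at this
  exact this

theorem DD.EE_quad (h : DD J Hs Z a C K) {f d : ℝ → W} (hf : MemLp f 2 mu)
    (hd : MemLp d 2 mu) : EE J Hs (f + d) ≤ EE J Hs f + LL J Z f d + C * NN d := by
  unfold NN EE LL
  have i1 := h.int_H (J_L2 J hf)
  have i2 := h.int_LL hf hd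
  have i3 := (int_sq hd).const_mul C
  have i4 : Integrable (fun t => Hs (J (f t)) + inner ℝ (Z (J (f t))) (J (d t))) mu := i1.add i2
  rw [← integral_const_mul, ← integral_add i1 i2, ← integral_add i4 i3]
  refine integral_mono (h.int_H (J_L2 J (hf.add hd))) (i4.add i3) fun t => ?_
  have := h.quad (J (f t)) (J (d t))
  rw [h.norm_J, ← map_add] at this
  exact this

/-- Admissible functions: square integrable, mean zero, action one. -/
def Adm (J : W →L[ℝ] W) (f : ℝ → W) : Prop := MemLp f 2 mu ∧ PP f 1 = 0 ∧ BB J f f = 2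

theorem adm_normalize (J : W →L[ℝ] W) {f : ℝ → W} (hf : MemLp f 2 mu) (h0 : PP f 1 = 0)
    (hB : 0 < BB J f f) : Adm J (√(2 / BB J f f) • f) := by
  refine ⟨hf.const_smul _, by rw [PP_smul, h0, smul_zero], ?_⟩
  rw [BB_smul_left, BB_smul_right, ← mul_assoc, Real.mul_self_sqrt (by positivity)]
  field_simp

theorem DD.exists_adm [CompleteSpace W] (h : DD J Hs Z a C K) {e : W} (he : e ≠ 0) :
    ∃ f, Adm J f := by
  let f : ℝ → W := fun t => (1 - 2 * t) • e - (2 * t - 3 * t ^ 2) • J e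
  have hc : Continuous f := by fun_prop
  have hP : ∀ t, PP f t = (t - t ^ 2) • e - (t ^ 2 - t ^ 3) • J e := fun t => by
    have hd : ∀ s ∈ uIcc 0 t,
        HasDerivAt (fun t : ℝ => (t - t ^ 2) • e - (t ^ 2 - t ^ 3) • J e) (f s) s := fun s _ => by
      have h1 : HasDerivAt (fun t : ℝ => t - t ^ 2) (1 - 2 * s) s := by
        simpa using (hasDerivAt_id' s).fun_sub (hasDerivAt_pow 2 s)
      have h2 : HasDerivAt (fun t : ℝ => t ^ 2 - t ^ 3) (2 * s - 3 * s ^ 2) s := by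
        simpa using (hasDerivAt_pow 2 s).fun_sub (hasDerivAt_pow 3 s)
      exact (h1.smul_const e).fun_sub (h2.smul_const (J e))
    rw [PP, intervalIntegral.integral_eq_sub_of_hasDerivAt hd (hc.intervalIntegrable _ _)]
    simp
  have hf : MemLp f 2 mu := memLp_of_contOn hc.continuousOn
  refine ⟨_, adm_normalize J hf (by simp [hP]) ?_⟩
  have e1 : ∀ t, inner ℝ (PP f t) (J (f t)) = (t * (1 - t)) ^ 2 * ‖e‖ ^ 2 := fun t => by
    have h1 := h.inner_J_self e
    have h2 : inner ℝ (J e) e = 0 := by rw [real_inner_comm, h1]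
    simp only [hP, f, map_sub, map_smul, h.JJ, inner_sub_left, inner_sub_right,
      real_inner_smul_left, real_inner_smul_right, inner_neg_right, h1, h2,
      real_inner_self_eq_norm_sq, h.norm_J]
    ring
  unfold BB
  simp_rw [e1]
  rw [← intervalIntegral.integral_of_le zero_le_one]
  refine intervalIntegral.intervalIntegral_pos_of_pos_on
    (Continuous.intervalIntegrable (by fun_prop) _ _) (fun t ht => ?_) zero_lt_one
  have h1 := ht.1
  have h2 := sub_pos.2 ht.2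
  have h3 := norm_pos_iff.2 he
  positivity

theorem DD.key (h : DD J Hs Z a C K) {c : ℝ} (hc : 0 < c) (hmin : ∀ g, Adm J g → c ≤ EE J Hs g)
    {f : ℝ → W} (hf : MemLp f 2 mu) (h0 : PP f 1 = 0) : c * BB J f f ≤ 2 * EE J Hs f := by
  rcases le_or_gt (BB J f f) 0 with hB | hB
  · have h1 := h.EE_lower hf
    have h2 := mul_nonneg h.apos.le (NN_nonneg f)
    nlinarith
  · have h1 := hmin _ (adm_normalize J hf h0 hB)
    rw [h.EE_smul (Real.sqrt_nonneg _), Real.sq_sqrt (by positivity), div_mul_eq_mul_div,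
      le_div_iff₀ hB] at h1
    exact h1

theorem exists_net {η : ℝ} (hη : 0 < η) : ∃ (N : ℕ) (p : Fin N → ℝ),
    (∀ i, p i ∈ Icc (0 : ℝ) 1) ∧ ∀ t ∈ Icc (0 : ℝ) 1, ∃ i, p i ≤ t ∧ √(t - p i) ≤ η := by
  obtain ⟨N, hN⟩ := exists_nat_gt (1 / η ^ 2)
  have hN0 : (0 : ℝ) < N := lt_trans (by positivity) hN
  refine ⟨N + 1, fun i => (i : ℝ) / N, fun i => ⟨by positivity, ?_⟩, fun t ht => ?_⟩
  · rw [div_le_one hN0]
    exact_mod_cast Nat.lt_succ_iff.1 i.2
  · have h0 : 0 ≤ t * N := mul_nonneg ht.1 hN0.le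
    have h1 := Nat.floor_le h0
    have h2 := Nat.lt_floor_add_one (t * N)
    have h3 : ⌊t * N⌋₊ < N + 1 := by
      have : (⌊t * N⌋₊ : ℝ) ≤ N := h1.trans (mul_le_of_le_one_left hN0.le ht.2)
      exact Nat.lt_succ_iff.2 (by exact_mod_cast this)
    refine ⟨⟨_, h3⟩, (div_le_iff₀ hN0).2 h1, Real.sqrt_le_iff.2 ⟨hη.le, ?_⟩⟩
    have h4 : t - (⌊t * N⌋₊ : ℝ) / N ≤ 1 / N := by
      rw [sub_le_iff_le_add, ← add_div, le_div_iff₀ hN0]
      linarith
    refine h4.trans ?_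
    rw [div_lt_iff₀ (by positivity)] at hN
    rw [div_le_iff₀ hN0]
    linarith

theorem DD.cauchy_est (h : DD J Hs Z a C K) {c : ℝ} (hc : 0 < c)
    (hmin : ∀ g, Adm J g → c ≤ EE J Hs g) {N : ℕ} {p : Fin N → ℝ}
    (hp : ∀ i, p i ∈ Icc (0 : ℝ) 1)
    (hnet : ∀ t ∈ Icc (0 : ℝ) 1, ∃ i, p i ≤ t ∧ √(t - p i) ≤ 1 / (4 * C * K ^ 2) / c)
    {f g : ℝ → W} (hf : Adm J f) (hg : Adm J g) {δ : ℝ}
    (hδ : ∀ i, ‖PP f (p i) - PP g (p i)‖ ≤ δ) :
    NN (f - g) ≤ 8 * (4 * C * K ^ 2) * ((EE J Hs f - c) + (EE J Hs g - c)) +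
      (4 * C * K ^ 2 * c) ^ 2 * δ ^ 2 := by
  have hC := h.Cpos
  have hK := h.Kpos
  set Λ := 4 * C * K ^ 2 with hΛ
  have hΛ0 : 0 < Λ := by positivity
  set m : ℝ → W := (1 / 2 : ℝ) • (f + g) with hm
  set d : ℝ → W := (1 / 2 : ℝ) • (f - g) with hd
  have Lm : MemLp m 2 mu := (hf.1.add hg.1).const_smul _
  have Ld : MemLp d 2 mu := (hf.1.sub hg.1).const_smul _
  have e1 : m + (1 : ℝ) • d = f := by
    rw [hm, hd]
    module
  have e2 : m + (-1 : ℝ) • d = g := by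
    rw [hm, hd]
    module
  have m0 : PP m 1 = 0 := by
    rw [hm, PP_smul, PP_add hf.1 hg.1 (by simp), hf.2.1, hg.2.1, add_zero, smul_zero]
  have s1 := h.EE_strong Lm (Ld.const_smul (1 : ℝ))
  have s2 := h.EE_strong Lm (Ld.const_smul (-1 : ℝ))
  have b1 := BB_expand J Lm Ld 1
  have b2 := BB_expand J Lm Ld (-1)
  rw [e1, LL_smul, NN_smul, ← hΛ] at s1
  rw [e2, LL_smul, NN_smul, ← hΛ] at s2
  rw [e1, hf.2.2] at b1
  rw [e2, hg.2.2] at b2
  have k := h.key hc hmin Lm m0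
  set ν := √(NN d) with hν
  have hν0 : 0 ≤ ν := Real.sqrt_nonneg _
  have hν2 : NN d = ν ^ 2 := (Real.sq_sqrt (NN_nonneg d)).symm
  have hb : ∀ t ∈ Icc (0 : ℝ) 1, ‖PP d t‖ ≤ δ / 2 + 1 / Λ / c * ν := fun t ht => by
    obtain ⟨i, h1, h2⟩ := hnet t ht
    have h3 := PP_holder Ld (hp i).1 h1 ht.2
    have h4 : ‖PP d (p i)‖ ≤ δ / 2 := by
      rw [hd, PP_smul, PP_sub hf.1 hg.1 (hp i), norm_smul, Real.norm_of_nonneg (by norm_num)]
      linarith [hδ i]
    have h5 := norm_le_insert' (PP d t) (PP d (p i))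
    have h6 : √(t - p i) * ν ≤ 1 / Λ / c * ν := mul_le_mul_of_nonneg_right h2 hν0
    linarith
  have b3 := (le_abs_self _).trans (h.abs_BB_of_bound Ld Ld hb)
  rw [← hν] at b3
  have b4 : c * BB J d d ≤ c * δ / 2 * ν + 1 / Λ * ν ^ 2 := by
    have := mul_le_mul_of_nonneg_left b3 hc.le
    refine this.trans (le_of_eq ?_)
    field_simp
  have b5 : BB J m m = 2 - BB J d d := by linarith
  rw [b5] at k
  rw [hν2] at s1 s2
  have n1 : NN (f - g) = 4 * ν ^ 2 := by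
    rw [← hν2, hd, NN_smul]
    ring
  have z : 1 / Λ * ν ^ 2 ≤ (EE J Hs f - c) + (EE J Hs g - c) + c * δ / 2 * ν := by nlinarith
  have z2 : ν ^ 2 ≤ Λ * ((EE J Hs f - c) + (EE J Hs g - c)) + Λ * c * δ / 2 * ν := by
    have := mul_le_mul_of_nonneg_left z hΛ0.le
    have e : Λ * (1 / Λ * ν ^ 2) = ν ^ 2 := by field_simp
    rw [e] at this
    linarith
  rw [n1]
  nlinarith [sq_nonneg (2 * ν - Λ * c * δ)]

theorem NN_eq_norm_sq {f : ℝ → W} (F : Lp W 2 mu) (e : f =ᵐ[mu] F) : NN f = ‖F‖ ^ 2 := by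
  rw [← real_inner_self_eq_norm_sq, L2.inner_def]
  refine integral_congr_ae (e.mono fun t ht => ?_)
  simp only [ht, real_inner_self_eq_norm_sq]

theorem exists_limit [CompleteSpace W] (f : ℕ → ℝ → W) (hf : ∀ j, MemLp (f j) 2 mu)
    (h : Tendsto (fun q : ℕ × ℕ => NN (f q.1 - f q.2)) atTop (𝓝 0)) :
    ∃ g, MemLp g 2 mu ∧ Tendsto (fun j => √(NN (f j - g))) atTop (𝓝 0) := by
  have hc : CauchySeq fun j => (hf j).toLp (f j) := by
    rw [cauchySeq_iff_tendsto_dist_atTop_0]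
    have h1 := h.sqrt
    rw [Real.sqrt_zero] at h1
    refine h1.congr fun q => ?_
    rw [NN_eq_norm_sq ((hf q.1).toLp _ - (hf q.2).toLp _), Real.sqrt_sq (norm_nonneg _),
      dist_eq_norm]
    filter_upwards [Lp.coeFn_sub ((hf q.1).toLp _) ((hf q.2).toLp _), (hf q.1).coeFn_toLp,
      (hf q.2).coeFn_toLp] with t h1 h2 h3
    rw [h1, Pi.sub_apply, Pi.sub_apply, h2, h3]
  obtain ⟨G, hG⟩ := cauchySeq_tendsto_of_complete hc
  refine ⟨G, Lp.memLp G, (tendsto_iff_norm_sub_tendsto_zero.1 hG).congr fun j => ?_⟩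
  rw [NN_eq_norm_sq ((hf j).toLp _ - G), Real.sqrt_sq (norm_nonneg _)]
  filter_upwards [Lp.coeFn_sub ((hf j).toLp _) G, (hf j).coeFn_toLp] with t h1 h2
  rw [h1, Pi.sub_apply, Pi.sub_apply, h2]

theorem DD.exists_min [FiniteDimensional ℝ W] (h : DD J Hs Z a C K) {e : W} (he : e ≠ 0) :
    ∃ (c : ℝ) (u : ℝ → W), 0 < c ∧ Adm J u ∧ EE J Hs u = c ∧ ∀ g, Adm J g → c ≤ EE J Hs g := by
  have hC := h.Cpos
  have hK := h.Kpos
  have ha := h.apos
  set S := EE J Hs '' {f | Adm J f} with hS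
  have hne : S.Nonempty := by
    obtain ⟨f, hf⟩ := h.exists_adm he
    exact ⟨_, f, hf, rfl⟩
  have hlb : ∀ x ∈ S, 2 * a ≤ x := by
    rintro _ ⟨f, hf, rfl⟩
    have h1 := (le_abs_self _).trans (h.abs_BB hf.1 hf.1)
    rw [hf.2.2, Real.mul_self_sqrt (NN_nonneg f)] at h1
    have h2 := h.EE_lower hf.1
    nlinarith
  have hbd : BddBelow S := ⟨_, hlb⟩
  set c := sInf S with hcdef
  have hc : 0 < c := lt_of_lt_of_le (by positivity) (le_csInf hne hlb)
  have hmin : ∀ g, Adm J g → c ≤ EE J Hs g := fun g hg => csInf_le hbd ⟨g, hg, rfl⟩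
  obtain ⟨x, hanti, hx, hxS⟩ := exists_seq_tendsto_sInf hne hbd
  choose f hf hfx using hxS
  obtain ⟨N, p, hp, hnet⟩ := exists_net (η := 1 / (4 * C * K ^ 2) / c) (by positivity)
  have hb : ∀ j, (fun i => PP (f j) (p i)) ∈ Metric.closedBall (0 : Fin N → W) √(x 0 / a) :=
    fun j => by
      rw [mem_closedBall_zero_iff, pi_norm_le_iff_of_nonneg (Real.sqrt_nonneg _)]
      intro i
      refine (PP_le (hf j).1 (hp i)).trans (Real.sqrt_le_sqrt ?_)
      have h1 := h.EE_lower (hf j).1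
      have h2 := hanti (Nat.zero_le j)
      rw [le_div_iff₀ ha]
      rw [hfx] at h1
      linarith
  obtain ⟨v, -, φ, hφ, hv⟩ := tendsto_subseq_of_bounded Metric.isBounded_closedBall hb
  have hx' : Tendsto (fun j => EE J Hs (f (φ j))) atTop (𝓝 c) :=
    (hx.comp hφ.tendsto_atTop).congr fun j => (hfx _).symm
  have t1 : Tendsto (Prod.fst : ℕ × ℕ → ℕ) atTop atTop := by
    rw [← prod_atTop_atTop_eq]
    exact tendsto_fst
  have t2 : Tendsto (Prod.snd : ℕ × ℕ → ℕ) atTop atTop := by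
    rw [← prod_atTop_atTop_eq]
    exact tendsto_snd
  obtain ⟨g, Lg, hg⟩ := exists_limit (fun j => f (φ j)) (fun j => (hf _).1) (by
    have h1 := cauchySeq_iff_tendsto_dist_atTop_0.1 hv.cauchySeq
    have h2 := ((((hx'.comp t1).sub_const c).add ((hx'.comp t2).sub_const c)).const_mul
      (8 * (4 * C * K ^ 2))).add ((h1.pow 2).const_mul ((4 * C * K ^ 2 * c) ^ 2))
    simp only [sub_self, add_zero, mul_zero, ne_eq, OfNat.ofNat_ne_zero, not_false_eq_true,
      zero_pow] at h2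
    refine squeeze_zero (fun q => NN_nonneg _) (fun q => ?_) h2
    refine h.cauchy_est hc hmin hp hnet (hf _) (hf _) fun i => ?_
    rw [← dist_eq_norm]
    exact dist_le_pi_dist (fun i => PP (f (φ q.1)) (p i)) (fun i => PP (f (φ q.2)) (p i)) i)
  have Ld : ∀ j, MemLp (f (φ j) - g) 2 mu := fun j => (hf _).1.sub Lg
  have g0 : PP g 1 = 0 := by
    refine norm_le_zero_iff.1 (ge_of_tendsto' hg fun j => ?_)
    have h1 := PP_le (Ld j) (t := 1) (by simp)
    rwa [PP_sub (hf _).1 Lg (by simp), (hf _).2.1, zero_sub, norm_neg] at h1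
  have g1 : BB J g g = 2 := by
    have h1 := (hg.const_mul (2 * √(NN g))).add (hg.mul hg)
    simp only [mul_zero, add_zero] at h1
    have h2 : |2 - BB J g g| ≤ 0 := ge_of_tendsto' h1 fun j => by
      have h3 := BB_expand J Lg (Ld j) 1
      rw [one_smul, add_sub_cancel, (hf _).2.2] at h3
      have h4 := abs_le.1 (h.abs_BB Lg (Ld j))
      have h5 := abs_le.1 (h.abs_BB (Ld j) Lg)
      have h6 := abs_le.1 (h.abs_BB (Ld j) (Ld j))
      rw [abs_le]
      constructor <;> linarith [h4.1, h4.2, h5.1, h5.2, h6.1, h6.2]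
    have h3 := abs_nonpos_iff.1 h2
    linarith
  refine ⟨c, g, hc, ⟨Lg, g0, g1⟩, le_antisymm ?_ (hmin g ⟨Lg, g0, g1⟩), hmin⟩
  have h1 := hx'.add (hg.const_mul √(NN fun t => Z (J (g t))))
  simp only [mul_zero, add_zero] at h1
  refine ge_of_tendsto' h1 fun j => ?_
  have h2 := h.EE_strong Lg (Ld j)
  rw [add_sub_cancel] at h2
  have h3 := abs_le.1 (abs_cs (h.Z_L2 (J_L2 J Lg)) (J_L2 J (Ld j)))
  rw [h.NN_J] at h3
  have h4 : 0 ≤ 1 / (4 * C * K ^ 2) * NN (f (φ j) - g) :=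
    mul_nonneg (by positivity) (NN_nonneg _)
  have h5 := h3.1
  unfold LL at h2
  linarith

end Pool.Agent.Lib.MP_f78106_gt.Clarke
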