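import Pool.Agent.Lib.MP_f78106_gt.Fam

/-!
Packaging a continuous family of periodic velocities, parametrised by the join of circles, as an
equivariant map from the unit sphere to the space of loops.
-/

namespace Pool.Agent.Lib.MP_f78106_gt

open MeasureTheory Set Filter Topology

namespace Pack

variable {n : ℕ}

/-- The symplectic form with fixed first argument as a continuous linear functional. -/
noncomputable def omL (x : V n) : V n →L[ℝ] ℝ :=
  Complex.reCLM.comp (((innerSL ℂ x).restrictScalars ℝ).comp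
    (((-Complex.I) • ContinuousLinearMap.id ℂ (V n)).restrictScalars ℝ))

theorem omL_apply (x y : V n) : omL x y = om x y := rfl

theorem om_cont : Continuous fun p : V n × V n => om p.1 p.2 := by
  unfold om rin
  fun_prop

theorem om_smul (a b : ℝ) (x y : V n) : om (a • x) (b • y) = a * b * om x y := by
  have h1 : om (a • x) (b • y) = b * om (a • x) y := by
    rw [← omL_apply, map_smul, omL_apply, smul_eq_mul]
  have h2 : om (a • x) y = a * om x y := by
    unfold om rin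
    rw [← Complex.coe_smul, inner_smul_left]
    simp
  rw [h1, h2]; ring

theorem om_sub_left (x x' y : V n) : om (x - x') y = om x y - om x' y := by
  unfold om rin
  rw [inner_sub_left, Complex.sub_re]

theorem abs_om_le (x y : V n) : ‖om x y‖ ≤ ‖x‖ * ‖y‖ := by
  unfold om rin
  calc ‖(inner ℂ x ((-Complex.I) • y)).re‖ ≤ ‖inner ℂ x ((-Complex.I) • y)‖ :=
        Complex.abs_re_le_norm _
    _ ≤ ‖x‖ * ‖(-Complex.I) • y‖ := norm_inner_le_norm _ _
    _ = ‖x‖ * ‖y‖ := by rw [norm_smul]; simp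

theorem ii {f : ℝ → V n} {B : ℝ} (hm : Measurable f) (hB : ∀ t, ‖f t‖ ≤ B) (a b : ℝ) :
    IntervalIntegrable f volume a b := by
  refine (intervalIntegrable_const (c := B)).mono_fun' hm.aestronglyMeasurable ?_
  exact Eventually.of_forall fun t => hB t

theorem prim_cont {f : ℝ → V n} {B : ℝ} (hm : Measurable f) (hB : ∀ t, ‖f t‖ ≤ B) :
    Continuous fun t => ∫ σ in (0 : ℝ)..t, f σ :=
  intervalIntegral.continuous_primitive (fun a b => ii hm hB a b) 0

theorem om_meas {f : ℝ → V n} {B : ℝ} (hm : Measurable f) (hB : ∀ t, ‖f t‖ ≤ B) :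
    Measurable fun t => om (∫ σ in (0 : ℝ)..t, f σ) (f t) := by
  have h1 : Measurable fun t => ((∫ σ in (0 : ℝ)..t, f σ), f t) :=
    (prim_cont hm hB).measurable.prodMk hm
  exact Measurable.comp (g := fun p : V n × V n => om p.1 p.2)
    (f := fun t => ((∫ σ in (0 : ℝ)..t, f σ), f t)) om_cont.measurable h1

theorem om_bound {f : ℝ → V n} {B : ℝ} (hB : ∀ t, ‖f t‖ ≤ B) (t : ℝ) :
    ‖om (∫ σ in (0 : ℝ)..t, f σ) (f t)‖ ≤ B * |t| * B := by
  have hB0 : 0 ≤ B := (norm_nonneg _).trans (hB 0)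
  refine (abs_om_le _ _).trans (mul_le_mul ?_ (hB t) (norm_nonneg _) (by positivity))
  simpa using intervalIntegral.norm_integral_le_of_norm_le_const (a := 0) (b := t) (C := B)
    (f := f) (fun x _ => hB x)

theorem om_ii {f : ℝ → V n} {B : ℝ} (hm : Measurable f) (hB : ∀ t, ‖f t‖ ≤ B) (a b : ℝ) :
    IntervalIntegrable (fun t => om (∫ σ in (0 : ℝ)..t, f σ) (f t)) volume a b := by
  have hc : Continuous fun t : ℝ => B * |t| * B := by fun_prop
  refine (hc.intervalIntegrable a b).mono_fun' (om_meas hm hB).aestronglyMeasurable ?_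
  exact Eventually.of_forall fun t => om_bound hB t

/-- The area enclosed by the closed path with velocity `f`. -/
noncomputable def area (τ : ℝ) (f : ℝ → V n) : ℝ :=
  (1 / 2) * ∫ t in (0 : ℝ)..τ, om (∫ σ in (0 : ℝ)..t, f σ) (f t)

theorem area_shift {τ : ℝ} {f : ℝ → V n} {B : ℝ} (hm : Measurable f) (hB : ∀ t, ‖f t‖ ≤ B)
    (hp : Function.Periodic f τ) (h0 : ∫ t in (0 : ℝ)..τ, f t = 0) (a : ℝ) :
    area τ (fun t => f (t + a)) = area τ f := by
  have hW : ∀ t, ∫ σ in (0 : ℝ)..t, f (σ + a) =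
      (∫ σ in (0 : ℝ)..t + a, f σ) - ∫ σ in (0 : ℝ)..a, f σ := by
    intro t
    rw [intervalIntegral.integral_comp_add_right, zero_add,
      intervalIntegral.integral_interval_sub_left (ii hm hB _ _) (ii hm hB _ _)]
  have hWp : Function.Periodic (fun t => om (∫ σ in (0 : ℝ)..t, f σ) (f t)) τ := by
    intro t
    show om (∫ σ in (0 : ℝ)..t + τ, f σ) (f (t + τ)) = om (∫ σ in (0 : ℝ)..t, f σ) (f t)
    rw [hp.intervalIntegral_add_eq_add 0 t (fun a b => ii hm hB a b), zero_add, h0, add_zero, hp t]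
  have h1 : ∫ t in (0 : ℝ)..τ, om (∫ σ in (0 : ℝ)..t + a, f σ) (f (t + a)) =
      ∫ t in (0 : ℝ)..τ, om (∫ σ in (0 : ℝ)..t, f σ) (f t) := by
    rw [intervalIntegral.integral_comp_add_right
      (fun t => om (∫ σ in (0 : ℝ)..t, f σ) (f t)) a, zero_add, add_comm τ a,
      hWp.intervalIntegral_add_eq a 0, zero_add]
  have hm' : Measurable fun t => f (t + a) := hm.comp (measurable_add_const a)
  have h2 : ∫ t in (0 : ℝ)..τ, om (∫ σ in (0 : ℝ)..a, f σ) (f (t + a)) = 0 := by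
    simp_rw [← omL_apply]
    rw [ContinuousLinearMap.intervalIntegral_comp_comm _ (ii hm' (fun t => hB _) _ _),
      intervalIntegral.integral_comp_add_right, zero_add, add_comm τ a,
      hp.intervalIntegral_add_eq a 0, zero_add, h0, map_zero]
  unfold area
  simp_rw [hW, om_sub_left]
  rw [intervalIntegral.integral_sub, h1, h2, sub_zero]
  · have := (om_ii hm hB (0 + a) (τ + a)).comp_add_right a
    simpa using this
  · simp_rw [← omL_apply]
    have h3 := ii hm' (fun t => hB _) 0 τ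
    exact ⟨(omL _).integrable_comp h3.1, (omL _).integrable_comp h3.2⟩

/-- The rescaled velocity as a function on the circle. -/
noncomputable def circ (τ : ℝ) (f : ℝ → V n) (x : UnitAddCircle) : V n :=
  τ • f (τ * (AddCircle.equivIoc 1 0 x : ℝ))

theorem circ_coe {τ : ℝ} {f : ℝ → V n} (hp : Function.Periodic f τ) (t : ℝ) :
    circ τ f (t : UnitAddCircle) = τ • f (τ * t) := by
  have h : ((AddCircle.equivIoc 1 0 (t : UnitAddCircle) : ℝ) : UnitAddCircle) = t :=
    (AddCircle.equivIoc 1 0).symm_apply_apply (t : UnitAddCircle)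
  obtain ⟨z, hz⟩ : ∃ z : ℤ, (AddCircle.equivIoc 1 0 (t : UnitAddCircle) : ℝ) = t + z := by
    have h2 := QuotientAddGroup.eq.1 h.symm
    obtain ⟨z, hz⟩ := AddSubgroup.mem_zmultiples_iff.1 h2
    refine ⟨z, ?_⟩
    rw [zsmul_eq_mul, mul_one] at hz
    linarith
  unfold circ
  rw [hz, mul_add, mul_comm τ (z : ℝ), (hp.int_mul z) (τ * t)]

theorem circ_meas {τ : ℝ} {f : ℝ → V n} (hm : Measurable f) (hp : Function.Periodic f τ) :
    Measurable (circ τ f) := by
  refine QuotientAddGroup.measurable_from_quotient.2 ?_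
  have : (circ τ f ∘ ((↑) : ℝ → UnitAddCircle)) = fun t => τ • f (τ * t) :=
    funext fun t => circ_coe hp t
  rw [this]
  exact (hm.comp (measurable_const_mul τ)).const_smul τ

theorem circ_memLp {τ : ℝ} {f : ℝ → V n} {B : ℝ} (hm : Measurable f) (hB : ∀ t, ‖f t‖ ≤ B)
    (hp : Function.Periodic f τ) : MemLp (circ τ f) 2 (volume : Measure UnitAddCircle) := by
  refine MemLp.of_bound (circ_meas hm hp).aestronglyMeasurable (‖τ‖ * B)
    (Eventually.of_forall fun x => ?_)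
  unfold circ
  rw [norm_smul]
  exact mul_le_mul_of_nonneg_left (hB _) (norm_nonneg _)

open Classical in
/-- The loop velocity class defined by a periodic function. -/
noncomputable def loopOf (τ : ℝ) (f : ℝ → V n) : Loop n :=
  if h : MemLp (circ τ f) 2 (volume : Measure UnitAddCircle) then h.toLp _ else 0

theorem loopOf_ae {τ : ℝ} {f : ℝ → V n} {B : ℝ} (hm : Measurable f) (hB : ∀ t, ‖f t‖ ≤ B)
    (hp : Function.Periodic f τ) : loopOf τ f =ᵐ[volume] circ τ f := by
  unfold loopOf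
  rw [dif_pos (circ_memLp hm hB hp)]
  exact MemLp.coeFn_toLp _

theorem norm_sq_loop (u : Loop n) : ‖u‖ ^ 2 = ∫ x, ‖u x‖ ^ 2 := by
  rw [← @inner_self_eq_norm_sq ℂ, L2.inner_def]
  simp_rw [inner_self_eq_norm_sq_to_K]
  have : ∀ x, ((‖u x‖ : ℂ)) ^ 2 = ((‖u x‖ ^ 2 : ℝ) : ℂ) := fun x => by push_cast; rfl
  have h2 : (∫ x, ((‖u x‖ : ℝ) : ℂ) ^ 2) = ((∫ x, ‖u x‖ ^ 2 : ℝ) : ℂ) := by
    simp_rw [this]
    exact integral_ofReal
  exact (congrArg Complex.re h2).trans (Complex.ofReal_re _)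

theorem norm_sq_sub {τ : ℝ} {f g : ℝ → V n} {B : ℝ} (hm : Measurable f) (hB : ∀ t, ‖f t‖ ≤ B)
    (hp : Function.Periodic f τ) (hm' : Measurable g) (hB' : ∀ t, ‖g t‖ ≤ B)
    (hp' : Function.Periodic g τ) :
    ‖loopOf τ f - loopOf τ g‖ ^ 2 = τ * ∫ t in (0 : ℝ)..τ, ‖f t - g t‖ ^ 2 := by
  rw [norm_sq_loop]
  have h1 : ∫ x, ‖(loopOf τ f - loopOf τ g) x‖ ^ 2 = ∫ x, ‖circ τ f x - circ τ g x‖ ^ 2 := by
    refine integral_congr_ae ?_
    filter_upwards [Lp.coeFn_sub (loopOf τ f) (loopOf τ g), loopOf_ae hm hB hp,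
      loopOf_ae hm' hB' hp'] with x h1 h2 h3
    rw [h1, Pi.sub_apply, h2, h3]
  rw [h1, ← UnitAddCircle.intervalIntegral_preimage 0]
  simp_rw [circ_coe hp, circ_coe hp', ← smul_sub, norm_smul, mul_pow, Real.norm_eq_abs, sq_abs]
  rw [intervalIntegral.integral_const_mul, zero_add]
  have := intervalIntegral.smul_integral_comp_mul_left (a := 0) (b := 1)
    (fun t => ‖f t - g t‖ ^ 2) τ
  rw [mul_zero, mul_one, smul_eq_mul] at this
  rw [← this]; ring

theorem ae_pull {u : Loop n} {g : UnitAddCircle → V n} (h : u =ᵐ[volume] g) :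
    ∀ᵐ t : ℝ, t ∈ Ioc (0 : ℝ) 1 → u (t : UnitAddCircle) = g (t : UnitAddCircle) := by
  have := (UnitAddCircle.measurePreserving_mk 0).quasiMeasurePreserving.ae_eq_comp h
  rw [zero_add] at this
  exact (ae_restrict_iff' measurableSet_Ioc).1 this

theorem vals {Hs : V n → ℝ} (hom : ∀ t : ℝ, 0 ≤ t → ∀ u, Hs (t • u) = t ^ 2 * Hs u)
    {τ : ℝ} (hτ : 0 < τ) {f : ℝ → V n} {B : ℝ} (hm : Measurable f) (hB : ∀ t, ‖f t‖ ≤ B)
    (hp : Function.Periodic f τ) {κ : ℝ} (hκ : 0 ≤ κ) :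
    prim (κ • loopOf τ f) 1 = κ • ∫ t in (0 : ℝ)..τ, f t ∧
      action (κ • loopOf τ f) = κ ^ 2 * area τ f ∧
      ∫ t in (0 : ℝ)..1, Hs ((-Complex.I) • (κ • loopOf τ f : Loop n) (t : UnitAddCircle)) =
        κ ^ 2 * τ * ∫ t in (0 : ℝ)..τ, Hs ((-Complex.I) • f t) := by
  have hae : ∀ᵐ t : ℝ, t ∈ Ioc (0 : ℝ) 1 →
      (κ • loopOf τ f : Loop n) (t : UnitAddCircle) = (κ * τ) • f (τ * t) := by
    have h1 : (κ • loopOf τ f : Loop n) =ᵐ[volume] fun x => κ • circ τ f x := by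
      filter_upwards [Lp.coeFn_smul κ (loopOf τ f), loopOf_ae hm hB hp] with x h1 h2
      rw [h1, Pi.smul_apply, h2]
    filter_upwards [ae_pull h1] with t ht h
    rw [ht h, circ_coe hp, smul_smul]
  have hprim : ∀ t ∈ Icc (0 : ℝ) 1,
      prim (κ • loopOf τ f) t = κ • ∫ σ in (0 : ℝ)..τ * t, f σ := by
    intro t ht
    unfold prim
    rw [intervalIntegral.integral_congr_ae (g := fun s => (κ * τ) • f (τ * s))]
    · rw [intervalIntegral.integral_smul, mul_smul,
        intervalIntegral.smul_integral_comp_mul_left f τ, mul_zero]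
    · filter_upwards [hae] with s hs h
      rw [uIoc_of_le ht.1] at h
      exact hs ⟨h.1, h.2.trans ht.2⟩
  refine ⟨by rw [hprim 1 ⟨zero_le_one, le_rfl⟩, mul_one], ?_, ?_⟩
  · unfold action area
    rw [intervalIntegral.integral_congr_ae (g := fun s => κ ^ 2 *
      (τ * om (∫ σ in (0 : ℝ)..τ * s, f σ) (f (τ * s))))]
    · rw [intervalIntegral.integral_const_mul, intervalIntegral.integral_const_mul]
      have := intervalIntegral.smul_integral_comp_mul_left (a := 0) (b := 1)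
        (fun t => om (∫ σ in (0 : ℝ)..t, f σ) (f t)) τ
      rw [mul_zero, mul_one, smul_eq_mul] at this
      rw [this]; ring
    · filter_upwards [hae] with s hs h
      rw [uIoc_of_le zero_le_one] at h
      rw [hs h, hprim s ⟨h.1.le, h.2⟩]
      show om _ _ = _
      rw [om_smul]; ring
  · rw [intervalIntegral.integral_congr_ae (g := fun s => κ ^ 2 * τ *
      (τ * Hs ((-Complex.I) • f (τ * s))))]
    · rw [intervalIntegral.integral_const_mul, intervalIntegral.integral_const_mul]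
      have := intervalIntegral.smul_integral_comp_mul_left (a := 0) (b := 1)
        (fun t => Hs ((-Complex.I) • f t)) τ
      rw [mul_zero, mul_one, smul_eq_mul] at this
      rw [this]
    · filter_upwards [hae] with s hs h
      rw [uIoc_of_le zero_le_one] at h
      rw [hs h, smul_comm, hom _ (by positivity)]; ring

theorem loopOf_shift {τ : ℝ} {f : ℝ → V n} {B : ℝ} (hm : Measurable f) (hB : ∀ t, ‖f t‖ ≤ B)
    (hp : Function.Periodic f τ) (κ c : ℝ) :
    κ • loopOf τ (fun t => f (t + τ * c)) = shift (c : UnitAddCircle) (κ • loopOf τ f) := by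
  have hm' : Measurable fun t => f (t + τ * c) := hm.comp (measurable_add_const _)
  have hp' : Function.Periodic (fun t => f (t + τ * c)) τ := fun t => by
    show f (t + τ + τ * c) = f (t + τ * c)
    rw [add_right_comm, hp]
  have h1 : (κ • loopOf τ f : Loop n) =ᵐ[volume] fun x => κ • circ τ f x := by
    filter_upwards [Lp.coeFn_smul κ (loopOf τ f), loopOf_ae hm hB hp] with x h1 h2
    rw [h1, Pi.smul_apply, h2]
  have h2 := (measurePreserving_add_right volume (c : UnitAddCircle)).quasiMeasurePreserving.ae_eq_comp h1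
  refine Lp.ext ?_
  filter_upwards [Lp.coeFn_smul κ (loopOf τ fun t => f (t + τ * c)),
    loopOf_ae hm' (fun t => hB _) hp', h2,
    Lp.coeFn_compMeasurePreserving (κ • loopOf τ f)
      (measurePreserving_add_right volume (c : UnitAddCircle))] with x h3 h4 h5 h6
  unfold shift
  rw [h3, Pi.smul_apply, h4, h6, h5]
  induction x using QuotientAddGroup.induction_on with
  | H t =>
    show κ • circ τ _ (t : UnitAddCircle) = κ • circ τ f ((t : UnitAddCircle) + (c : UnitAddCircle))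
    rw [← AddCircle.coe_add, circ_coe hp, circ_coe hp', mul_add]

section Family

variable {P : Type} [TopologicalSpace P] [FirstCountableTopology P] {τ B : ℝ} {U : P → ℝ → V n}

theorem area_cont (hmeas : ∀ p, Measurable (U p)) (hB : ∀ p t, ‖U p t‖ ≤ B)
    (hcont : ∀ p, ∀ᵐ t, ContinuousAt (fun q => U q t) p) : Continuous fun p => area τ (U p) := by
  unfold area
  refine continuous_const.mul (continuous_iff_continuousAt.2 fun p => ?_)
  have hW : ∀ t, ContinuousAt (fun q => ∫ σ in (0 : ℝ)..t, U q σ) p := fun t =>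
    intervalIntegral.continuousAt_of_dominated_interval (bound := fun _ => B)
      (Eventually.of_forall fun q => (hmeas q).aestronglyMeasurable)
      (Eventually.of_forall fun q => Eventually.of_forall fun s _ => hB q s)
      intervalIntegrable_const ((hcont p).mono fun s hs _ => hs)
  have hc : Continuous fun t : ℝ => B * |t| * B := by fun_prop
  refine intervalIntegral.continuousAt_of_dominated_interval (bound := fun t => B * |t| * B)
    (Eventually.of_forall fun q => (om_meas (hmeas q) (hB q)).aestronglyMeasurable)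
    (Eventually.of_forall fun q => Eventually.of_forall fun s _ => om_bound (hB q) s)
    (hc.intervalIntegrable _ _) ((hcont p).mono fun s hs _ => ?_)
  exact ContinuousAt.comp (g := fun p : V n × V n => om p.1 p.2)
    (f := fun q => ((∫ σ in (0 : ℝ)..s, U q σ), U q s)) om_cont.continuousAt ((hW s).prodMk hs)

theorem loop_cont (hmeas : ∀ p, Measurable (U p)) (hB : ∀ p t, ‖U p t‖ ≤ B)
    (hper : ∀ p t, U p (t + τ) = U p t)
    (hcont : ∀ p, ∀ᵐ t, ContinuousAt (fun q => U q t) p) :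
    Continuous fun p => loopOf τ (U p) := by
  refine continuous_iff_continuousAt.2 fun p => ?_
  have h1 : ContinuousAt (fun q => ∫ t in (0 : ℝ)..τ, ‖U q t - U p t‖ ^ 2) p := by
    refine intervalIntegral.continuousAt_of_dominated_interval (bound := fun _ => (B + B) ^ 2)
      (Eventually.of_forall fun q =>
        (((hmeas q).sub (hmeas p)).norm.pow_const 2).aestronglyMeasurable)
      (Eventually.of_forall fun q => Eventually.of_forall fun s _ => ?_)
      intervalIntegrable_const ((hcont p).mono fun s hs _ => ?_)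
    · rw [Real.norm_of_nonneg (by positivity)]
      exact pow_le_pow_left₀ (norm_nonneg _)
        ((norm_sub_le _ _).trans (add_le_add (hB q s) (hB p s))) 2
    · exact (hs.sub continuousAt_const).norm.pow 2
  have h2 : Tendsto (fun q => √(τ * ∫ t in (0 : ℝ)..τ, ‖U q t - U p t‖ ^ 2)) (𝓝 p) (𝓝 0) := by
    have := (h1.const_mul τ).sqrt.tendsto
    simpa using this
  refine tendsto_iff_norm_sub_tendsto_zero.2 (h2.congr fun q => ?_)
  rw [← norm_sq_sub (hmeas q) (hB q) (hper q) (hmeas p) (hB p) (hper p),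
    Real.sqrt_sq (norm_nonneg _)]

end Family

variable {k : ℕ}

/-- Polar coordinates on the unit sphere. -/
noncomputable def vec (ρ : stdSimplex ℝ (Fin k)) (s : Fin k → ℝ) : V k :=
  WithLp.toLp 2 fun j => ((√(ρ.1 j) : ℝ) : ℂ) * Complex.exp (((-(2 * Real.pi * s j) : ℝ) : ℂ) *
    Complex.I)

theorem norm_vec_apply (ρ : stdSimplex ℝ (Fin k)) (s : Fin k → ℝ) (j : Fin k) :
    ‖vec ρ s j‖ ^ 2 = ρ.1 j := by
  show ‖((√(ρ.1 j) : ℝ) : ℂ) * Complex.exp (((-(2 * Real.pi * s j) : ℝ) : ℂ) * Complex.I)‖ ^ 2 = _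
  rw [norm_mul, Complex.norm_exp_ofReal_mul_I, mul_one, Complex.norm_real,
    Real.norm_of_nonneg (Real.sqrt_nonneg _), Real.sq_sqrt (ρ.2.1 j)]

theorem vec_mem (ρ : stdSimplex ℝ (Fin k)) (s : Fin k → ℝ) :
    vec ρ s ∈ Metric.sphere (0 : V k) 1 := by
  rw [mem_sphere_zero_iff_norm, EuclideanSpace.norm_eq]
  simp_rw [norm_vec_apply]
  rw [ρ.2.2, Real.sqrt_one]

theorem vec_cont : Continuous fun p : stdSimplex ℝ (Fin k) × (Fin k → ℝ) => vec p.1 p.2 := by
  unfold vec
  refine (PiLp.continuous_toLp 2 _).comp (continuous_pi fun j => ?_)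
  have h1 : Continuous fun p : stdSimplex ℝ (Fin k) × (Fin k → ℝ) => p.1.1 j :=
    (continuous_apply j).comp (continuous_subtype_val.comp continuous_fst)
  fun_prop

theorem vec_inj {ρ ρ' : stdSimplex ℝ (Fin k)} {s s' : Fin k → ℝ} (h : vec ρ s = vec ρ' s') :
    ρ' = ρ ∧ ∀ j, ρ.1 j ≠ 0 → ∃ z : ℤ, s' j = s j + z := by
  have h1 : ρ' = ρ := by
    ext j
    show ρ'.1 j = ρ.1 j
    rw [← norm_vec_apply ρ s j, ← norm_vec_apply ρ' s' j, h]
  subst h1
  refine ⟨rfl, fun j hj => ?_⟩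
  have h2 : vec ρ' s j = vec ρ' s' j := by rw [h]
  have hne : ((√(ρ'.1 j) : ℝ) : ℂ) ≠ 0 := by
    rw [Complex.ofReal_ne_zero, Real.sqrt_ne_zero (ρ'.2.1 j)]
    exact hj
  have h3 := mul_left_cancel₀ hne h2
  obtain ⟨z, hz⟩ := Complex.exp_eq_exp_iff_exists_int.1 h3
  refine ⟨z, ?_⟩
  have h4 := congrArg Complex.im hz
  simp at h4
  have hpi : 0 < Real.pi := Real.pi_pos
  have : 2 * Real.pi * (s' j - s j - z) = 0 := by linarith
  have h5 := (mul_eq_zero.1 this).resolve_left (by positivity)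
  linarith

theorem vec_surj (z : Metric.sphere (0 : V k) 1) :
    ∃ (ρ : stdSimplex ℝ (Fin k)) (s : Fin k → Icc (-1 : ℝ) 1), vec ρ (fun j => s j) = z := by
  have hz : ∑ j, ‖(z : V k) j‖ ^ 2 = 1 := by
    have h := mem_sphere_zero_iff_norm.1 z.2
    rw [EuclideanSpace.norm_eq, Real.sqrt_eq_one] at h
    exact h
  have hpi : 0 < Real.pi := Real.pi_pos
  refine ⟨⟨fun j => ‖(z : V k) j‖ ^ 2, fun j => by positivity, hz⟩,
    fun j => ⟨-(Complex.arg ((z : V k) j)) / (2 * Real.pi), ?_, ?_⟩, ?_⟩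
  · rw [le_div_iff₀ (by positivity)]
    have := Complex.arg_le_pi ((z : V k) j)
    linarith
  · rw [div_le_iff₀ (by positivity)]
    have := Complex.neg_pi_lt_arg ((z : V k) j)
    linarith
  · ext j
    show ((√(‖(z : V k) j‖ ^ 2) : ℝ) : ℂ) * Complex.exp (((-(2 * Real.pi *
      (-(Complex.arg ((z : V k) j)) / (2 * Real.pi))) : ℝ) : ℂ) * Complex.I) = _
    have : -(2 * Real.pi * (-(Complex.arg ((z : V k) j)) / (2 * Real.pi))) =
        Complex.arg ((z : V k) j) := by field_simp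
    rw [this, Real.sqrt_sq (norm_nonneg _), Complex.norm_mul_exp_arg_mul_I]

theorem vec_rot (ρ : stdSimplex ℝ (Fin k)) (s : Fin k → ℝ) (c : ℝ) :
    ((AddCircle.toCircle (c : UnitAddCircle) : Circle) : ℂ) • vec ρ s = vec ρ fun j => s j - c := by
  ext j
  show ((AddCircle.toCircle (c : UnitAddCircle) : Circle) : ℂ) * (((√(ρ.1 j) : ℝ) : ℂ) *
    Complex.exp (((-(2 * Real.pi * s j) : ℝ) : ℂ) * Complex.I)) = ((√(ρ.1 j) : ℝ) : ℂ) *
    Complex.exp (((-(2 * Real.pi * (s j - c)) : ℝ) : ℂ) * Complex.I)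
  rw [AddCircle.toCircle_apply_mk, Circle.coe_exp, mul_left_comm, ← Complex.exp_add]
  congr 2
  push_cast
  ring

theorem exists_descent {Y : Type} [TopologicalSpace Y]
    (G : stdSimplex ℝ (Fin k) × (Fin k → ℝ) → Y) (hG : Continuous G)
    (hinv : ∀ (ρ : stdSimplex ℝ (Fin k)) (s s' : Fin k → ℝ),
      (∀ j, ρ.1 j ≠ 0 → ∃ z : ℤ, s' j = s j + z) → G (ρ, s') = G (ρ, s)) :
    ∃ F : C(Metric.sphere (0 : V k) 1, Y), ∀ ρ s, F ⟨vec ρ s, vec_mem ρ s⟩ = G (ρ, s) := by
  choose ρ0 s0 h0 using vec_surj (k := k)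
  have key : ∀ ρ s, G (ρ0 ⟨vec ρ s, vec_mem ρ s⟩, fun j => s0 ⟨vec ρ s, vec_mem ρ s⟩ j) =
      G (ρ, s) := by
    intro ρ s
    obtain ⟨h1, h2⟩ := vec_inj (h0 ⟨vec ρ s, vec_mem ρ s⟩).symm
    rw [h1]
    exact hinv ρ s _ h2
  let ι : stdSimplex ℝ (Fin k) × (Fin k → Icc (-1 : ℝ) 1) → stdSimplex ℝ (Fin k) × (Fin k → ℝ) :=
    fun p => (p.1, fun j => p.2 j)
  have hι : Continuous ι := by
    refine continuous_fst.prodMk (continuous_pi fun j => ?_)
    exact continuous_subtype_val.comp ((continuous_apply j).comp continuous_snd)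
  let π : stdSimplex ℝ (Fin k) × (Fin k → Icc (-1 : ℝ) 1) → Metric.sphere (0 : V k) 1 :=
    fun p => ⟨vec (ι p).1 (ι p).2, vec_mem _ _⟩
  have hπ : Continuous π := (vec_cont.comp hι).subtype_mk _
  have hs : Function.Surjective π := fun z => ⟨(ρ0 z, s0 z), Subtype.ext (h0 z)⟩
  have hq : IsQuotientMap π := hπ.isClosedMap.isQuotientMap hπ hs
  refine ⟨⟨fun z => G (ρ0 z, fun j => s0 z j), hq.continuous_iff.2 ?_⟩, key⟩
  have : ((fun z => G (ρ0 z, fun j => s0 z j)) ∘ π) = G ∘ ι := funext fun p => key _ _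
  rw [this]
  exact hG.comp hι

end Pack

theorem exists_sphere_map {n k : ℕ} {Hs : V n → ℝ} (hc : Continuous Hs) (h0 : ∀ u, 0 ≤ Hs u)
    (hom : ∀ t : ℝ, 0 ≤ t → ∀ u, Hs (t • u) = t ^ 2 * Hs u) {τ : ℝ} (hτ : 0 < τ)
    (U : stdSimplex ℝ (Fin k) × (Fin k → ℝ) → ℝ → V n) {B : ℝ}
    (hmeas : ∀ p, Measurable (U p)) (hB : ∀ p t, ‖U p t‖ ≤ B)
    (hper : ∀ p t, U p (t + τ) = U p t)
    (hcont : ∀ p, ∀ᵐ t, ContinuousAt (fun q => U q t) p)
    (hinv : ∀ (ρ : stdSimplex ℝ (Fin k)) (s s' : Fin k → ℝ),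
      (∀ j, ρ.1 j ≠ 0 → ∃ z : ℤ, s' j = s j + z) → U (ρ, s') = U (ρ, s))
    (heq : ∀ (ρ : stdSimplex ℝ (Fin k)) (s : Fin k → ℝ) (c t : ℝ),
      U (ρ, fun j => s j + c) (t + τ * c) = U (ρ, s) t)
    (hmean : ∀ p, ∫ t in (0 : ℝ)..τ, U p t = 0)
    (hneg : ∀ p, ∫ t in (0 : ℝ)..τ, Hs ((-Complex.I) • U p t) <
      (1 / 2) * ∫ t in (0 : ℝ)..τ, om (∫ σ in (0 : ℝ)..t, U p σ) (U p t)) :
    ∃ F : C(Metric.sphere (0 : V k) 1, Loop n),
      (∀ z, prim (F z) 1 = 0 ∧ action (F z) = 1 ∧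
        ∫ t in (0 : ℝ)..1, Hs ((-Complex.I) • F z (t : UnitAddCircle)) < τ) ∧
      ∀ (θ : UnitAddCircle) (z z' : Metric.sphere (0 : V k) 1),
        (z' : V k) = ((θ.toCircle : Circle) : ℂ) • (z : V k) → F z' = shift θ (F z) := by
  have _hc := hc
  have hpos : ∀ p, 0 < Pack.area τ (U p) := fun p =>
    lt_of_le_of_lt (intervalIntegral.integral_nonneg hτ.le fun t _ => h0 _) (hneg p)
  have hA : Continuous fun p => Pack.area τ (U p) := Pack.area_cont hmeas hB hcont
  have hκ : Continuous fun p => (√(Pack.area τ (U p)))⁻¹ :=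
    hA.sqrt.inv₀ fun p => (Real.sqrt_pos.2 (hpos p)).ne'
  obtain ⟨F, hF⟩ := Pack.exists_descent
    (fun p => (√(Pack.area τ (U p)))⁻¹ • Pack.loopOf τ (U p))
    (hκ.smul (Pack.loop_cont hmeas hB hper hcont))
    (fun ρ s s' h => by simp only [hinv ρ s s' h])
  have hrep : ∀ z : Metric.sphere (0 : V k) 1,
      ∃ ρ s, z = ⟨Pack.vec ρ s, Pack.vec_mem ρ s⟩ := fun z => by
    obtain ⟨ρ, s, h⟩ := Pack.vec_surj z
    exact ⟨ρ, _, Subtype.ext h.symm⟩
  refine ⟨F, fun z => ?_, fun θ z z' hz => ?_⟩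
  · obtain ⟨ρ, s, rfl⟩ := hrep z
    rw [hF]
    obtain ⟨h1, h2, h3⟩ := Pack.vals hom hτ (hmeas (ρ, s)) (hB (ρ, s)) (hper (ρ, s))
      (κ := (√(Pack.area τ (U (ρ, s))))⁻¹) (by positivity)
    have hp := hpos (ρ, s)
    have hsq : (√(Pack.area τ (U (ρ, s))))⁻¹ ^ 2 = (Pack.area τ (U (ρ, s)))⁻¹ := by
      rw [inv_pow, Real.sq_sqrt hp.le]
    refine ⟨by rw [h1, hmean, smul_zero], by rw [h2, hsq, inv_mul_cancel₀ hp.ne'], ?_⟩
    rw [h3, hsq]
    have h4 : ∫ t in (0 : ℝ)..τ, Hs ((-Complex.I) • U (ρ, s) t) < Pack.area τ (U (ρ, s)) :=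
      hneg (ρ, s)
    calc (Pack.area τ (U (ρ, s)))⁻¹ * τ * ∫ t in (0 : ℝ)..τ, Hs ((-Complex.I) • U (ρ, s) t)
        < (Pack.area τ (U (ρ, s)))⁻¹ * τ * Pack.area τ (U (ρ, s)) :=
          mul_lt_mul_of_pos_left h4 (by positivity)
      _ = τ := by field_simp
  · obtain ⟨ρ, s, rfl⟩ := hrep z
    induction θ using QuotientAddGroup.induction_on with
    | H c =>
      have hz' : z' = ⟨Pack.vec ρ fun j => s j - c, Pack.vec_mem _ _⟩ :=
        Subtype.ext (hz.trans (Pack.vec_rot ρ s c))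
      have hU : U (ρ, fun j => s j - c) = fun t => U (ρ, s) (t + τ * c) := by
        funext t
        have := heq ρ (fun j => s j - c) c t
        simp only [sub_add_cancel] at this
        exact this.symm
      rw [hz', hF, hF]
      show (√(Pack.area τ (U (ρ, fun j => s j - c))))⁻¹ • Pack.loopOf τ (U (ρ, fun j => s j - c)) =
        shift (c : UnitAddCircle) ((√(Pack.area τ (U (ρ, s))))⁻¹ • Pack.loopOf τ (U (ρ, s)))
      rw [hU, Pack.area_shift (hmeas _) (hB _) (hper _) (hmean _)]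
      exact Pack.loopOf_shift (hmeas _) (hB _) (hper _) _ c

end Pool.Agent.Lib.MP_f78106_gt
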