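import Pool.Agent.Lib.MP_f78106_gt.Core
import Pool.Agent.Lib.MP_f78106_gt.Pack

/-!
Boundedness, symmetry and continuity of the perturbed family; the equivariant map from the sphere.
-/

namespace Pool.Agent.Lib.MP_f78106_gt

open MeasureTheory Set Filter Topology Function

namespace Core

variable {n : ℕ} {Hs : V n → ℝ} {γ γ' : ℝ → V n} {v : V n} {T M K C c0 : ℝ} {P : Par}

section One

variable {lam : ℕ → ℝ}

theorem mem_φ (O : Orbit Hs γ γ' v T M K C c0) (hl : ∀ i, 0 ≤ lam i) (s : ℕ → ℝ) (t : ℝ) :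
    φF T P lam s t ∈ Icc 0 T := ph_mem O.Tpos hl s _ _

theorem diff_e (O : Orbit Hs γ γ' v T M K C c0) (hl : ∀ i, 0 ≤ lam i) (s : ℕ → ℝ) (t t' : ℝ) :
    ‖eF γ γ' T P lam s t - eF γ γ' T P lam s t'‖ ≤ M * T + M * |t - t'| :=
  O.diff_bound (meas_φ T P lam s) (mem_φ O hl s) t t'

theorem sm_e (O : Orbit Hs γ γ' v T M K C c0) (hl : ∀ i, 0 ≤ lam i) (s : ℕ → ℝ) :
    StronglyMeasurable (eF γ γ' T P lam s) :=
  (Orbit.bm_comp O.contγ (meas_φ T P lam s) (mem_φ O hl s)).sm.sub
    (intervalIntegral.continuous_primitive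
      (Orbit.bm_comp O.hc (meas_φ T P lam s) (mem_φ O hl s)).ii 0).stronglyMeasurable

theorem lap_eq (h : ℝ) (e : ℝ → V n) (t : ℝ) :
    lap h e t = (e t - e (t + h)) + (e t - e (t - h)) := by
  simp only [lap, two_smul]; abel

theorem norm_UF (O : Orbit Hs γ γ' v T M K C c0) (G : Good T M K C c0 P) (hl : ∀ i, 0 ≤ lam i)
    (s : ℕ → ℝ) (t : ℝ) :
    ‖UF γ γ' v T P lam s t‖ ≤ M + (P.s * (2 * (M * T + M * P.h)) + P.a0 * (8 * P.m / P.τ)) := by
  refine (norm_add_le _ _).trans (add_le_add (O.bd _ (mem_φ O hl s t))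
    ((norm_add_le _ _).trans (add_le_add ?_ ?_)))
  · have h1 := diff_e (P := P) O hl s t (t + P.h)
    have h2 := diff_e (P := P) O hl s t (t - P.h)
    rw [sub_add_cancel_left, abs_neg, abs_of_pos G.hpos] at h1
    rw [sub_sub_cancel, abs_of_pos G.hpos] at h2
    have h3 : ‖lap P.h (eF γ γ' T P lam s) t‖ ≤ 2 * (M * T + M * P.h) := by
      rw [lap_eq]
      exact (norm_add_le _ _).trans (by linarith)
    rw [yv, norm_smul, norm_smul, norm_neg, Real.norm_of_nonneg G.spos.le, Complex.norm_I, one_mul]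
    exact mul_le_mul_of_nonneg_left h3 G.spos.le
  · rw [norm_smul, norm_smul, O.unit, mul_one, Real.norm_of_nonneg (aF_mem G lam s).1]
    exact mul_le_mul (aF_mem G lam s).2 (norm_wD_le (τpos O G) _ _ _ _ _) (norm_nonneg _) G.a0nn

theorem meas_UF (O : Orbit Hs γ γ' v T M K C c0) (G : Good T M K C c0 P) (hl : ∀ i, 0 ≤ lam i)
    (s : ℕ → ℝ) : Measurable (UF γ γ' v T P lam s) := by
  have he := sm_e (P := P) O hl s
  have h1 : StronglyMeasurable (lap P.h (eF γ γ' T P lam s)) :=
    ((he.const_smul (2 : ℝ)).sub (he.comp_measurable (measurable_id.add_const P.h))).sub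
      (he.comp_measurable (measurable_id.sub_const P.h))
  have h2 : StronglyMeasurable (yv P.s P.h (eF γ γ' T P lam s)) :=
    (h1.const_smul Complex.I).const_smul (-P.s)
  exact ((Orbit.bm_comp O.hc (meas_φ T P lam s) (mem_φ O hl s)).sm.add
    (h2.add ((((bm_wD (τpos O G) lam s).smulv v).rsmul _).sm))).measurable

theorem per_e (O : Orbit Hs γ γ' v T M K C c0) (G : Good T M K C c0 P) (hl : ∀ i, 0 ≤ lam i)
    (hsum : ∑ i ∈ Finset.range P.k, lam i = (1 - P.ε) * P.k) (s : ℕ → ℝ) :
    Periodic (eF γ γ' T P lam s) P.τ := fun t => by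
  have pφ := per_φ (T := T) (τpos O G) lam s
  have := prim_periodic (f := fun t => γ' (φF T P lam s t)) (fun t => by simp only [pφ t])
    (Orbit.bm_comp O.hc (meas_φ T P lam s) (mem_φ O hl s)).ii (neg O G hl hsum s).1 t
  simp only at this
  simp only [eF, pφ t, this]

theorem per_UF (O : Orbit Hs γ γ' v T M K C c0) (G : Good T M K C c0 P) (hl : ∀ i, 0 ≤ lam i)
    (hsum : ∑ i ∈ Finset.range P.k, lam i = (1 - P.ε) * P.k) (s : ℕ → ℝ) (t : ℝ) :
    UF γ γ' v T P lam s (t + P.τ) = UF γ γ' v T P lam s t := by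
  simp only [UF, per_φ (T := T) (τpos O G) lam s t, yv_periodic (per_e O G hl hsum s) P.s P.h t,
    wD_add_period (τpos O G)]

theorem congr_UF (G : Good T M K C c0 P) {s s' : ℕ → ℝ}
    (h : ∀ i < P.k, lam i ≠ 0 → ∃ z : ℤ, s' i = s i + z) :
    UF γ γ' v T P lam s' = UF γ γ' v T P lam s := by
  have h1 : φF T P lam s' = φF T P lam s := by
    ext t; simp only [φF, ph_congr T lam s s' P.k h]
  have h2 : eF γ γ' T P lam s' = eF γ γ' T P lam s := by
    ext1 t; simp only [eF, h1]
  have h3 : aF γ γ' T P lam s' = aF γ γ' T P lam s := by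
    simp only [aF, GF, dF, h2]
  have h4 := wD_congr P.τ P.m P.N lam s s' fun i hi => h i (hi.trans_le G.Nk)
  ext1 t
  simp only [UF, h1, h2, h3, h4]

theorem shift_UF (O : Orbit Hs γ γ' v T M K C c0) (G : Good T M K C c0 P) (hl : ∀ i, 0 ≤ lam i)
    (hsum : ∑ i ∈ Finset.range P.k, lam i = (1 - P.ε) * P.k) (s : ℕ → ℝ) (c t : ℝ) :
    UF γ γ' v T P lam (fun i => s i + c) (t + P.τ * c) = UF γ γ' v T P lam s t := by
  have hτ := τpos O G
  have h1 : ∀ t, φF T P lam (fun i => s i + c) (t + P.τ * c) = φF T P lam s t := fun t => by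
    unfold φF
    rw [add_div, mul_div_cancel_left₀ _ hτ.ne', ph_shift]
  have b' := Orbit.bm_comp O.hc (meas_φ T P lam fun i => s i + c) (mem_φ O hl _)
  have h2 : ∀ t, eF γ γ' T P lam (fun i => s i + c) (t + P.τ * c) = eF γ γ' T P lam s t -
      ∫ σ in (0 : ℝ)..P.τ * c, γ' (φF T P lam (fun i => s i + c) σ) := fun t => by
    have a1 := intervalIntegral.integral_comp_add_right (a := 0) (b := t)
      (fun σ => γ' (φF T P lam (fun i => s i + c) σ)) (P.τ * c)
    simp only [h1, zero_add] at a1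
    simp only [eF, h1]
    rw [← intervalIntegral.integral_add_adjacent_intervals (b'.ii 0 (P.τ * c))
      (b'.ii (P.τ * c) (t + P.τ * c)), a1]
    abel
  have h3 : dF γ γ' T P lam (fun i => s i + c) = dF γ γ' T P lam s := by
    have pe := per_e O G hl hsum fun i => s i + c
    unfold dF
    rw [← shift_int (f := fun t => ‖eF γ γ' T P lam (fun i => s i + c) (t + P.h) -
      eF γ γ' T P lam (fun i => s i + c) t‖ ^ 2) (fun t => by
        simp only [pe t]
        rw [add_right_comm, pe]) (P.τ * c)]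
    refine intervalIntegral.integral_congr fun t _ => ?_
    rw [add_right_comm, h2, h2, sub_sub_sub_cancel_right]
  have h4 : aF γ γ' T P lam (fun i => s i + c) = aF γ γ' T P lam s := by
    simp only [aF, GF, h3]
  have h5 : yv P.s P.h (eF γ γ' T P lam fun i => s i + c) (t + P.τ * c) =
      yv P.s P.h (eF γ γ' T P lam s) t := by
    simp only [yv, lap_eq]
    rw [add_right_comm t, show t + P.τ * c - P.h = t - P.h + P.τ * c by ring, h2, h2, h2,
      sub_sub_sub_cancel_right, sub_sub_sub_cancel_right]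
  simp only [UF, h1, h4, h5, wD_shift hτ]

end One

section Param

variable {X : Type} [TopologicalSpace X] [FirstCountableTopology X] {lam s : X → ℕ → ℝ}

theorem cont_e (O : Orbit Hs γ γ' v T M K C c0) (G : Good T M K C c0 P)
    (hlc : ∀ i, Continuous fun q => lam q i) (hsc : ∀ i, Continuous fun q => s q i)
    (hl : ∀ q i, 0 ≤ lam q i)
    (hsum : ∀ q, ∑ i ∈ Finset.range P.k, lam q i = (1 - P.ε) * P.k) (p : X) :
    (∀ᵐ t, ContinuousAt (fun q => φF T P (lam q) (s q) t) p) ∧
      ∀ᵐ t, ContinuousAt (fun q => eF γ γ' T P (lam q) (s q) t) p := by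
  have hτ := τpos O G
  obtain ⟨B, hB, hc⟩ := ph_continuousAt T lam s hlc hsc hl P.k p (hsum p ▸ lbpos G)
  have h1 : ∀ᵐ t, ContinuousAt (fun q => φF T P (lam q) (s q) t) p := by
    have hB' : ((fun t : ℝ => t / P.τ) ⁻¹' B).Countable :=
      hB.preimage_of_injOn (fun a _ b _ hab => (div_left_inj' hτ.ne').mp hab)
    filter_upwards [compl_mem_ae_iff.mpr (hB'.measure_zero volume)] with t ht
    exact ContinuousAt.comp (f := fun q : X => (q, t / P.τ)) (hc _ ht)
      (continuous_id.prodMk continuous_const).continuousAt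
  refine ⟨h1, ?_⟩
  have h2 : ∀ t, ContinuousAt (fun q => ∫ σ in (0 : ℝ)..t, γ' (φF T P (lam q) (s q) σ)) p := by
    intro t
    refine intervalIntegral.continuousAt_of_dominated_interval (bound := fun _ => M)
      (Eventually.of_forall fun q => (Orbit.bm_comp O.hc (meas_φ T P _ _)
        (mem_φ O (hl q) _)).sm.aestronglyMeasurable)
      (Eventually.of_forall fun q => Eventually.of_forall fun σ _ => O.bd _ (mem_φ O (hl q) _ σ))
      intervalIntegrable_const ?_
    filter_upwards [h1] with σ hσ _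
    exact O.hc.continuousAt.comp hσ
  filter_upwards [h1] with t ht
  exact (O.contγ.continuousAt.comp ht).sub (h2 t)

theorem cont_UF (O : Orbit Hs γ γ' v T M K C c0) (G : Good T M K C c0 P)
    (hlc : ∀ i, Continuous fun q => lam q i) (hsc : ∀ i, Continuous fun q => s q i)
    (hl : ∀ q i, 0 ≤ lam q i)
    (hsum : ∀ q, ∑ i ∈ Finset.range P.k, lam q i = (1 - P.ε) * P.k) (p : X) :
    ∀ᵐ t, ContinuousAt (fun q => UF γ γ' v T P (lam q) (s q) t) p := by
  have hτ := τpos O G
  obtain ⟨h1, h2⟩ := cont_e O G hlc hsc hl hsum p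
  have h3 : ∀ᵐ t, ContinuousAt (fun q => eF γ γ' T P (lam q) (s q) (t + P.h)) p :=
    (measurePreserving_add_right volume P.h).quasiMeasurePreserving.ae h2
  have h4 : ∀ᵐ t, ContinuousAt (fun q => eF γ γ' T P (lam q) (s q) (t - P.h)) p :=
    (measurePreserving_sub_right volume P.h).quasiMeasurePreserving.ae h2
  have h5 : ContinuousAt (fun q => dF γ γ' T P (lam q) (s q)) p := by
    refine intervalIntegral.continuousAt_of_dominated_interval
      (bound := fun _ => (M * T + M * P.h) ^ 2) (Eventually.of_forall fun q => ?_)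
      (Eventually.of_forall fun q => Eventually.of_forall fun σ _ => ?_)
      intervalIntegrable_const ?_
    · have he := sm_e (P := P) O (hl q) (s q)
      exact ((((he.comp_measurable (measurable_id.add_const P.h)).sub he).norm).pow 2
        ).aestronglyMeasurable
    · have := diff_e (P := P) O (hl q) (s q) (σ + P.h) σ
      rw [add_sub_cancel_left, abs_of_pos G.hpos] at this
      rw [Real.norm_of_nonneg (sq_nonneg _)]
      exact pow_le_pow_left₀ (norm_nonneg _) this 2
    · filter_upwards [h2, h3] with σ a1 a2 _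
      exact (a2.sub a1).norm.pow 2
  have h6 : ContinuousAt (fun q => aF γ γ' T P (lam q) (s q)) p := by
    have a1 : Continuous fun q => ∑ i ∈ Finset.range P.k, (lam q i - (1 - P.ε)) ^ 2 :=
      continuous_finsetSum _ fun i _ => ((hlc i).sub continuous_const).pow 2
    have a2 : ContinuousAt (fun q => GF γ γ' T P (lam q) (s q)) p :=
      (continuousAt_const.mul a1.continuousAt).add (continuousAt_const.mul h5)
    exact continuousAt_const.mul (continuousAt_const.max (continuousAt_const.min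
      ((continuousAt_const.sub a2).div_const _)))
  have h7 : ∀ᵐ t, ContinuousAt
      (fun q => aF γ γ' T P (lam q) (s q) • wD P.τ P.m P.N (lam q) (s q) t • v) p := by
    by_cases h4 : 4 * (P.ε * P.k * T) ≤ GF γ γ' T P (lam p) (s p)
    · refine Eventually.of_forall fun t => ?_
      have z := aF_zero O G h4
      unfold ContinuousAt at h6 ⊢
      simp only [z, zero_smul] at h6 ⊢
      refine squeeze_zero_norm (a := fun q => ‖aF γ γ' T P (lam q) (s q)‖ * (8 * P.m / P.τ))
        (fun q => ?_) (by simpa using h6.norm.mul_const (8 * P.m / P.τ))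
      rw [norm_smul, norm_smul, O.unit, mul_one]
      exact mul_le_mul_of_nonneg_left (norm_wD_le hτ _ _ _ _ _) (norm_nonneg _)
    · have := wD_continuousAt hτ P.m P.N lam s hlc hsc p
        (exists_ne_zero G.Nk G.εle G.N8 (var_lt O G (not_le.mp h4)))
      filter_upwards [this] with t ht
      exact h6.smul (ht.smul continuousAt_const)
  filter_upwards [h1, h2, h3, h4, h7] with t a1 a2 a3 a4 a7
  refine (O.hc.continuousAt.comp a1).add (ContinuousAt.add ?_ a7)
  exact ((((a2.const_smul (2 : ℝ)).sub a3).sub a4).const_smul Complex.I).const_smul (-P.s)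

end Param

/-- Extension by zero of a finite vector. -/
def ext0 {k : ℕ} (f : Fin k → ℝ) (j : ℕ) : ℝ := if h : j < k then f ⟨j, h⟩ else 0

theorem sphere_map (O : Orbit Hs γ γ' v T M K C c0) (G : Good T M K C c0 P)
    (h0 : ∀ u, 0 ≤ Hs u) (hom : ∀ t : ℝ, 0 ≤ t → ∀ u, Hs (t • u) = t ^ 2 * Hs u) :
    ∃ F : C(Metric.sphere (0 : V P.k) 1, Loop n),
      (∀ z, prim (F z) 1 = 0 ∧ action (F z) = 1 ∧
        ∫ t in (0 : ℝ)..1, Hs ((-Complex.I) • F z (t : UnitAddCircle)) < P.τ) ∧
      ∀ (θ : UnitAddCircle) (z z' : Metric.sphere (0 : V P.k) 1),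
        (z' : V P.k) = ((θ.toCircle : Circle) : ℂ) • (z : V P.k) → F z' = shift θ (F z) := by
  set lam : stdSimplex ℝ (Fin P.k) → ℕ → ℝ :=
    fun ρ j => (1 - P.ε) * P.k * ext0 ρ.1 j with hlam
  have hl : ∀ ρ i, 0 ≤ lam ρ i := fun ρ i => mul_nonneg (lbpos G).le (by
    unfold ext0
    split_ifs
    · exact ρ.2.1 _
    · exact le_rfl)
  have hsum : ∀ ρ, ∑ i ∈ Finset.range P.k, lam ρ i = (1 - P.ε) * P.k := fun ρ => by
    simp only [hlam]
    rw [← Finset.mul_sum, Finset.sum_range]
    simp only [ext0, Fin.is_lt, dif_pos, Fin.eta]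
    rw [ρ.2.2, mul_one]
  have cext : ∀ i, Continuous fun f : Fin P.k → ℝ => ext0 f i := fun i => by
    unfold ext0
    split_ifs
    · exact continuous_apply _
    · exact continuous_const
  refine exists_sphere_map O.contH h0 hom (τpos O G)
    (fun p => UF γ γ' v T P (lam p.1) (ext0 p.2)) (fun p => meas_UF O G (hl p.1) _)
    (fun p t => norm_UF O G (hl p.1) _ t) (fun p t => per_UF O G (hl p.1) (hsum p.1) _ t)
    (fun p => cont_UF O G (lam := fun q : stdSimplex ℝ (Fin P.k) × (Fin P.k → ℝ) => lam q.1)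
      (s := fun q => ext0 q.2)
      (fun i => continuous_const.mul ((cext i).comp (continuous_subtype_val.comp continuous_fst)))
      (fun i => (cext i).comp continuous_snd) (fun q => hl q.1) (fun q => hsum q.1) p)
    (fun ρ s s' h => congr_UF G fun i hi hne => ?_) (fun ρ s c t => ?_)
    (fun p => (neg O G (hl p.1) (hsum p.1) _).2.1) (fun p => (neg O G (hl p.1) (hsum p.1) _).2.2)
  · simp only [ext0, hi, dif_pos]
    refine h ⟨i, hi⟩ fun h' => hne ?_
    simp only [hlam, ext0, hi, dif_pos, h', mul_zero]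
  · simp only
    rw [congr_UF G (s := fun i => ext0 s i + c) (fun i hi _ => ⟨0, by simp [ext0, hi]⟩)]
    exact shift_UF O G (hl ρ) (hsum ρ) _ c t

end Core

end Pool.Agent.Lib.MP_f78106_gt
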