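import Pool.Agent.Lib.MP_f78106_gt.Wave1

/-!
The slow wave: elementary properties and the area estimate.
-/

namespace Pool.Agent.Lib.MP_f78106_gt

open MeasureTheory Set Filter Topology
open scoped Real

namespace Wave

theorem wF_eq (τ : ℝ) (m N : ℕ) (ρ s : ℕ → ℝ) (t : ℝ) :
    wF τ m N ρ s t = uu (wf τ m N ρ s t) := rfl

theorem continuous_wf (τ : ℝ) (m N : ℕ) (ρ s : ℕ → ℝ) : Continuous (wf τ m N ρ s) := by
  unfold wf
  fun_prop

theorem ii_of_bdd {E : Type} [NormedAddCommGroup E] {f : ℝ → E}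
    (hf : AEStronglyMeasurable f volume) {C : ℝ} (hC : ∀ t, ‖f t‖ ≤ C) (a b : ℝ) :
    IntervalIntegrable f volume a b :=
  (intervalIntegrable_const (c := C)).mono_fun' hf.restrict (Eventually.of_forall hC)

theorem wf_period {τ : ℝ} (hτ : 0 < τ) (m N : ℕ) (ρ s : ℕ → ℝ) (t : ℝ) :
    wf τ m N ρ s (t + τ) = wf τ m N ρ s t := by
  unfold wf
  refine Finset.sum_congr rfl fun j _ => ?_
  congr 1
  rw [Complex.exp_eq_exp_iff_exists_int]
  refine ⟨(m + j : ℕ), ?_⟩
  rw [add_div, div_self hτ.ne']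
  push_cast
  ring

theorem wf_shift {τ : ℝ} (hτ : 0 < τ) (m N : ℕ) (ρ s : ℕ → ℝ) (c t : ℝ) :
    wf τ m N ρ (fun i => s i + c) (t + τ * c) = wf τ m N ρ s t := by
  unfold wf
  refine Finset.sum_congr rfl fun j _ => ?_
  have : (t + τ * c) / τ - (s j + c) = t / τ - s j := by field_simp; ring
  rw [this]

theorem wf_congr (τ : ℝ) (m N : ℕ) (ρ s s' : ℕ → ℝ)
    (h : ∀ i < N, ρ i ≠ 0 → ∃ z : ℤ, s' i = s i + z) : wf τ m N ρ s' = wf τ m N ρ s := by
  funext t
  unfold wf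
  refine Finset.sum_congr rfl fun j hj => ?_
  rcases eq_or_ne (ρ j) 0 with h0 | h0
  · simp [h0]
  · obtain ⟨z, hz⟩ := h j (Finset.mem_range.1 hj) h0
    congr 1
    rw [Complex.exp_eq_exp_iff_exists_int]
    refine ⟨-((m + j : ℕ) * z), ?_⟩
    rw [hz]
    push_cast
    ring

theorem wf_ne {τ : ℝ} (hτ : 0 < τ) (m N : ℕ) (ρ s : ℕ → ℝ) (hρ : ∃ i < N, ρ i ≠ 0) (σ : ℝ) :
    ∀ᵐ t, wf τ m N ρ s (t + σ) ≠ 0 := by
  obtain ⟨d, k, a, -, hk, h⟩ := wf_factor τ m N ρ s hρ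
  filter_upwards [(ze_countable hτ (countable_range a) σ).ae_notMem volume] with t ht
  rw [h]
  refine mul_ne_zero (pow_ne_zero _ (norm_ne_zero_iff.1 (by rw [norm_ze]; simp)))
    (mul_ne_zero hk (Finset.prod_ne_zero_iff.2 fun i _ => sub_ne_zero.2 fun e => ht ⟨i, e.symm⟩))

end Wave

open Wave

theorem measurable_wF (τ : ℝ) (m N : ℕ) (ρ s : ℕ → ℝ) : Measurable (wF τ m N ρ s) :=
  measurable_uu.comp (continuous_wf τ m N ρ s).measurable

theorem norm_wF_le (τ : ℝ) (m N : ℕ) (ρ s : ℕ → ℝ) (t : ℝ) : ‖wF τ m N ρ s t‖ ≤ 1 :=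
  norm_uu_le _

theorem Wave.ii_wF (τ : ℝ) (m N : ℕ) (ρ s : ℕ → ℝ) (a b : ℝ) :
    IntervalIntegrable (wF τ m N ρ s) volume a b :=
  ii_of_bdd (measurable_wF τ m N ρ s).aestronglyMeasurable (norm_wF_le τ m N ρ s) a b

theorem measurable_wD (τ : ℝ) (m N : ℕ) (ρ s : ℕ → ℝ) : Measurable (wD τ m N ρ s) := by
  have h := measurable_wF τ m N ρ s
  unfold wD
  exact ((h.comp (measurable_add_const _)).sub h).const_smul (4 * m / τ : ℝ)

theorem norm_wW_le {τ : ℝ} (hτ : 0 < τ) {m : ℕ} (hm : 0 < m) (N : ℕ) (ρ s : ℕ → ℝ) (t : ℝ) :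
    ‖wW τ m N ρ s t‖ ≤ 1 := by
  have hm' : (0 : ℝ) < m := by exact_mod_cast hm
  unfold wW
  rw [norm_smul, Real.norm_of_nonneg (by positivity)]
  refine (mul_le_mul_of_nonneg_left (intervalIntegral.norm_integral_le_of_norm_le_const
    fun x _ => norm_wF_le τ m N ρ s x) (by positivity)).trans (le_of_eq ?_)
  rw [add_sub_cancel_left, abs_of_pos (by positivity)]
  field_simp

theorem norm_wD_le {τ : ℝ} (hτ : 0 < τ) (m N : ℕ) (ρ s : ℕ → ℝ) (t : ℝ) :
    ‖wD τ m N ρ s t‖ ≤ 8 * m / τ := by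
  unfold wD
  rw [norm_smul, Real.norm_of_nonneg (by positivity)]
  have h := (norm_sub_le _ _).trans
    (add_le_add (norm_wF_le τ m N ρ s (t + τ / (4 * m))) (norm_wF_le τ m N ρ s t))
  refine (mul_le_mul_of_nonneg_left h (by positivity)).trans (le_of_eq ?_)
  ring

theorem wW_sub (τ : ℝ) (m N : ℕ) (ρ s : ℕ → ℝ) (t t' : ℝ) :
    wW τ m N ρ s t - wW τ m N ρ s t' = ∫ σ in t'..t, wD τ m N ρ s σ := by
  unfold wW wD
  have h1 : IntervalIntegrable (fun σ => wF τ m N ρ s (σ + τ / (4 * m))) volume t' t :=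
    ii_of_bdd ((measurable_wF τ m N ρ s).comp (measurable_add_const _)).aestronglyMeasurable
      (fun σ => norm_wF_le τ m N ρ s _) _ _
  rw [intervalIntegral.integral_smul, ← smul_sub,
    intervalIntegral.integral_sub h1 (ii_wF τ m N ρ s _ _),
    intervalIntegral.integral_comp_add_right (wF τ m N ρ s),
    intervalIntegral.integral_interval_sub_interval_comm' (ii_wF τ m N ρ s _ _)
      (ii_wF τ m N ρ s _ _) (ii_wF τ m N ρ s _ _)]

theorem Wave.wF_period {τ : ℝ} (hτ : 0 < τ) (m N : ℕ) (ρ s : ℕ → ℝ) (t : ℝ) :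
    wF τ m N ρ s (t + τ) = wF τ m N ρ s t := by
  rw [wF_eq, wF_eq, wf_period hτ]

theorem wW_add_period {τ : ℝ} (hτ : 0 < τ) (m N : ℕ) (ρ s : ℕ → ℝ) (t : ℝ) :
    wW τ m N ρ s (t + τ) = wW τ m N ρ s t := by
  unfold wW
  rw [add_right_comm, ← intervalIntegral.integral_comp_add_right (wF τ m N ρ s)]
  simp only [wF_period hτ]

theorem wD_add_period {τ : ℝ} (hτ : 0 < τ) (m N : ℕ) (ρ s : ℕ → ℝ) (t : ℝ) :
    wD τ m N ρ s (t + τ) = wD τ m N ρ s t := by
  unfold wD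
  rw [add_right_comm, wF_period hτ, wF_period hτ]

theorem wD_shift {τ : ℝ} (hτ : 0 < τ) (m N : ℕ) (ρ s : ℕ → ℝ) (c t : ℝ) :
    wD τ m N ρ (fun i => s i + c) (t + τ * c) = wD τ m N ρ s t := by
  unfold wD
  rw [add_right_comm, wF_eq, wF_eq, wf_shift hτ, wf_shift hτ, wF_eq, wF_eq]

theorem wD_congr (τ : ℝ) (m N : ℕ) (ρ s s' : ℕ → ℝ)
    (h : ∀ i < N, ρ i ≠ 0 → ∃ z : ℤ, s' i = s i + z) : wD τ m N ρ s' = wD τ m N ρ s := by
  funext t
  unfold wD
  simp only [wF_eq, wf_congr τ m N ρ s s' h]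

theorem wD_continuousAt {X : Type} [TopologicalSpace X] {τ : ℝ} (hτ : 0 < τ) (m N : ℕ)
    (ρ s : X → ℕ → ℝ) (hρ : ∀ i, Continuous fun q => ρ q i) (hs : ∀ i, Continuous fun q => s q i)
    (p : X) (hp : ∃ i < N, ρ p i ≠ 0) :
    ∀ᵐ t, ContinuousAt (fun q => wD τ m N (ρ q) (s q) t) p := by
  have hc : ∀ t, Continuous fun q => wf τ m N (ρ q) (s q) t := by
    intro t
    unfold wf
    refine continuous_finsetSum _ fun j _ => ?_
    have h1 := hρ j
    have h2 := hs j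
    fun_prop
  have key : ∀ t, wf τ m N (ρ p) (s p) t ≠ 0 →
      ContinuousAt (fun q => wF τ m N (ρ q) (s q) t) p := fun t ht =>
    ContinuousAt.comp (f := fun q => wf τ m N (ρ q) (s q) t) (continuousAt_uu ht)
      (hc t).continuousAt
  filter_upwards [wf_ne hτ m N (ρ p) (s p) hp 0, wf_ne hτ m N (ρ p) (s p) hp (τ / (4 * m))]
    with t h1 h2
  rw [add_zero] at h1
  exact ((key _ h2).sub (key _ h1)).const_smul (4 * m / τ : ℝ)

namespace Wave

/-- The defect of the wave against the carrier. -/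
noncomputable def df (τ : ℝ) (m N : ℕ) (ρ s : ℕ → ℝ) (t σ : ℝ) : ℂ :=
  wF τ m N ρ s (t + σ) - ze τ σ ^ (2 * m) * wF τ m N ρ s t

theorem measurable_df (τ : ℝ) (m N : ℕ) (ρ s : ℕ → ℝ) :
    Measurable fun p : ℝ × ℝ => df τ m N ρ s p.1 p.2 := by
  have h := measurable_wF τ m N ρ s
  have h2 := (continuous_ze τ).measurable
  unfold df
  exact (h.comp (measurable_fst.add measurable_snd)).sub
    (((h2.comp measurable_snd).pow_const _).mul (h.comp measurable_fst))

theorem norm_df_le (τ : ℝ) (m N : ℕ) (ρ s : ℕ → ℝ) (t σ : ℝ) : ‖df τ m N ρ s t σ‖ ≤ 2 := by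
  unfold df
  refine (norm_sub_le _ _).trans ?_
  rw [norm_mul, norm_pow, norm_ze, one_pow, one_mul]
  linarith [norm_wF_le τ m N ρ s (t + σ), norm_wF_le τ m N ρ s t]

theorem ii_df1 (τ : ℝ) (m N : ℕ) (ρ s : ℕ → ℝ) (σ a b : ℝ) :
    IntervalIntegrable (fun t => ‖df τ m N ρ s t σ‖) volume a b :=
  ii_of_bdd ((measurable_df τ m N ρ s).comp
    (measurable_id.prodMk measurable_const)).norm.aestronglyMeasurable
    (fun t => by rw [norm_norm]; exact norm_df_le τ m N ρ s t σ) a b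

theorem ii_df2 (τ : ℝ) (m N : ℕ) (ρ s : ℕ → ℝ) (t a b : ℝ) :
    IntervalIntegrable (fun σ => df τ m N ρ s t σ) volume a b :=
  ii_of_bdd ((measurable_df τ m N ρ s).comp
    (measurable_const.prodMk measurable_id)).aestronglyMeasurable
    (fun σ => norm_df_le τ m N ρ s t σ) a b

theorem df_int {τ : ℝ} (hτ : 0 < τ) (m N : ℕ) (ρ s : ℕ → ℝ) (hρ : ∃ i < N, ρ i ≠ 0) {σ : ℝ}
    (hσ : 0 ≤ σ) : ∫ t in (0 : ℝ)..τ, ‖df τ m N ρ s t σ‖ ≤ 4 * π * N * σ := by
  obtain ⟨d, k, a, hd, hk, h⟩ := wf_factor τ m N ρ s hρ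
  have hF : ∀ t, wF τ m N ρ s t = ze τ t ^ (2 * m) * (uu k * ∏ i, uu (ze τ t - a i)) := by
    intro t
    rw [wF_eq, h, uu_mul, uu_mul, uu_prod, uu_of_norm (by rw [norm_pow, norm_ze, one_pow]),
      ← pow_mul, mul_comm m 2]
  let B : ℝ → ℝ := fun t => ∑ i, 2 * π / τ * σ *
    (1 + (PP (a i) (ze τ (t + σ)) + PP (a i) (ze τ (t + 0))) / 2)
  have hB : ∀ i, Continuous fun t => 2 * π / τ * σ *
      (1 + (PP (a i) (ze τ (t + σ)) + PP (a i) (ze τ (t + 0))) / 2) := fun i =>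
    continuous_const.mul (continuous_const.add
      (((PP_ze_cont τ _ σ).add (PP_ze_cont τ _ 0)).div_const _))
  have hle : ∀ᵐ t, ‖df τ m N ρ s t σ‖ ≤ B t := by
    filter_upwards [(ze_countable hτ (countable_range a) σ).ae_notMem volume,
      (ze_countable hτ (countable_range a) 0).ae_notMem volume] with t h1 h2
    have e : df τ m N ρ s t σ = ze τ (t + σ) ^ (2 * m) * (uu k *
        (∏ i, uu (ze τ (t + σ) - a i) - ∏ i, uu (ze τ t - a i))) := by
      unfold df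
      rw [hF, hF, ze_add τ t σ, mul_pow]
      ring
    rw [e, norm_mul, norm_pow, norm_ze, one_pow, one_mul, norm_mul, norm_uu hk, one_mul]
    refine (norm_prod_sub _ _ _ (fun _ => norm_uu_le _) fun _ => norm_uu_le _).trans
      (Finset.sum_le_sum fun i _ => ?_)
    simp only [add_zero] at h1 h2 ⊢
    refine (factor_le (norm_ze _ _) (norm_ze _ _) (fun e => h1 ⟨i, e.symm⟩)
      fun e => h2 ⟨i, e.symm⟩).trans (mul_le_mul_of_nonneg_right (norm_ze_sub hτ t hσ) ?_)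
    have := PP_nonneg (a i) (ze τ (t + σ))
    have := PP_nonneg (a i) (ze τ t)
    positivity
  refine (intervalIntegral.integral_mono_ae hτ.le (ii_df1 τ m N ρ s σ _ _)
    ((continuous_finsetSum _ fun i _ => hB i).intervalIntegrable _ _) hle).trans ?_
  rw [intervalIntegral.integral_finsetSum fun i _ => (hB i).intervalIntegrable _ _]
  have hi : ∀ i, ∫ t in (0 : ℝ)..τ, 2 * π / τ * σ *
      (1 + (PP (a i) (ze τ (t + σ)) + PP (a i) (ze τ (t + 0))) / 2) ≤ 4 * π * σ := by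
    intro i
    have c1 := (PP_ze_cont τ (a i) σ).intervalIntegrable (μ := volume) 0 τ
    have c2 := (PP_ze_cont τ (a i) 0).intervalIntegrable (μ := volume) 0 τ
    rw [intervalIntegral.integral_const_mul,
      intervalIntegral.integral_add intervalIntegrable_const ((c1.add c2).div_const _),
      intervalIntegral.integral_div, intervalIntegral.integral_add c1 c2]
    have b1 := PP_ze_int hτ (a i) σ
    have b2 := PP_ze_int hτ (a i) 0
    refine (mul_le_mul_of_nonneg_left (c := 2 * τ) ?_ (show 0 ≤ 2 * π / τ * σ by positivity)).trans (le_of_eq ?_)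
    · simp only [intervalIntegral.integral_const, sub_zero, smul_eq_mul, mul_one]
      linarith
    · field_simp
      ring
  refine (Finset.sum_le_sum fun i _ => hi i).trans ?_
  rw [Finset.sum_const, Finset.card_univ, Fintype.card_fin, nsmul_eq_mul]
  have hd' : (d : ℝ) ≤ N := by exact_mod_cast hd
  have : 0 ≤ 4 * π * σ := by positivity
  nlinarith

theorem carrier {τ : ℝ} (m : ℕ) (σ : ℝ) :
    ze τ σ ^ (2 * m) = Complex.exp (((4 * π * m / τ : ℝ) : ℂ) * Complex.I * σ) := by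
  rw [ze_eq, ← Complex.exp_nat_mul]
  congr 1
  push_cast
  ring

theorem carrier_end {τ : ℝ} (hτ : 0 < τ) {m : ℕ} (hm : 0 < m) :
    ze τ (τ / (4 * m)) ^ (2 * m) = -1 := by
  have hm' : (m : ℂ) ≠ 0 := by exact_mod_cast hm.ne'
  have hτ' : (τ : ℂ) ≠ 0 := by exact_mod_cast hτ.ne'
  rw [carrier, ← Complex.exp_pi_mul_I]
  congr 1
  push_cast
  field_simp

theorem carrier_int {τ : ℝ} (hτ : 0 < τ) {m : ℕ} (hm : 0 < m) :
    (4 * m / τ : ℝ) • ∫ σ in (0 : ℝ)..τ / (4 * m), ze τ σ ^ (2 * m)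
      = ((2 / π : ℝ) : ℂ) * Complex.I := by
  have hm' : (m : ℂ) ≠ 0 := by exact_mod_cast hm.ne'
  have hτ' : (τ : ℂ) ≠ 0 := by exact_mod_cast hτ.ne'
  have hp : (π : ℂ) ≠ 0 := by exact_mod_cast Real.pi_ne_zero
  have hc : ((4 * π * m / τ : ℝ) : ℂ) * Complex.I ≠ 0 := by
    push_cast
    exact mul_ne_zero (div_ne_zero (mul_ne_zero (mul_ne_zero (by norm_num) hp) hm') hτ')
      Complex.I_ne_zero
  simp only [carrier]
  rw [integral_exp_mul_complex hc, ← carrier, carrier_end hτ hm, Complex.real_smul]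
  push_cast
  rw [mul_zero, Complex.exp_zero]
  field_simp
  rw [Complex.I_sq]
  ring

theorem wW_eq {τ : ℝ} (hτ : 0 < τ) {m : ℕ} (hm : 0 < m) (N : ℕ) (ρ s : ℕ → ℝ) (t : ℝ) :
    wW τ m N ρ s t = ((2 / π : ℝ) : ℂ) * Complex.I * wF τ m N ρ s t +
      (4 * m / τ : ℝ) • ∫ σ in (0 : ℝ)..τ / (4 * m), df τ m N ρ s t σ := by
  have c1 : IntervalIntegrable (fun σ => ze τ σ ^ (2 * m) * wF τ m N ρ s t) volume 0
      (τ / (4 * m)) := (((continuous_ze τ).pow _).mul continuous_const).intervalIntegrable _ _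
  rw [← carrier_int hτ hm, smul_mul_assoc, ← intervalIntegral.integral_mul_const, ← smul_add,
    ← intervalIntegral.integral_add c1 (ii_df2 τ m N ρ s t _ _)]
  unfold wW df
  simp only [add_sub_cancel]
  rw [intervalIntegral.integral_comp_add_left (wF τ m N ρ s), add_zero]

theorem wD_eq {τ : ℝ} (hτ : 0 < τ) {m : ℕ} (hm : 0 < m) (N : ℕ) (ρ s : ℕ → ℝ) (t : ℝ) :
    wD τ m N ρ s t = -((8 * m / τ : ℝ) : ℂ) * wF τ m N ρ s t +
      (4 * m / τ : ℝ) • df τ m N ρ s t (τ / (4 * m)) := by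
  unfold wD df
  rw [carrier_end hτ hm, Complex.real_smul, Complex.real_smul]
  push_cast
  ring

theorem im_lower {F W D X Y : ℂ} {p q : ℝ} (hF : ‖F‖ = 1) (hp : 0 ≤ p)
    (hW : W = (p : ℂ) * Complex.I * F + X) (hD : D = -(q : ℂ) * F + Y) (hDq : ‖D‖ ≤ q) :
    p * q - p * ‖Y‖ - ‖X‖ * q ≤ ((starRingEnd ℂ) W * D).im := by
  have h1 : (starRingEnd ℂ) F * F = 1 := by rw [Complex.conj_mul', hF]; simp
  have e : (starRingEnd ℂ) W * D = ((p * q : ℝ) : ℂ) * Complex.I +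
      (starRingEnd ℂ) ((p : ℂ) * Complex.I * F) * Y + (starRingEnd ℂ) X * D := by
    rw [hW, map_add, add_mul]
    congr 1
    rw [hD, mul_add]
    congr 1
    simp only [map_mul, Complex.conj_ofReal, Complex.conj_I]
    push_cast
    linear_combination (p : ℂ) * q * Complex.I * h1
  have b1 := (abs_le.1 (Complex.abs_im_le_norm
    ((starRingEnd ℂ) ((p : ℂ) * Complex.I * F) * Y))).1
  have b2 := (abs_le.1 (Complex.abs_im_le_norm ((starRingEnd ℂ) X * D))).1
  rw [norm_mul, Complex.norm_conj, norm_mul, norm_mul, hF, Complex.norm_I, Complex.norm_real,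
    Real.norm_of_nonneg hp, mul_one, mul_one] at b1
  rw [norm_mul, Complex.norm_conj] at b2
  have b3 := mul_le_mul_of_nonneg_left hDq (norm_nonneg X)
  rw [e, Complex.add_im, Complex.add_im]
  have : (((p * q : ℝ) : ℂ) * Complex.I).im = p * q := by simp
  linarith

theorem swap_int {τ L : ℝ} (hτ : 0 ≤ τ) (hL : 0 ≤ L) (f : ℝ → ℝ → ℝ)
    (hf : Measurable fun p : ℝ × ℝ => f p.1 p.2) {C : ℝ} (hC : ∀ t σ, ‖f t σ‖ ≤ C) :
    IntervalIntegrable (fun t => ∫ σ in (0 : ℝ)..L, f t σ) volume 0 τ ∧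
    IntervalIntegrable (fun σ => ∫ t in (0 : ℝ)..τ, f t σ) volume 0 L ∧
    ∫ t in (0 : ℝ)..τ, ∫ σ in (0 : ℝ)..L, f t σ = ∫ σ in (0 : ℝ)..L, ∫ t in (0 : ℝ)..τ, f t σ := by
  have hi : Integrable (Function.uncurry f)
      ((volume.restrict (Ioc 0 τ)).prod (volume.restrict (Ioc 0 L))) :=
    Integrable.of_bound hf.aestronglyMeasurable C (Eventually.of_forall fun p => hC p.1 p.2)
  simp only [intervalIntegral.integral_of_le hτ, intervalIntegral.integral_of_le hL,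
    intervalIntegrable_iff_integrableOn_Ioc_of_le hτ,
    intervalIntegrable_iff_integrableOn_Ioc_of_le hL]
  exact ⟨hi.integral_prod_left, hi.integral_prod_right, integral_integral_swap hi⟩

end Wave

theorem wave_area {τ : ℝ} (hτ : 0 < τ) {m N : ℕ} (hmN : 64 * N ≤ m) (ρ s : ℕ → ℝ)
    (hρ : ∃ i < N, ρ i ≠ 0) :
    4 * (m : ℝ) ≤ ∫ t in (0 : ℝ)..τ,
      ((starRingEnd ℂ) (wW τ m N ρ s t) * wD τ m N ρ s t).im := by
  have hm : 0 < m := by obtain ⟨i, hi, -⟩ := hρ; omega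
  have hm' : (0 : ℝ) < m := by exact_mod_cast hm
  have hL : 0 < τ / (4 * m) := by positivity
  obtain ⟨i1, i2, sw⟩ := swap_int hτ.le hL.le (fun t σ => ‖df τ m N ρ s t σ‖)
    (measurable_df τ m N ρ s).norm
    (fun t σ => by rw [norm_norm]; exact norm_df_le τ m N ρ s t σ)
  have hA : ∫ t in (0 : ℝ)..τ, ∫ σ in (0 : ℝ)..τ / (4 * m), ‖df τ m N ρ s t σ‖
      ≤ 4 * π * N * (τ / (4 * m)) * (τ / (4 * m)) := by
    rw [sw]
    refine (intervalIntegral.integral_mono_on hL.le i2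
      (intervalIntegrable_const (c := 4 * π * N * (τ / (4 * m)))) fun σ hσ => ?_).trans
      (le_of_eq ?_)
    · exact (df_int hτ m N ρ s hρ hσ.1).trans
        (mul_le_mul_of_nonneg_left hσ.2 (by positivity))
    · simp only [intervalIntegral.integral_const, sub_zero, smul_eq_mul]
      ring
  have hB := df_int hτ m N ρ s hρ hL.le
  have hWc : Continuous (wW τ m N ρ s) := by
    have hD : ∀ a b, IntervalIntegrable (wD τ m N ρ s) volume a b :=
      ii_of_bdd (measurable_wD τ m N ρ s).aestronglyMeasurable (norm_wD_le hτ m N ρ s)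
    have e : wW τ m N ρ s = fun t => wW τ m N ρ s 0 + ∫ σ in (0 : ℝ)..t, wD τ m N ρ s σ := by
      funext t
      rw [← wW_sub]
      ring
    rw [e]
    exact continuous_const.add (intervalIntegral.continuous_primitive hD 0)
  have hI : IntervalIntegrable
      (fun t => ((starRingEnd ℂ) (wW τ m N ρ s t) * wD τ m N ρ s t).im) volume 0 τ := by
    refine ii_of_bdd (C := 1 * (8 * m / τ)) (Measurable.aestronglyMeasurable ?_) (fun t => ?_) _ _
    · exact Complex.measurable_im.comp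
        ((Complex.continuous_conj.comp hWc).measurable.mul (measurable_wD τ m N ρ s))
    · refine (Complex.abs_im_le_norm _).trans ?_
      rw [norm_mul, Complex.norm_conj]
      exact mul_le_mul (norm_wW_le hτ hm N ρ s t) (norm_wD_le hτ m N ρ s t) (norm_nonneg _)
        zero_le_one
  have hle : ∀ᵐ t, 2 / π * (8 * m / τ)
      - 2 / π * (4 * m / τ) * ‖df τ m N ρ s t (τ / (4 * m))‖
      - 4 * m / τ * (8 * m / τ) * ∫ σ in (0 : ℝ)..τ / (4 * m), ‖df τ m N ρ s t σ‖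
      ≤ ((starRingEnd ℂ) (wW τ m N ρ s t) * wD τ m N ρ s t).im := by
    filter_upwards [wf_ne hτ m N ρ s hρ 0] with t ht
    rw [add_zero] at ht
    refine le_trans ?_ (im_lower (F := wF τ m N ρ s t) (norm_uu ht) (by positivity)
      (wW_eq hτ hm N ρ s t) (wD_eq hτ hm N ρ s t) (norm_wD_le hτ m N ρ s t))
    rw [norm_smul, norm_smul, Real.norm_of_nonneg (by positivity)]
    have h1 := intervalIntegral.norm_integral_le_integral_norm (μ := volume)
      (f := fun σ => df τ m N ρ s t σ) hL.le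
    have h2 := mul_le_mul_of_nonneg_left h1 (show 0 ≤ 4 * m / τ * (8 * m / τ) by positivity)
    nlinarith
  have j1 := (ii_df1 τ m N ρ s (τ / (4 * m)) 0 τ).const_mul (2 / π * (4 * m / τ))
  have j2 := i1.const_mul (4 * m / τ * (8 * m / τ))
  refine le_trans ?_ (intervalIntegral.integral_mono_ae hτ.le
    ((intervalIntegrable_const.sub j1).sub j2) hI hle)
  rw [intervalIntegral.integral_sub (intervalIntegrable_const.sub j1) j2,
    intervalIntegral.integral_sub intervalIntegrable_const j1,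
    intervalIntegral.integral_const_mul, intervalIntegral.integral_const_mul,
    intervalIntegral.integral_const_mul]
  have k1 := mul_le_mul_of_nonneg_left hB (show 0 ≤ 2 / π * (4 * m / τ) by positivity)
  have k2 := mul_le_mul_of_nonneg_left hA (show 0 ≤ 4 * m / τ * (8 * m / τ) by positivity)
  have e1 : 2 / π * (4 * m / τ) * (4 * π * N * (τ / (4 * m))) = 8 * N := by field_simp; ring
  have e2 : 4 * m / τ * (8 * m / τ) * (4 * π * N * (τ / (4 * m)) * (τ / (4 * m)))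
      = 8 * π * N := by field_simp
  have e3 : 2 / π * ∫ _ in (0 : ℝ)..τ, (8 * m / τ : ℝ) = 16 / π * m := by
    simp only [intervalIntegral.integral_const, sub_zero, smul_eq_mul]
    field_simp
    ring
  rw [e1] at k1
  rw [e2] at k2
  rw [e3]
  have hN : 64 * (N : ℝ) ≤ m := by exact_mod_cast hmN
  have hpi := Real.pi_lt_d2
  have h5 : 5 ≤ 16 / π := by rw [le_div_iff₀ Real.pi_pos]; linarith
  have h6 : 5 * (m : ℝ) ≤ 16 / π * m := mul_le_mul_of_nonneg_right h5 hm'.le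
  have h7 : π * N ≤ 3.15 * N := mul_le_mul_of_nonneg_right hpi.le (Nat.cast_nonneg N)
  linarith

end Pool.Agent.Lib.MP_f78106_gt
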