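import Pool.Agent.Lib.MP_f78106_gt.Loop
import Pool.Agent.Lib.MP_f78106_gt.Wave

/-!
The perturbed family of loops and its properties.
-/

namespace Pool.Agent.Lib.MP_f78106_gt

open MeasureTheory Set Filter Topology Function

/-- Numerical parameters of the construction. -/
structure Par where
  /-- number of lobes -/
  k : ℕ
  /-- carrier frequency -/
  m : ℕ
  /-- number of marker coordinates -/
  N : ℕ
  /-- relative gain -/
  ε : ℝ
  /-- square root of the gain -/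
  κ : ℝ
  /-- corner threshold -/
  η : ℝ
  /-- shift -/
  h : ℝ
  /-- step size -/
  s : ℝ
  /-- amplitude -/
  a0 : ℝ
  /-- period -/
  τ : ℝ

/-- The inequalities required from the parameters. -/
structure Good (T M K C c0 : ℝ) (P : Par) : Prop where
  kpos : 0 < P.k
  κpos : 0 < P.κ
  κle : P.κ ≤ 1
  εeq : P.ε = P.κ ^ 2
  εle : P.ε ≤ 1 / 4
  τeq : P.τ = T * ((1 - P.ε) * P.k)
  hpos : 0 < P.h
  hle : P.h ≤ 1
  hη : 3 * P.h < P.η
  ηle : P.η ≤ 1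
  hT : 3 * P.h < T
  hM : 12 * M * P.h ≤ c0 * P.η
  spos : 0 < P.s
  sC : (8 * C + 1) * P.s ≤ 1 / 4
  mpos : 0 < P.m
  mN : 64 * P.N ≤ P.m
  Nk : P.N ≤ P.k
  N8 : 8 * P.ε * P.k ≤ P.N
  ν1 : 8 * P.m / P.τ ≤ 1
  q : (2 * C + 2) * (8 * P.m / P.τ) ^ 2 * P.τ ≤ P.m
  a0nn : 0 ≤ P.a0
  a0sq : P.a0 ^ 2 * P.m = 4 * (P.ε * P.k * T)
  X : (4 * K * P.η ^ 2 * (2 * P.k) +
      5 * K / P.h * (2 * (4 / c0 ^ 2 * (8 * (P.ε * P.k * T) / P.s) +
        T ^ 2 * (P.h + T * (16 * (4 * P.ε * P.k))))) +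
      8 * P.m / P.τ * (K * T ^ 2) * (T * (14 * P.κ * P.k)) +
      (K * T ^ 2 + K * T) * (T * (8 * (4 * P.ε * P.k)))) ^ 2 ≤ P.m * (P.ε * P.k * T)

variable {n : ℕ}

/-- Phase of the loop. -/
noncomputable def φF (T : ℝ) (P : Par) (lam s : ℕ → ℝ) (t : ℝ) : ℝ := ph T lam s P.k (t / P.τ)

/-- Centre function of the loop. -/
noncomputable def eF (γ γ' : ℝ → V n) (T : ℝ) (P : Par) (lam s : ℕ → ℝ) (t : ℝ) : V n :=
  γ (φF T P lam s t) - ∫ σ in (0 : ℝ)..t, γ' (φF T P lam s σ)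

/-- Shift energy of the centre function. -/
noncomputable def dF (γ γ' : ℝ → V n) (T : ℝ) (P : Par) (lam s : ℕ → ℝ) : ℝ :=
  ∫ t in (0 : ℝ)..P.τ, ‖eF γ γ' T P lam s (t + P.h) - eF γ γ' T P lam s t‖ ^ 2

/-- Total gain. -/
noncomputable def GF (γ γ' : ℝ → V n) (T : ℝ) (P : Par) (lam s : ℕ → ℝ) : ℝ :=
  T * ∑ i ∈ Finset.range P.k, (lam i - (1 - P.ε)) ^ 2 + P.s / 2 * dF γ γ' T P lam s

/-- Amplitude of the slow wave. -/
noncomputable def aF (γ γ' : ℝ → V n) (T : ℝ) (P : Par) (lam s : ℕ → ℝ) : ℝ :=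
  P.a0 * max 0 (min 1 ((4 * (P.ε * P.k * T) - GF γ γ' T P lam s) / (2 * (P.ε * P.k * T))))

/-- Velocity of the perturbed loop. -/
noncomputable def UF (γ γ' : ℝ → V n) (v : V n) (T : ℝ) (P : Par) (lam s : ℕ → ℝ) (t : ℝ) : V n :=
  γ' (φF T P lam s t) +
    (yv P.s P.h (eF γ γ' T P lam s) t + aF γ γ' T P lam s • wD P.τ P.m P.N lam s t • v)

namespace Core

variable {Hs : V n → ℝ} {γ γ' : ℝ → V n} {v : V n} {T M K C c0 : ℝ} {P : Par}

theorem εpos (G : Good T M K C c0 P) : 0 < P.ε := by rw [G.εeq]; have := G.κpos; positivity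

theorem lbpos (G : Good T M K C c0 P) : 0 < (1 - P.ε) * P.k :=
  mul_pos (by linarith [G.εle]) (Nat.cast_pos.mpr G.kpos)

theorem τpos (O : Orbit Hs γ γ' v T M K C c0) (G : Good T M K C c0 P) : 0 < P.τ := by
  rw [G.τeq]; exact mul_pos O.Tpos (lbpos G)

theorem βpos (O : Orbit Hs γ γ' v T M K C c0) (G : Good T M K C c0 P) : 0 < P.ε * P.k * T :=
  mul_pos (mul_pos (εpos G) (Nat.cast_pos.mpr G.kpos)) O.Tpos

theorem meas_φ (T : ℝ) (P : Par) (lam s : ℕ → ℝ) : Measurable (φF T P lam s) :=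
  (measurable_ph T lam s P.k).comp (measurable_id.div_const _)

theorem per_φ {T : ℝ} (hτ : 0 < P.τ) (lam s : ℕ → ℝ) : Periodic (φF T P lam s) P.τ := fun t => by
  have := ph_add_int T lam s P.k (t / P.τ) 1
  unfold φF
  rw [add_div, div_self hτ.ne']
  simpa using this

theorem bm_wD (hτ : 0 < P.τ) (lam s : ℕ → ℝ) : BM (wD P.τ P.m P.N lam s) :=
  ⟨(measurable_wD _ _ _ _ _).stronglyMeasurable, _, norm_wD_le hτ _ _ _ _⟩

theorem dF_nonneg (hτ : 0 < P.τ) (lam s : ℕ → ℝ) : 0 ≤ dF γ γ' T P lam s :=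
  intervalIntegral.integral_nonneg hτ.le fun _ _ => sq_nonneg _

theorem aF_mem (G : Good T M K C c0 P) (lam s : ℕ → ℝ) :
    0 ≤ aF γ γ' T P lam s ∧ aF γ γ' T P lam s ≤ P.a0 :=
  ⟨mul_nonneg G.a0nn (le_max_left _ _),
    mul_le_of_le_one_right G.a0nn (max_le zero_le_one (min_le_left _ _))⟩

theorem aF_zero (O : Orbit Hs γ γ' v T M K C c0) (G : Good T M K C c0 P) {lam s : ℕ → ℝ}
    (h : 4 * (P.ε * P.k * T) ≤ GF γ γ' T P lam s) : aF γ γ' T P lam s = 0 := by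
  have hβ := βpos O G
  unfold aF
  rw [max_eq_left, mul_zero]
  exact (min_le_right _ _).trans (div_nonpos_of_nonpos_of_nonneg (by linarith) (by linarith))

theorem aF_full (O : Orbit Hs γ γ' v T M K C c0) (G : Good T M K C c0 P) {lam s : ℕ → ℝ}
    (h : GF γ γ' T P lam s ≤ 2 * (P.ε * P.k * T)) : aF γ γ' T P lam s = P.a0 := by
  have hβ := βpos O G
  unfold aF
  rw [min_eq_left, max_eq_right zero_le_one, mul_one]
  rw [le_div_iff₀ (by linarith)]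
  linarith

theorem var_lt (O : Orbit Hs γ γ' v T M K C c0) (G : Good T M K C c0 P) {lam s : ℕ → ℝ}
    (h : GF γ γ' T P lam s < 4 * (P.ε * P.k * T)) :
    ∑ i ∈ Finset.range P.k, (lam i - (1 - P.ε)) ^ 2 < 4 * P.ε * P.k := by
  have h1 := dF_nonneg (γ := γ) (γ' := γ') (T := T) (τpos O G) lam s
  have h2 : 0 ≤ P.s / 2 * dF γ γ' T P lam s := mul_nonneg (by linarith [G.spos]) h1
  unfold GF at h
  refine lt_of_mul_lt_mul_left (a := T) ?_ O.Tpos.le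
  linarith

section One

variable {lam : ℕ → ℝ}

theorem neg (O : Orbit Hs γ γ' v T M K C c0) (G : Good T M K C c0 P) (hl : ∀ i, 0 ≤ lam i)
    (hsum : ∑ i ∈ Finset.range P.k, lam i = (1 - P.ε) * P.k) (s : ℕ → ℝ) :
    ∫ t in (0 : ℝ)..P.τ, γ' (φF T P lam s t) = 0 ∧
    ∫ t in (0 : ℝ)..P.τ, UF γ γ' v T P lam s t = 0 ∧
    ∫ t in (0 : ℝ)..P.τ, Hs ((-Complex.I) • UF γ γ' v T P lam s t) <
      1 / 2 * ∫ t in (0 : ℝ)..P.τ,
        om (∫ σ in (0 : ℝ)..t, UF γ γ' v T P lam s σ) (UF γ γ' v T P lam s t) := by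
  have hτ := τpos O G
  have hβ := βpos O G
  obtain ⟨t0, L, hV, hlen, hS, hw, hG⟩ := exists_arcs n O.Tpos hl s P.k (hsum ▸ lbpos G)
  rw [hsum, ← G.τeq] at hS
  have hS' : Spec (φF T P lam s) L t0 := hS
  have hL : dur L = P.τ := by rw [dur_eq_wsum, hw, hsum, G.τeq]
  have hm := meas_φ T P lam s
  have hφ : ∀ t, φF T P lam s t ∈ Icc 0 T := fun t => ph_mem O.Tpos hl s _ _
  have pφ := per_φ (T := T) hτ lam s
  obtain ⟨g0, ar⟩ := O.loop_area hm hφ pφ hV hS' hL (hG γ O.closed).1 (hG γ O.closed).2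
  have st := step_ineq O.contH hτ O.Cnn G.spos G.sC G.hpos G.hle (a := aF γ γ' T P lam s)
    (Orbit.bm_comp O.hc hm hφ) (Orbit.bm_comp O.contγ hm hφ)
    (fun t => by simp only [pφ t]) (fun t => by simp only [pφ t]) g0 (fun t w => O.quad _ w)
    (bm_wD hτ lam s) (wW_add_period hτ P.m P.N lam s) (wD_add_period hτ P.m P.N lam s)
    (wW_sub P.τ P.m P.N lam s) (norm_wD_le hτ P.m P.N lam s) O.unit
    (e := eF γ γ' T P lam s) (U := UF γ γ' v T P lam s) (fun _ => rfl) (fun _ => rfl)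
  refine ⟨g0, st.1, ?_⟩
  have cr := O.loop_cross hτ hm hφ pφ hV hS' hL g0 G.hpos G.hη G.ηle G.hT G.hM G.ν1
    (bm_wD hτ lam s) (wW_add_period hτ P.m P.N lam s) (wD_add_period hτ P.m P.N lam s)
    (wW_sub P.τ P.m P.N lam s) (norm_wW_le hτ G.mpos P.N lam s) (norm_wD_le hτ P.m P.N lam s)
    (e := eF γ γ' T P lam s) (fun _ => rfl)
  have st2 := st.2
  rw [ar, hw, sum_sq_eq hsum] at st2
  rw [hw, hw, hw] at cr
  change _ ≤ _ - P.s / 2 * dF γ γ' T P lam s + _ - _ at st2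
  change _ ≤ _ + 5 * K / P.h * (2 * (4 / c0 ^ 2 * dF γ γ' T P lam s + _)) + _ + _ at cr
  have hGF : GF γ γ' T P lam s =
      T * ∑ i ∈ Finset.range P.k, (lam i - (1 - P.ε)) ^ 2 + P.s / 2 * dF γ γ' T P lam s := rfl
  have base : P.τ - 1 / 2 * (2 * (T * (∑ i ∈ Finset.range P.k, (lam i - (1 - P.ε)) ^ 2 +
      (1 - P.ε) ^ 2 * P.k))) - P.s / 2 * dF γ γ' T P lam s ≤
      P.ε * P.k * T - GF γ γ' T P lam s := by
    rw [hGF, G.τeq]
    have := mul_pos (εpos G) hβ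
    nlinarith
  by_cases h4 : 4 * (P.ε * P.k * T) ≤ GF γ γ' T P lam s
  · rw [aF_zero O G h4] at st2
    linarith
  push Not at h4
  have hVr := var_lt O G h4
  have hV0 : 0 ≤ ∑ i ∈ Finset.range P.k, (lam i - (1 - P.ε)) ^ 2 :=
    Finset.sum_nonneg fun _ _ => sq_nonneg _
  have hd0 := dF_nonneg (γ := γ) (γ' := γ') (T := T) hτ lam s
  have hd : dF γ γ' T P lam s ≤ 8 * (P.ε * P.k * T) / P.s := by
    rw [le_div_iff₀ G.spos]
    have := mul_nonneg O.Tpos.le hV0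
    linarith
  have wa := wave_area hτ G.mN lam s (exists_ne_zero G.Nk G.εle G.N8 hVr)
  have s3 := (sum_g3_le (k := P.k) (lam := lam) G.εle).trans
    (mul_le_mul_of_nonneg_left hVr.le (by norm_num : (0 : ℝ) ≤ 16))
  have s1 := (sum_g1_le (k := P.k) (lam := lam) (εpos G).le G.εle).trans
    (mul_le_mul_of_nonneg_left hVr.le (by norm_num : (0 : ℝ) ≤ 8))
  have s2 := sum_g2_le G.κpos G.κle G.εeq hVr.le
  have hlen' : (L.length : ℝ) ≤ 2 * P.k := by exact_mod_cast hlen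
  have hK := O.Knn
  have hT := O.Tpos
  have hh := G.hpos
  have hc0 := O.c0pos
  have cr2 := cr.trans (b := 4 * K * P.η ^ 2 * L.length + 5 * K / P.h * (2 * (4 / c0 ^ 2 *
      dF γ γ' T P lam s + T ^ 2 * (P.h + T * ∑ i ∈ Finset.range P.k, g3 (lam i)))) +
      8 * P.m / P.τ * (K * T ^ 2) * (T * ∑ i ∈ Finset.range P.k, |1 - lam i| * lam i) +
      (K * T ^ 2 + K * T) * (T * ∑ i ∈ Finset.range P.k, g1 (lam i)))
    (c := 4 * K * P.η ^ 2 * (2 * P.k) +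
      5 * K / P.h * (2 * (4 / c0 ^ 2 * (8 * (P.ε * P.k * T) / P.s) +
        T ^ 2 * (P.h + T * (16 * (4 * P.ε * P.k))))) +
      8 * P.m / P.τ * (K * T ^ 2) * (T * (14 * P.κ * P.k)) +
      (K * T ^ 2 + K * T) * (T * (8 * (4 * P.ε * P.k)))) (by gcongr)
  have X2 := (pow_le_pow_left₀ (abs_nonneg _) cr2 2).trans G.X
  rw [sq_abs] at X2
  have hq := G.q
  have hm0 : (0 : ℝ) < P.m := Nat.cast_pos.mpr G.mpos
  have hG0 : 0 ≤ GF γ γ' T P lam s := by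
    rw [hGF]
    have := G.spos
    positivity
  generalize (∫ t in (0 : ℝ)..P.τ, om (eF γ γ' T P lam s t) (wD P.τ P.m P.N lam s t • v)) = X
    at st2 X2
  generalize (∫ t in (0 : ℝ)..P.τ, ((starRingEnd ℂ) (wW P.τ P.m P.N lam s t) *
    wD P.τ P.m P.N lam s t).im) = A at st2 wa
  have q1 : aF γ γ' T P lam s ^ 2 * P.m ≤ aF γ γ' T P lam s ^ 2 *
      (1 / 2 * A - (2 * C + 2) * (8 * P.m / P.τ) ^ 2 * P.τ) :=
    mul_le_mul_of_nonneg_left (by linarith) (sq_nonneg _)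
  by_cases h2 : GF γ γ' T P lam s ≤ 2 * (P.ε * P.k * T)
  · rw [aF_full O G h2] at st2 q1
    have b1 : P.a0 * X ≤ (P.ε * P.k * T) / 2 + P.a0 ^ 2 * P.m / 2 := by
      refine le_of_mul_le_mul_left (a := (P.m : ℝ)) ?_ hm0
      nlinarith [sq_nonneg (X - P.a0 * P.m)]
    have b2 := G.a0sq
    linarith
  · push Not at h2
    have b1 : aF γ γ' T P lam s * X ≤ (P.ε * P.k * T) / 4 + aF γ γ' T P lam s ^ 2 * P.m := by
      refine le_of_mul_le_mul_left (a := (P.m : ℝ)) ?_ hm0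
      nlinarith [sq_nonneg (X - 2 * aF γ γ' T P lam s * P.m)]
    linarith

end One

end Core

end Pool.Agent.Lib.MP_f78106_gt
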