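import Pool.Agent.Lib.MP_f78106_gt.Gain
import Pool.Agent.Lib.MP_f78106_gt.Once

/-!
Displacement, area and the cross term along a list of arcs.
-/

namespace Pool.Agent.Lib.MP_f78106_gt

open MeasureTheory Set Filter Topology Gain

section General

variable {E F G : Type} [NormedAddCommGroup E] [NormedSpace ℝ E] [NormedAddCommGroup F]
  [NormedSpace ℝ F] [NormedAddCommGroup G] [NormedSpace ℝ G]

theorem bil_int (B : E →L[ℝ] F →L[ℝ] G) {f : ℝ → E} {v : ℝ → F} {a b : ℝ}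
    (hf : ContinuousOn f (uIcc a b)) (hv : IntervalIntegrable v volume a b) :
    IntervalIntegrable (fun t => B (f t) (v t)) volume a b := by
  obtain ⟨C, hC⟩ := isCompact_uIcc.exists_bound_of_continuousOn hf
  rw [intervalIntegrable_iff] at hv ⊢
  refine Integrable.mono' (hv.norm.const_mul (‖B‖ * C)) ?_ ?_
  · exact B.aestronglyMeasurable_comp₂
      ((hf.mono uIoc_subset_uIcc).aestronglyMeasurable measurableSet_uIoc) hv.1
  · refine (ae_restrict_iff' measurableSet_uIoc).mpr (Eventually.of_forall fun t ht => ?_)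
    refine (B.le_opNorm₂ _ _).trans ?_
    exact mul_le_mul_of_nonneg_right
      (mul_le_mul_of_nonneg_left (hC t (uIoc_subset_uIcc ht)) B.opNorm_nonneg) (norm_nonneg _)

theorem parts [CompleteSpace E] [CompleteSpace F] [CompleteSpace G]
    (B : E →L[ℝ] F →L[ℝ] G) {f u : ℝ → E} {g v : ℝ → F} {a b : ℝ} (hab : a ≤ b)
    (hu : IntervalIntegrable u volume a b) (hv : IntervalIntegrable v volume a b)
    (hf : ∀ t ∈ Icc a b, f t = f a + ∫ σ in a..t, u σ)
    (hg : ∀ t ∈ Icc a b, g t = g a + ∫ σ in a..t, v σ) :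
    (∫ t in a..b, B (f t) (v t)) + (∫ t in a..b, B (u t) (g t)) =
      B (f b) (g b) - B (f a) (g a) := by
  have h := integral_bilin_prim B hab hu hv
  have cu : ContinuousOn (fun t => ∫ σ in a..t, u σ) (uIcc a b) :=
    intervalIntegral.continuousOn_primitive_interval' hu left_mem_uIcc
  have cv : ContinuousOn (fun t => ∫ σ in a..t, v σ) (uIcc a b) :=
    intervalIntegral.continuousOn_primitive_interval' hv left_mem_uIcc
  have e1 : ∫ t in a..b, B (f t) (v t) =
      B (f a) (∫ t in a..b, v t) + ∫ t in a..b, B (∫ σ in a..t, u σ) (v t) := by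
    rw [← (B (f a)).intervalIntegral_comp_comm hv, ← intervalIntegral.integral_add
      (bil_int B continuousOn_const hv) (bil_int B cu hv)]
    refine intervalIntegral.integral_congr fun t ht => ?_
    rw [uIcc_of_le hab] at ht
    simp only [hf t ht, map_add, add_apply]
  have e2 : ∫ t in a..b, B (u t) (g t) =
      B (∫ t in a..b, u t) (g a) + ∫ t in a..b, B (u t) (∫ σ in a..t, v σ) := by
    have := (B.flip (g a)).intervalIntegral_comp_comm hu
    simp only [ContinuousLinearMap.flip_apply] at this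
    have j1 : IntervalIntegrable (fun t => B (u t) (g a)) volume a b :=
      bil_int B.flip continuousOn_const hu
    have j2 : IntervalIntegrable (fun t => B (u t) (∫ σ in a..t, v σ)) volume a b :=
      bil_int B.flip cv hu
    rw [← this, ← intervalIntegral.integral_add j1 j2]
    refine intervalIntegral.integral_congr fun t ht => ?_
    rw [uIcc_of_le hab] at ht
    simp only [hg t ht, map_add]
  rw [e1, e2, hf b ⟨hab, le_rfl⟩, hg b ⟨hab, le_rfl⟩]
  simp only [map_add, add_apply]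
  rw [← h]
  abel

theorem int_congr_Ioo {f g : ℝ → E} {a b : ℝ} (hab : a ≤ b)
    (h : ∀ t, a < t → t < b → f t = g t) : ∫ t in a..b, f t = ∫ t in a..b, g t := by
  rw [intervalIntegral.integral_of_le hab, intervalIntegral.integral_of_le hab,
    integral_Ioc_eq_integral_Ioo, integral_Ioc_eq_integral_Ioo]
  exact setIntegral_congr_fun measurableSet_Ioo fun t ht => h t ht.1 ht.2

theorem arc_prim [CompleteSpace E] {γ γ' : ℝ → E} (hd : ∀ t, HasDerivAt γ (γ' t) t)
    (hc : Continuous γ') {φ : ℝ → ℝ} {a : Arc} {t0 : ℝ}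
    (hS : ∀ t, t0 < t → t < t0 + a.dur → φ t = a.s + (t - t0) / a.l) {t : ℝ}
    (ht : t ∈ Icc t0 (t0 + a.dur)) :
    ∫ σ in t0..t, γ' (φ σ) = a.l • (γ (a.s + (t - t0) / a.l) - γ a.s) := by
  by_cases hl : a.l = 0
  · have : t = t0 := by
      have : a.dur = 0 := by simp [Arc.dur, hl]
      linarith [ht.1, ht.2]
    simp [this]
  rw [int_congr_Ioo ht.1 (g := fun σ => γ' (a.s + (σ - t0) / a.l))
    (fun σ h1 h2 => by rw [hS σ h1 (h2.trans_le ht.2)])]
  have hder : ∀ σ, HasDerivAt (fun σ => a.l • γ (a.s + (σ - t0) / a.l))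
      (γ' (a.s + (σ - t0) / a.l)) σ := by
    intro σ
    have h1 : HasDerivAt (fun σ : ℝ => a.s + (σ - t0) / a.l) (1 / a.l) σ :=
      (((hasDerivAt_id σ).sub_const t0).div_const a.l).const_add a.s
    have h2 := ((hd _).scomp σ h1).const_smul a.l
    rw [smul_smul, mul_one_div_cancel hl, one_smul] at h2
    exact h2
  rw [intervalIntegral.integral_eq_sub_of_hasDerivAt (fun σ _ => hder σ)
    ((hc.comp (by fun_prop)).intervalIntegrable _ _)]
  simp [smul_sub]

theorem arc_prim_end [CompleteSpace E] {γ γ' : ℝ → E} (hd : ∀ t, HasDerivAt γ (γ' t) t)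
    (hc : Continuous γ') {φ : ℝ → ℝ} {a : Arc} {t0 : ℝ} (h0 : 0 ≤ a.dur)
    (hS : ∀ t, t0 < t → t < t0 + a.dur → φ t = a.s + (t - t0) / a.l) :
    ∫ σ in t0..t0 + a.dur, γ' (φ σ) = a.l • (γ a.e - γ a.s) := by
  rw [arc_prim hd hc hS ⟨by linarith, le_rfl⟩]
  by_cases hl : a.l = 0
  · simp [hl]
  · congr 3
    rw [Arc.dur]; field_simp; ring

end General

section Area

variable {n : ℕ} {T : ℝ} {γ γ' : ℝ → V n} {φ : ℝ → ℝ}

theorem disp_cons (G : ℝ → V n) (a : Arc) (L : List Arc) :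
    disp G (a :: L) = a.l • (G a.e - G a.s) + disp G L := by simp [disp]

theorem wsum_cons (g : ℝ → ℝ) (a : Arc) (L : List Arc) :
    wsum g (a :: L) = g a.l * (a.e - a.s) + wsum g L := by simp [wsum]

theorem list_disp (hd : ∀ t, HasDerivAt γ (γ' t) t) (hc : Continuous γ')
    (hg : ∀ a b, IntervalIntegrable (fun t => γ' (φ t)) volume a b) :
    ∀ (L : List Arc) (t0 : ℝ), Valid T L → Spec φ L t0 →
      ∫ σ in t0..t0 + dur L, γ' (φ σ) = disp γ L
  | [], _, _, _ => by simp [dur, disp]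
  | a :: L, t0, hV, hS => by
    rw [dur_cons, ← add_assoc, ← intervalIntegral.integral_add_adjacent_intervals
      (hg t0 (t0 + a.dur)) (hg _ _), list_disp hd hc hg L _ (valid_tail hV) hS.2,
      arc_prim_end hd hc (dur_nonneg hV) hS.1, disp_cons]

theorem list_area (hd : ∀ t, HasDerivAt γ (γ' t) t) (hc : Continuous γ')
    (hg : ∀ a b, IntervalIntegrable (fun t => γ' (φ t)) volume a b)
    (h2 : ∀ ψ, om (γ ψ) (γ' ψ) = 2) :
    ∀ (L : List Arc) (t0 : ℝ), Valid T L → Spec φ L t0 →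
      ∫ t in t0..t0 + dur L, om (∫ σ in t0..t, γ' (φ σ)) (γ' (φ t)) =
        2 * wsum (fun l => l ^ 2) L + pol γ L
  | [], _, _, _ => by simp [dur, wsum, pol]
  | a :: L, t0, hV, hS => by
    have hi : ∀ (c a b : ℝ), IntervalIntegrable
        (fun t => om (∫ σ in c..t, γ' (φ σ)) (γ' (φ t))) volume a b := fun c a b =>
      bil_int (omL n) (intervalIntegral.continuous_primitive hg c).continuousOn (hg a b)
    have hi' : ∀ (v : V n) (a b : ℝ), IntervalIntegrable
        (fun t => om v (γ' (φ t))) volume a b := fun v a b =>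
      bil_int (omL n) continuousOn_const (hg a b)
    have hint : ∀ (v : V n) (a b : ℝ), ∫ t in a..b, om v (γ' (φ t)) =
        om v (∫ t in a..b, γ' (φ t)) := fun v a b =>
      (omL n v).intervalIntegral_comp_comm (hg a b)
    have h0 := dur_nonneg hV
    have e0 := arc_prim_end hd hc h0 hS.1
    have e1 : ∫ t in t0..t0 + a.dur, om (∫ σ in t0..t, γ' (φ σ)) (γ' (φ t)) =
        2 * (a.l ^ 2 * (a.e - a.s)) - a.l ^ 2 * om (γ a.s) (γ a.e) := by
      rw [int_congr_Ioo (by linarith) (g := fun t => a.l * 2 - om (a.l • γ a.s) (γ' (φ t)))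
        (fun t h1 h3 => by
          rw [arc_prim hd hc hS.1 ⟨h1.le, h3.le⟩, ← hS.1 t h1 h3, smul_sub, om_sub_left,
            om_smul_left, h2])]
      rw [intervalIntegral.integral_sub intervalIntegrable_const (hi' _ _ _), hint, e0,
        om_smul_left, om_smul_right, om_sub_right, om_self]
      simp only [intervalIntegral.integral_const, smul_eq_mul, Arc.dur]
      ring
    have e2 : ∫ t in t0 + a.dur..t0 + a.dur + dur L, om (∫ σ in t0..t, γ' (φ σ)) (γ' (φ t)) =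
        om (a.l • (γ a.e - γ a.s)) (disp γ L) + (2 * wsum (fun l => l ^ 2) L + pol γ L) := by
      rw [← list_area hd hc hg h2 L _ (valid_tail hV) hS.2,
        ← list_disp hd hc hg L _ (valid_tail hV) hS.2, ← hint,
        ← intervalIntegral.integral_add (hi' _ _ _) (hi _ _ _)]
      refine intervalIntegral.integral_congr fun t _ => ?_
      rw [← om_add_left, ← e0, intervalIntegral.integral_add_adjacent_intervals (hg _ _) (hg _ _)]
    rw [dur_cons, ← add_assoc, ← intervalIntegral.integral_add_adjacent_intervals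
      (hi t0 t0 (t0 + a.dur)) (hi _ _ _), e1, e2, wsum_cons, pol]
    ring

end Area

section CrossTerm

variable {T η h K ν : ℝ} {bb bb' W W' : ℝ → ℂ} {φ : ℝ → ℝ}

theorem arc_mem {a : Arc} {t0 t : ℝ} (hl : 0 ≤ a.l)
    (hS : ∀ t, t0 < t → t < t0 + a.dur → φ t = a.s + (t - t0) / a.l)
    (h1 : t0 < t) (h2 : t < t0 + a.dur) : φ t ∈ Icc a.s a.e := by
  rw [hS t h1 h2]
  have hl' : 0 < a.l := by
    rcases hl.lt_or_eq with hl | hl
    · exact hl
    · exfalso
      have : a.dur = 0 := by simp [Arc.dur, ← hl]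
      linarith
  have e1 : 0 ≤ (t - t0) / a.l := div_nonneg (by linarith) hl
  have e2 : (t - t0) / a.l ≤ a.e - a.s := by
    rw [div_le_iff₀ hl']
    unfold Arc.dur at h2
    linarith
  constructor <;> linarith

theorem norm_int_le_Ioo {f : ℝ → ℂ} {a b C : ℝ} (hab : a ≤ b)
    (h : ∀ t, a < t → t < b → ‖f t‖ ≤ C) : ‖∫ t in a..b, f t‖ ≤ (b - a) * C := by
  have := intervalIntegral.norm_integral_le_of_norm_le_const_ae (a := a) (b := b) (C := C) (f := f)
    (by
      filter_upwards [compl_mem_ae_iff.mpr (measure_singleton (μ := volume) b)] with t ht hm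
      rw [uIoc_of_le hab] at hm
      exact h t hm.1 (lt_of_le_of_ne hm.2 ht))
  rwa [abs_of_nonneg (by linarith), mul_comm] at this

theorem optA (hW1 : ∀ t, ‖W t‖ ≤ 1) (hν : ∀ t, ‖W' t‖ ≤ ν) {a : Arc} {t0 B0 B1 : ℝ}
    (hl : 0 ≤ a.l) (h0 : 0 ≤ a.dur)
    (hS : ∀ t, t0 < t → t < t0 + a.dur → φ t = a.s + (t - t0) / a.l)
    (hB0 : ∀ ψ ∈ Icc a.s a.e, ‖bb ψ‖ ≤ B0) (hB1 : ∀ ψ ∈ Icc a.s a.e, ‖bb' ψ‖ ≤ B1) :
    ‖∫ t in t0..t0 + a.dur, (W' t * bb (φ t) + W t * bb' (φ t))‖ ≤ a.dur * (ν * B0 + B1) := by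
  have := norm_int_le_Ioo (f := fun t => W' t * bb (φ t) + W t * bb' (φ t)) (a := t0)
    (b := t0 + a.dur) (C := ν * B0 + B1) (by linarith) (fun t h1 h2 => by
      have hm := arc_mem hl hS h1 h2
      refine (norm_add_le _ _).trans (add_le_add ?_ ?_)
      · rw [norm_mul]
        exact mul_le_mul (hν t) (hB0 _ hm) (norm_nonneg _) ((norm_nonneg _).trans (hν t))
      · rw [norm_mul]
        exact (mul_le_mul (hW1 t) (hB1 _ hm) (norm_nonneg _) zero_le_one).trans (by simp))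
  rwa [add_sub_cancel_left] at this

theorem optB (hd : ∀ t, HasDerivAt bb (bb' t) t) (hc : Continuous bb')
    (hW : ∀ t t', W t - W t' = ∫ σ in t'..t, W' σ)
    (hWi : ∀ a b, IntervalIntegrable W' volume a b)
    (hW1 : ∀ t, ‖W t‖ ≤ 1) (hν : ∀ t, ‖W' t‖ ≤ ν) {a : Arc} {t0 B0 : ℝ}
    (hl : 0 < a.l) (h0 : 0 ≤ a.dur)
    (hS : ∀ t, t0 < t → t < t0 + a.dur → φ t = a.s + (t - t0) / a.l)
    (hB0 : ∀ ψ ∈ Icc a.s a.e, ‖bb ψ‖ ≤ B0) :
    ‖∫ t in t0..t0 + a.dur, (W' t * bb (φ t) + W t * bb' (φ t))‖ ≤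
      a.l * (‖bb a.s‖ + ‖bb a.e‖) + |1 - a.l| * (a.dur * (ν * B0)) := by
  set ψ : ℝ → ℝ := fun t => a.s + (t - t0) / a.l with hψ
  have cψ : Continuous ψ := by fun_prop
  have cb : Continuous bb := continuous_iff_continuousAt.mpr fun t => (hd t).continuousAt
  have cW : Continuous W := by
    have : W = fun t => W 0 + ∫ σ in (0 : ℝ)..t, W' σ := by
      ext t; rw [← hW]; ring
    rw [this]
    exact continuous_const.add (intervalIntegral.continuous_primitive hWi 0)
  have hS' : ∀ t, t0 < t → t < t0 + a.dur → ψ t = a.s + (t - t0) / a.l := fun _ _ _ => rfl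
  have hp := parts (ContinuousLinearMap.mul ℝ ℂ) (f := W) (u := W')
    (g := fun t => a.l • bb (ψ t)) (v := fun t => bb' (ψ t)) (a := t0) (b := t0 + a.dur)
    (by linarith) (hWi _ _) ((hc.comp cψ).intervalIntegrable _ _)
    (fun t _ => by rw [← hW]; ring)
    (fun t ht => by
      rw [arc_prim hd hc hS' ht]
      simp [hψ, smul_sub])
  simp only [ContinuousLinearMap.mul_apply'] at hp
  have eψ0 : ψ t0 = a.s := by simp [hψ]
  have eψ1 : ψ (t0 + a.dur) = a.e := by
    simp only [hψ, Arc.dur]; field_simp; ring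
  have i1 : IntervalIntegrable (fun t => W' t * bb (ψ t)) volume t0 (t0 + a.dur) :=
    (hWi _ _).mul_continuousOn (cb.comp cψ).continuousOn
  have i2 : IntervalIntegrable (fun t => W t * bb' (ψ t)) volume t0 (t0 + a.dur) :=
    (cW.mul (hc.comp cψ)).intervalIntegrable _ _
  have e1 : ∫ t in t0..t0 + a.dur, W' t * (a.l • bb (ψ t)) =
      a.l • ∫ t in t0..t0 + a.dur, W' t * bb (ψ t) := by
    rw [← intervalIntegral.integral_smul]
    exact intervalIntegral.integral_congr fun t _ => by simp only [mul_smul_comm]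
  have e2 : ∫ t in t0..t0 + a.dur, (W' t * bb (φ t) + W t * bb' (φ t)) =
      (W (t0 + a.dur) * (a.l • bb a.e) - W t0 * (a.l • bb a.s)) +
        (1 - a.l) • ∫ t in t0..t0 + a.dur, W' t * bb (ψ t) := by
    rw [int_congr_Ioo (by linarith) (g := fun t => W' t * bb (ψ t) + W t * bb' (ψ t))
      (fun t h1 h2 => by rw [hS t h1 h2]), intervalIntegral.integral_add i1 i2, ← eψ0, ← eψ1,
      ← hp, e1, sub_smul, one_smul]
    abel
  have b1 : ‖∫ t in t0..t0 + a.dur, W' t * bb (ψ t)‖ ≤ a.dur * (ν * B0) := by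
    have := norm_int_le_Ioo (f := fun t => W' t * bb (ψ t)) (a := t0)
      (b := t0 + a.dur) (C := ν * B0) (by linarith) (fun t h1 h2 => by
        have hm := arc_mem hl.le hS' h1 h2
        rw [norm_mul]
        exact mul_le_mul (hν t) (hB0 _ hm) (norm_nonneg _) ((norm_nonneg _).trans (hν t)))
    rwa [add_sub_cancel_left] at this
  have b2 : ∀ t c, ‖W t * (a.l • bb c)‖ ≤ a.l * ‖bb c‖ := fun t c => by
    rw [norm_mul, norm_smul, Real.norm_of_nonneg hl.le]
    exact (mul_le_mul_of_nonneg_right (hW1 t) (by positivity)).trans (by simp)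
  rw [e2]
  refine (norm_add_le _ _).trans (add_le_add ((norm_sub_le _ _).trans ?_) ?_)
  · linarith [b2 (t0 + a.dur) a.e, b2 t0 a.s]
  · rw [norm_smul, Real.norm_eq_abs]
    exact mul_le_mul_of_nonneg_left b1 (abs_nonneg _)

/-- Indicator weight of abnormal sizes. -/
noncomputable def g1 (l : ℝ) : ℝ := if l < 1 / 2 ∨ 2 < l then l else 0

theorem dd_le_add {T a b c : ℝ} (h : |a - b| ≤ c) : dd T a ≤ dd T b + c := by
  have := abs_le.mp h
  unfold dd
  rcases le_total b (T - b) with h1 | h1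
  · rw [min_eq_left h1]; exact (min_le_left _ _).trans (by linarith)
  · rw [min_eq_right h1]; exact (min_le_right _ _).trans (by linarith)

theorem arc_cost (hh : 0 < h) (hη : 2 * h ≤ η) (hη1 : η ≤ 1) (hK : 0 ≤ K) (hν1 : ν ≤ 1)
    (hd : ∀ t, HasDerivAt bb (bb' t) t) (hc : Continuous bb')
    (hb0 : ∀ ψ ∈ Icc 0 T, ‖bb ψ‖ ≤ K * dd T ψ ^ 2) (hb1 : ∀ ψ ∈ Icc 0 T, ‖bb' ψ‖ ≤ K * dd T ψ)
    (hW : ∀ t t', W t - W t' = ∫ σ in t'..t, W' σ)
    (hWi : ∀ a b, IntervalIntegrable W' volume a b)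
    (hW1 : ∀ t, ‖W t‖ ≤ 1) (hν : ∀ t, ‖W' t‖ ≤ ν) {a : Arc} {L : List Arc} {t0 : ℝ}
    (hV : Valid T (a :: L))
    (hS : ∀ t, t0 < t → t < t0 + a.dur → φ t = a.s + (t - t0) / a.l) :
    ‖∫ t in t0..t0 + a.dur, (W' t * bb (φ t) + W t * bb' (φ t))‖ ≤
      4 * K * η ^ 2 + 5 * K / h * (wE T η h a + wS T η h a) +
        ν * (K * T ^ 2) * (|1 - a.l| * a.l * (a.e - a.s)) +
        (K * T ^ 2 + K * T) * (g1 a.l * (a.e - a.s)) := by
  obtain ⟨h1, h2, h3, h4⟩ := valid_head hV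
  have h0 := dur_nonneg hV
  have hν0 : 0 ≤ ν := (norm_nonneg _).trans (hν 0)
  have hT0 : 0 ≤ T := by linarith
  have sub : ∀ ψ ∈ Icc a.s a.e, ψ ∈ Icc 0 T := fun ψ hψ => ⟨h2.trans hψ.1, hψ.2.trans h4⟩
  have d0 : ∀ ψ ∈ Icc 0 T, 0 ≤ dd T ψ := fun ψ hψ => le_min hψ.1 (by linarith [hψ.2])
  have d1 : ∀ ψ ∈ Icc 0 T, dd T ψ ≤ T := fun ψ hψ => (min_le_left _ _).trans hψ.2
  have B0 : ∀ ψ ∈ Icc a.s a.e, ‖bb ψ‖ ≤ K * T ^ 2 := fun ψ hψ =>
    (hb0 ψ (sub ψ hψ)).trans (mul_le_mul_of_nonneg_left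
      (pow_le_pow_left₀ (d0 ψ (sub ψ hψ)) (d1 ψ (sub ψ hψ)) 2) hK)
  have B1 : ∀ ψ ∈ Icc a.s a.e, ‖bb' ψ‖ ≤ K * T := fun ψ hψ =>
    (hb1 ψ (sub ψ hψ)).trans (mul_le_mul_of_nonneg_left (d1 ψ (sub ψ hψ)) hK)
  have hm0 : 0 ≤ min a.dur h := le_min h0 hh.le
  have wE0 : 0 ≤ wE T η h a := by unfold wE; split_ifs <;> positivity
  have wS0 : 0 ≤ wS T η h a := by unfold wS; split_ifs <;> positivity
  have hes : 0 ≤ a.e - a.s := by linarith
  have p1 : 0 ≤ 4 * K * η ^ 2 := by positivity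
  have p2 : 0 ≤ 5 * K / h * (wE T η h a + wS T η h a) := by positivity
  have p3 : 0 ≤ ν * (K * T ^ 2) * (|1 - a.l| * a.l * (a.e - a.s)) := by positivity
  have g0 : 0 ≤ g1 a.l := by unfold g1; split_ifs <;> linarith
  have p4 : 0 ≤ (K * T ^ 2 + K * T) * (g1 a.l * (a.e - a.s)) := by positivity
  by_cases hab : a.l < 1 / 2 ∨ 2 < a.l
  · have := optA hW1 hν h1 h0 hS B0 B1
    have e : g1 a.l * (a.e - a.s) = a.dur := by simp only [g1, hab, if_true, Arc.dur]
    rw [e]
    have : a.dur * (ν * (K * T ^ 2) + K * T) ≤ (K * T ^ 2 + K * T) * a.dur := by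
      have : ν * (K * T ^ 2) ≤ K * T ^ 2 := mul_le_of_le_one_left (by positivity) hν1
      nlinarith
    linarith
  push Not at hab
  have hl : 0 < a.l := by linarith [hab.1]
  have ms : a.s ∈ Icc 0 T := ⟨h2, h3.trans h4⟩
  have me : a.e ∈ Icc 0 T := ⟨h2.trans h3, h4⟩
  have hB := optB hd hc hW hWi hW1 hν hl h0 hS B0
  have eB : |1 - a.l| * (a.dur * (ν * (K * T ^ 2))) =
      ν * (K * T ^ 2) * (|1 - a.l| * a.l * (a.e - a.s)) := by rw [Arc.dur]; ring
  have hBs : a.l * (‖bb a.s‖ + ‖bb a.e‖) ≤ 2 * (K * dd T a.s ^ 2 + K * dd T a.e ^ 2) :=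
    mul_le_mul hab.2 (add_le_add (hb0 _ ms) (hb0 _ me)) (by positivity) (by norm_num)
  have small : ∀ ψ ∈ Icc 0 T, dd T ψ < η → K * dd T ψ ^ 2 ≤ K * η ^ 2 := fun ψ hψ hlt =>
    mul_le_mul_of_nonneg_left (pow_le_pow_left₀ (d0 ψ hψ) hlt.le 2) hK
  by_cases hlong : h ≤ a.dur
  · have q1 : 2 * (K * dd T a.e ^ 2) ≤ 2 * K * η ^ 2 + 5 * K / h * wE T η h a := by
      by_cases hbig : η ≤ dd T a.e
      · have : wE T η h a = h * dd T a.e ^ 2 := by
          simp only [wE, hab.1, hbig, and_self, if_true, min_eq_right hlong]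
        rw [this]
        have e : 5 * K / h * (h * dd T a.e ^ 2) = 5 * (K * dd T a.e ^ 2) := by field_simp
        have : 0 ≤ K * dd T a.e ^ 2 := by positivity
        have : 0 ≤ 2 * K * η ^ 2 := by positivity
        linarith
      · have := small _ me (not_le.mp hbig)
        have : 0 ≤ 5 * K / h * wE T η h a := by positivity
        linarith
    have q2 : 2 * (K * dd T a.s ^ 2) ≤ 2 * K * η ^ 2 + 5 * K / h * wS T η h a := by
      by_cases hbig : η ≤ dd T a.s
      · have : wS T η h a = h * dd T a.s ^ 2 := by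
          simp only [wS, hab.1, hbig, and_self, if_true, min_eq_right hlong]
        rw [this]
        have e : 5 * K / h * (h * dd T a.s ^ 2) = 5 * (K * dd T a.s ^ 2) := by field_simp
        have : 0 ≤ K * dd T a.s ^ 2 := by positivity
        have : 0 ≤ 2 * K * η ^ 2 := by positivity
        linarith
      · have := small _ ms (not_le.mp hbig)
        have : 0 ≤ 5 * K / h * wS T η h a := by positivity
        linarith
    linarith
  push Not at hlong
  have hes2 : a.e - a.s ≤ 2 * h := by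
    unfold Arc.dur at hlong
    nlinarith [hab.1]
  have short : ∀ c ∈ Icc a.s a.e, η ≤ dd T c →
      ‖∫ t in t0..t0 + a.dur, (W' t * bb (φ t) + W t * bb' (φ t))‖ ≤
        5 * K / h * (min a.dur h * dd T c ^ 2) := by
    intro c hcm hbig
    have near : ∀ ψ ∈ Icc a.s a.e, dd T ψ ≤ 2 * dd T c := fun ψ hψ => by
      have := dd_le_add (T := T) (a := ψ) (b := c) (c := 2 * h)
        (abs_le.mpr ⟨by linarith [hψ.1, hcm.2], by linarith [hψ.2, hcm.1]⟩)
      linarith
    have := optA hW1 hν h1 h0 hS (B0 := K * (2 * dd T c) ^ 2) (B1 := K * (2 * dd T c))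
      (fun ψ hψ => (hb0 ψ (sub ψ hψ)).trans (mul_le_mul_of_nonneg_left
        (pow_le_pow_left₀ (d0 ψ (sub ψ hψ)) (near ψ hψ) 2) hK))
      (fun ψ hψ => (hb1 ψ (sub ψ hψ)).trans (mul_le_mul_of_nonneg_left (near ψ hψ) hK))
    refine this.trans ?_
    rw [min_eq_left hlong.le]
    set δ := dd T c
    have r1 : ν * (K * (2 * δ) ^ 2) + K * (2 * δ) ≤ 5 * K / h * δ ^ 2 := by
      rw [div_mul_eq_mul_div, le_div_iff₀ hh]
      have s1 : ν * h ≤ 1 := mul_le_one₀ hν1 hh.le (by linarith)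
      have s2 : 0 ≤ K * δ ^ 2 := by positivity
      have s3 : 0 ≤ K * δ := mul_nonneg hK (by linarith)
      have s4 : K * δ * (2 * h) ≤ K * δ * δ := mul_le_mul_of_nonneg_left (by linarith) s3
      nlinarith
    calc a.dur * (ν * (K * (2 * δ) ^ 2) + K * (2 * δ)) ≤ a.dur * (5 * K / h * δ ^ 2) :=
          mul_le_mul_of_nonneg_left r1 h0
      _ = _ := by ring
  by_cases hbe : η ≤ dd T a.e
  · have := short a.e ⟨h3, le_rfl⟩ hbe
    have e : wE T η h a = min a.dur h * dd T a.e ^ 2 := by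
      simp only [wE, hab.1, hbe, and_self, if_true]
    rw [← e] at this
    have : 0 ≤ 5 * K / h * wS T η h a := by positivity
    linarith
  by_cases hbs : η ≤ dd T a.s
  · have := short a.s ⟨le_rfl, h3⟩ hbs
    have e : wS T η h a = min a.dur h * dd T a.s ^ 2 := by
      simp only [wS, hab.1, hbs, and_self, if_true]
    rw [← e] at this
    have : 0 ≤ 5 * K / h * wE T η h a := by positivity
    linarith
  have := small _ me (not_le.mp hbe)
  have := small _ ms (not_le.mp hbs)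
  linarith

theorem list_cost (hh : 0 < h) (hη : 2 * h ≤ η) (hη1 : η ≤ 1) (hK : 0 ≤ K) (hν1 : ν ≤ 1)
    (hd : ∀ t, HasDerivAt bb (bb' t) t) (hc : Continuous bb')
    (hb0 : ∀ ψ ∈ Icc 0 T, ‖bb ψ‖ ≤ K * dd T ψ ^ 2) (hb1 : ∀ ψ ∈ Icc 0 T, ‖bb' ψ‖ ≤ K * dd T ψ)
    (hW : ∀ t t', W t - W t' = ∫ σ in t'..t, W' σ)
    (hWi : ∀ a b, IntervalIntegrable W' volume a b)
    (hW1 : ∀ t, ‖W t‖ ≤ 1) (hν : ∀ t, ‖W' t‖ ≤ ν)
    (hJ : ∀ a b, IntervalIntegrable (fun t => W' t * bb (φ t) + W t * bb' (φ t)) volume a b) :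
    ∀ (L : List Arc) (t0 : ℝ), Valid T L → Spec φ L t0 →
    ‖∫ t in t0..t0 + dur L, (W' t * bb (φ t) + W t * bb' (φ t))‖ ≤
      4 * K * η ^ 2 * L.length +
        5 * K / h * ((L.map (wE T η h)).sum + (L.map (wS T η h)).sum) +
        ν * (K * T ^ 2) * wsum (fun l => |1 - l| * l) L + (K * T ^ 2 + K * T) * wsum g1 L
  | [], _, _, _ => by simp [dur, wsum]
  | a :: L, t0, hV, hS => by
    have ih := list_cost hh hη hη1 hK hν1 hd hc hb0 hb1 hW hWi hW1 hν hJ L _ (valid_tail hV) hS.2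
    have h1 := arc_cost hh hη hη1 hK hν1 hd hc hb0 hb1 hW hWi hW1 hν hV hS.1
    rw [dur_cons, ← add_assoc, ← intervalIntegral.integral_add_adjacent_intervals
      (hJ t0 (t0 + a.dur)) (hJ _ _)]
    refine (norm_add_le _ _).trans ?_
    simp only [List.map_cons, List.sum_cons, wsum_cons, List.length_cons, Nat.cast_add,
      Nat.cast_one]
    linarith

end CrossTerm

end Pool.Agent.Lib.MP_f78106_gt
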