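import Mathlib

/-!
Clarke dual action functional of a convex body in `ℂⁿ = ℝ²ⁿ`, the Fadell-Rabinowitz index of
circle spaces (rational singular homology of the Borel construction) and the resulting
Ekeland-Hofer spectral invariants.
-/

namespace Pool.Agent.Lib.MP_f78106_gt

open MeasureTheory Set CategoryTheory
open scoped ENNReal

/-- `ℝ²ⁿ = ℂⁿ`; the complex structure is multiplication by `Complex.I`. -/
abbrev V (n : ℕ) : Type := EuclideanSpace ℂ (Fin n)

/-- The Euclidean (real) inner product of `ℂⁿ`. -/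
noncomputable def rin {n : ℕ} (x y : V n) : ℝ := (inner ℂ x y).re

/-- A uniformly convex domain with the origin in its interior: a compact convex set `{f ≤ 0}`,
with `f` of class `C²`, `df ≠ 0` on the boundary `{f = 0}` and the Hessian of `f` positive
definite on the tangent spaces of the boundary. -/
def UnifConvex {n : ℕ} (Ω : Set (V n)) : Prop :=
  IsCompact Ω ∧ Convex ℝ Ω ∧ (0 : V n) ∈ interior Ω ∧
    ∃ f : V n → ℝ, ContDiff ℝ 2 f ∧ Ω = {x | f x ≤ 0} ∧
      ∀ z, f z = 0 → fderiv ℝ f z ≠ 0 ∧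
        ∀ v, v ≠ 0 → fderiv ℝ f z v = 0 → 0 < fderiv ℝ (fun y => fderiv ℝ f y v) z v

/-- The support function of `Ω`. -/
noncomputable def supp {n : ℕ} (Ω : Set (V n)) (v : V n) : ℝ :=
  sSup ((fun x => rin x v) '' Ω)

/-- Velocities of loops: `L²(ℝ/ℤ, ℂⁿ)`. -/
abbrev Loop (n : ℕ) : Type := Lp (V n) 2 (volume : Measure UnitAddCircle)

/-- The path with velocity `u` starting at the origin. -/
noncomputable def prim {n : ℕ} (u : Loop n) (t : ℝ) : V n :=
  ∫ s in (0 : ℝ)..t, u (s : UnitAddCircle)

/-- The symplectic action (area) `½ ∫ ⟨x, -J ẋ⟩` of the path `x` with velocity `u`. -/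
noncomputable def action {n : ℕ} (u : Loop n) : ℝ :=
  (1 / 2) * ∫ t in (0 : ℝ)..1, rin (prim u t) ((-Complex.I) • u (t : UnitAddCircle))

/-- Clarke's dual functional `¼ ∫ h_Ω(-J ẋ)²`. -/
noncomputable def clarke {n : ℕ} (Ω : Set (V n)) (u : Loop n) : ℝ :=
  ∫ t in (0 : ℝ)..1, supp Ω ((-Complex.I) • u (t : UnitAddCircle)) ^ 2 / 4

/-- Closed loops of action one on which Clarke's functional is smaller than `L`. -/
def sublevel {n : ℕ} (Ω : Set (V n)) (L : ℝ) : Set (Loop n) :=
  {u | prim u 1 = 0 ∧ action u = 1 ∧ clarke Ω u < L}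

/-- The circle action on loops by time shift. -/
noncomputable def shift {n : ℕ} (θ : UnitAddCircle) (u : Loop n) : Loop n :=
  Lp.compMeasurePreserving (fun t => t + θ) (measurePreserving_add_right volume θ) u

/-- The Hilbert space `ℓ²(ℕ, ℂ)`. -/
abbrev Hil : Type := lp (fun _ : ℕ => ℂ) 2

/-- The model `ES¹`: the unit sphere of `ℓ²(ℕ, ℂ)`. -/
abbrev ES : Type := Metric.sphere (0 : Hil) 1

/-- The classifying space `BS¹ = ES¹ / S¹`. -/
abbrev BS : Type :=
  Quot (fun v w : ES => ∃ θ : UnitAddCircle, ((θ.toCircle : Circle) : ℂ) • (v : Hil) = (w : Hil))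

/-- The Borel construction `(X × ES¹) / S¹` of a subset `X` of a space with circle action `a`. -/
abbrev Borel {Y : Type} (a : UnitAddCircle → Y → Y) (X : Set Y) : Type :=
  Quot (fun p q : X × ES => ∃ θ : UnitAddCircle,
    a θ (p.1 : Y) = (q.1 : Y) ∧ ((θ.toCircle : Circle) : ℂ) • (p.2 : Hil) = (q.2 : Hil))

/-- The projection `(X × ES¹) / S¹ → BS¹`. -/
noncomputable def borelProj {Y : Type} [TopologicalSpace Y] (a : UnitAddCircle → Y → Y) (X : Set Y) :
    C(Borel a X, BS) where
  toFun := Quot.map Prod.snd (fun _ _ h => h.imp fun _ h => h.2)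
  continuous_toFun := continuous_quot_lift _ (continuous_quot_mk.comp continuous_snd)

/-- Fadell-Rabinowitz index at least `k`: the projection of the Borel construction to `BS¹` is
onto in rational singular homology in all degrees below `2 k`. -/
def IndexGE {Y : Type} [TopologicalSpace Y] (a : UnitAddCircle → Y → Y) (X : Set Y) (k : ℕ) :
    Prop :=
  ∀ j < 2 * k, Function.Surjective
    (((AlgebraicTopology.singularHomologyFunctor (ModuleCat ℚ) j).obj (ModuleCat.of ℚ ℚ)).map
      (TopCat.ofHom (borelProj a X))).hom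

/-- The `k`-th spectral invariant: the infimum of the levels whose sublevel set of Clarke's
functional has index at least `k`. -/
noncomputable def cap {n : ℕ} (Ω : Set (V n)) (k : ℕ) : ℝ≥0∞ :=
  ⨅ (L : ℝ) (_ : IndexGE shift (sublevel Ω L) k), ENNReal.ofReal L

end Pool.Agent.Lib.MP_f78106_gt
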