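import Pool.Agent.Lib.MP_f78106_gt.Defs

/-!
Auxiliary definitions for the proof: abstract dual data, the phase function of the iterated
insertion family, lists of arcs, and the slow wave.
-/

namespace Pool.Agent.Lib.MP_f78106_gt

open MeasureTheory Set

/-- The symplectic form `ω(x, y) = ⟨x, -J y⟩`. -/
noncomputable def om {n : ℕ} (x y : V n) : ℝ := rin x ((-Complex.I) • y)

/-- Abstract properties of the dual Hamiltonian `Hs = h² / 4` and its gradient `Z`. -/
structure DualData {n : ℕ} (Hs : V n → ℝ) (Z : V n → V n) (a C K : ℝ) : Prop where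
  contH : Continuous Hs
  contZ : Continuous Z
  apos : 0 < a
  lower : ∀ u, a * ‖u‖ ^ 2 ≤ Hs u
  homH : ∀ t : ℝ, 0 ≤ t → ∀ u, Hs (t • u) = t ^ 2 * Hs u
  homZ : ∀ t : ℝ, 0 ≤ t → ∀ u, Z (t • u) = t • Z u
  euler : ∀ u, rin (Z u) u = 2 * Hs u
  sub : ∀ u w, Hs u + rin (Z u) w ≤ Hs (u + w)
  quad : ∀ u w, Hs (u + w) ≤ Hs u + rin (Z u) w + C * ‖w‖ ^ 2
  expand : ∀ u w, ‖u - w‖ ≤ K * ‖Z u - Z w‖

/-- Phase function (period one) after inserting the lobes `0, …, j - 1` of sizes `lam i` at the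
relative times `s i`. -/
noncomputable def ph (T : ℝ) (lam s : ℕ → ℝ) : ℕ → ℝ → ℝ
  | 0, _ => 0
  | j + 1, t =>
    if Int.fract (t - s j) < lam j / ∑ i ∈ Finset.range (j + 1), lam i then
      T * Int.fract (t - s j) / (lam j / ∑ i ∈ Finset.range (j + 1), lam i)
    else
      ph T lam s j (s j + (Int.fract (t - s j) - lam j / ∑ i ∈ Finset.range (j + 1), lam i) /
        (1 - lam j / ∑ i ∈ Finset.range (j + 1), lam i))

/-- An arc: size `l`, phase running from `s` to `e`. -/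
structure Arc where
  /-- size of the lobe -/
  l : ℝ
  /-- initial phase -/
  s : ℝ
  /-- final phase -/
  e : ℝ

/-- Duration of an arc. -/
def Arc.dur (a : Arc) : ℝ := a.l * (a.e - a.s)

/-- Weighted sum of phase advances. -/
def wsum (g : ℝ → ℝ) (L : List Arc) : ℝ := (L.map fun a => g a.l * (a.e - a.s)).sum

/-- Total duration. -/
def dur (L : List Arc) : ℝ := (L.map Arc.dur).sum

/-- Admissible lists of arcs: every jump of the phase starts at `T` or lands at `0`. -/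
def Valid (T : ℝ) (L : List Arc) : Prop :=
  (∀ a ∈ L, 0 ≤ a.l ∧ 0 ≤ a.s ∧ a.s ≤ a.e ∧ a.e ≤ T) ∧
    L.IsChain (fun a b => a.e = T ∨ b.s = 0)

/-- The phase function `φ` follows the list of arcs, starting at time `t0`. -/
def Spec (φ : ℝ → ℝ) : List Arc → ℝ → Prop
  | [], _ => True
  | a :: L, t0 =>
    (∀ t, t0 < t → t < t0 + a.dur → φ t = a.s + (t - t0) / a.l) ∧ Spec φ L (t0 + a.dur)

/-- Total displacement along a list of arcs of the curve `G`. -/
noncomputable def disp {n : ℕ} (G : ℝ → V n) (L : List Arc) : V n :=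
  (L.map fun a => a.l • (G a.e - G a.s)).sum

/-- Polygonal part of twice the area along a list of arcs. -/
noncomputable def pol {n : ℕ} (G : ℝ → V n) : List Arc → ℝ
  | [] => 0
  | a :: L => -(a.l ^ 2 * om (G a.s) (G a.e)) + om (a.l • (G a.e - G a.s)) (disp G L) + pol G L

/-- A trigonometric polynomial with frequencies `m, …, m + N - 1`. -/
noncomputable def wf (τ : ℝ) (m N : ℕ) (ρ s : ℕ → ℝ) (t : ℝ) : ℂ :=
  ∑ j ∈ Finset.range N,
    (ρ j : ℂ) * Complex.exp (2 * Real.pi * Complex.I * (((m + j : ℕ) : ℝ) * (t / τ - s j) : ℝ))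

/-- The square of the phase of `wf`. -/
noncomputable def wF (τ : ℝ) (m N : ℕ) (ρ s : ℕ → ℝ) (t : ℝ) : ℂ :=
  wf τ m N ρ s t ^ 2 / ((‖wf τ m N ρ s t‖ ^ 2 : ℝ) : ℂ)

/-- The slow wave: moving average of `wF` over half a period of the carrier. -/
noncomputable def wW (τ : ℝ) (m N : ℕ) (ρ s : ℕ → ℝ) (t : ℝ) : ℂ :=
  (4 * m / τ : ℝ) • ∫ σ in t..t + τ / (4 * m), wF τ m N ρ s σ

/-- The velocity of the slow wave. -/
noncomputable def wD (τ : ℝ) (m N : ℕ) (ρ s : ℕ → ℝ) (t : ℝ) : ℂ :=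
  (4 * m / τ : ℝ) • (wF τ m N ρ s (t + τ / (4 * m)) - wF τ m N ρ s t)

end Pool.Agent.Lib.MP_f78106_gt
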