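import Pool.Agent.Lib.MP_f78106_gt.Bilin
import Pool.Agent.Lib.MP_f78106_gt.Once

/-!
Lower bound for the shift energy of the centre function along a list of arcs.
-/

namespace Pool.Agent.Lib.MP_f78106_gt

open MeasureTheory Set Filter Topology

/-- Distance of a phase in `[0, T]` to `{0, T}`. -/
def dd (T φ : ℝ) : ℝ := min φ (T - φ)

/-- Phase advance of a small arc. -/
noncomputable def adv (a : Arc) : ℝ := if a.l < 1 / 2 then a.e - a.s else 0

/-- Small phase advance accumulated on the arcs starting before time `r`. -/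
noncomputable def Wp (h : ℝ) : List Arc → ℝ → ℝ
  | [], r => if 0 < r then h else 0
  | a :: L, r => if r ≤ 0 then 0 else adv a + Wp h L (r - a.dur)

open Classical in
/-- Number of arcs with a big final corner that are followed by an impure window. -/
noncomputable def Nimp (T η h : ℝ) : List Arc → ℝ
  | [] => 0
  | a :: L => (if (1 / 2 ≤ a.l ∧ η ≤ dd T a.e) ∧ h ≤ Wp h L h then 1 else 0) + Nimp T η h L

open Classical in
/-- Weight of the final corner of an arc. -/
noncomputable def wE (T η h : ℝ) (a : Arc) : ℝ :=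
  if 1 / 2 ≤ a.l ∧ η ≤ dd T a.e then min a.dur h * dd T a.e ^ 2 else 0

open Classical in
/-- Weight of the initial corner of an arc. -/
noncomputable def wS (T η h : ℝ) (a : Arc) : ℝ :=
  if 1 / 2 ≤ a.l ∧ η ≤ dd T a.s then min a.dur h * dd T a.s ^ 2 else 0

namespace Gain

theorem valid_tail {T : ℝ} {a : Arc} {L : List Arc} (h : Valid T (a :: L)) : Valid T L :=
  ⟨fun b hb => h.1 b (List.mem_cons_of_mem _ hb), h.2.tail⟩

theorem valid_head {T : ℝ} {a : Arc} {L : List Arc} (h : Valid T (a :: L)) :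
    0 ≤ a.l ∧ 0 ≤ a.s ∧ a.s ≤ a.e ∧ a.e ≤ T := h.1 a List.mem_cons_self

theorem valid_next {T : ℝ} {a : Arc} {L : List Arc} (h : Valid T (a :: L)) (he : a.e < T) :
    ∀ b ∈ L.head?, b.s = 0 := by
  intro b hb
  cases L with
  | nil => simp at hb
  | cons c L =>
    simp only [List.head?_cons, Option.mem_def, Option.some.injEq] at hb
    subst hb
    have := (List.isChain_cons_cons.mp h.2).1
    rcases this with h1 | h1
    · exact absurd h1 he.ne
    · exact h1

theorem dur_nonneg {T : ℝ} {a : Arc} {L : List Arc} (h : Valid T (a :: L)) : 0 ≤ a.dur := by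
  obtain ⟨h1, _, h3, _⟩ := valid_head h
  exact mul_nonneg h1 (by linarith)

theorem adv_nonneg {T : ℝ} {a : Arc} {L : List Arc} (h : Valid T (a :: L)) : 0 ≤ adv a := by
  obtain ⟨_, _, h3, _⟩ := valid_head h
  unfold adv
  split_ifs <;> linarith

theorem e_le {T : ℝ} {a : Arc} {L : List Arc} (h : Valid T (a :: L)) :
    a.e ≤ a.s + 2 * a.dur + adv a := by
  obtain ⟨h1, _, h3, _⟩ := valid_head h
  have h5 := dur_nonneg h
  unfold adv
  split_ifs with hl
  · linarith
  · unfold Arc.dur
    nlinarith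

theorem dur_cons (a : Arc) (L : List Arc) : dur (a :: L) = a.dur + dur L := by simp [dur]

theorem dur_append (L M : List Arc) : dur (L ++ M) = dur L + dur M := by simp [dur]

theorem ldur_nonneg {T : ℝ} : ∀ {L : List Arc}, Valid T L → 0 ≤ dur L
  | [], _ => by simp [dur]
  | a :: L, h => by
    rw [dur_cons]
    exact add_nonneg (dur_nonneg h) (ldur_nonneg (valid_tail h))

theorem Wp_of_nonpos (h : ℝ) (L : List Arc) {r : ℝ} (hr : r ≤ 0) : Wp h L r = 0 := by
  cases L with
  | nil => simp [Wp, not_lt.mpr hr]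
  | cons a L => simp [Wp, hr]

theorem Wp_nonneg {T h : ℝ} (hh : 0 < h) : ∀ {L : List Arc}, Valid T L → ∀ r, 0 ≤ Wp h L r
  | [], _, r => by
    unfold Wp
    split_ifs <;> linarith
  | a :: L, hV, r => by
    unfold Wp
    split_ifs
    · exact le_rfl
    · exact add_nonneg (adv_nonneg hV) (Wp_nonneg hh (valid_tail hV) _)

theorem count {T η h : ℝ} (hh : 0 < h) (hη : 3 * h < η) (hT : 3 * h < T) :
    ∀ L : List Arc, Valid T L → h * Nimp T η h L ≤ h + (L.map adv).sum ∧
      ∀ r w : ℝ, r ≤ h → 0 ≤ w → (∀ a ∈ L.head?, a.s ≤ 2 * (h - r) + w) →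
        min (h - w) (Wp h L r) + h * Nimp T η h L ≤ h + (L.map adv).sum
  | [], _ => by
    refine ⟨by simp [Nimp, hh.le], fun r w _ hw _ => ?_⟩
    have := min_le_left (h - w) (Wp h [] r)
    simp only [Nimp, List.map_nil, List.sum_nil]
    linarith
  | a :: L, hV => by
    obtain ⟨ih1, ih2⟩ := count hh hη hT L (valid_tail hV)
    have ha := adv_nonneg hV
    have hd := dur_nonneg hV
    have star : h * Nimp T η h (a :: L) ≤ h + (L.map adv).sum := by
      unfold Nimp
      split_ifs with hb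
      · have he : a.e < T := by
          have h1 : η ≤ T - a.e := hb.1.2.trans (min_le_right _ _)
          linarith
        have := ih2 h 0 le_rfl le_rfl (fun b hb' => by rw [valid_next hV he b hb']; simp)
        rw [sub_zero, min_eq_left hb.2] at this
        linarith
      · simpa using ih1
    simp only [List.map_cons, List.sum_cons]
    refine ⟨by linarith, fun r w hr hw hs => ?_⟩
    by_cases hr0 : r ≤ 0
    · rw [Wp_of_nonpos _ _ hr0]
      have := min_le_right (h - w) 0
      linarith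
    have hW : Wp h (a :: L) r = adv a + Wp h L (r - a.dur) := by simp [Wp, hr0]
    rw [hW]
    by_cases h1 : h - w ≤ adv a
    · have := min_le_left (h - w) (adv a + Wp h L (r - a.dur))
      linarith
    by_cases h2 : r - a.dur ≤ 0
    · rw [Wp_of_nonpos _ _ h2]
      have := min_le_right (h - w) (adv a + 0)
      linarith
    push Not at h1 h2
    have hs' := hs a (by simp)
    have he := e_le hV
    have he3 : a.e < 3 * h := by linarith
    have hN : Nimp T η h (a :: L) = Nimp T η h L := by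
      have : ¬ ((1 / 2 ≤ a.l ∧ η ≤ dd T a.e) ∧ h ≤ Wp h L h) := fun hb => by
        have h1 : η ≤ a.e := hb.1.2.trans (min_le_left _ _)
        linarith
      simp only [Nimp, this, if_false, zero_add]
    have := ih2 (r - a.dur) (w + adv a) (by linarith) (by linarith) (fun b hb => by
      rw [valid_next hV (by linarith) b hb]; linarith)
    rw [hN]
    have e : min (h - w) (adv a + Wp h L (r - a.dur)) =
        adv a + min (h - (w + adv a)) (Wp h L (r - a.dur)) := by
      rw [← min_add_add_left]; congr 1; ring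
    rw [e]
    linarith

theorem pure {T h : ℝ} (hh : 0 < h) (hT : 3 * h < T) {φ : ℝ → ℝ} :
    ∀ (L : List Arc) (t0 r w : ℝ), Valid T L → Spec φ L t0 → r ≤ h → 0 ≤ w →
      (∀ a ∈ L.head?, a.s ≤ 2 * (h - r) + w) → w + Wp h L r < h →
      ∀ᵐ t, t ∈ Ioo t0 (t0 + r) → φ t ≤ 3 * h
  | [], t0, r, w, _, _, _, hw, _, hW => by
    refine Eventually.of_forall fun t ht => ?_
    have hr : 0 < r := by linarith [ht.1, ht.2]
    simp only [Wp, hr, if_true] at hW
    linarith
  | a :: L, t0, r, w, hV, hS, hr, hw, hs, hW => by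
    by_cases hr0 : r ≤ 0
    · exact Eventually.of_forall fun t ht => by linarith [ht.1, ht.2]
    have hW' : w + (adv a + Wp h L (r - a.dur)) < h := by simpa [Wp, hr0] using hW
    have ha := adv_nonneg hV
    have hd := dur_nonneg hV
    have hW0 := Wp_nonneg hh (valid_tail hV) (r - a.dur)
    have hs' := hs a (by simp)
    obtain ⟨h1, h2, h3, h4⟩ := valid_head hV
    have first : ∀ t, t0 < t → t < t0 + r → t < t0 + a.dur → φ t ≤ 3 * h := by
      intro t ht1 ht2 ht3
      rw [hS.1 t ht1 ht3]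
      have hl : 0 < a.l := by
        rcases h1.lt_or_eq with hl | hl
        · exact hl
        · exfalso
          have : a.dur = 0 := by simp [Arc.dur, ← hl]
          linarith
      by_cases hsm : a.l < 1 / 2
      · have e1 : adv a = a.e - a.s := by simp only [adv, hsm, if_true]
        have e2 : (t - t0) / a.l ≤ a.e - a.s := by
          rw [div_le_iff₀ hl]
          unfold Arc.dur at ht3
          linarith
        linarith
      · have e2 : (t - t0) / a.l ≤ 2 * (t - t0) := by
          rw [div_le_iff₀ hl]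
          nlinarith
        linarith
    by_cases h5 : r - a.dur ≤ 0
    · exact Eventually.of_forall fun t ht => first t ht.1 ht.2 (by linarith [ht.2])
    push Not at h5
    have he := e_le hV
    have ih := pure hh hT L (t0 + a.dur) (r - a.dur) (w + adv a) (valid_tail hV) hS.2
      (by linarith) (by linarith)
      (fun b hb => by rw [valid_next hV (by linarith) b hb]; linarith) (by linarith)
    filter_upwards [ih, compl_mem_ae_iff.mpr (measure_singleton (t0 + a.dur))] with t ht hne hm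
    rcases lt_trichotomy t (t0 + a.dur) with hlt | heq | hgt
    · exact first t hm.1 hm.2 hlt
    · exact absurd heq hne
    · exact ht ⟨hgt, by linarith [hm.2]⟩

end Gain

open Gain

section OneSided

variable {E : Type} [NormedAddCommGroup E] {T η h M c0 : ℝ} {γ x : ℝ → E} {φ : ℝ → ℝ}
  {D : ℝ → ℝ}

theorem Gain.arc_bound (hh : 0 < h) (hη : 3 * h < η) (hT : 3 * h < T) (hM0 : 0 ≤ M) (hc0 : 0 < c0)
    (hM : 12 * M * h ≤ c0 * η) (hφ : ∀ t, φ t ∈ Icc 0 T)
    (hγ : ∀ a ∈ Icc 0 T, ∀ b ∈ Icc 0 T, ‖γ a - γ b‖ ≤ M * |a - b|)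
    (hlow : ∀ a ∈ Icc 0 T, c0 * dd T a ≤ ‖γ a - γ 0‖)
    (hx : ∀ t t', ‖x t - x t'‖ ≤ M * |t - t'|)
    (hD : ∀ t, ‖(γ (φ (t + h)) - x (t + h)) - (γ (φ t) - x t)‖ ^ 2 ≤ D t)
    (hDi : ∀ a b, IntervalIntegrable D volume a b)
    {a : Arc} {L : List Arc} {t0 : ℝ} (hV : Valid T (a :: L)) (hS : Spec φ (a :: L) t0)
    (hb : 1 / 2 ≤ a.l ∧ η ≤ dd T a.e) (hp : Wp h L h < h) :
    min a.dur h * dd T a.e ^ 2 ≤ 4 / c0 ^ 2 * ∫ t in t0..t0 + a.dur, D t := by
  obtain ⟨h1, h2, h3, h4⟩ := valid_head hV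
  have hd := dur_nonneg hV
  have hD0 : ∀ t, 0 ≤ D t := fun t => (sq_nonneg _).trans (hD t)
  have he : a.e < T := by
    have h1 : η ≤ T - a.e := hb.2.trans (min_le_right _ _)
    linarith
  have hpure := Gain.pure hh hT L (t0 + a.dur) h 0 (valid_tail hV) hS.2 le_rfl le_rfl
    (fun b hb' => by rw [valid_next hV he b hb']; simp) (by simpa using hp)
  have hpure' : ∀ᵐ σ, σ + h ∈ Ioo (t0 + a.dur) (t0 + a.dur + h) → φ (σ + h) ≤ 3 * h :=
    (measurePreserving_add_right volume h).quasiMeasurePreserving.ae hpure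
  set μ := min a.dur h with hμ
  have hμ0 : 0 ≤ μ := le_min hd hh.le
  have hμ1 : μ ≤ a.dur := min_le_left _ _
  have hμ2 : μ ≤ h := min_le_right _ _
  have hl : 0 < a.l := by linarith [hb.1]
  have key : ∀ᵐ σ, σ ∈ Ioo (t0 + a.dur - μ) (t0 + a.dur) → (c0 * dd T a.e / 2) ^ 2 ≤ D σ := by
    filter_upwards [hpure'] with σ hσ hm
    have p1 : φ (σ + h) ≤ 3 * h := hσ ⟨by linarith [hm.1], by linarith [hm.2]⟩
    have p2 : φ σ = a.s + (σ - t0) / a.l := hS.1 σ (by linarith [hm.1]) hm.2
    have p3 : |φ σ - a.e| ≤ 2 * h := by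
      have e1 : φ σ - a.e = -((t0 + a.dur - σ) / a.l) := by
        rw [p2, Arc.dur]; field_simp; ring
      rw [e1, abs_neg, abs_of_nonneg (div_nonneg (by linarith [hm.2]) hl.le), div_le_iff₀ hl]
      nlinarith [hm.1, hb.1]
    have q1 : ‖γ (φ (σ + h)) - γ 0‖ ≤ M * (3 * h) := by
      refine (hγ _ (hφ _) 0 ⟨le_rfl, by linarith⟩).trans (mul_le_mul_of_nonneg_left ?_ hM0)
      rw [sub_zero, abs_of_nonneg (hφ _).1]
      exact p1
    have q2 : ‖γ (φ σ) - γ a.e‖ ≤ M * (2 * h) :=
      (hγ _ (hφ _) _ ⟨h2.trans h3, h4⟩).trans (mul_le_mul_of_nonneg_left p3 hM0)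
    have q3 : ‖x (σ + h) - x σ‖ ≤ M * h := by
      have := hx (σ + h) σ
      rwa [add_sub_cancel_left, abs_of_pos hh] at this
    have q4 := hlow a.e ⟨h2.trans h3, h4⟩
    have q5 : ‖γ a.e - γ 0‖ ≤ ‖(γ (φ (σ + h)) - x (σ + h)) - (γ (φ σ) - x σ)‖ +
        ‖γ (φ (σ + h)) - γ 0‖ + ‖γ (φ σ) - γ a.e‖ + ‖x (σ + h) - x σ‖ := by
      have e : γ a.e - γ 0 = -((γ (φ (σ + h)) - x (σ + h)) - (γ (φ σ) - x σ)) +
          (γ (φ (σ + h)) - γ 0) + -(γ (φ σ) - γ a.e) + -(x (σ + h) - x σ) := by abel
      rw [e]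
      refine (norm_add_le _ _).trans (add_le_add ((norm_add_le _ _).trans
        (add_le_add ((norm_add_le _ _).trans ?_) ?_)) ?_) <;> simp only [norm_neg, le_refl]
    have q6 : c0 * η ≤ c0 * dd T a.e := mul_le_mul_of_nonneg_left hb.2 hc0.le
    have q7 : c0 * dd T a.e / 2 ≤ ‖(γ (φ (σ + h)) - x (σ + h)) - (γ (φ σ) - x σ)‖ := by
      nlinarith
    have q8 : 0 ≤ c0 * dd T a.e / 2 := by nlinarith
    exact (pow_le_pow_left₀ q8 q7 2).trans (hD σ)
  have i1 : μ * (c0 * dd T a.e / 2) ^ 2 ≤ ∫ t in (t0 + a.dur - μ)..t0 + a.dur, D t := by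
    have := intervalIntegral.integral_mono_ae_restrict (μ := volume)
      (f := fun _ => (c0 * dd T a.e / 2) ^ 2) (g := D)
      (a := t0 + a.dur - μ) (b := t0 + a.dur) (by linarith) intervalIntegrable_const (hDi _ _)
      (by
        rw [← Measure.restrict_congr_set Ioo_ae_eq_Icc]
        exact (ae_restrict_iff' measurableSet_Ioo).mpr key)
    simpa using this
  have i2 : ∫ t in (t0 + a.dur - μ)..t0 + a.dur, D t ≤ ∫ t in t0..t0 + a.dur, D t := by
    rw [← intervalIntegral.integral_add_adjacent_intervals (hDi t0 (t0 + a.dur - μ))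
      (hDi (t0 + a.dur - μ) (t0 + a.dur))]
    have := intervalIntegral.integral_nonneg (μ := volume) (f := D) (a := t0)
      (b := t0 + a.dur - μ) (by linarith) (fun t _ => hD0 t)
    linarith
  have e : μ * dd T a.e ^ 2 = 4 / c0 ^ 2 * (μ * (c0 * dd T a.e / 2) ^ 2) := by
    field_simp; ring
  rw [e]
  exact mul_le_mul_of_nonneg_left (i1.trans i2) (by positivity)

theorem gainE (hh : 0 < h) (hη : 3 * h < η) (hT : 3 * h < T) (hM0 : 0 ≤ M) (hc0 : 0 < c0)
    (hM : 12 * M * h ≤ c0 * η) (hφ : ∀ t, φ t ∈ Icc 0 T)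
    (hγ : ∀ a ∈ Icc 0 T, ∀ b ∈ Icc 0 T, ‖γ a - γ b‖ ≤ M * |a - b|)
    (hlow : ∀ a ∈ Icc 0 T, c0 * dd T a ≤ ‖γ a - γ 0‖)
    (hx : ∀ t t', ‖x t - x t'‖ ≤ M * |t - t'|)
    (hD : ∀ t, ‖(γ (φ (t + h)) - x (t + h)) - (γ (φ t) - x t)‖ ^ 2 ≤ D t)
    (hDi : ∀ a b, IntervalIntegrable D volume a b)
    (L : List Arc) (t0 : ℝ) (hV : Valid T L) (hS : Spec φ L t0) :
    (L.map (wE T η h)).sum ≤
      4 / c0 ^ 2 * (∫ t in t0..t0 + dur L, D t) + T ^ 2 * (h + (L.map adv).sum) := by
  have hD0 : ∀ t, 0 ≤ D t := fun t => (sq_nonneg _).trans (hD t)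
  have main : ∀ (L : List Arc) (t0 : ℝ), Valid T L → Spec φ L t0 → (L.map (wE T η h)).sum ≤
      4 / c0 ^ 2 * (∫ t in t0..t0 + dur L, D t) + T ^ 2 * (h * Nimp T η h L) := by
    intro L
    induction L with
    | nil => intro t0 _ _; simp [dur, Nimp]
    | cons a L ih =>
      intro t0 hV hS
      have ih' := ih (t0 + a.dur) (valid_tail hV) hS.2
      have hd := dur_nonneg hV
      obtain ⟨h1, h2, h3, h4⟩ := valid_head hV
      rw [dur_cons, ← add_assoc, ← intervalIntegral.integral_add_adjacent_intervals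
        (hDi t0 (t0 + a.dur)) (hDi (t0 + a.dur) (t0 + a.dur + dur L))]
      have hI : 0 ≤ 4 / c0 ^ 2 * ∫ t in t0..t0 + a.dur, D t :=
        mul_nonneg (by positivity)
          (intervalIntegral.integral_nonneg (by linarith) (fun t _ => hD0 t))
      simp only [List.map_cons, List.sum_cons, Nimp]
      by_cases hb : 1 / 2 ≤ a.l ∧ η ≤ dd T a.e
      · by_cases hp : h ≤ Wp h L h
        · have b1 : wE T η h a ≤ T ^ 2 * h := by
            simp only [wE, hb, and_self, if_true]
            have d0 : 0 ≤ dd T a.e := le_min (h2.trans h3) (by linarith)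
            have d1 : dd T a.e ≤ T := (min_le_left _ _).trans h4
            have d2 := pow_le_pow_left₀ d0 d1 2
            have d3 : min a.dur h ≤ h := min_le_right _ _
            have d4 : 0 ≤ min a.dur h := le_min hd hh.le
            nlinarith [sq_nonneg (dd T a.e)]
          rw [if_pos ⟨hb, hp⟩]
          nlinarith
        · have b1 : wE T η h a ≤ 4 / c0 ^ 2 * ∫ t in t0..t0 + a.dur, D t := by
            simp only [wE, hb, and_self, if_true]
            exact Gain.arc_bound hh hη hT hM0 hc0 hM hφ hγ hlow hx hD hDi hV hS hb (not_le.mp hp)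
          rw [if_neg (fun h' => hp h'.2)]
          nlinarith
      · have b1 : wE T η h a = 0 := by simp only [wE, hb, if_false]
        rw [if_neg (fun h' => hb h'.1), b1]
        nlinarith
  have := (count hh hη hT L hV).1
  have h2 := mul_le_mul_of_nonneg_left this (sq_nonneg T)
  linarith [main L t0 hV hS]

end OneSided

namespace Gain

/-- Time reversal of an arc. -/
def rv (T : ℝ) (a : Arc) : Arc := ⟨a.l, T - a.e, T - a.s⟩

theorem dur_rv (T : ℝ) (a : Arc) : (rv T a).dur = a.dur := by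
  simp only [rv, Arc.dur]; ring

theorem spec_append (φ : ℝ → ℝ) : ∀ (L M : List Arc) (t0 : ℝ),
    Spec φ (L ++ M) t0 ↔ Spec φ L t0 ∧ Spec φ M (t0 + dur L)
  | [], M, t0 => by simp [Spec, dur]
  | a :: L, M, t0 => by
    simp only [List.cons_append, Spec, spec_append φ L M, dur_cons, add_assoc, and_assoc]

theorem dur_rev (T : ℝ) (L : List Arc) : dur (L.map (rv T)).reverse = dur L := by
  simp only [dur, List.map_reverse, List.sum_reverse, List.map_map]
  congr 1
  exact List.map_congr_left fun a _ => dur_rv T a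

theorem spec_rev (T : ℝ) {φ : ℝ → ℝ} : ∀ (L : List Arc) (t0 : ℝ), Spec φ L t0 →
    Spec (fun t => T - φ (-t)) (L.map (rv T)).reverse (-(t0 + dur L))
  | [], _, _ => by simp [Spec]
  | a :: L, t0, hS => by
    rw [List.map_cons, List.reverse_cons, spec_append, dur_cons, dur_rev]
    refine ⟨by simpa only [add_assoc] using spec_rev T L _ hS.2, ?_, trivial⟩
    intro t h1 h2
    rw [dur_rv] at h2
    have hl : a.l ≠ 0 := by
      intro hl
      have : a.dur = 0 := by simp [Arc.dur, hl]
      linarith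
    simp only
    rw [hS.1 (-t) (by linarith) (by linarith)]
    simp only [rv, Arc.dur]
    field_simp
    ring

theorem valid_rev {T : ℝ} {L : List Arc} (hV : Valid T L) : Valid T (L.map (rv T)).reverse := by
  refine ⟨fun b hb => ?_, ?_⟩
  · simp only [List.mem_reverse, List.mem_map] at hb
    obtain ⟨a, ha, rfl⟩ := hb
    obtain ⟨h1, h2, h3, h4⟩ := hV.1 a ha
    simp only [rv]
    exact ⟨h1, by linarith, by linarith, by linarith⟩
  · rw [List.isChain_reverse, List.isChain_map]
    refine hV.2.imp fun a b hab => ?_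
    simp only [rv]
    rcases hab with h | h
    · right; linarith
    · left; linarith

theorem dd_sub (T a : ℝ) : dd T (T - a) = dd T a := by
  simp only [dd, sub_sub_cancel, min_comm]

end Gain

theorem gainS {E : Type} [NormedAddCommGroup E] {T η h M c0 : ℝ} {γ x : ℝ → E} {φ : ℝ → ℝ}
    {D : ℝ → ℝ} (hh : 0 < h) (hη : 3 * h < η) (hT : 3 * h < T) (hM0 : 0 ≤ M) (hc0 : 0 < c0)
    (hM : 12 * M * h ≤ c0 * η) (hφ : ∀ t, φ t ∈ Icc 0 T) (hγT : γ T = γ 0)
    (hγ : ∀ a ∈ Icc 0 T, ∀ b ∈ Icc 0 T, ‖γ a - γ b‖ ≤ M * |a - b|)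
    (hlow : ∀ a ∈ Icc 0 T, c0 * dd T a ≤ ‖γ a - γ 0‖)
    (hx : ∀ t t', ‖x t - x t'‖ ≤ M * |t - t'|)
    (hD : ∀ t, ‖(γ (φ (t + h)) - x (t + h)) - (γ (φ t) - x t)‖ ^ 2 ≤ D t)
    (hDi : ∀ a b, IntervalIntegrable D volume a b)
    (L : List Arc) (t0 : ℝ) (hV : Valid T L) (hS : Spec φ L t0) :
    (L.map (wS T η h)).sum ≤
      4 / c0 ^ 2 * (∫ t in t0 - h..t0 - h + dur L, D t) + T ^ 2 * (h + (L.map adv).sum) := by
  have key := gainE (γ := fun ψ => γ (T - ψ)) (x := fun t => x (-t)) (φ := fun t => T - φ (-t))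
    (D := fun t => D (-h - t)) hh hη hT hM0 hc0 hM
    (fun t => ⟨by linarith [(hφ (-t)).2], by linarith [(hφ (-t)).1]⟩)
    (fun a ha b hb => by
      have := hγ (T - a) ⟨by linarith [ha.2], by linarith [ha.1]⟩ (T - b)
        ⟨by linarith [hb.2], by linarith [hb.1]⟩
      rwa [show T - a - (T - b) = -(a - b) by ring, abs_neg] at this)
    (fun a ha => by
      have := hlow (T - a) ⟨by linarith [ha.2], by linarith [ha.1]⟩
      rw [dd_sub, ← hγT] at this
      simpa only [sub_zero] using this)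
    (fun t t' => by
      have := hx (-t) (-t')
      rwa [show -t - -t' = -(t - t') by ring, abs_neg] at this)
    (fun t => by
      have := hD (-h - t)
      simp only [sub_sub_cancel]
      rw [norm_sub_rev, show -(t + h) = -h - t by ring, show -t = -h - t + h by ring]
      exact this)
    (fun a b => by
      have := (hDi (-h - a) (-h - b)).comp_sub_left (-h)
      simpa using this)
    _ _ (valid_rev hV) (spec_rev T L t0 hS)
  rw [dur_rev, intervalIntegral.integral_comp_sub_left D] at key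
  have e1 : ((L.map (rv T)).reverse.map (wE T η h)).sum = (L.map (wS T η h)).sum := by
    simp only [List.map_reverse, List.sum_reverse, List.map_map]
    congr 1
    refine List.map_congr_left fun a _ => ?_
    simp only [Function.comp, wE, wS, dur_rv]
    simp only [rv, dd_sub]
  have e2 : ((L.map (rv T)).reverse.map adv).sum = (L.map adv).sum := by
    simp only [List.map_reverse, List.sum_reverse, List.map_map]
    congr 1
    refine List.map_congr_left fun a _ => ?_
    simp only [Function.comp, adv, rv]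
    split_ifs <;> ring
  rw [e1, e2, show -h - (-(t0 + dur L) + dur L) = t0 - h by ring,
    show -h - -(t0 + dur L) = t0 - h + dur L by ring] at key
  exact key

end Pool.Agent.Lib.MP_f78106_gt
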