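import Pool.Agent.Lib.MP_f78106_gt.Fam

/-!
Geometry of uniformly convex domains: the square of the support function has a Lipschitz
gradient with a Lipschitz inverse.
-/

namespace Pool.Agent.Lib.MP_f78106_gt

open MeasureTheory Set Filter Topology

namespace Geom

variable {E : Type*} [NormedAddCommGroup E] [InnerProductSpace ℝ E]

/-- Support function in a real inner product space. -/
noncomputable def sp (Ω : Set E) (v : E) : ℝ := sSup ((fun x => inner ℝ x v) '' Ω)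

/-- `z` maximises the linear form given by `u` on `Ω`. -/
def IsMx (Ω : Set E) (u z : E) : Prop := z ∈ Ω ∧ ∀ x ∈ Ω, inner ℝ x u ≤ inner ℝ z u

theorem IsMx.sp_eq {Ω : Set E} {u z : E} (h : IsMx Ω u z) : sp Ω u = inner ℝ z u := by
  apply IsGreatest.csSup_eq
  refine ⟨⟨z, h.1, rfl⟩, ?_⟩
  rintro _ ⟨x, hx, rfl⟩
  exact h.2 x hx

theorem exists_isMx {Ω : Set E} (hc : IsCompact Ω) (hne : Ω.Nonempty) (u : E) :
    ∃ z, IsMx Ω u z := by
  have hcont : Continuous fun x : E => inner ℝ x u := by fun_prop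
  obtain ⟨z, hz, hmax⟩ := hc.exists_isMaxOn hne hcont.continuousOn
  exact ⟨z, hz, fun x hx => hmax hx⟩

theorem IsMx.smul {Ω : Set E} {u z : E} (h : IsMx Ω u z) {t : ℝ} (ht : 0 ≤ t) :
    IsMx Ω (t • u) z := by
  refine ⟨h.1, fun x hx => ?_⟩
  rw [real_inner_smul_right, real_inner_smul_right]
  exact mul_le_mul_of_nonneg_left (h.2 x hx) ht

theorem mono_aux {φ φ' : ℝ → ℝ} {t : ℝ} (ht : 0 ≤ t) (hd : ∀ s, HasDerivAt φ (φ' s) s)
    (hp : ∀ s ∈ Icc 0 t, 0 ≤ φ' s) : φ 0 ≤ φ t := by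
  have hm : MonotoneOn φ (Icc 0 t) := by
    refine monotoneOn_of_deriv_nonneg (convex_Icc 0 t) ?_ ?_ ?_
    · exact fun s _ => (hd s).continuousAt.continuousWithinAt
    · exact fun s _ => (hd s).differentiableAt.differentiableWithinAt
    · intro s hs
      rw [(hd s).deriv]
      exact hp s (interior_subset hs)
  exact hm ⟨le_rfl, ht⟩ ⟨ht, le_rfl⟩ ht

/-- Second order Taylor lower bound along a segment. -/
theorem taylor {f : E → ℝ} (hf : ContDiff ℝ 2 f) (z v : E) {t c : ℝ} (ht : 0 ≤ t)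
    (hc : ∀ s ∈ Icc 0 t, c ≤ fderiv ℝ (fderiv ℝ f) (z + s • v) v v) :
    f z + t * fderiv ℝ f z v + c * t ^ 2 / 2 ≤ f (z + t • v) := by
  have hD : ContDiff ℝ 1 (fderiv ℝ f) := hf.fderiv_right (by norm_num)
  have hl : ∀ s : ℝ, HasDerivAt (fun s : ℝ => z + s • v) v s := fun s => by
    simpa using ((hasDerivAt_id s).smul_const v).const_add z
  have h1 : ∀ s : ℝ, HasDerivAt (fun s : ℝ => f (z + s • v)) (fderiv ℝ f (z + s • v) v) s :=
    fun s => ((hf.differentiable (by norm_num)) _).hasFDerivAt.comp_hasDerivAt s (hl s)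
  have h2 : ∀ s : ℝ, HasDerivAt (fun s : ℝ => fderiv ℝ f (z + s • v) v)
      (fderiv ℝ (fderiv ℝ f) (z + s • v) v v) s := fun s => by
    have h3 : HasDerivAt (fun s : ℝ => fderiv ℝ f (z + s • v))
        (fderiv ℝ (fderiv ℝ f) (z + s • v) v) s :=
      ((hD.differentiable (by norm_num)) _).hasFDerivAt.comp_hasDerivAt s (hl s)
    simpa using h3.clm_apply (hasDerivAt_const s v)
  have h4 : ∀ s ∈ Icc 0 t, 0 ≤ fderiv ℝ f (z + s • v) v - fderiv ℝ f z v - c * s := by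
    intro s hs
    have := mono_aux (φ := fun s : ℝ => fderiv ℝ f (z + s • v) v - c * s)
      (φ' := fun s => fderiv ℝ (fderiv ℝ f) (z + s • v) v v - c) hs.1
      (fun s => by simpa using (h2 s).fun_sub ((hasDerivAt_id s).const_mul c))
      (fun r hr => sub_nonneg.2 (hc r ⟨hr.1, hr.2.trans hs.2⟩))
    simp only [zero_smul, add_zero, mul_zero, sub_zero] at this
    linarith
  have h5 := mono_aux (φ := fun s : ℝ => f (z + s • v) - s * fderiv ℝ f z v - c * s ^ 2 / 2)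
    (φ' := fun s => fderiv ℝ f (z + s • v) v - fderiv ℝ f z v - c * s) ht
    (fun s => by
      have h6 := ((h1 s).fun_sub ((hasDerivAt_id' s).mul_const (fderiv ℝ f z v))).fun_sub
        (((hasDerivAt_pow 2 s).const_mul c).div_const 2)
      refine h6.congr_deriv ?_
      simp only [Nat.cast_ofNat]
      ring) h4
  simp only [zero_smul, add_zero, zero_mul, sub_zero] at h5
  linarith

theorem first {Ω : Set E} {f : E → ℝ} (hf : ContDiff ℝ 2 f) (hcv : Convex ℝ Ω)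
    (hΩ : Ω = {x | f x ≤ 0}) {z x : E} (hz : f z = 0) (hx : x ∈ Ω) :
    fderiv ℝ f z (x - z) ≤ 0 := by
  have hzΩ : z ∈ Ω := by rw [hΩ]; exact hz.le
  have hmax : IsMaxOn f Ω z := by
    intro y hy
    rw [hΩ] at hy
    show f y ≤ f z
    rw [hz]; exact hy
  exact hmax.localize.hasFDerivWithinAt_nonpos
    ((hf.differentiable (by norm_num)) z).hasFDerivAt.hasFDerivWithinAt
    (sub_mem_posTangentConeAt_of_segment_subset (hcv.segment_subset hzΩ hx))

theorem radial_pos {Ω : Set E} {f : E → ℝ} (hf : ContDiff ℝ 2 f) (hcv : Convex ℝ Ω)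
    (hΩ : Ω = {x | f x ≤ 0}) (h0 : (0 : E) ∈ interior Ω) {z : E} (hz : f z = 0)
    (hne : fderiv ℝ f z ≠ 0) : 0 < fderiv ℝ f z z := by
  obtain ⟨v, hv⟩ : ∃ v, 0 < fderiv ℝ f z v := by
    by_contra hcon
    push Not at hcon
    apply hne
    ext v
    have h1 := hcon v
    have h2 := hcon (-v)
    rw [map_neg] at h2
    show fderiv ℝ f z v = 0
    linarith
  have hn : Ω ∈ 𝓝 (0 : E) := mem_interior_iff_mem_nhds.1 h0
  have ht : Tendsto (fun s : ℝ => s • v) (𝓝[>] 0) (𝓝 0) := by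
    have : Tendsto (fun s : ℝ => s • v) (𝓝 0) (𝓝 ((0 : ℝ) • v)) :=
      (continuous_id.smul continuous_const).tendsto 0
    rw [zero_smul] at this
    exact this.mono_left nhdsWithin_le_nhds
  obtain ⟨s, hs, hs0⟩ := ((ht.eventually hn).and self_mem_nhdsWithin).exists
  have h1 := first hf hcv hΩ hz hs
  rw [map_sub, map_smul, smul_eq_mul] at h1
  have h2 : 0 < s * fderiv ℝ f z v := mul_pos hs0 hv
  linarith

/-- The rolling ball inequality. -/
theorem rolling [FiniteDimensional ℝ E] {Ω : Set E} {f : E → ℝ} (hf : ContDiff ℝ 2 f)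
    (hc : IsCompact Ω) (hcv : Convex ℝ Ω) (hΩ : Ω = {x | f x ≤ 0})
    (hH : ∀ z, f z = 0 → ∀ v, v ≠ 0 → fderiv ℝ f z v = 0 →
      0 < fderiv ℝ (fun y => fderiv ℝ f y v) z v) :
    ∃ R, 0 < R ∧ ∀ z, f z = 0 → ∀ x ∈ Ω, ‖x - z‖ ^ 2 ≤ R * fderiv ℝ f z (z - x) := by
  have hD : ContDiff ℝ 1 (fderiv ℝ f) := hf.fderiv_right (by norm_num)
  have hD2 : Continuous (fderiv ℝ (fderiv ℝ f)) := hD.continuous_fderiv (by norm_num)
  have hD1 : Continuous (fderiv ℝ f) := hD.continuous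
  have hS : IsCompact {z | f z = 0} :=
    hc.of_isClosed_subset (isClosed_eq hf.continuous continuous_const)
      (fun z hz => by rw [hΩ]; exact le_of_eq hz)
  have hT : IsCompact ({z | f z = 0} ×ˢ Metric.sphere (0 : E) 1) := hS.prod (isCompact_sphere 0 1)
  have hcont : Continuous fun p : E × E =>
      max |fderiv ℝ f p.1 p.2| (fderiv ℝ (fderiv ℝ f) p.1 p.2 p.2) := by
    refine Continuous.max (Continuous.abs ?_) ?_
    · exact (hD1.comp continuous_fst).clm_apply continuous_snd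
    · exact ((hD2.comp continuous_fst).clm_apply continuous_snd).clm_apply continuous_snd
  obtain ⟨m, hm, hmle⟩ := hT.exists_forall_le' hcont.continuousOn (a := 0) (by
    rintro ⟨z, v⟩ ⟨hz, hv⟩
    simp only [mem_sphere_iff_norm, sub_zero] at hv
    by_cases h : fderiv ℝ f z v = 0
    · have hv0 : v ≠ 0 := by
        rintro rfl
        simp at hv
      have h1 := hH z hz v hv0 h
      rw [fderiv_clm_apply ((hD.differentiable (by norm_num)) z) (differentiableAt_const v)] at h1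
      simp only [fderiv_fun_const, Pi.zero_apply, ContinuousLinearMap.comp_zero, zero_add,
        ContinuousLinearMap.flip_apply] at h1
      exact lt_max_of_lt_right h1
    · exact lt_max_of_lt_left (abs_pos.2 h))
  have huc : UniformContinuousOn (fderiv ℝ (fderiv ℝ f)) Ω :=
    hc.uniformContinuousOn_of_continuous hD2.continuousOn
  obtain ⟨δ, hδ, hδle⟩ := (Metric.uniformContinuousOn_iff_le (β := E →L[ℝ] E →L[ℝ] ℝ)).1 huc
    (m / 2) (by positivity)
  obtain ⟨R0, hR0, hR0le⟩ : ∃ R0, 0 < R0 ∧ ∀ x ∈ Ω, ‖x‖ ≤ R0 := by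
    obtain ⟨R0, hR0, h⟩ := hc.isBounded.exists_pos_norm_le
    exact ⟨R0, hR0, h⟩
  refine ⟨2 * R0 / m + 4 / m + 8 * R0 / (m * δ), by positivity, fun z hz x hx => ?_⟩
  have hzΩ : z ∈ Ω := by rw [hΩ]; exact hz.le
  rcases eq_or_ne x z with rfl | hxz
  · simp
  set t := ‖x - z‖ with ht
  have htpos : 0 < t := norm_pos_iff.2 (sub_ne_zero.2 hxz)
  have htle : t ≤ 2 * R0 := by
    have := norm_sub_le x z
    linarith [hR0le x hx, hR0le z hzΩ]
  set v : E := t⁻¹ • (x - z) with hv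
  have hv1 : ‖v‖ = 1 := by
    rw [hv, norm_smul, norm_inv, Real.norm_eq_abs, abs_of_pos htpos, ← ht,
      inv_mul_cancel₀ htpos.ne']
  have hxv : x - z = t • v := by rw [hv, smul_inv_smul₀ htpos.ne']
  have hseg : ∀ s ∈ Icc 0 t, z + s • v ∈ Ω := by
    intro s hs
    have h1 := hcv.add_smul_sub_mem hzΩ hx (t := s / t)
      ⟨div_nonneg hs.1 htpos.le, (div_le_one htpos).2 hs.2⟩
    rwa [hxv, smul_smul, div_mul_cancel₀ _ htpos.ne'] at h1
  set e := -fderiv ℝ f z v with he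
  have hze : fderiv ℝ f z (z - x) = t * e := by
    rw [← neg_sub, map_neg, hxv, map_smul, smul_eq_mul, he]; ring
  have he0 : 0 ≤ e := by
    have h1 := first hf hcv hΩ hz hx
    rw [hxv, map_smul, smul_eq_mul] at h1
    by_contra hcon
    have : 0 < t * fderiv ℝ f z v := mul_pos htpos (by linarith)
    linarith
  have key : t ≤ (2 * R0 / m + 4 / m + 8 * R0 / (m * δ)) * e := by
    have p1 : 0 ≤ 2 * R0 / m * e := by positivity
    have p2 : 0 ≤ 4 / m * e := by positivity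
    have p3 : 0 ≤ 8 * R0 / (m * δ) * e := by positivity
    have h1 := hmle (z, v) ⟨hz, by simpa using hv1⟩
    rcases le_max_iff.1 h1 with h2 | h2
    · have h3 : m ≤ e := by
        have : |fderiv ℝ f z v| = e := by rw [he, abs_of_nonpos (by linarith)]
        simpa [this] using h2
      have h4 : 2 * R0 ≤ 2 * R0 / m * e := by
        rw [div_mul_eq_mul_div, le_div_iff₀ hm]
        nlinarith
      nlinarith
    · simp only at h2
      have h5 : ∀ t', 0 < t' → t' ≤ t → t' ≤ δ → m * t' ≤ 4 * e := by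
        intro t' h0 h1 h3
        have h6 := taylor hf z v (c := m / 2) h0.le (fun s hs => by
          have hsΩ := hseg s ⟨hs.1, hs.2.trans h1⟩
          have h7 := hδle _ hsΩ _ hzΩ (by
            rw [dist_eq_norm, add_sub_cancel_left, norm_smul, hv1, Real.norm_eq_abs,
              abs_of_nonneg hs.1]
            linarith [hs.2])
          replace h7 : ‖fderiv ℝ (fderiv ℝ f) (z + s • v) - fderiv ℝ (fderiv ℝ f) z‖ ≤ m / 2 :=
            (dist_eq_norm (E := E →L[ℝ] E →L[ℝ] ℝ) _ _).symm.le.trans h7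
          have h8 := ((fderiv ℝ (fderiv ℝ f) (z + s • v) - fderiv ℝ (fderiv ℝ f) z)).le_opNorm₂ v v
          rw [hv1, mul_one, mul_one, Real.norm_eq_abs] at h8
          simp only [sub_apply] at h8
          have h9 := (abs_le.1 (h8.trans h7)).1
          linarith)
        have h10 : f (z + t' • v) ≤ 0 := by
          have := hseg t' ⟨h0.le, h1⟩
          rwa [hΩ] at this
        have h11 : t' * (m * t') ≤ t' * (4 * e) := by
          rw [hz] at h6
          rw [he]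
          nlinarith
        exact le_of_mul_le_mul_left h11 h0
      rcases le_total t δ with h3 | h3
      · have h6 := h5 t htpos le_rfl h3
        have h4 : t ≤ 4 / m * e := by
          rw [div_mul_eq_mul_div, le_div_iff₀ hm]
          linarith
        nlinarith
      · have h6 := h5 δ hδ h3 le_rfl
        have h4 : 2 * R0 ≤ 8 * R0 / (m * δ) * e := by
          rw [div_mul_eq_mul_div, le_div_iff₀ (by positivity)]
          nlinarith
        nlinarith
  rw [hze]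
  nlinarith

/-- A maximiser lies on the boundary and the form is a multiple of the differential. -/
theorem lagrange [FiniteDimensional ℝ E] {Ω : Set E} {f : E → ℝ} (hf : ContDiff ℝ 2 f)
    (hΩ : Ω = {x | f x ≤ 0}) (hne : ∀ z, f z = 0 → fderiv ℝ f z ≠ 0) {u z : E} (hu : u ≠ 0)
    (h : IsMx Ω u z) : f z = 0 ∧ ∃ μ : ℝ, ∀ v, inner ℝ u v = μ * fderiv ℝ f z v := by
  have hz : f z = 0 := by
    have h1 : f z ≤ 0 := by
      have := h.1
      rwa [hΩ] at this
    by_contra hcon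
    have h2 : f z < 0 := lt_of_le_of_ne h1 hcon
    have hn : {x | f x < 0} ∈ 𝓝 z := (isOpen_lt hf.continuous continuous_const).mem_nhds h2
    have ht : Tendsto (fun s : ℝ => z + s • u) (𝓝[>] 0) (𝓝 z) := by
      have : Tendsto (fun s : ℝ => z + s • u) (𝓝 0) (𝓝 (z + (0 : ℝ) • u)) :=
        (continuous_const.add (continuous_id.smul continuous_const)).tendsto 0
      rw [zero_smul, add_zero] at this
      exact this.mono_left nhdsWithin_le_nhds
    obtain ⟨s, hs, hs0⟩ := ((ht.eventually hn).and self_mem_nhdsWithin).exists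
    have h3 := h.2 (z + s • u) (by rw [hΩ]; exact le_of_lt hs)
    rw [inner_add_left, real_inner_smul_left] at h3
    have h4 : 0 < s * inner ℝ u u := mul_pos hs0 (real_inner_self_pos.2 hu)
    linarith
  refine ⟨hz, ?_⟩
  have hmax : IsMaxOn (fun x => innerSL ℝ u x) {x | f x = f z} z := by
    intro x hx
    have h1 := h.2 x (by rw [hΩ]; exact le_of_eq (hx.trans hz))
    show inner ℝ u x ≤ inner ℝ u z
    rwa [real_inner_comm u x, real_inner_comm u z] at h1
  obtain ⟨a, b, hab, heq⟩ := IsLocalExtrOn.exists_multipliers_of_hasStrictFDerivAt_1d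
    (Or.inr hmax.localize) (hf.contDiffAt.hasStrictFDerivAt (by norm_num))
    (innerSL ℝ u).hasStrictFDerivAt
  have hb : b ≠ 0 := by
    rintro rfl
    have ha : a ≠ 0 := by
      rintro rfl
      exact hab rfl
    rw [zero_smul, add_zero] at heq
    exact hne z hz ((smul_eq_zero.1 heq).resolve_left ha)
  refine ⟨-a / b, fun v => ?_⟩
  have h2 := congrArg (fun L : E →L[ℝ] ℝ => L v) heq
  simp only [add_apply, smul_apply, smul_eq_mul,
    innerSL_apply_apply, zero_apply] at h2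
  field_simp
  linarith

/-- The geometric facts used below. -/
structure Facts (Ω : Set E) (r R0 R1 L : ℝ) : Prop where
  hc : IsCompact Ω
  rpos : 0 < r
  R1pos : 0 < R1
  Lnn : 0 ≤ L
  ball : Metric.closedBall 0 r ⊆ Ω
  bound : ∀ x ∈ Ω, ‖x‖ ≤ R0
  roll : ∀ u z, IsMx Ω u z → ∀ x ∈ Ω, ‖u‖ * ‖x - z‖ ^ 2 ≤ R1 * inner ℝ (z - x) u
  lip : ∀ u z w y, u ≠ 0 → w ≠ 0 → IsMx Ω u z → IsMx Ω w y →
    ‖(sp Ω u)⁻¹ • u - (sp Ω w)⁻¹ • w‖ ≤ L * ‖z - y‖

theorem lower_aux {Ω : Set E} {r : ℝ} (hr : 0 < r) (hb : Metric.closedBall 0 r ⊆ Ω) {u z : E}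
    (h : IsMx Ω u z) : r * ‖u‖ ≤ sp Ω u := by
  rw [h.sp_eq]
  rcases eq_or_ne u 0 with rfl | hu
  · simp
  have hn : 0 < ‖u‖ := norm_pos_iff.2 hu
  have h1 := h.2 ((r / ‖u‖) • u) (hb (by
    rw [mem_closedBall_zero_iff, norm_smul, Real.norm_eq_abs, abs_of_pos (by positivity),
      div_mul_cancel₀ _ hn.ne']))
  rw [real_inner_smul_left, real_inner_self_eq_norm_sq] at h1
  refine le_trans (le_of_eq ?_) h1
  field_simp

theorem exists_facts [FiniteDimensional ℝ E] {Ω : Set E} {f : E → ℝ} (hf : ContDiff ℝ 2 f)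
    (hc : IsCompact Ω) (hcv : Convex ℝ Ω) (h0 : (0 : E) ∈ interior Ω) (hΩ : Ω = {x | f x ≤ 0})
    (hne : ∀ z, f z = 0 → fderiv ℝ f z ≠ 0)
    (hH : ∀ z, f z = 0 → ∀ v, v ≠ 0 → fderiv ℝ f z v = 0 →
      0 < fderiv ℝ (fun y => fderiv ℝ f y v) z v) :
    ∃ r R0 R1 L, Facts Ω r R0 R1 L := by
  have hD : ContDiff ℝ 1 (fderiv ℝ f) := hf.fderiv_right (by norm_num)
  obtain ⟨r, hr, hb⟩ := Metric.nhds_basis_closedBall.mem_iff.1 (mem_interior_iff_mem_nhds.1 h0)
  obtain ⟨R0, -, hR0⟩ := hc.isBounded.exists_pos_norm_le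
  obtain ⟨R, hR, hroll⟩ := rolling hf hc hcv hΩ hH
  have hS : IsCompact {z | f z = 0} :=
    hc.of_isClosed_subset (isClosed_eq hf.continuous continuous_const)
      (fun z hz => by rw [hΩ]; exact le_of_eq hz)
  have hrad : ContDiff ℝ 1 fun z => fderiv ℝ f z z := hD.clm_apply contDiff_id
  obtain ⟨M, hM0, hM⟩ : ∃ M, 0 < M ∧ ∀ z, f z = 0 → fderiv ℝ f z z ≤ M := by
    obtain ⟨M, hM⟩ := hS.bddAbove_image hrad.continuous.continuousOn
    exact ⟨max M 1, by positivity, fun z hz => (hM ⟨z, hz, rfl⟩).trans (le_max_left _ _)⟩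
  obtain ⟨L, hL⟩ := LocallyLipschitzOn.exists_lipschitzOnWith_of_compact
    (f := fun z => (fderiv ℝ f z z)⁻¹ • fderiv ℝ f z) hS (by
      intro z hz
      have h1 : ContDiffAt ℝ 1 (fun z => (fderiv ℝ f z z)⁻¹ • fderiv ℝ f z) z :=
        (hrad.contDiffAt.inv (radial_pos hf hcv hΩ h0 hz (hne z hz)).ne').smul hD.contDiffAt
      obtain ⟨K, t, ht, hK⟩ := h1.exists_lipschitzOnWith
      exact ⟨K, t, mem_nhdsWithin_of_mem_nhds ht, hK⟩)
  have hkey : ∀ u z, u ≠ 0 → IsMx Ω u z → f z = 0 ∧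
      ∀ v, fderiv ℝ f z z * inner ℝ u v = sp Ω u * fderiv ℝ f z v := by
    intro u z hu h
    obtain ⟨hz, μ, hμ⟩ := lagrange hf hΩ hne hu h
    refine ⟨hz, fun v => ?_⟩
    rw [h.sp_eq, real_inner_comm u z, hμ, hμ]
    ring
  refine ⟨r, R0, R * M / r, L, hc, hr, by positivity, L.2, hb, hR0, ?_, ?_⟩
  · intro u z h x hx
    rcases eq_or_ne u 0 with rfl | hu
    · simp
    obtain ⟨hz, hv⟩ := hkey u z hu h
    have h1 := hroll z hz x hx
    have h2 := hv (z - x)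
    have h3 := lower_aux hr hb h
    have h4 := hM z hz
    have h5 : 0 ≤ inner ℝ u (z - x) := by
      rw [real_inner_comm, inner_sub_left]
      linarith [h.2 x hx]
    have h6 : 0 ≤ sp Ω u := le_trans (by positivity) h3
    rw [real_inner_comm, div_mul_eq_mul_div, le_div_iff₀ hr]
    calc ‖u‖ * ‖x - z‖ ^ 2 * r = (r * ‖u‖) * ‖x - z‖ ^ 2 := by ring
      _ ≤ sp Ω u * (R * fderiv ℝ f z (z - x)) := mul_le_mul h3 h1 (by positivity) h6
      _ = R * (fderiv ℝ f z z * inner ℝ u (z - x)) := by rw [h2]; ring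
      _ ≤ R * (M * inner ℝ u (z - x)) := by gcongr
      _ = R * M * inner ℝ u (z - x) := by ring
  · have hN : ∀ u z, u ≠ 0 → IsMx Ω u z →
        innerSL ℝ ((sp Ω u)⁻¹ • u) = (fderiv ℝ f z z)⁻¹ • fderiv ℝ f z := by
      intro u z hu h
      obtain ⟨hz, hv⟩ := hkey u z hu h
      have h1 := radial_pos hf hcv hΩ h0 hz (hne z hz)
      have h2 : 0 < sp Ω u :=
        lt_of_lt_of_le (mul_pos hr (norm_pos_iff.2 hu)) (lower_aux hr hb h)
      ext v
      simp only [innerSL_apply_apply, real_inner_smul_left, smul_apply,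
        smul_eq_mul]
      field_simp
      linarith [hv v]
    intro u z w y hu hw h h'
    have h1 := hL.dist_le_mul z (hkey u z hu h).1 y (hkey w y hw h').1
    rw [← hN u z hu h, ← hN w y hw h', dist_eq_norm, dist_eq_norm, ← map_sub,
      innerSL_apply_norm] at h1
    exact h1

namespace Facts

variable {Ω : Set E} {r R0 R1 L : ℝ} (F : Facts Ω r R0 R1 L)

include F

theorem zero_mem : (0 : E) ∈ Ω := F.ball (Metric.mem_closedBall_self F.rpos.le)

theorem ex (u : E) : ∃ z, IsMx Ω u z := exists_isMx F.hc ⟨0, F.zero_mem⟩ u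

theorem R0nn : 0 ≤ R0 := by simpa using F.bound 0 F.zero_mem

/-- The chosen maximiser. -/
noncomputable def zz (u : E) : E := (F.ex u).choose

theorem zz_spec (u : E) : IsMx Ω u (F.zz u) := (F.ex u).choose_spec

/-- The gradient of `h² / 4`. -/
noncomputable def Z (u : E) : E := (sp Ω u / 2) • F.zz u

theorem lower (u : E) : r * ‖u‖ ≤ sp Ω u := lower_aux F.rpos F.ball (F.zz_spec u)

theorem nonneg (u : E) : 0 ≤ sp Ω u :=
  le_trans (mul_nonneg F.rpos.le (norm_nonneg u)) (F.lower u)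

theorem le_sp {x : E} (hx : x ∈ Ω) (u : E) : inner ℝ x u ≤ sp Ω u := by
  rw [(F.zz_spec u).sp_eq]
  exact (F.zz_spec u).2 x hx

theorem sub_le (u w : E) : sp Ω u - sp Ω w ≤ R0 * ‖u - w‖ := by
  have h1 := F.le_sp (F.zz_spec u).1 w
  have h2 := real_inner_le_norm (F.zz u) (u - w)
  have h3 := F.bound _ (F.zz_spec u).1
  rw [inner_sub_right] at h2
  rw [(F.zz_spec u).sp_eq]
  nlinarith [norm_nonneg (u - w)]

theorem abs_sub_le (u w : E) : |sp Ω u - sp Ω w| ≤ R0 * ‖u - w‖ := by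
  have h1 := F.sub_le u w
  have h2 := F.sub_le w u
  rw [norm_sub_rev] at h2
  exact abs_le.2 ⟨by linarith, h1⟩

theorem sp_zero : sp Ω 0 = 0 := by
  rw [(F.zz_spec 0).sp_eq, inner_zero_right]

theorem upper (u : E) : sp Ω u ≤ R0 * ‖u‖ := by
  simpa [F.sp_zero] using F.sub_le u 0

theorem cont : Continuous (sp Ω) := by
  refine (LipschitzWith.of_dist_le_mul (K := ⟨R0, F.R0nn⟩) fun u w => ?_).continuous
  rw [Real.dist_eq, dist_eq_norm]
  exact F.abs_sub_le u w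

theorem hom {t : ℝ} (ht : 0 ≤ t) (u : E) : sp Ω (t • u) = t * sp Ω u := by
  rw [((F.zz_spec u).smul ht).sp_eq, (F.zz_spec u).sp_eq, real_inner_smul_right]

theorem uniq {u z y : E} (hu : u ≠ 0) (h : IsMx Ω u z) (h' : IsMx Ω u y) : z = y := by
  have h1 := F.roll u z h y h'.1
  have h2 : inner ℝ (z - y) u = 0 := by
    rw [inner_sub_left]
    linarith [h.2 y h'.1, h'.2 z h.1]
  rw [h2, mul_zero] at h1
  have h3 : 0 < ‖u‖ := norm_pos_iff.2 hu
  have h4 : ‖y - z‖ ^ 2 ≤ 0 := by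
    by_contra hcon
    push Not at hcon
    linarith [mul_pos h3 hcon]
  have h5 : ‖y - z‖ = 0 := by nlinarith [norm_nonneg (y - z)]
  exact (sub_eq_zero.1 (norm_eq_zero.1 h5)).symm

theorem Z_zero : F.Z 0 = 0 := by
  rw [Z, F.sp_zero]; simp

theorem homZ {t : ℝ} (ht : 0 ≤ t) (u : E) : F.Z (t • u) = t • F.Z u := by
  rcases eq_or_ne (t • u) 0 with h | h
  · rw [h, F.Z_zero]
    rcases smul_eq_zero.1 h with rfl | rfl
    · simp
    · simp [F.Z_zero]
  · rw [Z, Z, F.hom ht, F.uniq h (F.zz_spec _) ((F.zz_spec u).smul ht), smul_smul,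
      mul_div_assoc]

theorem inner_Z (u w : E) : inner ℝ (F.Z u) w = sp Ω u / 2 * inner ℝ (F.zz u) w := by
  rw [Z, real_inner_smul_left]

theorem euler (u : E) : inner ℝ (F.Z u) u = 2 * (sp Ω u ^ 2 / 4) := by
  rw [F.inner_Z, ← (F.zz_spec u).sp_eq]
  ring

theorem sub (u w : E) : sp Ω u ^ 2 / 4 + inner ℝ (F.Z u) w ≤ sp Ω (u + w) ^ 2 / 4 := by
  have h1 := F.le_sp (F.zz_spec u).1 (u + w)
  rw [inner_add_right, ← (F.zz_spec u).sp_eq] at h1
  rw [F.inner_Z]
  have h2 := F.nonneg u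
  have h3 := mul_le_mul_of_nonneg_left h1 h2
  nlinarith [sq_nonneg (sp Ω (u + w) - sp Ω u)]

theorem quad (u w : E) : sp Ω (u + w) ^ 2 / 4 ≤
    sp Ω u ^ 2 / 4 + inner ℝ (F.Z u) w + (R0 ^ 2 + R0 * R1 + 1) * ‖w‖ ^ 2 := by
  have h1 := F.le_sp (F.zz_spec u).1 (u + w)
  rw [inner_add_right, ← (F.zz_spec u).sp_eq] at h1
  have h2 := F.roll u _ (F.zz_spec u) _ (F.zz_spec (u + w)).1
  have h3 := (F.zz_spec (u + w)).sp_eq
  have h4 := real_inner_le_norm (F.zz (u + w) - F.zz u) w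
  have h5 := F.abs_sub_le (u + w) u
  have h6 := (F.zz_spec u).sp_eq
  have h7 := F.upper u
  have hR0 := F.R0nn
  have hR1 := F.R1pos
  rw [add_sub_cancel_left] at h5
  rw [inner_add_right] at h3
  rw [inner_sub_left] at h2 h4
  rw [F.inner_Z]
  set d := ‖F.zz (u + w) - F.zz u‖
  set h := sp Ω u
  set h' := sp Ω (u + w)
  set b := inner ℝ (F.zz u) w
  have hp0 : 0 ≤ h' - h - b := by linarith
  have hp1 : R1 * (h' - h - b) ≤ R1 * (d * ‖w‖) - ‖u‖ * d ^ 2 := by
    have : h' - h - b ≤ d * ‖w‖ - (inner ℝ (F.zz u) u - inner ℝ (F.zz (u + w)) u) := by linarith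
    nlinarith
  have hp2 : ‖u‖ * (h' - h - b) ≤ R1 * ‖w‖ ^ 2 := by
    have e1 := mul_le_mul_of_nonneg_left hp1 (norm_nonneg u)
    have e2 : R1 * (‖u‖ * (h' - h - b)) ≤ R1 * (R1 * ‖w‖ ^ 2) := by
      nlinarith [sq_nonneg (‖u‖ * d - R1 * ‖w‖), sq_nonneg (‖u‖ * d), sq_nonneg (R1 * ‖w‖)]
    exact le_of_mul_le_mul_left e2 hR1
  have hp3 : h * (h' - h - b) ≤ R0 * (R1 * ‖w‖ ^ 2) := by
    calc h * (h' - h - b) ≤ R0 * ‖u‖ * (h' - h - b) := mul_le_mul_of_nonneg_right h7 hp0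
      _ = R0 * (‖u‖ * (h' - h - b)) := by ring
      _ ≤ _ := mul_le_mul_of_nonneg_left hp2 hR0
  have hp4 : (h' - h) ^ 2 ≤ (R0 * ‖w‖) ^ 2 := sq_le_sq' (abs_le.1 h5).1 (abs_le.1 h5).2
  have hp5 : 0 ≤ R0 * (R1 * ‖w‖ ^ 2) := by positivity
  nlinarith [sq_nonneg (R0 * ‖w‖), sq_nonneg ‖w‖]

theorem lipZ (u w : E) : ‖F.Z u - F.Z w‖ ≤ 4 * (R0 ^ 2 + R0 * R1 + 1) * ‖u - w‖ := by
  have hR0 := F.R0nn
  have hR1 := F.R1pos
  set C := R0 ^ 2 + R0 * R1 + 1 with hC
  have hC0 : 0 < C := by positivity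
  set p := (2 * C)⁻¹ • (F.Z u - F.Z w) with hp
  have h1 := F.quad w p
  have h2 := F.sub u (w + p - u)
  have h3 := F.sub w (u - w)
  rw [add_sub_cancel] at h2 h3
  have h4 : inner ℝ (F.Z u - F.Z w) p ≤ C * ‖p‖ ^ 2 + inner ℝ (F.Z u - F.Z w) (u - w) := by
    simp only [inner_sub_left, inner_sub_right, inner_add_right] at h2 h3 ⊢
    linarith
  have h5 := real_inner_le_norm (F.Z u - F.Z w) (u - w)
  rw [hp, real_inner_smul_right, real_inner_self_eq_norm_sq, norm_smul, Real.norm_eq_abs,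
    abs_of_pos (by positivity)] at h4
  set D := ‖F.Z u - F.Z w‖
  have h6 : D * D ≤ D * (4 * C * ‖u - w‖) := by
    have e1 : (2 * C)⁻¹ * D ^ 2 - C * ((2 * C)⁻¹ * D) ^ 2 = D * D / (4 * C) := by
      field_simp
      ring
    have e2 : D * D / (4 * C) ≤ D * ‖u - w‖ := by linarith
    rw [div_le_iff₀ (by positivity)] at e2
    linarith
  rcases (norm_nonneg (F.Z u - F.Z w)).eq_or_lt with h | h
  · have : D = 0 := h.symm
    rw [this]
    positivity
  · exact le_of_mul_le_mul_left h6 h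

theorem contZ : Continuous F.Z := by
  have hR0 := F.R0nn
  have hR1 := F.R1pos
  refine (LipschitzWith.of_dist_le_mul (K := ⟨4 * (R0 ^ 2 + R0 * R1 + 1), by positivity⟩)
    fun u w => ?_).continuous
  rw [dist_eq_norm, dist_eq_norm]
  exact F.lipZ u w

theorem sub_le_Z (u w : E) : r * (sp Ω u - sp Ω w) ≤ 2 * ‖F.Z u - F.Z w‖ := by
  rcases le_total (sp Ω u) (sp Ω w) with h | h
  · have := mul_nonneg F.rpos.le (sub_nonneg.2 h)
    nlinarith [norm_nonneg (F.Z u - F.Z w)]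
  rcases eq_or_ne u 0 with rfl | hu
  · have h1 := F.nonneg w
    rw [F.sp_zero]
    have := mul_nonneg F.rpos.le h1
    nlinarith [norm_nonneg (F.Z 0 - F.Z w)]
  have h1 := real_inner_le_norm (F.Z u - F.Z w) u
  rw [inner_sub_left, F.inner_Z, F.inner_Z, ← (F.zz_spec u).sp_eq] at h1
  have h2 := mul_le_mul_of_nonneg_left (F.le_sp (F.zz_spec w).1 u) (F.nonneg w)
  have h3 := mul_le_mul_of_nonneg_left (F.lower u) (sub_nonneg.2 h)
  have h4 : ‖u‖ * (r * (sp Ω u - sp Ω w)) ≤ ‖u‖ * (2 * ‖F.Z u - F.Z w‖) := by nlinarith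
  exact le_of_mul_le_mul_left h4 (norm_pos_iff.2 hu)

theorem abs_sub_le_Z (u w : E) : |sp Ω u - sp Ω w| ≤ 2 / r * ‖F.Z u - F.Z w‖ := by
  have h1 := F.sub_le_Z u w
  have h2 := F.sub_le_Z w u
  have hr := F.rpos
  rw [norm_sub_rev] at h2
  rw [div_mul_eq_mul_div, le_div_iff₀ hr]
  rcases abs_cases (sp Ω u - sp Ω w) with h | h <;> rw [h.1] <;> linarith

theorem norm_le_Z (w : E) : ‖w‖ ≤ 2 / r ^ 2 * ‖F.Z w‖ := by
  have h1 := F.sub_le_Z w 0
  have h2 := F.lower w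
  have hr := F.rpos
  rw [F.sp_zero, F.Z_zero, sub_zero, sub_zero] at h1
  rw [div_mul_eq_mul_div, le_div_iff₀ (by positivity)]
  nlinarith

theorem expand (u w : E) :
    ‖u - w‖ ≤ (2 / r ^ 2 + L * (2 + 2 / r * R0)) * ‖F.Z u - F.Z w‖ := by
  have hr := F.rpos
  have hR0 := F.R0nn
  have hL := F.Lnn
  have hq : ∀ D : ℝ, 0 ≤ D → 2 / r ^ 2 * D ≤ (2 / r ^ 2 + L * (2 + 2 / r * R0)) * D := by
    intro D hD
    have : 0 ≤ L * (2 + 2 / r * R0) * D := by positivity
    linarith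
  rcases eq_or_ne u 0 with rfl | hu
  · rw [F.Z_zero, zero_sub, zero_sub, norm_neg, norm_neg]
    exact (F.norm_le_Z w).trans (hq _ (norm_nonneg _))
  rcases eq_or_ne w 0 with rfl | hw
  · rw [F.Z_zero, sub_zero, sub_zero]
    exact (F.norm_le_Z u).trans (hq _ (norm_nonneg _))
  have hu0 : 0 < sp Ω u := lt_of_lt_of_le (mul_pos hr (norm_pos_iff.2 hu)) (F.lower u)
  have hw0 : 0 < sp Ω w := lt_of_lt_of_le (mul_pos hr (norm_pos_iff.2 hw)) (F.lower w)
  have h1 := F.lip u _ w _ hu hw (F.zz_spec u) (F.zz_spec w)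
  have h2 := F.abs_sub_le_Z u w
  set D := ‖F.Z u - F.Z w‖ with hD
  have h3 : u - w = (sp Ω u - sp Ω w) • ((sp Ω u)⁻¹ • u) +
      sp Ω w • ((sp Ω u)⁻¹ • u - (sp Ω w)⁻¹ • w) := by
    rw [sub_smul, smul_sub, smul_inv_smul₀ hu0.ne', smul_inv_smul₀ hw0.ne']
    abel
  have h4 : ‖(sp Ω u)⁻¹ • u‖ ≤ 1 / r := by
    rw [norm_smul, Real.norm_eq_abs, abs_of_pos (by positivity), le_div_iff₀ hr,
      inv_mul_eq_div, div_mul_eq_mul_div, div_le_one hu0]
    linarith [F.lower u]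
  have h5 : sp Ω w • (F.zz u - F.zz w) =
      (2 : ℝ) • (F.Z u - F.Z w) - (sp Ω u - sp Ω w) • F.zz u := by
    rw [Z, Z]
    module
  have h6 : sp Ω w * ‖F.zz u - F.zz w‖ ≤ 2 * D + 2 / r * D * R0 := by
    have e1 := norm_sub_le ((2 : ℝ) • (F.Z u - F.Z w)) ((sp Ω u - sp Ω w) • F.zz u)
    rw [← h5, norm_smul, norm_smul, norm_smul, Real.norm_eq_abs, Real.norm_eq_abs,
      Real.norm_eq_abs, abs_of_pos hw0, abs_two] at e1
    have e2 : |sp Ω u - sp Ω w| * ‖F.zz u‖ ≤ 2 / r * D * R0 :=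
      mul_le_mul h2 (F.bound _ (F.zz_spec u).1) (norm_nonneg _) (by positivity)
    linarith
  calc ‖u - w‖ ≤ ‖(sp Ω u - sp Ω w) • ((sp Ω u)⁻¹ • u)‖ +
        ‖sp Ω w • ((sp Ω u)⁻¹ • u - (sp Ω w)⁻¹ • w)‖ := by
        conv_lhs => rw [h3]
        exact norm_add_le _ _
    _ ≤ 2 / r * D * (1 / r) + sp Ω w * (L * ‖F.zz u - F.zz w‖) := by
        rw [norm_smul, norm_smul (sp Ω w), Real.norm_eq_abs, Real.norm_eq_abs, abs_of_pos hw0]
        gcongr
    _ = 2 / r ^ 2 * D + L * (sp Ω w * ‖F.zz u - F.zz w‖) := by ring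
    _ ≤ 2 / r ^ 2 * D + L * (2 * D + 2 / r * D * R0) := by gcongr
    _ = _ := by ring

end Facts

theorem rin_eq {n : ℕ} (x y : V n) : rin x y = inner ℝ x y := by
  simp [rin, PiLp.inner_apply, Complex.re_sum, real_inner_eq_re_inner]

end Geom

theorem exists_dualData {n : ℕ} {Ω : Set (V n)} (h : UnifConvex Ω) :
    ∃ (Z : V n → V n) (a C K : ℝ), DualData (fun u => supp Ω u ^ 2 / 4) Z a C K := by
  obtain ⟨hc, hcv, h0, f, hf, hΩ, hH⟩ := h
  obtain ⟨r, R0, R1, L, F⟩ := Geom.exists_facts hf hc hcv h0 hΩ (fun z hz => (hH z hz).1)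
    (fun z hz => (hH z hz).2)
  have hs : supp Ω = Geom.sp Ω := by
    funext v
    simp only [supp, Geom.sp, Geom.rin_eq]
  have hr := F.rpos
  rw [hs]
  refine ⟨F.Z, r ^ 2 / 4, R0 ^ 2 + R0 * R1 + 1, 2 / r ^ 2 + L * (2 + 2 / r * R0),
    (F.cont.pow 2).div_const 4, F.contZ, by positivity, fun u => ?_, fun t ht u => ?_,
    fun t ht u => F.homZ ht u, fun u => ?_, fun u w => ?_, fun u w => ?_, F.expand⟩
  · have h1 := F.lower u
    have h2 : (r * ‖u‖) ^ 2 ≤ Geom.sp Ω u ^ 2 := by gcongr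
    nlinarith
  · rw [F.hom ht]
    ring
  · rw [Geom.rin_eq]
    exact F.euler u
  · rw [Geom.rin_eq]
    exact F.sub u w
  · rw [Geom.rin_eq]
    exact F.quad u w

end Pool.Agent.Lib.MP_f78106_gt
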