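import Pool.Agent.Lib.MP_f78106_gt.IndexA

/-!
An equivariant map from the unit sphere of `ℂᵏ` forces index at least `k`.
-/

namespace Pool.Agent.Lib.MP_f78106_gt

open Set Topology CategoryTheory Limits Simplicial

namespace Index

/-- Sections of the sphere bundle over all singular simplices with `m` vertices, written as rank
one maps `w ↦ ⟪v, w⟫ z`. -/
def Sec {m k : ℕ} (T : C(Sx m, BS) → Sx m → Hil → V k) : Prop :=
  ∀ σ, Continuous (fun p : Sx m × Hil => T σ p.1 p.2) ∧
    ∀ x, ∃ (z : V k) (v : ES), ‖z‖ = 1 ∧ cls v = σ x ∧ ∀ w, T σ x w = inner ℂ (v : Hil) w • z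

/-- Consistency on the intersections of faces. -/
def Ov {m k : ℕ} (T : C(Sx m, BS) → Sx m → Hil → V k) : Prop :=
  ∀ (σ : C(Sx (m + 1), BS)) i i' y y', face i y = face i' y' →
    T (σ.comp (face i)) y = T (σ.comp (face i')) y'

/-- Compatibility with face maps. -/
def Compat {m k : ℕ} (T : C(Sx m, BS) → Sx m → Hil → V k)
    (T' : C(Sx (m + 1), BS) → Sx (m + 1) → Hil → V k) : Prop :=
  ∀ (σ : C(Sx (m + 1), BS)) i y, T' σ (face i y) = T (σ.comp (face i)) y

theorem Sec.smul {m k : ℕ} {T : C(Sx m, BS) → Sx m → Hil → V k} (h : Sec T) (σ x) (c : ℂ)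
    (w : Hil) : T σ x (c • w) = c • T σ x w := by
  obtain ⟨z, v, -, -, h3⟩ := (h σ).2 x
  rw [h3, h3, inner_smul_right, mul_smul]

theorem Sec.norm {m k : ℕ} {T : C(Sx m, BS) → Sx m → Hil → V k} (h : Sec T) (σ x) (w : ES)
    (hw : cls w = σ x) : ‖T σ x w‖ = 1 := by
  obtain ⟨z, v, h1, h2, h3⟩ := (h σ).2 x
  obtain ⟨θ, hθ⟩ := cls_eq (h2.trans hw.symm)
  rw [h3, ← hθ, inner_smul_right, inner_es, mul_one, norm_smul, Circle.norm_coe, h1, mul_one]

theorem Sec.eq {m k : ℕ} {T : C(Sx m, BS) → Sx m → Hil → V k} (h : Sec T) (σ x) (w : ES)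
    (hw : cls w = σ x) (u : Hil) : T σ x u = inner ℂ (w : Hil) u • T σ x w := by
  obtain ⟨z, v, h1, h2, h3⟩ := (h σ).2 x
  obtain ⟨θ, hθ⟩ := cls_eq (h2.trans hw.symm)
  rw [h3, h3, ← hθ, inner_smul_right, inner_es, mul_one, inner_smul_left, smul_smul,
    mul_right_comm, conj_mul_self (Circle.norm_coe _), one_mul]

theorem step {m k : ℕ} (hm : m < 2 * k) {T : C(Sx m, BS) → Sx m → Hil → V k} (hS : Sec T)
    (hO : Ov T) : ∃ T' : C(Sx (m + 1), BS) → Sx (m + 1) → Hil → V k, Sec T' ∧ Compat T T' := by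
  choose τ hτ using fun σ : C(Sx (m + 1), BS) => exists_lift σ
  have key : ∀ σ : C(Sx (m + 1), BS), ∃ a : C(Sx (m + 1), V k), (∀ x, ‖a x‖ = 1) ∧
      ∀ i y, a (face i y) = T (σ.comp (face i)) y (τ σ (face i y)) := by
    intro σ
    refine exists_fill hm (fun i => ⟨fun y => T (σ.comp (face i)) y (τ σ (face i y)), ?_⟩)
      (fun i y => hS.norm _ _ _ (hτ σ _)) fun i i' y y' h => ?_
    · exact (hS _).1.comp (continuous_id.prodMk
        (continuous_subtype_val.comp ((τ σ).continuous.comp (face i).continuous)))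
    · change T (σ.comp (face i)) y (τ σ (face i y)) = T (σ.comp (face i')) y' (τ σ (face i' y'))
      rw [hO σ i i' y y' h, h]
  choose a ha ha' using key
  refine ⟨fun σ x w => inner ℂ (τ σ x : Hil) w • a σ x, fun σ => ⟨?_, fun x => ?_⟩,
    fun σ i y => ?_⟩
  · exact ((continuous_subtype_val.comp ((τ σ).continuous.comp continuous_fst)).inner (𝕜 := ℂ)
      continuous_snd).smul ((a σ).continuous.comp continuous_fst)
  · exact ⟨a σ x, τ σ x, ha σ x, hτ σ x, fun _ => rfl⟩
  · funext w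
    change inner ℂ (τ σ (face i y) : Hil) w • a σ (face i y) = _
    rw [ha', ← hS.eq _ _ _ (hτ σ _)]

theorem Compat.ov {m k : ℕ} {T : C(Sx m, BS) → Sx m → Hil → V k}
    {T' : C(Sx (m + 1), BS) → Sx (m + 1) → Hil → V k} (h : Compat T T') : Ov T' := by
  intro σ i i' y y' hy
  rcases Fin.eq_self_or_eq_succAbove i i' with rfl | ⟨j, rfl⟩
  · rw [face_injective _ hy]
  · obtain ⟨u, rfl, rfl⟩ := face_eq_face i j y y' hy
    rw [h, h]
    congr 1
    ext1 x
    change σ (face i (face j x)) = σ (face (i.succAbove j) (face (j.predAbove i) x))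
    rw [face_face]

instance : IsEmpty (Sx 0) := ⟨fun x => by
  have := stdSimplex.sum_eq_one x
  simp at this⟩

theorem exists_sec {k : ℕ} (m : ℕ) (hm : m ≤ 2 * k) :
    ∃ T : C(Sx m, BS) → Sx m → Hil → V k, Sec T ∧ Ov T := by
  induction m with
  | zero =>
    exact ⟨fun _ _ _ => 0, fun σ => ⟨continuous_const, fun x => isEmptyElim x⟩,
      fun _ _ _ y => isEmptyElim y⟩
  | succ m ih =>
    obtain ⟨T, h1, h2⟩ := ih (by omega)
    obtain ⟨T', h3, h4⟩ := step (by omega) h1 h2
    exact ⟨T', h3, h4.ov⟩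

section lift

variable {Y : Type} [TopologicalSpace Y] (a : UnitAddCircle → Y → Y) (X : Set Y)
  {k : ℕ} (F : C(Metric.sphere (0 : V k) 1, Y)) (hF : ∀ z, F z ∈ X)

/-- The point of the Borel construction given by a section and a lift. -/
noncomputable def pt {m : ℕ} {T : C(Sx m, BS) → Sx m → Hil → V k} (h : Sec T) (σ : C(Sx m, BS))
    (x : Sx m) (w : ES) (hw : cls w = σ x) : Borel a X :=
  Quot.mk _ (⟨F ⟨T σ x w, mem_sphere_zero_iff_norm.2 (h.norm σ x w hw)⟩, hF _⟩, w)

/-- The lift of a singular simplex to the Borel construction. -/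
noncomputable def ell {m : ℕ} {T : C(Sx m, BS) → Sx m → Hil → V k} (h : Sec T)
    (σ : C(Sx m, BS)) : C(Sx m, Borel a X) where
  toFun x := pt a X F hF h σ x ((exists_lift σ).choose x) ((exists_lift σ).choose_spec x)
  continuous_toFun := by
    refine continuous_quot_mk.comp (Continuous.prodMk ?_ (exists_lift σ).choose.continuous)
    refine Continuous.subtype_mk (F.continuous.comp (Continuous.subtype_mk ?_ _)) _
    exact (h σ).1.comp (continuous_id.prodMk
      (continuous_subtype_val.comp (exists_lift σ).choose.continuous))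

theorem proj_ell {m : ℕ} {T : C(Sx m, BS) → Sx m → Hil → V k} (h : Sec T) (σ : C(Sx m, BS)) :
    (borelProj a X).comp (ell a X F hF h σ) = σ := by
  ext1 x
  exact (exists_lift σ).choose_spec x

theorem ell_face (heq : ∀ (θ : UnitAddCircle) (z z' : Metric.sphere (0 : V k) 1),
      (z' : V k) = ((θ.toCircle : Circle) : ℂ) • (z : V k) → F z' = a θ (F z))
    {m : ℕ} {T : C(Sx m, BS) → Sx m → Hil → V k}
    {T' : C(Sx (m + 1), BS) → Sx (m + 1) → Hil → V k} (h : Sec T) (h' : Sec T')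
    (hc : Compat T T') (σ : C(Sx (m + 1), BS)) (i : Fin (m + 1)) :
    (ell a X F hF h' σ).comp (face i) = ell a X F hF h (σ.comp (face i)) := by
  ext1 y
  have e1 := (exists_lift σ).choose_spec (face i y)
  have e2 := (exists_lift (σ.comp (face i))).choose_spec y
  obtain ⟨θ, hθ⟩ := cls_eq (e1.trans e2.symm)
  refine Quot.sound ⟨θ, (heq θ _ _ ?_).symm, hθ⟩
  change T (σ.comp (face i)) y _ = _ • T' σ (face i y) _
  rw [← hθ, h.smul, hc]

end lift

/-- A chain map that is split on cycles is onto in homology. -/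
theorem epi_homologyMap {C : Type*} [Category C] [Preadditive C] [CategoryWithHomology C]
    {K L : ChainComplex C ℕ} (φ : K ⟶ L) (j j' : ℕ) (hj : (ComplexShape.down ℕ).next j = j')
    (s : L.X j ⟶ K.X j) (hs : s ≫ φ.f j = 𝟙 _) (hd : L.iCycles j ≫ s ≫ K.d j j' = 0) :
    Epi (HomologicalComplex.homologyMap φ j) := by
  have h1 : K.liftCycles (L.iCycles j ≫ s) j' hj (by simpa using hd) ≫
      HomologicalComplex.cyclesMap φ j = 𝟙 _ := by
    rw [← cancel_mono (L.iCycles j)]
    simp [hs]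
  have h2 : (K.liftCycles (L.iCycles j ≫ s) j' hj (by simpa using hd) ≫ K.homologyπ j) ≫
      HomologicalComplex.homologyMap φ j = L.homologyπ j := by
    rw [Category.assoc, HomologicalComplex.homologyπ_naturality, ← Category.assoc, h1,
      Category.id_comp]
  exact epi_of_epi_fac h2

/-- The map on chains induced by a map on simplices. -/
noncomputable def onChains {C : Type*} [Category C] [HasCoproducts.{0} C] [Preadditive C]
    {A B : SSet.{0}} (R : C) {n : ℕ} (l : A _⦋n⦌ → B _⦋n⦌) :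
    (A.chainComplex R).X n ⟶ (B.chainComplex R).X n :=
  Cofan.IsColimit.desc (A.isColimitChainComplexXCofan R n) fun x => B.ιChainComplex (l x)

theorem ι_onChains {C : Type*} [Category C] [HasCoproducts.{0} C] [Preadditive C]
    {A B : SSet.{0}} (R : C) {n : ℕ} (l : A _⦋n⦌ → B _⦋n⦌) (x : A _⦋n⦌) :
    A.ιChainComplex x ≫ onChains R l = B.ιChainComplex (l x) :=
  Cofan.IsColimit.fac (A.isColimitChainComplexXCofan R n) _ x

theorem epi_zero {C : Type*} [Category C] [HasCoproducts.{0} C] [Preadditive C]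
    [CategoryWithHomology C] {A B : SSet.{0}} (f : A ⟶ B) (R : C) (l : B _⦋0⦌ → A _⦋0⦌)
    (hl : ∀ x, f.app _ (l x) = x) : Epi (SSet.homologyMap f R 0) := by
  refine epi_homologyMap _ 0 0 (by simp) (onChains R l) ?_ (by simp)
  ext x
  rw [← Category.assoc, ι_onChains, SSet.ι_chainComplexMap_f, hl, Category.comp_id]

theorem epi_succ {C : Type*} [Category C] [HasCoproducts.{0} C] [Preadditive C]
    [CategoryWithHomology C] {A B : SSet.{0}} (f : A ⟶ B) (R : C) {n : ℕ}
    (l : B _⦋n⦌ → A _⦋n⦌) (l' : B _⦋n + 1⦌ → A _⦋n + 1⦌) (hl : ∀ x, f.app _ (l' x) = x)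
    (hδ : ∀ i x, A.δ i (l' x) = l (B.δ i x)) : Epi (SSet.homologyMap f R (n + 1)) := by
  refine epi_homologyMap _ (n + 1) n (by simp) (onChains R l') ?_ ?_
  · ext x
    rw [← Category.assoc, ι_onChains, SSet.ι_chainComplexMap_f, hl, Category.comp_id]
  · have e : onChains R l' ≫ (A.chainComplex R).d (n + 1) n =
        (B.chainComplex R).d (n + 1) n ≫ onChains R l := by
      ext x
      rw [← Category.assoc, ι_onChains, SSet.ιChainComplex_d, ← Category.assoc,
        SSet.ιChainComplex_d, Preadditive.sum_comp]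
      refine Finset.sum_congr rfl fun i _ => ?_
      rw [Preadditive.zsmul_comp, ι_onChains, hδ]
    rw [e, ← Category.assoc, HomologicalComplex.iCycles_d, zero_comp]

end Index

open Index in
theorem indexGE_of_map {Y : Type} [TopologicalSpace Y] (a : UnitAddCircle → Y → Y) (X : Set Y)
    (k : ℕ) (F : C(Metric.sphere (0 : V k) 1, Y)) (hF : ∀ z, F z ∈ X)
    (heq : ∀ (θ : UnitAddCircle) (z z' : Metric.sphere (0 : V k) 1),
      (z' : V k) = ((θ.toCircle : Circle) : ℂ) • (z : V k) → F z' = a θ (F z)) :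
    IndexGE a X k := by
  intro j hj
  obtain ⟨T, h1, h2⟩ := exists_sec (k := k) j hj.le
  obtain ⟨T', h3, h4⟩ := step hj h1 h2
  let L : ∀ {n : ℕ} {U : C(Sx (n + 1), BS) → Sx (n + 1) → Hil → V k}, Sec U →
      (TopCat.toSSet.obj (TopCat.of BS)) _⦋n⦌ → (TopCat.toSSet.obj (TopCat.of (Borel a X))) _⦋n⦌ :=
    fun hU x => (TopCat.toSSetObjEquiv _ _).symm (ell a X F hF hU (TopCat.toSSetObjEquiv _ _ x))
  have hL : ∀ {n : ℕ} {U : C(Sx (n + 1), BS) → Sx (n + 1) → Hil → V k} (hU : Sec U) x,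
      (TopCat.toSSet.map (TopCat.ofHom (borelProj a X))).app _ (L hU x) = x := by
    intro n U hU x
    apply (TopCat.toSSetObjEquiv _ _).injective
    exact proj_ell a X F hF hU _
  have : Epi (SSet.homologyMap (TopCat.toSSet.map (TopCat.ofHom (borelProj a X)))
      (ModuleCat.of ℚ ℚ) j) := by
    cases j with
    | zero => exact epi_zero _ _ (L h3) (hL h3)
    | succ n =>
      refine epi_succ _ _ (L h1) (L h3) (hL h3) fun i x => ?_
      apply (TopCat.toSSetObjEquiv _ _).injective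
      exact ell_face a X F hF heq h1 h3 h4 _ i
  exact (ModuleCat.epi_iff_surjective _).1 this

theorem nonempty_of_indexGE {Y : Type} [TopologicalSpace Y] (a : UnitAddCircle → Y → Y)
    (X : Set Y) (h : IndexGE a X 1) : X.Nonempty := by
  by_contra hX
  have hE : IsEmpty (Borel a X) := ⟨fun p => by
    obtain ⟨q, -⟩ := Quot.exists_rep p
    exact hX ⟨q.1, q.1.2⟩⟩
  have hepi : Epi (SSet.homologyMap (TopCat.toSSet.map (TopCat.ofHom (borelProj a X)))
      (ModuleCat.of ℚ ℚ) 0) := (ModuleCat.epi_iff_surjective _).2 (h 0 (by norm_num))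
  have z1 : IsZero (((TopCat.toSSet.obj (TopCat.of (Borel a X))).chainComplex
      (ModuleCat.of ℚ ℚ)).X 0) := by
    rw [IsZero.iff_id_eq_zero]
    exact SSet.chainComplex_hom_ext fun x => hE.elim (TopCat.toSSetObj₀Equiv x)
  have z2 : IsZero ((TopCat.toSSet.obj (TopCat.of (Borel a X))).homology (ModuleCat.of ℚ ℚ) 0) :=
    (HomologicalComplex.ExactAt.of_isZero z1).isZero_homology
  have z3 : IsZero ((TopCat.toSSet.obj (TopCat.of BS)).homology (ModuleCat.of ℚ ℚ) 0) :=
    z2.of_epi (SSet.homologyMap (TopCat.toSSet.map (TopCat.ofHom (borelProj a X)))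
      (ModuleCat.of ℚ ℚ) 0)
  let v : ES := ⟨lp.single 2 0 1, by
    rw [mem_sphere_zero_iff_norm, lp.norm_single (by norm_num), norm_one]⟩
  have e := SSet.liftCycles_ιChainComplex_homologyπ_homology₀ε (TopCat.toSSet.obj (TopCat.of BS))
    (ModuleCat.of ℚ ℚ) (TopCat.toSSetObj₀Equiv.symm (Index.cls v))
  rw [z3.eq_zero_of_src (SSet.homology₀ε _ _), comp_zero, comp_zero] at e
  have z4 : IsZero (ModuleCat.of ℚ ℚ) := (IsZero.iff_id_eq_zero _).2 e.symm
  have : Subsingleton ℚ := ModuleCat.subsingleton_of_isZero z4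
  exact zero_ne_one (Subsingleton.elim (0 : ℚ) 1)

end Pool.Agent.Lib.MP_f78106_gt
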