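import Pool.Agent.Lib.MP_f78106_gt.Fam

/-!
Topological lemmas for the index computation: faces of simplices, extension of boundary data,
maps into spheres, lifts of singular simplices of `BS¹`.
-/

namespace Pool.Agent.Lib.MP_f78106_gt.Index

open Set Topology

/-- The simplex with `m` vertices. -/
abbrev Sx (m : ℕ) : Type := stdSimplex ℝ (Fin m)

/-- The `i`-th face map. -/
noncomputable def face {m : ℕ} (i : Fin (m + 1)) : C(Sx m, Sx (m + 1)) :=
  ⟨stdSimplex.map i.succAbove, stdSimplex.continuous_map _⟩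

theorem face_self {m : ℕ} (i : Fin (m + 1)) (y : Sx m) : face i y i = 0 := by
  change FunOnFinite.linearMap ℝ ℝ i.succAbove y i = 0
  rw [FunOnFinite.linearMap_apply_apply]
  refine Finset.sum_eq_zero fun x hx => ?_
  exact absurd (Finset.mem_filter.1 hx).2 (Fin.succAbove_ne i x)

theorem face_succAbove {m : ℕ} (i : Fin (m + 1)) (y : Sx m) (j : Fin m) :
    face i y (i.succAbove j) = y j := by
  change FunOnFinite.linearMap ℝ ℝ i.succAbove y (i.succAbove j) = y j
  rw [FunOnFinite.linearMap_apply_apply]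
  refine Finset.sum_eq_single_of_mem j (by simp) fun x hx hne => ?_
  exact absurd (Fin.succAbove_right_injective (Finset.mem_filter.1 hx).2) hne

theorem face_injective {m : ℕ} (i : Fin (m + 1)) : Function.Injective (face i) := by
  intro y y' h
  ext j
  rw [← face_succAbove i y j, ← face_succAbove i y' j, h]

theorem exists_face {m : ℕ} (i : Fin (m + 1)) (x : Sx (m + 1)) (hx : x i = 0) :
    ∃ y, face i y = x := by
  refine ⟨⟨fun j => x (i.succAbove j), fun j => stdSimplex.zero_le x _, ?_⟩, ?_⟩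
  · have := stdSimplex.sum_eq_one x
    rw [Fin.sum_univ_succAbove _ i, hx, zero_add] at this
    exact this
  · ext j
    rcases Fin.eq_self_or_eq_succAbove i j with rfl | ⟨j, rfl⟩
    · rw [face_self, hx]
    · rw [face_succAbove]; rfl

theorem face_face {m : ℕ} (i : Fin (m + 2)) (j : Fin (m + 1)) (y : Sx m) :
    face (i.succAbove j) (face (j.predAbove i) y) = face i (face j y) := by
  change stdSimplex.map _ (stdSimplex.map _ y) = stdSimplex.map _ (stdSimplex.map _ y)
  rw [stdSimplex.map_comp_apply, stdSimplex.map_comp_apply]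
  congr 1
  funext k
  exact Fin.succAbove_succAbove_succAbove_predAbove i j k

/-- Two different faces meet in a face of codimension two. -/
theorem face_eq_face {m : ℕ} (i : Fin (m + 2)) (j : Fin (m + 1)) (y y' : Sx (m + 1))
    (h : face i y = face (i.succAbove j) y') :
    ∃ u : Sx m, face j u = y ∧ face (j.predAbove i) u = y' := by
  have h1 : y j = 0 := by rw [← face_succAbove i y j, h, face_self]
  obtain ⟨u, rfl⟩ := exists_face j y h1
  refine ⟨u, rfl, face_injective (i.succAbove j) ?_⟩
  rw [face_face, h]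

/-- Data on a compact space that factor through a map into a normal space extend to it. -/
theorem exists_ext {X Y E : Type} [TopologicalSpace X] [CompactSpace X] [TopologicalSpace Y]
    [T2Space Y] [NormalSpace Y] [TopologicalSpace E] [TietzeExtension.{0, 0} E]
    (Φ : C(X, Y)) (G : C(X, E)) (h : ∀ x x', Φ x = Φ x' → G x = G x') :
    ∃ b : C(Y, E), ∀ x, b (Φ x) = G x := by
  let Φ' : C(X, range Φ) := ⟨rangeFactorization Φ, Φ.continuous.subtype_mk _⟩
  have hq : IsQuotientMap Φ' :=
    (Φ'.continuous.isClosedMap).isQuotientMap Φ'.continuous rangeFactorization_surjective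
  have hf : Function.FactorsThrough G Φ' := fun x x' hx => h x x' (congrArg Subtype.val hx)
  have hc : IsClosed (range Φ) := (isCompact_range Φ.continuous).isClosed
  obtain ⟨b, hb⟩ := ContinuousMap.exists_extension' hc.isClosedEmbedding_subtypeVal (hq.lift G hf)
  refine ⟨b, fun x => ?_⟩
  have h1 := congrFun hb (Φ' x)
  have h2 := DFunLike.congr_fun (hq.lift_comp G hf) x
  exact h1.trans h2

/-- A map from a space of smaller dimension can be pushed to the unit sphere, keeping the values
that are already on the sphere. -/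
theorem exists_sphere {D E : Type} [NormedAddCommGroup D] [NormedSpace ℝ D] [FiniteDimensional ℝ D]
    [NormedAddCommGroup E] [NormedSpace ℝ E] [FiniteDimensional ℝ E]
    (hDE : Module.finrank ℝ D < Module.finrank ℝ E) (b : C(D, E)) :
    ∃ a : C(D, E), (∀ x, ‖a x‖ = 1) ∧ ∀ x, ‖b x‖ = 1 → a x = b x := by
  obtain ⟨Q, hQ, hQb, -⟩ := b.continuous.exists_contDiff_approx 1 (ε := fun _ => (1 / 8 : ℝ))
    continuous_const (fun _ => by norm_num)
  obtain ⟨v, hv, hv'⟩ := (hQ.dense_compl_range_of_finrank_lt_finrank hDE).exists_mem_open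
    (Metric.isOpen_ball (x := (0 : E)) (ε := 1 / 8)) ⟨0, Metric.mem_ball_self (by norm_num)⟩
  have hv2 : ‖v‖ < 1 / 8 := mem_ball_zero_iff.1 hv'
  let ψ : D → ℝ := fun x => max 0 (min 1 (4 * ‖b x‖ - 3))
  have hψ : Continuous ψ := by
    have := b.continuous
    fun_prop
  let B : D → E := fun x => b x + (1 - ψ x) • (Q x - b x - v)
  have hB : Continuous B := by
    have := b.continuous
    have := hQ.continuous
    fun_prop
  have hB0 : ∀ x, B x ≠ 0 := by
    intro x h0
    by_cases hx : ‖b x‖ ≤ 3 / 4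
    · have : ψ x = 0 := max_eq_left ((min_le_right _ _).trans (by linarith))
      apply hv
      refine ⟨x, ?_⟩
      have h1 : B x = Q x - v := by
        simp only [B, this, sub_zero, one_smul]; abel
      rw [h0] at h1
      exact sub_eq_zero.1 h1.symm
    · have h1 : b x = -((1 - ψ x) • (Q x - b x - v)) := eq_neg_of_add_eq_zero_left h0
      have h2 : 0 ≤ ψ x := le_max_left _ _
      have h3 : ψ x ≤ 1 := max_le zero_le_one (min_le_left _ _)
      have h4 : ‖Q x - b x - v‖ ≤ 1 / 4 := by
        have := norm_sub_le (Q x - b x) v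
        have h5 := hQb x
        rw [dist_eq_norm] at h5
        linarith
      have h6 : ‖b x‖ ≤ 1 / 4 := by
        rw [h1, norm_neg, norm_smul, Real.norm_of_nonneg (by linarith)]
        nlinarith [norm_nonneg (Q x - b x - v)]
      linarith [not_le.1 hx]
  refine ⟨⟨fun x => ‖B x‖⁻¹ • B x, ?_⟩, fun x => ?_, fun x hx => ?_⟩
  · exact (hB.norm.inv₀ fun x => norm_ne_zero_iff.2 (hB0 x)).smul hB
  · exact norm_smul_inv_norm (𝕜 := ℝ) (hB0 x)
  · have : ψ x = 1 := by
      simp only [ψ, hx]; norm_num
    have h1 : B x = b x := by simp only [B, this, sub_self, zero_smul, add_zero]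
    change ‖B x‖⁻¹ • B x = b x
    rw [h1, hx, inv_one, one_smul]

/-- Boundary data with values in the unit sphere of `ℂᵏ` extend over a simplex of dimension
smaller than `2 k`. -/
theorem exists_fill {m k : ℕ} (hm : m < 2 * k) (G : Fin (m + 1) → C(Sx m, V k))
    (hG : ∀ i y, ‖G i y‖ = 1)
    (h : ∀ i i' y y', face i y = face i' y' → G i y = G i' y') :
    ∃ a : C(Sx (m + 1), V k), (∀ x, ‖a x‖ = 1) ∧ ∀ i y, a (face i y) = G i y := by
  let e : C(Sx (m + 1), Fin m → ℝ) :=
    ⟨fun x j => x j.succ, continuous_pi fun j => (continuous_apply _).comp continuous_subtype_val⟩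
  have he : Function.Injective e := by
    intro x x' hx
    have h1 : ∀ j : Fin m, x j.succ = x' j.succ := fun j => congrFun hx j
    ext j
    refine Fin.cases ?_ h1 j
    have a1 := stdSimplex.sum_eq_one x
    have a2 := stdSimplex.sum_eq_one x'
    rw [Fin.sum_univ_succ] at a1 a2
    simp only [h1] at a1
    linarith
  let Φ : C(Fin (m + 1) × Sx m, Fin m → ℝ) :=
    ⟨fun p => e (face p.1 p.2), continuous_prod_of_discrete_left.2 fun i =>
      e.continuous.comp (face i).continuous⟩
  let G' : C(Fin (m + 1) × Sx m, V k) :=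
    ⟨fun p => G p.1 p.2, continuous_prod_of_discrete_left.2 fun i => (G i).continuous⟩
  have : TietzeExtension.{0, 0} (V k) := TietzeExtension.of_tvs ℂ
  obtain ⟨b, hb⟩ := exists_ext Φ G' fun p p' hp => h _ _ _ _ (he hp)
  have hd : Module.finrank ℝ (Fin m → ℝ) < Module.finrank ℝ (V k) := by
    rw [finrank_real_of_complex, finrank_euclideanSpace_fin, Module.finrank_fin_fun]
    exact hm
  obtain ⟨a, ha, ha'⟩ := exists_sphere hd b
  refine ⟨a.comp e, fun x => ha _, fun i y => ?_⟩
  have h1 : b (e (face i y)) = G i y := hb (i, y)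
  change a (e (face i y)) = G i y
  rw [ha' _ (by rw [h1, hG]), h1]

/-- The class of a unit vector. -/
abbrev cls (v : ES) : BS := Quot.mk _ v

theorem norm_es (v : ES) : ‖(v : Hil)‖ = 1 := mem_sphere_zero_iff_norm.1 v.2

theorem inner_es (v : ES) : inner ℂ (v : Hil) (v : Hil) = 1 := by
  rw [inner_self_eq_norm_sq_to_K, norm_es]; simp

theorem exists_theta {c : ℂ} (hc : ‖c‖ = 1) :
    ∃ θ : UnitAddCircle, ((θ.toCircle : Circle) : ℂ) = c := by
  obtain ⟨θ, hθ⟩ := (AddCircle.homeomorphCircle (T := 1) one_ne_zero).surjective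
    ⟨c, mem_sphere_zero_iff_norm.2 hc⟩
  rw [AddCircle.homeomorphCircle_apply] at hθ
  exact ⟨θ, by rw [hθ]⟩

theorem conj_mul_self {c : ℂ} (hc : ‖c‖ = 1) : (starRingEnd ℂ) c * c = 1 := by
  rw [Complex.conj_mul', hc]; simp

/-- The orthogonal projection onto a line. -/
noncomputable def proj : C(BS, Hil →L[ℂ] Hil) where
  toFun := Quot.lift (fun v : ES => InnerProductSpace.rankOne ℂ (v : Hil) (v : Hil)) (by
    rintro v w ⟨θ, hθ⟩
    ext1 u
    rw [InnerProductSpace.rankOne_apply, InnerProductSpace.rankOne_apply, ← hθ, inner_smul_left,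
      smul_smul, mul_right_comm, conj_mul_self (Circle.norm_coe _), one_mul])
  continuous_toFun := continuous_quot_lift _ (by
    have h : Continuous fun v : ES => (v : Hil) := continuous_subtype_val
    have h2 : Continuous fun v : ES => innerSL ℂ (v : Hil) := (innerSL ℂ).continuous.comp h
    exact ((ContinuousLinearMap.smulRightL ℂ Hil Hil).continuous.comp h2).clm_apply h)

theorem proj_cls (v : ES) (u : Hil) : proj (cls v) u = inner ℂ (v : Hil) u • (v : Hil) := rfl

theorem cls_eq {v w : ES} (h : cls v = cls w) :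
    ∃ θ : UnitAddCircle, ((θ.toCircle : Circle) : ℂ) • (v : Hil) = (w : Hil) := by
  have h1 : inner ℂ (v : Hil) (w : Hil) • (v : Hil) = w := by
    rw [← proj_cls, h, proj_cls, inner_es, one_smul]
  have h2 : ‖inner ℂ (v : Hil) (w : Hil)‖ = 1 := by
    have := congrArg norm h1
    rwa [norm_smul, norm_es, norm_es, mul_one] at this
  obtain ⟨θ, hθ⟩ := exists_theta h2
  exact ⟨θ, by rw [hθ, h1]⟩

theorem proj_proj (p : BS) (u : Hil) : proj p (proj p u) = proj p u := by
  induction p using Quot.inductionOn with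
  | h v =>
    change proj (cls v) (proj (cls v) u) = proj (cls v) u
    rw [proj_cls, proj_cls, inner_smul_right, inner_es, mul_one]

theorem cls_of_proj (p : BS) (w : ES) (h : proj p w = w) : cls w = p := by
  induction p using Quot.inductionOn with
  | h v =>
    have h1 : inner ℂ (v : Hil) (w : Hil) • (v : Hil) = w := h
    have h2 : ‖inner ℂ (v : Hil) (w : Hil)‖ = 1 := by
      have := congrArg norm h1
      rwa [norm_smul, norm_es, norm_es, mul_one] at this
    obtain ⟨θ, hθ⟩ := exists_theta h2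
    exact (Quot.sound ⟨θ, by rw [hθ, h1]⟩).symm

/-- Every singular simplex of `BS¹` lifts to `ES¹`. -/
theorem exists_lift {m : ℕ} (σ : C(Sx m, BS)) : ∃ τ : C(Sx m, ES), ∀ x, cls (τ x) = σ x := by
  rcases isEmpty_or_nonempty (Sx m) with hE | ⟨⟨x0⟩⟩
  · exact ⟨⟨fun x => hE.elim x, continuous_of_const fun x => hE.elim x⟩, fun x => hE.elim x⟩
  have hp : UniformContinuous (proj.comp σ) :=
    CompactSpace.uniformContinuous_of_continuous (proj.comp σ).continuous
  obtain ⟨δ, hδ, hδ'⟩ := Metric.uniformContinuous_iff.1 hp 1 one_pos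
  obtain ⟨M, hM⟩ := exists_nat_one_div_lt hδ
  let H : ∀ t : ℝ, 0 ≤ t → t ≤ 1 → C(Sx m, Sx m) := fun t h0 h1 =>
    ⟨fun x => ⟨(1 - t) • x0.1 + t • x.1,
      convex_stdSimplex ℝ (Fin m) x0.2 x.2 (by linarith) h0 (by ring)⟩, by
      refine Continuous.subtype_mk ?_ _
      exact continuous_const.add (continuous_subtype_val.const_smul t)⟩
  have hH : ∀ s t h0 h1 h0' h1' x, dist (H s h0 h1 x) (H t h0' h1' x) ≤ |s - t| := by
    intro s t h0 h1 h0' h1' x
    rw [Subtype.dist_eq, dist_eq_norm]
    have e : ((H s h0 h1 x : Sx m) : Fin m → ℝ) - (H t h0' h1' x : Sx m) =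
        (s - t) • (x.1 - x0.1) := by
      change ((1 - s) • x0.1 + s • x.1) - ((1 - t) • x0.1 + t • x.1) = _
      module
    have d : ‖x.1 - x0.1‖ ≤ 1 := by
      rw [← dist_eq_norm]
      exact (Metric.dist_le_diam_of_mem (bounded_stdSimplex _) x.2 x0.2).trans diam_stdSimplex_le
    refine le_of_eq_of_le (congrArg norm e) ?_
    rw [norm_smul, Real.norm_eq_abs]
    exact mul_le_of_le_one_right (abs_nonneg _) d
  have hM0 : (0 : ℝ) < (M : ℝ) + 1 := by positivity
  have key : ∀ i : ℕ, ∀ (h0 : (0 : ℝ) ≤ i / (M + 1)) (h1 : (i : ℝ) / (M + 1) ≤ 1),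
      ∃ u : C(Sx m, Hil), ∀ x, u x ≠ 0 ∧ proj (σ (H _ h0 h1 x)) (u x) = u x := by
    intro i
    induction i with
    | zero =>
      intro h0 h1
      obtain ⟨v, hv⟩ := Quot.exists_rep (σ x0)
      refine ⟨ContinuousMap.const _ (v : Hil), fun x => ⟨?_, ?_⟩⟩
      · intro h
        have h' : (v : Hil) = 0 := h
        have := norm_es v
        rw [h', norm_zero] at this
        exact zero_ne_one this
      · have e : H _ h0 h1 x = x0 := by
          apply Subtype.ext
          change (1 - ((0 : ℕ) : ℝ) / (M + 1)) • x0.1 + (((0 : ℕ) : ℝ) / (M + 1)) • x.1 = x0.1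
          simp
        rw [e, ← hv]
        change proj (cls v) (v : Hil) = v
        rw [proj_cls, inner_es, one_smul]
    | succ i ih =>
      intro h0 h1
      have h0' : (0 : ℝ) ≤ i / (M + 1) := by positivity
      have h1' : (i : ℝ) / (M + 1) ≤ 1 := by
        refine le_trans ?_ h1
        gcongr
        exact_mod_cast Nat.le_succ i
      obtain ⟨u, hu⟩ := ih h0' h1'
      refine ⟨⟨fun x => proj (σ (H _ h0 h1 x)) (u x), ?_⟩, fun x => ⟨?_, proj_proj _ _⟩⟩
      · exact (proj.continuous.comp (σ.continuous.comp (H _ h0 h1).continuous)).clm_apply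
          u.continuous
      · intro h
        have h' : proj (σ (H _ h0 h1 x)) (u x) = 0 := h
        have d1 : dist (H _ h0' h1' x) (H _ h0 h1 x) < δ := by
          refine (hH _ _ h0' h1' h0 h1 x).trans_lt ?_
          have : (i : ℝ) / (M + 1) - ((i + 1 : ℕ) : ℝ) / (M + 1) = -(1 / (M + 1)) := by
            push_cast; ring
          rw [this, abs_neg, abs_of_pos (by positivity)]
          exact hM
        have d2 := hδ' d1
        rw [dist_eq_norm] at d2
        have d3 := ((proj.comp σ) (H _ h0' h1' x) - (proj.comp σ) (H _ h0 h1 x)).le_opNorm (u x)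
        have d4 : ((proj.comp σ) (H _ h0' h1' x) - (proj.comp σ) (H _ h0 h1 x)) (u x) = u x := by
          change proj (σ (H _ h0' h1' x)) (u x) - proj (σ (H _ h0 h1 x)) (u x) = u x
          rw [(hu x).2, h', sub_zero]
        rw [d4] at d3
        have d5 : 0 < ‖u x‖ := norm_pos_iff.2 (hu x).1
        nlinarith
  have e1 : ((M + 1 : ℕ) : ℝ) / (M + 1) = 1 := by push_cast; exact div_self hM0.ne'
  obtain ⟨u, hu⟩ := key (M + 1) (by positivity) e1.le
  have hx : ∀ x, proj (σ x) (u x) = u x := by
    intro x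
    have e : H _ (by positivity) e1.le x = x := by
      apply Subtype.ext
      change (1 - ((M + 1 : ℕ) : ℝ) / (M + 1)) • x0.1 + (((M + 1 : ℕ) : ℝ) / (M + 1)) • x.1 = x.1
      rw [e1]; simp
    have := (hu x).2
    rwa [e] at this
  refine ⟨⟨fun x => ⟨((‖u x‖ : ℂ))⁻¹ • u x, mem_sphere_zero_iff_norm.2 ?_⟩, ?_⟩, fun x => ?_⟩
  · exact norm_smul_inv_norm (𝕜 := ℂ) (hu x).1
  · refine Continuous.subtype_mk ?_ _
    have c1 : Continuous fun x => ((‖u x‖ : ℝ) : ℂ) :=
      Complex.continuous_ofReal.comp u.continuous.norm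
    have c2 : ∀ x, ((‖u x‖ : ℝ) : ℂ) ≠ 0 := fun x => by
      exact_mod_cast norm_ne_zero_iff.2 (hu x).1
    exact (c1.inv₀ c2).smul u.continuous
  · refine cls_of_proj _ _ ?_
    change proj (σ x) (((‖u x‖ : ℂ))⁻¹ • u x) = ((‖u x‖ : ℂ))⁻¹ • u x
    rw [map_smul, hx]

end Pool.Agent.Lib.MP_f78106_gt.Index
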