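import Pool.Agent.Lib.MP_f78106_gt.Clarke

/-!
Support functions of compact sets, and approximation of an admissible loop by a continuous one.
-/

namespace Pool.Agent.Lib.MP_f78106_gt.KFold

open MeasureTheory Set Filter Topology Clarke

variable {n : ℕ}

theorem kf_supp_hom (Ω : Set (V n)) {t : ℝ} (ht : 0 ≤ t) (u : V n) :
    supp Ω (t • u) = t * supp Ω u := by
  unfold supp
  rw [← smul_eq_mul, ← Real.sSup_smul_of_nonneg ht, ← Set.image_smul, Set.image_image]
  simp only [rin_smul_right, smul_eq_mul]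

theorem kf_supp_lip {Ω : Set (V n)} (hc : IsCompact Ω) (hne : Ω.Nonempty) :
    ∃ R : ℝ, 0 ≤ R ∧ ∀ u w, |supp Ω u - supp Ω w| ≤ R * ‖u - w‖ := by
  obtain ⟨R, hR⟩ := hc.isBounded.exists_norm_le
  obtain ⟨x0, hx0⟩ := hne
  have R0 : 0 ≤ R := (norm_nonneg _).trans (hR x0 hx0)
  have key : ∀ u w, supp Ω u ≤ supp Ω w + R * ‖u - w‖ := fun u w => by
    refine csSup_le (Set.Nonempty.image _ ⟨x0, hx0⟩) ?_
    rintro _ ⟨x, hx, rfl⟩
    have hb : BddAbove ((fun x => rin x w) '' Ω) :=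
      (hc.image (continuous_rin.comp (continuous_id.prodMk continuous_const))).bddAbove
    have h1 : rin x w ≤ supp Ω w := le_csSup hb ⟨x, hx, rfl⟩
    have h2 := (le_abs_self _).trans (abs_rin_le x (u - w))
    have h3 := mul_le_mul_of_nonneg_right (hR x hx) (norm_nonneg (u - w))
    rw [rin_sub_right] at h2
    show rin x u ≤ _
    linarith
  refine ⟨R, R0, fun u w => abs_le.2 ⟨?_, ?_⟩⟩
  · have := key w u
    rw [norm_sub_rev] at this
    linarith
  · linarith [key u w]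

theorem kf_dd (n : ℕ) :
    DD (JV n) (fun u : V n => ‖u‖ ^ 2) (fun u => (2 : ℝ) • u) 1 (max 1 1) (max 1 1) :=
  dd_of
    { contH := by fun_prop
      contZ := by fun_prop
      apos := one_pos
      lower := fun u => by simp
      homH := fun t _ u => by rw [norm_smul, mul_pow, Real.norm_eq_abs, sq_abs]
      homZ := fun t _ u => smul_comm _ _ _
      euler := fun u => by rw [rin_smul_left, rin_self]
      sub := fun u w => by
        rw [rin_smul_left, rin_eq, norm_add_sq_real]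
        nlinarith [sq_nonneg ‖w‖]
      quad := fun u w => by
        rw [rin_smul_left, rin_eq, norm_add_sq_real]
        linarith
      expand := fun u w => by
        rw [← smul_sub, norm_smul, Real.norm_eq_abs, abs_two]
        linarith [norm_nonneg (u - w)] }

theorem kf_cont {h : V n → ℝ} {R : ℝ} (hl : ∀ u w, |h u - h w| ≤ R * ‖u - w‖) : Continuous h :=
  (LipschitzWith.of_dist_le' (K := R) fun u w => by
    rw [Real.dist_eq, dist_eq_norm]; exact hl u w).continuous

theorem kf_int {h : V n → ℝ} {R : ℝ} (hl : ∀ u w, |h u - h w| ≤ R * ‖u - w‖) (h0 : h 0 = 0)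
    {f : ℝ → V n} (hf : MemLp f 2 mu) : Integrable (fun t => h (JV n (f t)) ^ 2 / 4) mu := by
  have h1 : MemLp (fun t => h (JV n (f t))) 2 mu :=
    (J_L2 (JV n) hf).of_le_mul (c := R) ((kf_cont hl).comp_aestronglyMeasurable (J_L2 (JV n) hf).1)
      (Eventually.of_forall fun t => by
        have := hl (JV n (f t)) 0
        rwa [h0, sub_zero, sub_zero] at this)
  have h2 := (int_sq h1).div_const 4
  simpa only [Real.norm_eq_abs, sq_abs] using h2

theorem kf_close {f : ℝ → V n} (hf : MemLp f 2 mu) (h0 : PP f 1 = 0) {δ : ℝ} (hδ : 0 < δ) :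
    ∃ w : ℝ → V n, Continuous w ∧ PP w 1 = 0 ∧ NN (w - f) ≤ δ ^ 2 := by
  have hf' : MemLp f (ENNReal.ofReal 2) mu := by simpa using hf
  obtain ⟨g, hg, -⟩ := hf'.exists_boundedContinuous_integral_rpow_sub_le two_pos
    (ε := δ ^ 2 / 4) (by positivity)
  have Lg : MemLp (g : ℝ → V n) 2 mu := memLp_of_contOn g.continuous.continuousOn
  have Ld : MemLp ((g : ℝ → V n) - f) 2 mu := Lg.sub hf
  have h1 : NN ((g : ℝ → V n) - f) ≤ δ ^ 2 / 4 := by
    refine le_of_eq_of_le ?_ hg
    unfold NN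
    simp only [Pi.sub_apply, Real.rpow_two, norm_sub_rev (g _)]
  have h2 : ‖PP g 1‖ ^ 2 ≤ δ ^ 2 / 4 := by
    have a := PP_le Ld (t := 1) (by simp)
    rw [PP_sub Lg hf (by simp), h0, sub_zero] at a
    have b := pow_le_pow_left₀ (norm_nonneg _) a 2
    rw [Real.sq_sqrt (NN_nonneg _)] at b
    linarith
  refine ⟨fun t => g t - PP g 1, g.continuous.sub continuous_const, ?_, ?_⟩
  · have := PP_sub Lg (memLp_const (PP g 1)) (t := 1) (by simp)
    refine this.trans ?_
    simp [PP]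
  · have h3 : NN ((fun t => g t - PP g 1) - f) ≤
        ∫ t, (2 * ‖((g : ℝ → V n) - f) t‖ ^ 2 + 2 * ‖PP g 1‖ ^ 2) ∂mu := by
      refine integral_mono (int_sq ((Lg.sub (memLp_const (PP g 1))).sub hf))
        (((int_sq Ld).const_mul 2).add (integrable_const _)) fun t => ?_
      have e : ((fun t => g t - PP g 1) - f) t = ((g : ℝ → V n) - f) t - PP g 1 := by
        simp only [Pi.sub_apply]; abel
      simp only [e]
      have a := pow_le_pow_left₀ (norm_nonneg _) (norm_sub_le (((g : ℝ → V n) - f) t) (PP g 1)) 2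
      nlinarith [sq_nonneg (‖((g : ℝ → V n) - f) t‖ - ‖PP g 1‖)]
    rw [integral_add ((int_sq Ld).const_mul 2) (integrable_const _), integral_const_mul] at h3
    simp only [integral_const, probReal_univ, smul_eq_mul, one_mul] at h3
    change _ ≤ 2 * NN _ + _ at h3
    linarith

/-- An admissible loop below the level `L` can be replaced by a continuous one. -/
theorem kf_approx {h : V n → ℝ} {R : ℝ} (R0 : 0 ≤ R) (hl : ∀ u w, |h u - h w| ≤ R * ‖u - w‖)
    (h0 : h 0 = 0) {f : ℝ → V n} (hf : Adm (JV n) f) {L : ℝ}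
    (hL : EE (JV n) (fun u => h u ^ 2 / 4) f < L) :
    ∃ w : ℝ → V n, Continuous w ∧ PP w 1 = 0 ∧
      EE (JV n) (fun u => h u ^ 2 / 4) w < L / 2 * BB (JV n) w w := by
  obtain ⟨hf, f0, fB⟩ := hf
  set E := EE (JV n) (fun u => h u ^ 2 / 4) f with hE
  have E0 : 0 ≤ E := integral_nonneg fun t => by positivity
  have N0 := NN_nonneg f
  have ν0 := Real.sqrt_nonneg (NN f)
  set c := R ^ 2 * (NN f + 2) / 4 + L / 2 * (2 * √(NN f) + 1) + 1 with hc
  have L0 : 0 < L := by linarith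
  have c0 : 0 < c := by positivity
  set δ := min 1 ((L - E) / c) with hδ
  have δ0 : 0 < δ := lt_min one_pos (div_pos (by linarith) c0)
  have δ1 : δ ≤ 1 := min_le_left _ _
  have δ2 : δ * c ≤ L - E := (le_div_iff₀ c0).1 (min_le_right _ _)
  obtain ⟨w, cw, w0, hw⟩ := kf_close hf f0 δ0
  have Lw : MemLp w 2 mu := memLp_of_contOn cw.continuousOn
  have Ld : MemLp (w - f) 2 mu := Lw.sub hf
  have D := kf_dd n
  have sd : √(NN (w - f)) ≤ δ := Real.sqrt_le_iff.2 ⟨δ0.le, hw⟩
  have s0 := Real.sqrt_nonneg (NN (w - f))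
  have b0 := BB_expand (JV n) hf Ld 1
  rw [one_smul, add_sub_cancel, fB] at b0
  have b1 := (abs_le.1 (D.abs_BB hf Ld)).1
  have b2 := (abs_le.1 (D.abs_BB Ld hf)).1
  have b3 := (abs_le.1 (D.abs_BB Ld Ld)).1
  have b4 : 2 - δ * (2 * √(NN f) + 1) ≤ BB (JV n) w w := by
    have a1 := mul_le_mul_of_nonneg_left sd ν0
    have a2 := mul_le_mul sd (sd.trans δ1) s0 δ0.le
    nlinarith
  have e1 : EE (JV n) (fun u => h u ^ 2 / 4) w ≤ ∫ t, (h (JV n (f t)) ^ 2 / 4 +
      (R ^ 2 / 4 * δ * ‖f t‖ ^ 2 + R ^ 2 / 4 * (δ⁻¹ + 1) * ‖(w - f) t‖ ^ 2)) ∂mu := by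
    refine integral_mono (kf_int hl h0 Lw) ((kf_int hl h0 hf).add
      (((int_sq hf).const_mul _).add ((int_sq Ld).const_mul _))) fun t => ?_
    have a1 := hl (JV n (w t)) (JV n (f t))
    rw [← map_sub, D.norm_J] at a1
    have a2 := hl (JV n (f t)) 0
    rw [h0, sub_zero, sub_zero, D.norm_J] at a2
    simp only [Pi.sub_apply]
    generalize h (JV n (w t)) = p at a1
    generalize h (JV n (f t)) = q at a1 a2
    have x0 := norm_nonneg (f t)
    have y0 := norm_nonneg (w t - f t)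
    generalize ‖f t‖ = x at *
    generalize ‖w t - f t‖ = y at *
    have a3 : q * (p - q) ≤ R * x * (R * y) :=
      (le_abs_self _).trans (by rw [abs_mul]; exact mul_le_mul a2 a1 (abs_nonneg _) (by positivity))
    have a4 : (p - q) ^ 2 ≤ (R * y) ^ 2 := by
      rw [← sq_abs]; exact pow_le_pow_left₀ (abs_nonneg _) a1 2
    have a5 : 2 * (x * y) ≤ δ * x ^ 2 + δ⁻¹ * y ^ 2 := by
      have e : δ * x ^ 2 + δ⁻¹ * y ^ 2 - 2 * (x * y) = δ⁻¹ * (δ * x - y) ^ 2 := by
        field_simp; ring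
      have : 0 ≤ δ⁻¹ * (δ * x - y) ^ 2 := by positivity
      linarith
    have a6 := mul_le_mul_of_nonneg_left a5 (sq_nonneg R)
    nlinarith
  have i2 : Integrable (fun t =>
      R ^ 2 / 4 * δ * ‖f t‖ ^ 2 + R ^ 2 / 4 * (δ⁻¹ + 1) * ‖(w - f) t‖ ^ 2) mu :=
    ((int_sq hf).const_mul _).add ((int_sq Ld).const_mul _)
  rw [integral_add (kf_int hl h0 hf) i2,
    integral_add ((int_sq hf).const_mul _) ((int_sq Ld).const_mul _), integral_const_mul,
    integral_const_mul] at e1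
  change _ ≤ E + (_ * NN f + _ * NN (w - f)) at e1
  have e2 : R ^ 2 / 4 * (δ⁻¹ + 1) * NN (w - f) ≤ R ^ 2 / 4 * (2 * δ) := by
    rw [mul_assoc]
    refine mul_le_mul_of_nonneg_left ?_ (by positivity)
    refine (mul_le_mul_of_nonneg_left hw (by positivity)).trans ?_
    have e : (δ⁻¹ + 1) * δ ^ 2 = δ + δ * δ := by field_simp
    nlinarith
  refine ⟨w, cw, w0, ?_⟩
  have e3 := mul_le_mul_of_nonneg_left b4 (by positivity : 0 ≤ L / 2)
  rw [hc] at δ2
  nlinarith

end Pool.Agent.Lib.MP_f78106_gt.KFold
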