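import Pool.Agent.Lib.MP_f78106_gt.Fam
import Pool.Agent.Lib.MP_f78106_gt.Once

/-!
Elementary properties of the phase function.
-/

namespace Pool.Agent.Lib.MP_f78106_gt

open MeasureTheory Set Filter Topology

theorem ph_mem {T : ℝ} (hT : 0 < T) {lam : ℕ → ℝ} (hl : ∀ i, 0 ≤ lam i) (s : ℕ → ℝ) (j : ℕ)
    (t : ℝ) : ph T lam s j t ∈ Icc 0 T := by
  have _ := hl
  induction j generalizing t with
  | zero => exact ⟨le_rfl, hT.le⟩
  | succ j ih =>
    rw [ph]
    split_ifs with h
    · have h0 := Int.fract_nonneg (t - s j)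
      have h1 := h0.trans_lt h
      refine ⟨div_nonneg (mul_nonneg hT.le h0) h1.le, ?_⟩
      rw [div_le_iff₀ h1]
      exact mul_le_mul_of_nonneg_left h.le hT.le
    · exact ih _

theorem ph_add_int (T : ℝ) (lam s : ℕ → ℝ) (j : ℕ) (t : ℝ) (z : ℤ) :
    ph T lam s j (t + z) = ph T lam s j t := by
  cases j with
  | zero => rfl
  | succ j =>
    rw [ph, ph, show t + z - s j = t - s j + z by ring, Int.fract_add_intCast]

theorem measurable_ph (T : ℝ) (lam s : ℕ → ℝ) (j : ℕ) : Measurable (ph T lam s j) := by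
  induction j with
  | zero => exact measurable_const
  | succ j ih =>
    have hf : Measurable fun t : ℝ => Int.fract (t - s j) :=
      measurable_fract.comp (measurable_id.sub_const _)
    exact Measurable.ite (measurableSet_lt hf measurable_const) ((hf.const_mul T).div_const _)
      (ih.comp (((hf.sub_const _).div_const _).const_add _))

theorem ph_shift (T : ℝ) (lam s : ℕ → ℝ) (j : ℕ) (c t : ℝ) :
    ph T lam (fun i => s i + c) j (t + c) = ph T lam s j t := by
  induction j generalizing t with
  | zero => rfl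
  | succ j ih =>
    rw [ph, ph, show t + c - (s j + c) = t - s j by ring, add_right_comm (s j) c, ih]

theorem ph_congr (T : ℝ) (lam s s' : ℕ → ℝ) (j : ℕ)
    (h : ∀ i < j, lam i ≠ 0 → ∃ z : ℤ, s' i = s i + z) : ph T lam s' j = ph T lam s j := by
  induction j with
  | zero => rfl
  | succ j ih =>
    have ih' := ih fun i hi => h i (by omega)
    funext t
    rw [ph, ph, ih']
    by_cases h0 : lam j = 0
    · have e : ∀ a : ℝ, a + Int.fract (t - a) = t + ((-⌊t - a⌋ : ℤ) : ℝ) := fun a => by
        rw [Int.fract]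
        push_cast
        ring
      rw [h0, zero_div, if_neg (not_lt.2 (Int.fract_nonneg _)),
        if_neg (not_lt.2 (Int.fract_nonneg _))]
      simp only [sub_zero, div_one, e, ph_add_int]
    · obtain ⟨z, hz⟩ := h j (Nat.lt_succ_self j) h0
      rw [hz, show t - (s j + z) = t - s j - z by ring, Int.fract_sub_intCast,
        add_right_comm (s j) (z : ℝ), ph_add_int]

theorem Phase.countable_fract {C : Set ℝ} (hC : C.Countable) (a : ℝ) :
    {t : ℝ | Int.fract (t - a) ∈ C}.Countable := by
  refine ((hC.prod (countable_univ (α := ℤ))).image fun x => a + x.2 + x.1).mono fun t ht => ?_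
  refine ⟨(Int.fract (t - a), ⌊t - a⌋), ⟨ht, mem_univ _⟩, ?_⟩
  simp only [Int.fract]
  ring

theorem ph_continuousAt {X : Type} [TopologicalSpace X] (T : ℝ) (lam s : X → ℕ → ℝ)
    (hlc : ∀ i, Continuous fun q => lam q i) (hsc : ∀ i, Continuous fun q => s q i)
    (hl : ∀ q i, 0 ≤ lam q i) (j : ℕ) (p : X) (hp : 0 < ∑ i ∈ Finset.range j, lam p i) :
    ∃ B : Set ℝ, B.Countable ∧ ∀ t ∉ B,
      ContinuousAt (fun q : X × ℝ => ph T (lam q.1) (s q.1) j q.2) (p, t) := by
  induction j with
  | zero => simp at hp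
  | succ j ih =>
    set μ : X × ℝ → ℝ := fun q => lam q.1 j / ∑ i ∈ Finset.range (j + 1), lam q.1 i with hμ
    set φ : X × ℝ → ℝ := fun q => Int.fract (q.2 - s q.1 j) with hφ
    set m : ℝ := lam p j / ∑ i ∈ Finset.range (j + 1), lam p i with hm
    obtain ⟨B, hB, hc⟩ : ∃ B : Set ℝ, B.Countable ∧ (m < 1 → ∀ t ∉ B,
        ContinuousAt (fun q : X × ℝ => ph T (lam q.1) (s q.1) j q.2) (p, t)) := by
      by_cases h1 : m < 1
      · have h2 : 0 < ∑ i ∈ Finset.range j, lam p i := by
          rw [hm, div_lt_one hp, Finset.sum_range_succ] at h1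
          linarith
        obtain ⟨B, hB, hc⟩ := ih h2
        exact ⟨B, hB, fun _ => hc⟩
      · exact ⟨∅, countable_empty, fun h => absurd h h1⟩
    refine ⟨{t | Int.fract (t - s p j) ∈
      insert 0 (insert m ((fun b => m + (1 - m) * (b - s p j)) '' B))},
      Phase.countable_fract (((hB.image _).insert _).insert _) _, fun t ht => ?_⟩
    simp only [mem_ofPred_eq, mem_insert_iff, not_or] at ht
    obtain ⟨t0, t1, t2⟩ := ht
    have cs : Continuous fun q : X × ℝ => s q.1 j := (hsc j).comp continuous_fst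
    have cμ : ContinuousAt μ (p, t) :=
      ((hlc j).comp continuous_fst).continuousAt.div
        (continuous_finsetSum _ fun i _ => (hlc i).comp continuous_fst).continuousAt hp.ne'
    have cφ : ContinuousAt φ (p, t) := by
      refine ContinuousAt.comp (g := Int.fract) (f := fun q : X × ℝ => q.2 - s q.1 j)
        (continuousAt_fract fun h => t0 ?_) (continuous_snd.sub cs).continuousAt
      exact sub_eq_zero.2 h
    have e : (fun q : X × ℝ => ph T (lam q.1) (s q.1) (j + 1) q.2) = fun q =>
        if φ q < μ q then T * φ q / μ q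
        else ph T (lam q.1) (s q.1) j (s q.1 j + (φ q - μ q) / (1 - μ q)) := rfl
    rw [e]
    rcases lt_or_gt_of_ne t1 with h | h
    · have h0 : 0 < m := (Int.fract_nonneg _).trans_lt h
      refine ((continuousAt_const.mul cφ).div cμ h0.ne' (f := fun q => T * φ q)).congr ?_
      filter_upwards [cφ.eventually_lt cμ h] with q hq
      rw [if_pos hq]
      rfl
    · have h1 : m < 1 := h.trans (Int.fract_lt_one _)
      have h2 : (1 : ℝ) - m ≠ 0 := by linarith
      have cg : ContinuousAt (fun q : X × ℝ => (q.1, s q.1 j + (φ q - μ q) / (1 - μ q))) (p, t) :=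
        continuousAt_fst.prodMk (cs.continuousAt.add
          ((cφ.sub cμ).div (continuousAt_const.sub cμ) h2))
      have h3 : s p j + (Int.fract (t - s p j) - m) / (1 - m) ∉ B := fun hb =>
        t2 ⟨_, hb, by
          simp only [add_sub_cancel_left]
          rw [mul_div_cancel₀ _ h2]
          ring⟩
      refine (ContinuousAt.comp (g := fun q : X × ℝ => ph T (lam q.1) (s q.1) j q.2)
        (f := fun q : X × ℝ => (q.1, s q.1 j + (φ q - μ q) / (1 - μ q))) (hc h1 _ h3) cg).congr ?_
      filter_upwards [cμ.eventually_lt cφ h] with q hq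
      rw [if_neg hq.not_gt]
      rfl

end Pool.Agent.Lib.MP_f78106_gt
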