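import Pool.Agent.Lib.MP_f78106_gt.Step
import Pool.Agent.Lib.MP_f78106_gt.Phase
import Pool.Agent.Lib.MP_f78106_gt.Arcs

/-!
Estimates for one loop of the insertion family.
-/

namespace Pool.Agent.Lib.MP_f78106_gt

open MeasureTheory Set Filter Topology Function

/-- The data of a simple closed characteristic and of a complex direction `v` orthogonal to its
initial velocity. -/
structure Orbit {n : ℕ} (Hs : V n → ℝ) (γ γ' : ℝ → V n) (v : V n) (T M K C c0 : ℝ) : Prop where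
  contH : Continuous Hs
  Tpos : 0 < T
  Mpos : 0 < M
  Knn : 0 ≤ K
  Cnn : 0 ≤ C
  c0pos : 0 < c0
  hd : ∀ t, HasDerivAt γ (γ' t) t
  hc : Continuous γ'
  closed : γ T = γ 0
  bd : ∀ ψ ∈ Icc 0 T, ‖γ' ψ‖ ≤ M
  low : ∀ ψ ∈ Icc 0 T, c0 * dd T ψ ≤ ‖γ ψ - γ 0‖
  om2 : ∀ ψ, om (γ ψ) (γ' ψ) = 2
  quad : ∀ ψ w, Hs ((-Complex.I) • γ' ψ + w) ≤ 1 + rin (γ ψ) w + C * ‖w‖ ^ 2
  unit : ‖v‖ = 1
  b1 : ∀ ψ ∈ Icc 0 T, ‖(inner ℂ (γ' ψ) v : ℂ)‖ ≤ K * dd T ψ
  b0 : ∀ ψ ∈ Icc 0 T, ‖(inner ℂ (γ ψ - γ 0) v : ℂ)‖ ≤ K * dd T ψ ^ 2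

variable {n : ℕ}

/-- Pairing with a fixed vector, as a real linear map. -/
noncomputable def pairL (v : V n) : V n →L[ℝ] ℂ :=
  LinearMap.mkContinuous
    { toFun := fun x => inner ℂ x v
      map_add' := fun x y => inner_add_left x y v
      map_smul' := fun c x => by
        rw [← Complex.coe_smul, inner_smul_left]; simp }
    ‖v‖ (fun x => by rw [mul_comm]; exact norm_inner_le_norm x v)

@[simp] theorem pairL_apply (v x : V n) : pairL v x = inner ℂ x v := rfl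

theorem om_smul_vec (x v : V n) (c : ℂ) : om x (c • v) = (c * inner ℂ x v).im := by
  simp only [om, rin, inner_smul_right]
  simp

/-- Indicator weight of small sizes. -/
noncomputable def g3 (l : ℝ) : ℝ := if l < 1 / 2 then 1 else 0

theorem adv_sum (L : List Arc) : (L.map adv).sum = wsum g3 L := by
  unfold wsum
  congr 1
  refine List.map_congr_left fun a _ => ?_
  unfold adv g3
  split_ifs <;> simp

theorem dur_eq_wsum (L : List Arc) : dur L = wsum (fun l => l) L := rfl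

namespace Orbit

variable {Hs : V n → ℝ} {γ γ' : ℝ → V n} {v : V n} {T M K C c0 : ℝ}

theorem contγ (O : Orbit Hs γ γ' v T M K C c0) : Continuous γ :=
  continuous_iff_continuousAt.mpr fun t => (O.hd t).continuousAt

theorem lip (O : Orbit Hs γ γ' v T M K C c0) :
    ∀ a ∈ Icc 0 T, ∀ b ∈ Icc 0 T, ‖γ a - γ b‖ ≤ M * |a - b| := fun a ha b hb => by
  have := (convex_Icc 0 T).norm_image_sub_le_of_norm_hasDerivWithin_le
    (fun x _ => (O.hd x).hasDerivWithinAt) O.bd hb ha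
  simpa using this

theorem bm_comp {G : ℝ → V n} (hG : Continuous G) {φ : ℝ → ℝ} (hm : Measurable φ)
    (hφ : ∀ t, φ t ∈ Icc 0 T) : BM (fun t => G (φ t)) :=
  (BM.mk hm.stronglyMeasurable ⟨T, fun t => by
    rw [Real.norm_of_nonneg (hφ t).1]; exact (hφ t).2⟩).cont hG

theorem prim_lip (O : Orbit Hs γ γ' v T M K C c0) {φ : ℝ → ℝ} (hm : Measurable φ)
    (hφ : ∀ t, φ t ∈ Icc 0 T) (t t' : ℝ) :
    ‖(∫ σ in (0 : ℝ)..t, γ' (φ σ)) - ∫ σ in (0 : ℝ)..t', γ' (φ σ)‖ ≤ M * |t - t'| := by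
  have b := bm_comp O.hc hm hφ
  rw [intervalIntegral.integral_interval_sub_left (b.ii _ _) (b.ii _ _)]
  exact intervalIntegral.norm_integral_le_of_norm_le_const fun σ _ => O.bd _ (hφ σ)

theorem diff_bound (O : Orbit Hs γ γ' v T M K C c0) {φ : ℝ → ℝ} (hm : Measurable φ)
    (hφ : ∀ t, φ t ∈ Icc 0 T) (t t' : ℝ) :
    ‖(γ (φ t) - ∫ σ in (0 : ℝ)..t, γ' (φ σ)) - (γ (φ t') - ∫ σ in (0 : ℝ)..t', γ' (φ σ))‖ ≤
      M * T + M * |t - t'| := by
  have h1 := O.lip _ (hφ t) _ (hφ t')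
  have h2 := O.prim_lip hm hφ t t'
  have h3 : |φ t - φ t'| ≤ T :=
    abs_le.mpr ⟨by linarith [(hφ t).1, (hφ t').2], by linarith [(hφ t).2, (hφ t').1]⟩
  have h4 := mul_le_mul_of_nonneg_left h3 O.Mpos.le
  rw [sub_sub_sub_comm]
  exact (norm_sub_le _ _).trans (by linarith)

theorem loop_area (O : Orbit Hs γ γ' v T M K C c0) {φ : ℝ → ℝ} {τ t0 : ℝ} {L : List Arc}
    (hm : Measurable φ) (hφ : ∀ t, φ t ∈ Icc 0 T) (pφ : Periodic φ τ)
    (hV : Valid T L) (hS : Spec φ L t0) (hL : dur L = τ) (hdisp : disp γ L = 0)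
    (hpol : pol γ L = 0) :
    ∫ t in (0 : ℝ)..τ, γ' (φ t) = 0 ∧
      ∫ t in (0 : ℝ)..τ, om (∫ σ in (0 : ℝ)..t, γ' (φ σ)) (γ' (φ t)) =
        2 * wsum (fun l => l ^ 2) L := by
  have b := bm_comp O.hc hm hφ
  have pg : Periodic (fun t => γ' (φ t)) τ := fun t => by simp only [pφ t]
  have h1 := list_disp O.hd O.hc b.ii L t0 hV hS
  rw [hL, hdisp] at h1
  have g0 : ∫ t in (0 : ℝ)..τ, γ' (φ t) = 0 := by rw [← base_int pg t0, h1]
  refine ⟨g0, ?_⟩
  have h2 := list_area O.hd O.hc b.ii O.om2 L t0 hV hS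
  rw [hL, hpol, add_zero] at h2
  have px := prim_periodic pg b.ii g0
  rw [← h2, ← base_int (f := fun t => om (∫ σ in (0 : ℝ)..t, γ' (φ σ)) (γ' (φ t)))
    (fun t => by
      have := px t
      simp only at this
      simp only [this, pφ t]) t0]
  have e1 : ∀ t, om (∫ σ in (0 : ℝ)..t, γ' (φ σ)) (γ' (φ t)) =
      om (∫ σ in (0 : ℝ)..t0, γ' (φ σ)) (γ' (φ t)) + om (∫ σ in t0..t, γ' (φ σ)) (γ' (φ t)) :=
    fun t => by
      rw [← om_add_left, intervalIntegral.integral_add_adjacent_intervals (b.ii _ _) (b.ii _ _)]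
  simp only [e1]
  have j1 : IntervalIntegrable (fun t => om (∫ σ in t0..t, γ' (φ σ)) (γ' (φ t))) volume t0
      (t0 + τ) :=
    bil_int (omL n) (intervalIntegral.continuous_primitive b.ii t0).continuousOn (b.ii _ _)
  rw [intervalIntegral.integral_add (((BM.const _).om b).ii _ _) j1]
  have e2 := (omL n (∫ σ in (0 : ℝ)..t0, γ' (φ σ))).intervalIntegral_comp_comm (b.ii t0 (t0 + τ))
  simp only [omL_apply] at e2
  rw [e2, h1, om_zero_right, zero_add]

theorem loop_cross (O : Orbit Hs γ γ' v T M K C c0) {φ : ℝ → ℝ} {τ t0 η h ν : ℝ} {L : List Arc}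
    (hτ : 0 < τ) (hm : Measurable φ) (hφ : ∀ t, φ t ∈ Icc 0 T) (pφ : Periodic φ τ)
    (hV : Valid T L) (hS : Spec φ L t0) (hL : dur L = τ) (g0 : ∫ t in (0 : ℝ)..τ, γ' (φ t) = 0)
    (hh : 0 < h) (hη : 3 * h < η) (hη1 : η ≤ 1) (hT : 3 * h < T) (hM : 12 * M * h ≤ c0 * η)
    (hν1 : ν ≤ 1) {W W' : ℝ → ℂ} (hW' : BM W') (pW : Periodic W τ) (pW' : Periodic W' τ)
    (hW : ∀ t t', W t - W t' = ∫ σ in t'..t, W' σ) (hW1 : ∀ t, ‖W t‖ ≤ 1) (hν : ∀ t, ‖W' t‖ ≤ ν)
    {e : ℝ → V n} (he : ∀ t, e t = γ (φ t) - ∫ σ in (0 : ℝ)..t, γ' (φ σ)) :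
    |∫ t in (0 : ℝ)..τ, om (e t) (W' t • v)| ≤
      4 * K * η ^ 2 * L.length +
        5 * K / h * (2 * (4 / c0 ^ 2 * (∫ t in (0 : ℝ)..τ, ‖e (t + h) - e t‖ ^ 2) +
          T ^ 2 * (h + wsum g3 L))) +
        ν * (K * T ^ 2) * wsum (fun l => |1 - l| * l) L + (K * T ^ 2 + K * T) * wsum g1 L := by
  have bg := bm_comp O.hc hm hφ
  have bz := bm_comp O.contγ hm hφ
  have pg : Periodic (fun t => γ' (φ t)) τ := fun t => by simp only [pφ t]
  set x : ℝ → V n := fun t => ∫ σ in (0 : ℝ)..t, γ' (φ σ) with hx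
  have px : Periodic x τ := prim_periodic pg bg.ii g0
  have bx : BM x := bg.prim hτ pg g0
  have he' : e = fun t => γ (φ t) - x t := funext he
  have be : BM e := he' ▸ bz.sub bx
  have pe : Periodic e τ := fun t => by rw [he']; simp only [pφ t, px t]
  have cW : Continuous W := by
    have : W = fun t => W 0 + ∫ σ in (0 : ℝ)..t, W' σ := by
      ext t; rw [← hW]; ring
    rw [this]
    exact continuous_const.add (intervalIntegral.continuous_primitive hW'.ii 0)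
  have bW : BM W := ⟨cW.stronglyMeasurable, 1, hW1⟩
  have mulB : ∀ {f g : ℝ → ℂ}, BM f → BM g → BM (fun t => f t * g t) := fun hf hg =>
    hf.cont₂ hg (H := fun a b => a * b) (by fun_prop)
  have pairB : ∀ {f : ℝ → V n}, BM f → BM (fun t => (inner ℂ (f t) v : ℂ)) := fun hf =>
    hf.cont (pairL v).continuous
  set bb : ℝ → ℂ := fun ψ => inner ℂ (γ ψ - γ 0) v with hbb
  set bb' : ℝ → ℂ := fun ψ => inner ℂ (γ' ψ) v with hbb'
  have hdb : ∀ t, HasDerivAt bb (bb' t) t := fun t =>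
    (pairL v).hasFDerivAt.comp_hasDerivAt t ((O.hd t).sub_const (γ 0))
  have hcb : Continuous bb' := (pairL v).continuous.comp O.hc
  have bb0 : BM (fun t => bb (φ t)) := pairB (bz.sub (BM.const _))
  have bb1 : BM (fun t => bb' (φ t)) := pairB bg
  have bJ : BM (fun t => W' t * bb (φ t) + W t * bb' (φ t)) := (mulB hW' bb0).add (mulB bW bb1)
  have c1 := list_cost hh (by linarith) hη1 O.Knn hν1 hdb hcb O.b0 O.b1 hW hW'.ii hW1 hν bJ.ii
    L t0 hV hS
  have bD : BM (fun t => ‖e (t + h) - e t‖ ^ 2) := ((be.shift h).sub be).nsq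
  have pD : Periodic (fun t => ‖e (t + h) - e t‖ ^ 2) τ := fun t => by
    simp only [pe t]
    rw [add_right_comm, pe]
  have c2 := gainE (x := x) (D := fun t => ‖e (t + h) - e t‖ ^ 2) hh hη hT O.Mpos.le O.c0pos hM hφ
    O.lip O.low (O.prim_lip hm hφ) (fun t => by rw [he']) bD.ii L t0 hV hS
  have c3 := gainS (x := x) (D := fun t => ‖e (t + h) - e t‖ ^ 2) hh hη hT O.Mpos.le O.c0pos hM hφ
    O.closed O.lip O.low (O.prim_lip hm hφ) (fun t => by rw [he']) bD.ii L t0 hV hS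
  rw [hL, base_int pD, adv_sum] at c2 c3
  rw [hL, base_int (f := fun t => W' t * bb (φ t) + W t * bb' (φ t))
    (fun t => by simp only [pW t, pW' t, pφ t])] at c1
  have W0 : ∫ t in (0 : ℝ)..τ, W' t = 0 := by
    rw [← hW, ← pW 0, zero_add, sub_self]
  have hp := parts (ContinuousLinearMap.mul ℝ ℂ) (f := W) (u := W')
    (g := fun t => inner ℂ (x t) v) (v := fun t => bb' (φ t)) (a := 0) (b := τ) hτ.le
    (hW'.ii _ _) (bb1.ii _ _) (fun t _ => by rw [← hW]; ring)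
    (fun t _ => by
      have := (pairL v).intervalIntegral_comp_comm (bg.ii 0 t)
      simp only [pairL_apply] at this
      simp only [hbb', hx, this]
      simp)
  simp only [ContinuousLinearMap.mul_apply'] at hp
  have xτ : x τ = 0 := g0
  have x0 : x 0 = 0 := by simp [hx]
  rw [xτ, x0, inner_zero_left, mul_zero, mul_zero, sub_zero] at hp
  have e1 : ∫ t in (0 : ℝ)..τ, W' t * inner ℂ (e t) v =
      ∫ t in (0 : ℝ)..τ, (W' t * bb (φ t) + W t * bb' (φ t)) := by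
    have a1 : ∀ t, W' t * inner ℂ (e t) v =
        W' t * bb (φ t) + W' t * inner ℂ (γ 0) v - W' t * inner ℂ (x t) v := fun t => by
      rw [he']
      simp only [hbb, inner_sub_left]
      ring
    simp only [a1]
    rw [intervalIntegral.integral_sub (((mulB hW' bb0).add (mulB hW' (BM.const _))).ii _ _)
      ((mulB hW' (pairB bx)).ii _ _), intervalIntegral.integral_add ((mulB hW' bb0).ii _ _)
      ((mulB hW' (BM.const _)).ii _ _), intervalIntegral.integral_mul_const, W0,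
      intervalIntegral.integral_add ((mulB hW' bb0).ii _ _) ((mulB bW bb1).ii _ _)]
    linear_combination -hp
  have e2 : ∫ t in (0 : ℝ)..τ, om (e t) (W' t • v) =
      (∫ t in (0 : ℝ)..τ, W' t * inner ℂ (e t) v).im := by
    simp only [om_smul_vec]
    exact Complex.imCLM.intervalIntegral_comp_comm ((mulB hW' (pairB be)).ii _ _)
  rw [e2, e1]
  refine (Complex.abs_im_le_norm _).trans (c1.trans ?_)
  have k0 : 0 ≤ 5 * K / h := by have := O.Knn; positivity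
  have := mul_le_mul_of_nonneg_left (add_le_add c2 c3) k0
  linarith

end Orbit

section Sums

variable {k : ℕ} {lam : ℕ → ℝ} {ε κ : ℝ}

theorem sum_sq_eq {lb : ℝ} (hs : ∑ i ∈ Finset.range k, lam i = lb * k) :
    ∑ i ∈ Finset.range k, lam i ^ 2 = ∑ i ∈ Finset.range k, (lam i - lb) ^ 2 + lb ^ 2 * k := by
  have : ∀ i, lam i ^ 2 = (lam i - lb) ^ 2 + 2 * lb * lam i - lb ^ 2 := fun i => by ring
  simp only [this, Finset.sum_sub_distrib, Finset.sum_add_distrib, ← Finset.mul_sum, hs,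
    Finset.sum_const, Finset.card_range, nsmul_eq_mul]
  ring

theorem sum_g3_le (hε : ε ≤ 1 / 4) :
    ∑ i ∈ Finset.range k, g3 (lam i) ≤ 16 * ∑ i ∈ Finset.range k, (lam i - (1 - ε)) ^ 2 := by
  rw [Finset.mul_sum]
  refine Finset.sum_le_sum fun i _ => ?_
  unfold g3
  split_ifs with h
  · nlinarith
  · positivity

theorem sum_g1_le (hε0 : 0 ≤ ε) (hε : ε ≤ 1 / 4) :
    ∑ i ∈ Finset.range k, g1 (lam i) ≤ 8 * ∑ i ∈ Finset.range k, (lam i - (1 - ε)) ^ 2 := by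
  rw [Finset.mul_sum]
  refine Finset.sum_le_sum fun i _ => ?_
  unfold g1
  split_ifs with h
  · rcases h with h | h
    · nlinarith
    · nlinarith
  · positivity

theorem sum_g2_le (hκ : 0 < κ) (hκ1 : κ ≤ 1) (hε : ε = κ ^ 2)
    (hV : ∑ i ∈ Finset.range k, (lam i - (1 - ε)) ^ 2 ≤ 4 * ε * k) :
    ∑ i ∈ Finset.range k, |1 - lam i| * lam i ≤ 14 * κ * k := by
  have h1 : ∀ i, |1 - lam i| * lam i ≤
      (4 * κ) + (2 + (2 * κ)⁻¹) * (lam i - (1 - ε)) ^ 2 := fun i => by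
    have a1 : |1 - lam i| ≤ ε + |lam i - (1 - ε)| := by
      have : 1 - lam i = ε - (lam i - (1 - ε)) := by ring
      rw [this]
      exact (abs_sub _ _).trans (by rw [abs_of_nonneg (by rw [hε]; positivity)])
    have a2 : lam i ≤ 1 + |1 - lam i| := by linarith [neg_abs_le (1 - lam i)]
    have a3 : |1 - lam i| * lam i ≤ |1 - lam i| * (1 + |1 - lam i|) :=
      mul_le_mul_of_nonneg_left a2 (abs_nonneg _)
    set u := |lam i - (1 - ε)| with hu
    have u2 : (lam i - (1 - ε)) ^ 2 = u ^ 2 := (sq_abs _).symm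
    have u0 : 0 ≤ u := abs_nonneg _
    have a4 : u ≤ κ / 2 + (2 * κ)⁻¹ * u ^ 2 := by
      have e : κ / 2 + (2 * κ)⁻¹ * u ^ 2 - u = (2 * κ)⁻¹ * (u - κ) ^ 2 := by field_simp; ring
      have : 0 ≤ (2 * κ)⁻¹ * (u - κ) ^ 2 := by positivity
      linarith
    have a5 : |1 - lam i| ^ 2 ≤ (ε + u) ^ 2 := pow_le_pow_left₀ (abs_nonneg _) a1 2
    have a6 : ε ≤ κ := by rw [hε]; nlinarith
    have a7 : 0 ≤ ε := by rw [hε]; positivity
    have a8 : ε ^ 2 ≤ κ := by nlinarith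
    rw [u2]
    nlinarith [sq_nonneg (ε - u)]
  refine (Finset.sum_le_sum fun i _ => h1 i).trans ?_
  rw [Finset.sum_add_distrib, Finset.sum_const, Finset.card_range, nsmul_eq_mul, ← Finset.mul_sum]
  have h2 : (2 + (2 * κ)⁻¹) * ∑ i ∈ Finset.range k, (lam i - (1 - ε)) ^ 2 ≤
      (2 + (2 * κ)⁻¹) * (4 * ε * k) := mul_le_mul_of_nonneg_left hV (by positivity)
  have h3 : (2 + (2 * κ)⁻¹) * (4 * ε * k) = (8 * κ * κ + 2 * κ) * k := by
    rw [hε]; field_simp; ring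
  have h4 : (8 * κ * κ + 2 * κ) * k ≤ (10 * κ) * k :=
    mul_le_mul_of_nonneg_right (by nlinarith) (Nat.cast_nonneg k)
  linarith

theorem exists_ne_zero {N : ℕ} (hN : N ≤ k) (hε : ε ≤ 1 / 4) (h8 : 8 * ε * k ≤ N)
    (hV : ∑ i ∈ Finset.range k, (lam i - (1 - ε)) ^ 2 < 4 * ε * k) : ∃ i < N, lam i ≠ 0 := by
  by_contra hcon
  push Not at hcon
  have h1 : ∑ i ∈ Finset.range N, (lam i - (1 - ε)) ^ 2 ≤
      ∑ i ∈ Finset.range k, (lam i - (1 - ε)) ^ 2 :=
    Finset.sum_le_sum_of_subset_of_nonneg (Finset.range_mono hN) fun _ _ _ => sq_nonneg _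
  have h2 : ∑ i ∈ Finset.range N, (1 / 2 : ℝ) ≤ ∑ i ∈ Finset.range N, (lam i - (1 - ε)) ^ 2 :=
    Finset.sum_le_sum fun i hi => by
      rw [hcon i (Finset.mem_range.mp hi)]
      nlinarith
  simp only [Finset.sum_const, Finset.card_range, nsmul_eq_mul] at h2
  linarith

end Sums

end Pool.Agent.Lib.MP_f78106_gt
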