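import Pool.Agent.Lib.MP_f78106_gt.KFoldA
import Pool.Agent.Lib.MP_f78106_gt.Loop
import Pool.Agent.Lib.MP_f78106_gt.Pack
import Pool.Agent.Lib.MP_f78106_gt.Index

/-!
The insertion family of an arbitrary continuous closed loop, and the bound `c_k ≤ k c_1`.
-/

namespace Pool.Agent.Lib.MP_f78106_gt.KFold

open MeasureTheory Set Filter Topology Function Gain
open scoped ENNReal

variable {n : ℕ}

/-- Weighted sum of the increments of a real function along a list of arcs. -/
noncomputable def inc (g : ℝ → ℝ) (b : ℝ → ℝ) (L : List Arc) : ℝ :=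
  (L.map fun a => g a.l * (b a.e - b a.s)).sum

theorem inc_cons (g b : ℝ → ℝ) (a : Arc) (L : List Arc) :
    inc g b (a :: L) = g a.l * (b a.e - b a.s) + inc g b L := by simp [inc]

theorem inc_lin (g b : ℝ → ℝ) (c : ℝ) : ∀ L : List Arc,
    inc g b L = inc g (fun ψ => b ψ - c * ψ) L + c * wsum g L
  | [] => by simp [inc, wsum]
  | a :: L => by
    rw [inc_cons, inc_cons, wsum_cons, inc_lin g b c L]
    ring

theorem disp_line (b : ℝ → ℝ) (e e' : V n) : ∀ L : List Arc,
    disp (fun ψ => b ψ • e + e') L = inc (fun l => l) b L • e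
  | [] => by simp [inc, disp]
  | a :: L => by
    rw [disp_cons, inc_cons, disp_line b e e' L]
    module

theorem pol_line (b : ℝ → ℝ) (e e' : V n) : ∀ L : List Arc,
    pol (fun ψ => b ψ • e + e') L = om e e' * inc (fun l => l ^ 2) b L
  | [] => by simp [inc, pol]
  | a :: L => by
    have h1 : (b a.e • e + e') - (b a.s • e + e') = (b a.e - b a.s) • e := by module
    rw [pol, inc_cons, pol_line b e e' L, disp_line, h1]
    simp only [om_add_left, om_add_right, om_smul_left, om_smul_right, om_self, om_anti e' e]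
    ring

theorem inc_closed {T : ℝ} {L : List Arc} {e : V n} (he : e ≠ 0)
    (hG : ∀ G : ℝ → V n, G T = G 0 → disp G L = 0 ∧ pol G L = 0) {b : ℝ → ℝ} (hb : b T = b 0) :
    inc (fun l => l) b L = 0 ∧ inc (fun l => l ^ 2) b L = 0 := by
  obtain ⟨h1, h2⟩ := hG (fun ψ => b ψ • e + Complex.I • e) (by simp only [hb])
  rw [disp_line] at h1
  rw [pol_line] at h2
  have h3 : om e (Complex.I • e) = ‖e‖ ^ 2 := by
    rw [om, smul_smul, ← rin_self]
    simp
  rw [h3] at h2
  exact ⟨(smul_eq_zero.1 h1).resolve_right he,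
    (mul_eq_zero.1 h2).resolve_left (pow_ne_zero 2 (norm_ne_zero_iff.2 he))⟩

theorem list_real {T : ℝ} {b b' φ : ℝ → ℝ} (hd : ∀ t, HasDerivAt b (b' t) t) (hc : Continuous b')
    (hg : ∀ a c, IntervalIntegrable (fun t => b' (φ t)) volume a c) :
    ∀ (L : List Arc) (t0 : ℝ), Valid T L → Spec φ L t0 →
      ∫ σ in t0..t0 + dur L, b' (φ σ) = inc (fun l => l) b L
  | [], _, _, _ => by simp [dur, inc]
  | a :: L, t0, hV, hS => by
    rw [dur_cons, ← add_assoc, ← intervalIntegral.integral_add_adjacent_intervals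
      (hg t0 (t0 + a.dur)) (hg _ _), list_real hd hc hg L _ (valid_tail hV) hS.2,
      arc_prim_end hd hc (dur_nonneg hV) hS.1, inc_cons, smul_eq_mul]

theorem list_area' {T : ℝ} {γ γ' : ℝ → V n} {α φ : ℝ → ℝ} (hd : ∀ t, HasDerivAt γ (γ' t) t)
    (hc : Continuous γ') (hg : ∀ a b, IntervalIntegrable (fun t => γ' (φ t)) volume a b)
    (hα : ∀ t, HasDerivAt α (om (γ t) (γ' t)) t) (cα : Continuous fun t => om (γ t) (γ' t))
    (gα : ∀ a b, IntervalIntegrable (fun t => om (γ (φ t)) (γ' (φ t))) volume a b) :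
    ∀ (L : List Arc) (t0 : ℝ), Valid T L → Spec φ L t0 →
      ∫ t in t0..t0 + dur L, om (∫ σ in t0..t, γ' (φ σ)) (γ' (φ t)) =
        inc (fun l => l ^ 2) α L + pol γ L
  | [], _, _, _ => by simp [dur, inc, pol]
  | a :: L, t0, hV, hS => by
    have hi : ∀ (c a b : ℝ), IntervalIntegrable
        (fun t => om (∫ σ in c..t, γ' (φ σ)) (γ' (φ t))) volume a b := fun c a b =>
      bil_int (omL n) (intervalIntegral.continuous_primitive hg c).continuousOn (hg a b)
    have hi' : ∀ (v : V n) (a b : ℝ), IntervalIntegrable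
        (fun t => om v (γ' (φ t))) volume a b := fun v a b =>
      bil_int (omL n) continuousOn_const (hg a b)
    have hint : ∀ (v : V n) (a b : ℝ), ∫ t in a..b, om v (γ' (φ t)) =
        om v (∫ t in a..b, γ' (φ t)) := fun v a b =>
      (omL n v).intervalIntegral_comp_comm (hg a b)
    have h0 := dur_nonneg hV
    have e0 := arc_prim_end hd hc h0 hS.1
    have e0' := arc_prim_end hα cα h0 hS.1
    have e1 : ∫ t in t0..t0 + a.dur, om (∫ σ in t0..t, γ' (φ σ)) (γ' (φ t)) =
        a.l ^ 2 * (α a.e - α a.s) - a.l ^ 2 * om (γ a.s) (γ a.e) := by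
      rw [int_congr_Ioo (by linarith)
        (g := fun t => a.l * om (γ (φ t)) (γ' (φ t)) - om (a.l • γ a.s) (γ' (φ t)))
        (fun t h1 h3 => by
          rw [arc_prim hd hc hS.1 ⟨h1.le, h3.le⟩, ← hS.1 t h1 h3, smul_sub, om_sub_left,
            om_smul_left])]
      rw [intervalIntegral.integral_sub ((gα _ _).const_mul _) (hi' _ _ _), hint, e0,
        intervalIntegral.integral_const_mul, e0', om_smul_left, om_smul_right, om_sub_right,
        om_self, smul_eq_mul]
      ring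
    have e2 : ∫ t in t0 + a.dur..t0 + a.dur + dur L, om (∫ σ in t0..t, γ' (φ σ)) (γ' (φ t)) =
        om (a.l • (γ a.e - γ a.s)) (disp γ L) + (inc (fun l => l ^ 2) α L + pol γ L) := by
      rw [← list_area' hd hc hg hα cα gα L _ (valid_tail hV) hS.2,
        ← list_disp hd hc hg L _ (valid_tail hV) hS.2, ← hint,
        ← intervalIntegral.integral_add (hi' _ _ _) (hi _ _ _)]
      refine intervalIntegral.integral_congr fun t _ => ?_
      rw [← om_add_left, ← e0, intervalIntegral.integral_add_adjacent_intervals (hg _ _) (hg _ _)]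
    rw [dur_cons, ← add_assoc, ← intervalIntegral.integral_add_adjacent_intervals
      (hi t0 t0 (t0 + a.dur)) (hi _ _ _), e1, e2, inc_cons, pol]
    ring

/-- Mean, energy and area of one member of the family. -/
theorem member {Hs : V n → ℝ} (cH : Continuous Hs) {w : ℝ → V n} (cw : Continuous w)
    (w0 : ∫ t in (0 : ℝ)..1, w t = 0) {e : V n} (he : e ≠ 0) {k : ℕ} {τ : ℝ} (hτ : 0 < τ)
    {lam : ℕ → ℝ} (hl : ∀ i, 0 ≤ lam i) (hsum : ∑ i ∈ Finset.range k, lam i = τ) (s : ℕ → ℝ) :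
    ∫ t in (0 : ℝ)..τ, w (ph 1 lam s k (t / τ)) = 0 ∧
    ∫ t in (0 : ℝ)..τ, Hs ((-Complex.I) • w (ph 1 lam s k (t / τ))) =
      τ * ∫ t in (0 : ℝ)..1, Hs ((-Complex.I) • w t) ∧
    ∫ t in (0 : ℝ)..τ, om (∫ σ in (0 : ℝ)..t, w (ph 1 lam s k (σ / τ))) (w (ph 1 lam s k (t / τ))) =
      (∑ i ∈ Finset.range k, lam i ^ 2) * ∫ t in (0 : ℝ)..1, om (∫ σ in (0 : ℝ)..t, w σ) (w t) := by
  obtain ⟨t0, L, hV, -, hS, hw, hG⟩ := exists_arcs n one_pos hl s k (hsum ▸ hτ)
  rw [hsum, one_mul] at hS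
  set φ : ℝ → ℝ := fun t => ph 1 lam s k (t / τ) with hφd
  have hL : dur L = τ := by rw [dur_eq_wsum, hw, hsum, one_mul]
  have hm : Measurable φ := (measurable_ph 1 lam s k).comp (measurable_id.div_const _)
  have hφ : ∀ t, φ t ∈ Icc (0 : ℝ) 1 := fun t => ph_mem one_pos hl s _ _
  have pφ : Periodic φ τ := fun t => by
    have := ph_add_int 1 lam s k (t / τ) 1
    simp only [hφd]
    rw [add_div, div_self hτ.ne']
    simpa using this
  have prim : ∀ {E : Type} [NormedAddCommGroup E] [NormedSpace ℝ E] [CompleteSpace E] {F : ℝ → E},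
      Continuous F → ∀ t, HasDerivAt (fun t => ∫ σ in (0 : ℝ)..t, F σ) (F t) t :=
    fun hF t => (hF.integral_hasStrictDerivAt 0 t).hasDerivAt
  have bm : ∀ {F : ℝ → ℝ}, Continuous F → BM (fun t => F (φ t)) := fun hF =>
    (BM.mk hm.stronglyMeasurable ⟨1, fun t => by
      rw [Real.norm_of_nonneg (hφ t).1]; exact (hφ t).2⟩).cont hF
  set γ : ℝ → V n := fun t => ∫ σ in (0 : ℝ)..t, w σ with hγ
  have hd : ∀ t, HasDerivAt γ (w t) t := prim cw
  have cγ : Continuous γ := continuous_iff_continuousAt.mpr fun t => (hd t).continuousAt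
  have cl : γ 1 = γ 0 := by simp only [hγ, w0, intervalIntegral.integral_same]
  have b := Orbit.bm_comp cw hm hφ
  have pg : Periodic (fun t => w (φ t)) τ := fun t => by simp only [pφ t]
  have h1 := list_disp hd cw b.ii L t0 hV hS
  rw [hL, (hG γ cl).1] at h1
  have g0 : ∫ t in (0 : ℝ)..τ, w (φ t) = 0 := by rw [← base_int pg t0, h1]
  refine ⟨g0, ?_, ?_⟩
  · have cF : Continuous fun t => Hs ((-Complex.I) • w t) := cH.comp (by fun_prop)
    have h2 := list_real (prim cF) cF (bm cF).ii L t0 hV hS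
    rw [hL, inc_lin _ _ (∫ t in (0 : ℝ)..1, Hs ((-Complex.I) • w t)),
      (inc_closed he hG (by simp)).1, hw, hsum,
      base_int (f := fun t => Hs ((-Complex.I) • w (φ t))) (fun t => by simp only [pφ t])] at h2
    rw [h2]
    ring
  · have cF : Continuous fun t => om (γ t) (w t) := 
      Continuous.comp (g := fun p : V n × V n => om p.1 p.2) (f := fun t => (γ t, w t))
        continuous_om (cγ.prodMk cw)
    have h2 := list_area' hd cw b.ii (prim cF) cF (bm cF).ii L t0 hV hS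
    rw [hL, (hG γ cl).2, add_zero, inc_lin _ _ (∫ t in (0 : ℝ)..1, om (γ t) (w t)),
      (inc_closed he hG (by simp)).2, hw, zero_add, one_mul, mul_comm] at h2
    have px := prim_periodic pg b.ii g0
    rw [← h2, ← base_int (f := fun t => om (∫ σ in (0 : ℝ)..t, w (φ σ)) (w (φ t)))
      (fun t => by
        have := px t
        simp only at this
        simp only [this, pφ t]) t0]
    have e1 : ∀ t, om (∫ σ in (0 : ℝ)..t, w (φ σ)) (w (φ t)) =
        om (∫ σ in (0 : ℝ)..t0, w (φ σ)) (w (φ t)) + om (∫ σ in t0..t, w (φ σ)) (w (φ t)) :=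
      fun t => by
        rw [← om_add_left, intervalIntegral.integral_add_adjacent_intervals (b.ii _ _) (b.ii _ _)]
    simp only [e1]
    have j1 : IntervalIntegrable (fun t => om (∫ σ in t0..t, w (φ σ)) (w (φ t))) volume t0
        (t0 + τ) :=
      bil_int (omL n) (intervalIntegral.continuous_primitive b.ii t0).continuousOn (b.ii _ _)
    rw [intervalIntegral.integral_add (((BM.const _).om b).ii _ _) j1]
    have e2 := (omL n (∫ σ in (0 : ℝ)..t0, w (φ σ))).intervalIntegral_comp_comm (b.ii t0 (t0 + τ))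
    simp only [omL_apply] at e2
    rw [e2, h1, om_zero_right, zero_add]

/-- Extension by zero of a finite vector. -/
def ex0 {k : ℕ} (f : Fin k → ℝ) (j : ℕ) : ℝ := if h : j < k then f ⟨j, h⟩ else 0

theorem family {Hs : V n → ℝ} (cH : Continuous Hs) (h0 : ∀ u, 0 ≤ Hs u)
    (hom : ∀ t : ℝ, 0 ≤ t → ∀ u, Hs (t • u) = t ^ 2 * Hs u) {w : ℝ → V n} (cw : Continuous w)
    (w0 : ∫ t in (0 : ℝ)..1, w t = 0) {L : ℝ} (L0 : 0 < L)
    (hL : ∫ t in (0 : ℝ)..1, Hs ((-Complex.I) • w t) <
      L / 2 * ∫ t in (0 : ℝ)..1, om (∫ σ in (0 : ℝ)..t, w σ) (w t)) {k : ℕ} (hk : 0 < k) :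
    ∃ F : C(Metric.sphere (0 : V k) 1, Loop n),
      (∀ z, prim (F z) 1 = 0 ∧ action (F z) = 1 ∧
        ∫ t in (0 : ℝ)..1, Hs ((-Complex.I) • F z (t : UnitAddCircle)) < k * L) ∧
      ∀ (θ : UnitAddCircle) (z z' : Metric.sphere (0 : V k) 1),
        (z' : V k) = ((θ.toCircle : Circle) : ℂ) • (z : V k) → F z' = shift θ (F z) := by
  have k0 : (0 : ℝ) < k := Nat.cast_pos.mpr hk
  have hτ : 0 < k * L := mul_pos k0 L0
  have E0 : 0 ≤ ∫ t in (0 : ℝ)..1, Hs ((-Complex.I) • w t) :=
    intervalIntegral.integral_nonneg zero_le_one fun _ _ => h0 _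
  obtain ⟨e, he⟩ : ∃ e : V n, e ≠ 0 := by
    by_contra hcon
    push Not at hcon
    simp only [hcon (w _), om_zero_right, intervalIntegral.integral_zero, mul_zero] at hL E0
    linarith
  set lam : stdSimplex ℝ (Fin k) → ℕ → ℝ := fun ρ j => k * L * ex0 ρ.1 j with hlam
  have hl : ∀ ρ i, 0 ≤ lam ρ i := fun ρ i => mul_nonneg hτ.le (by
    unfold ex0
    split_ifs
    · exact ρ.2.1 _
    · exact le_rfl)
  have hsum : ∀ ρ, ∑ i ∈ Finset.range k, lam ρ i = k * L := fun ρ => by
    simp only [hlam]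
    rw [← Finset.mul_sum, Finset.sum_range]
    simp only [ex0, Fin.is_lt, dif_pos, Fin.eta]
    rw [ρ.2.2, mul_one]
  have cext : ∀ i, Continuous fun f : Fin k → ℝ => ex0 f i := fun i => by
    unfold ex0
    split_ifs
    · exact continuous_apply _
    · exact continuous_const
  obtain ⟨B, hB⟩ := (isCompact_Icc (a := (0 : ℝ)) (b := 1)).exists_bound_of_continuousOn
    cw.continuousOn
  refine exists_sphere_map cH h0 hom hτ
    (fun p t => w (ph 1 (lam p.1) (ex0 p.2) k (t / (k * L)))) (B := B)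
    (fun p => cw.measurable.comp ((measurable_ph 1 _ _ k).comp (measurable_id.div_const _)))
    (fun p t => hB _ (ph_mem one_pos (hl p.1) _ _ _)) (fun p t => ?_) (fun p => ?_)
    (fun ρ s s' h => ?_) (fun ρ s c t => ?_)
    (fun p => (member cH cw w0 he hτ (hl p.1) (hsum p.1) _).1) (fun p => ?_)
  · have := ph_add_int 1 (lam p.1) (ex0 p.2) k (t / (k * L)) 1
    rw [add_div, div_self hτ.ne']
    simpa using congrArg w this
  · obtain ⟨S, hS, hc⟩ := ph_continuousAt 1
      (fun q : stdSimplex ℝ (Fin k) × (Fin k → ℝ) => lam q.1) (fun q => ex0 q.2)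
      (fun i => continuous_const.mul ((cext i).comp (continuous_subtype_val.comp continuous_fst)))
      (fun i => (cext i).comp continuous_snd) (fun q => hl q.1) k p (hsum p.1 ▸ hτ)
    have hS' : ((fun t : ℝ => t / (k * L)) ⁻¹' S).Countable :=
      hS.preimage_of_injOn (fun a _ b _ hab => (div_left_inj' hτ.ne').mp hab)
    filter_upwards [compl_mem_ae_iff.mpr (hS'.measure_zero volume)] with t ht
    exact cw.continuousAt.comp (ContinuousAt.comp
      (f := fun q : stdSimplex ℝ (Fin k) × (Fin k → ℝ) => (q, t / (k * L))) (hc _ ht)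
      (continuous_id.prodMk continuous_const).continuousAt)
  · funext t
    simp only
    rw [ph_congr 1 (lam ρ) (ex0 s) (ex0 s') k fun i hi hne => ?_]
    simp only [ex0, hi, dif_pos]
    refine h ⟨i, hi⟩ fun h' => hne ?_
    simp only [hlam, ex0, hi, dif_pos, h', mul_zero]
  · simp only
    rw [ph_congr 1 (lam ρ) (fun i => ex0 s i + c) _ k (fun i hi _ => ⟨0, by simp [ex0, hi]⟩),
      add_div, mul_div_cancel_left₀ _ hτ.ne', ph_shift]
  · obtain ⟨-, m2, m3⟩ := member cH cw w0 he hτ (hl p.1) (hsum p.1) (ex0 p.2)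
    rw [m2, m3]
    have c1 := sq_sum_le_card_mul_sum_sq (s := Finset.range k) (f := lam p.1)
    rw [hsum, Finset.card_range] at c1
    have c2 : k * L * L ≤ ∑ i ∈ Finset.range k, lam p.1 i ^ 2 :=
      le_of_mul_le_mul_left (by nlinarith) k0
    generalize ∫ t in (0 : ℝ)..1, om (∫ σ in (0 : ℝ)..t, w σ) (w t) = A at hL
    have A0 : 0 < A := by
      by_contra q
      nlinarith [mul_nonneg L0.le (neg_nonneg.2 (not_lt.1 q))]
    have c3 := mul_le_mul_of_nonneg_right c2 A0.le
    have c4 := mul_lt_mul_of_pos_left hL hτ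
    nlinarith

theorem index_of_adm {Ω : Set (V n)} (hc : IsCompact Ω) (hne : Ω.Nonempty) {f : ℝ → V n}
    (hf : Clarke.Adm (Clarke.JV n) f) {L : ℝ}
    (hL : Clarke.EE (Clarke.JV n) (fun u => supp Ω u ^ 2 / 4) f < L) {k : ℕ} (hk : 0 < k) :
    IndexGE shift (sublevel Ω (k * L)) k := by
  obtain ⟨R, R0, hl⟩ := kf_supp_lip hc hne
  have s0 : supp Ω 0 = 0 := by simpa using kf_supp_hom Ω le_rfl 0
  obtain ⟨w, cw, w0, hw⟩ := kf_approx R0 hl s0 hf hL
  have L0 : 0 < L := lt_of_le_of_lt (integral_nonneg fun t => by positivity) hL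
  obtain ⟨F, hF, heq⟩ := family (Hs := fun u => supp Ω u ^ 2 / 4)
    (((kf_cont hl).pow 2).div_const 4) (fun u => by positivity)
    (fun t ht u => by rw [kf_supp_hom Ω ht]; ring) cw w0 L0
    (by
      rw [intervalIntegral.integral_of_le zero_le_one, intervalIntegral.integral_of_le zero_le_one]
      simp only [om, Clarke.rin_eq]
      exact hw) hk
  exact indexGE_of_map shift _ k F hF heq

theorem cap_le_mul {Ω : Set (V n)} (hn : 0 < n) (hc : IsCompact Ω) (hne : Ω.Nonempty) {k : ℕ}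
    (hk : 0 < k) : cap Ω k ≤ k * cap Ω 1 ∧ cap Ω 1 < ⊤ := by
  constructor
  · have k0 : (k : ℝ≥0∞) ≠ 0 := by exact_mod_cast hk.ne'
    rw [cap, cap, ENNReal.mul_iInf_of_ne k0 (ENNReal.natCast_ne_top k)]
    refine le_iInf fun L => ?_
    rw [ENNReal.mul_iInf_of_ne k0 (ENNReal.natCast_ne_top k)]
    refine le_iInf fun hL => ?_
    obtain ⟨u, h1, h2, h3⟩ := nonempty_of_indexGE _ _ hL
    have hm := (Lp.memLp u).comp_measurePreserving (UnitAddCircle.measurePreserving_mk 0)
    rw [zero_add] at hm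
    rw [action, intervalIntegral.integral_of_le zero_le_one] at h2
    simp_rw [Clarke.rin_eq] at h2
    have e' : Clarke.BB (Clarke.JV n) (fun s : ℝ => u (s : UnitAddCircle))
        (fun s : ℝ => u (s : UnitAddCircle)) =
        ∫ t in Ioc (0 : ℝ) 1, inner ℝ (prim u t) ((-Complex.I) • u (t : UnitAddCircle)) := rfl
    rw [clarke, intervalIntegral.integral_of_le zero_le_one] at h3
    have h4 := index_of_adm hc hne (f := fun s : ℝ => u (s : UnitAddCircle))
      ⟨hm, h1, by rw [e']; linarith⟩ h3 hk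
    refine (iInf₂_le (f := fun (L : ℝ) (_ : IndexGE shift (sublevel Ω L) k) => ENNReal.ofReal L)
      _ h4).trans_eq ?_
    rw [ENNReal.ofReal_mul (Nat.cast_nonneg k), ENNReal.ofReal_natCast]
  · have : Nonempty (Fin n) := ⟨⟨0, hn⟩⟩
    obtain ⟨e, he⟩ := exists_ne (0 : V n)
    obtain ⟨f, hf⟩ := (kf_dd n).exists_adm he
    have h4 := index_of_adm hc hne hf (lt_add_one _) one_pos
    exact lt_of_le_of_lt
      (iInf₂_le (f := fun (L : ℝ) (_ : IndexGE shift (sublevel Ω L) 1) => ENNReal.ofReal L) _ h4)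
      ENNReal.ofReal_lt_top

end Pool.Agent.Lib.MP_f78106_gt.KFold
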