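import Pool.Agent.Lib.MP_f78106_gt.Core

/-!
Choice of the numerical parameters.
-/

namespace Pool.Agent.Lib.MP_f78106_gt

open Set Filter Topology

theorem exists_good {T M K C c0 : ℝ} (hT : 0 < T) (hM : 0 < M) (hK : 0 ≤ K) (hC : 0 ≤ C)
    (hc0 : 0 < c0) : ∃ ε : ℝ, 0 < ε ∧ ε ≤ 1 / 4 ∧
      ∀ᶠ k : ℕ in atTop, ∃ P : Par, P.k = k ∧ P.ε = ε ∧ Good T M K C c0 P := by
  obtain ⟨l, hl2, hlK, hlC⟩ : ∃ l : ℝ, 2 ≤ l ∧ 504 * K * T ^ 2 ≤ l ∧ 64 * (C + 1) ≤ l := by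
    have : 0 ≤ 504 * K * T ^ 2 := by positivity
    exact ⟨2 + 504 * K * T ^ 2 + 64 * (C + 1), by linarith, by linarith, by linarith⟩
  have l0 : 0 < l := by linarith
  obtain ⟨s, hs0, hs⟩ : ∃ s : ℝ, 0 < s ∧ (8 * C + 1) * s ≤ 1 / 4 :=
    ⟨1 / (4 * (8 * C + 1)), by positivity, by field_simp; rfl⟩
  obtain ⟨c1, c10, c1a, c1b, c1c⟩ : ∃ c1 : ℝ, 0 < c1 ∧ c1 ≤ 1 / 4 ∧ c1 ≤ T / 4 ∧
      12 * M * c1 ≤ c0 := by
    refine ⟨min (1 / 4) (min (T / 4) (c0 / (12 * M))), by positivity, min_le_left _ _,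
      (min_le_right _ _).trans (min_le_left _ _), ?_⟩
    have : min (1 / 4) (min (T / 4) (c0 / (12 * M))) ≤ c0 / (12 * M) :=
      (min_le_right _ _).trans (min_le_right _ _)
    rw [le_div_iff₀ (by positivity)] at this
    linarith
  obtain ⟨A1, hA1⟩ : ∃ A1 : ℝ, A1 = 8 * K + 5 * K / c1 * (64 * T / (c0 ^ 2 * s) + 128 * T ^ 3) +
    32 * (K * T ^ 3 + K * T ^ 2) := ⟨_, rfl⟩
  have A0 : 0 ≤ A1 := by rw [hA1]; positivity
  obtain ⟨r, r0, ra, rb, rc⟩ : ∃ r : ℝ, 0 < r ∧ r ≤ 1 / 2 ∧ r * (9 * l * (A1 + 1)) ≤ T ∧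
      r * (8192 * l ^ 2) ≤ T := by
    refine ⟨min (1 / 2) (min (T / (9 * l * (A1 + 1))) (T / (8192 * l ^ 2))), by positivity,
      min_le_left _ _, ?_, ?_⟩
    · rw [← le_div_iff₀ (by positivity)]
      exact (min_le_right _ _).trans (min_le_left _ _)
    · rw [← le_div_iff₀ (by positivity)]
      exact (min_le_right _ _).trans (min_le_right _ _)
  have r1 : r ≤ 1 := by linarith
  have r2 : r ^ 2 ≤ 1 := pow_le_one₀ r0.le r1
  have r3 : r ^ 3 ≤ 1 := pow_le_one₀ r0.le r1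
  have r6 : r ^ 6 ≤ 1 / 64 := by
    have := pow_le_pow_left₀ r0.le ra 6
    norm_num at this ⊢
    exact this
  have r61 : r ^ 6 ≤ r := by simpa using pow_le_pow_of_le_one r0.le r1 (by norm_num : 1 ≤ 6)
  have r64 : r ^ 6 ≤ r ^ 4 := pow_le_pow_of_le_one r0.le r1 (by norm_num)
  refine ⟨r ^ 6, by positivity, by linarith, ?_⟩
  have ev : ∀ c : ℝ, ∀ᶠ k : ℕ in atTop, c ≤ (k : ℝ) := fun c =>
    tendsto_natCast_atTop_atTop.eventually_ge_atTop c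
  filter_upwards [ev 2, ev (10 * K * T ^ 2 * (9 * l) / (r ^ 3 * T)), ev (512 * l ^ 2 / T)]
    with k k2 kK kl
  rw [div_le_iff₀ (by positivity)] at kK kl
  have k0 : (0 : ℝ) < k := by linarith
  obtain ⟨τ, hτ⟩ : ∃ τ : ℝ, τ = T * ((1 - r ^ 6) * k) := ⟨_, rfl⟩
  have kT : 0 < k * T := by positivity
  have τlo : 3 / 4 * (k * T) ≤ τ := by rw [hτ]; nlinarith
  have τ0 : 0 < τ := by linarith
  have l4 : 0 < 4 * l ^ 2 := by positivity
  obtain ⟨m, hm1, hm2⟩ : ∃ m : ℕ, τ ≤ m * (4 * l ^ 2) ∧ m * (2 * l ^ 2) ≤ τ := by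
    refine ⟨⌈τ / (4 * l ^ 2)⌉₊, ?_, ?_⟩
    · rw [← div_le_iff₀ l4]; exact Nat.le_ceil _
    · have a1 := (Nat.ceil_lt_add_one (a := τ / (4 * l ^ 2)) (by positivity)).le
      have a2 := mul_le_mul_of_nonneg_right a1 l4.le
      rw [add_mul, div_mul_cancel₀ _ l4.ne'] at a2
      nlinarith
  have m0 : (0 : ℝ) < m := by
    by_contra hcon
    have : (m : ℝ) * (4 * l ^ 2) ≤ 0 := mul_nonpos_of_nonpos_of_nonneg (not_lt.mp hcon) l4.le
    linarith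
  obtain ⟨N, hN1, hN2⟩ : ∃ N : ℕ, 8 * r ^ 6 * k ≤ N ∧ (N : ℝ) ≤ 8 * r ^ 6 * k + 1 :=
    ⟨⌈8 * r ^ 6 * k⌉₊, Nat.le_ceil _, (Nat.ceil_lt_add_one (by positivity)).le⟩
  have ll : l ≤ l ^ 2 := by nlinarith
  have hν : 8 * m / τ ≤ 4 / l ^ 2 := by
    rw [div_le_div_iff₀ τ0 (by positivity)]
    linarith
  have β0 : 0 < r ^ 6 * k * T := by positivity
  refine ⟨⟨k, m, N, r ^ 6, r ^ 3, r ^ 2, c1 * r ^ 2, s, √(4 * (r ^ 6 * k * T) / m), τ⟩, rfl, rfl,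
    ⟨by exact_mod_cast k0, by positivity, r3, by ring, by linarith, hτ, by positivity, ?_, ?_, r2,
      ?_, ?_, hs0, hs, by exact_mod_cast m0, ?_, ?_, hN1, ?_, ?_, Real.sqrt_nonneg _, ?_, ?_⟩⟩
  · show c1 * r ^ 2 ≤ 1
    nlinarith
  · show 3 * (c1 * r ^ 2) < r ^ 2
    have : 0 < r ^ 2 := by positivity
    nlinarith
  · show 3 * (c1 * r ^ 2) < T
    nlinarith
  · show 12 * M * (c1 * r ^ 2) ≤ c0 * r ^ 2
    rw [← mul_assoc]
    exact mul_le_mul_of_nonneg_right c1c (by positivity)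
  · show 64 * N ≤ m
    have a1 : (64 * N : ℝ) * (4 * l ^ 2) ≤ m * (4 * l ^ 2) := by
      have b1 : r ^ 6 * (8192 * l ^ 2) ≤ T :=
        (mul_le_mul_of_nonneg_right r61 (by positivity)).trans rc
      have b2 := mul_le_mul_of_nonneg_right hN2 l4.le
      have b3 := mul_le_mul_of_nonneg_right b1 k0.le
      nlinarith
    have := le_of_mul_le_mul_right a1 l4
    exact_mod_cast this
  · show N ≤ k
    have : (N : ℝ) ≤ k := by nlinarith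
    exact_mod_cast this
  · show 8 * (m : ℝ) / τ ≤ 1
    refine hν.trans ?_
    rw [div_le_one (by positivity)]
    nlinarith
  · show (2 * C + 2) * (8 * (m : ℝ) / τ) ^ 2 * τ ≤ m
    have e : (2 * C + 2) * (8 * (m : ℝ) / τ) ^ 2 * τ = m * ((128 * (C + 1) * m) / τ) := by
      field_simp; ring
    rw [e]
    refine mul_le_of_le_one_right m0.le ?_
    rw [div_le_one τ0]
    have : 64 * (C + 1) * m ≤ l ^ 2 * m := mul_le_mul_of_nonneg_right (hlC.trans ll) m0.le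
    linarith
  · show √(4 * (r ^ 6 * k * T) / m) ^ 2 * m = 4 * (r ^ 6 * k * T)
    rw [Real.sq_sqrt (by positivity)]
    field_simp
  · show (4 * K * (r ^ 2) ^ 2 * (2 * k) +
      5 * K / (c1 * r ^ 2) * (2 * (4 / c0 ^ 2 * (8 * (r ^ 6 * k * T) / s) +
        T ^ 2 * (c1 * r ^ 2 + T * (16 * (4 * r ^ 6 * k))))) +
      8 * m / τ * (K * T ^ 2) * (T * (14 * r ^ 3 * k)) +
      (K * T ^ 2 + K * T) * (T * (8 * (4 * r ^ 6 * k)))) ^ 2 ≤ m * (r ^ 6 * k * T)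
    have e2 : 5 * K / (c1 * r ^ 2) * (2 * (4 / c0 ^ 2 * (8 * (r ^ 6 * k * T) / s) +
        T ^ 2 * (c1 * r ^ 2 + T * (16 * (4 * r ^ 6 * k))))) = 10 * K * T ^ 2 +
        5 * K / c1 * (64 * T / (c0 ^ 2 * s) + 128 * T ^ 3) * (r ^ 4 * k) := by
      field_simp; ring
    have e3 : 8 * m / τ * (K * T ^ 2) * (T * (14 * r ^ 3 * k)) ≤ r ^ 3 * k * T / (9 * l) := by
      have a1 : 8 * m / τ * (K * T ^ 2) * (T * (14 * r ^ 3 * k)) ≤
          4 / l ^ 2 * (K * T ^ 2) * (T * (14 * r ^ 3 * k)) := by gcongr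
      refine a1.trans ?_
      have a2 : 4 / l ^ 2 * (K * T ^ 2) * (T * (14 * r ^ 3 * k)) =
          r ^ 3 * k * T / (9 * l) * (504 * K * T ^ 2 / l) := by field_simp; ring
      rw [a2]
      exact mul_le_of_le_one_right (by positivity) ((div_le_one l0).mpr hlK)
    have e4 : (K * T ^ 2 + K * T) * (T * (8 * (4 * r ^ 6 * k))) ≤
        32 * (K * T ^ 3 + K * T ^ 2) * (r ^ 4 * k) := by
      calc _ = 32 * (K * T ^ 3 + K * T ^ 2) * (r ^ 6 * k) := by ring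
        _ ≤ _ := by gcongr
    have e5 : A1 * (r ^ 4 * k) ≤ r ^ 3 * k * T / (9 * l) := by
      rw [le_div_iff₀ (by positivity)]
      have a1 : r * (9 * l * A1) ≤ T := le_trans (by gcongr; linarith) rb
      calc A1 * (r ^ 4 * k) * (9 * l) = r ^ 3 * k * (r * (9 * l * A1)) := by ring
        _ ≤ r ^ 3 * k * T := by gcongr
    have e6 : 10 * K * T ^ 2 ≤ r ^ 3 * k * T / (9 * l) := by
      rw [le_div_iff₀ (by positivity)]
      linarith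
    have e7 : 4 * K * (r ^ 2) ^ 2 * (2 * k) = 8 * K * (r ^ 4 * k) := by ring
    have tot : 4 * K * (r ^ 2) ^ 2 * (2 * k) +
        5 * K / (c1 * r ^ 2) * (2 * (4 / c0 ^ 2 * (8 * (r ^ 6 * k * T) / s) +
          T ^ 2 * (c1 * r ^ 2 + T * (16 * (4 * r ^ 6 * k))))) +
        8 * m / τ * (K * T ^ 2) * (T * (14 * r ^ 3 * k)) +
        (K * T ^ 2 + K * T) * (T * (8 * (4 * r ^ 6 * k))) ≤ 3 * (r ^ 3 * k * T / (9 * l)) := by
      rw [e2, e7]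
      rw [hA1] at e5
      linarith
    refine (pow_le_pow_left₀ (by positivity) tot 2).trans ?_
    have e8 : (3 * (r ^ 3 * k * T / (9 * l))) ^ 2 = k * T / (9 * l ^ 2) * (r ^ 6 * k * T) := by
      field_simp; ring
    rw [e8]
    refine mul_le_mul_of_nonneg_right ?_ β0.le
    rw [div_le_iff₀ (by positivity)]
    have : 0 ≤ (m : ℝ) * l ^ 2 := by positivity
    linarith

end Pool.Agent.Lib.MP_f78106_gt
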