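import Pool.Agent.Lib.MP_f78106_gt.Loop
import Pool.Agent.Lib.MP_f78106_gt.Clarke

/-!
From Clarke's minimiser to a simple closed characteristic with the constants of `Orbit`.
-/

namespace Pool.Agent.Lib.MP_f78106_gt

open MeasureTheory Set Filter Topology

variable {n : ℕ}

theorem exists_unit_orth (hn : 2 ≤ n) (w : V n) : ∃ v : V n, ‖v‖ = 1 ∧ inner ℂ w v = (0 : ℂ) := by
  have h1 : (ℂ ∙ w)ᗮ ≠ ⊥ := by
    intro h
    have h2 := Submodule.finrank_add_finrank_orthogonal (ℂ ∙ w)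
    have h3 : Module.finrank ℂ (ℂ ∙ w) ≤ 1 := (finrank_span_le_card ({w} : Set (V n))).trans (by simp)
    rw [h, finrank_bot, finrank_euclideanSpace, Fintype.card_fin] at h2
    omega
  obtain ⟨u, hu, hu0⟩ := Submodule.exists_mem_ne_zero_of_ne_bot h1
  have hn0 : ‖u‖ ≠ 0 := norm_ne_zero_iff.mpr hu0
  refine ⟨((‖u‖⁻¹ : ℝ) : ℂ) • u, ?_, ?_⟩
  · rw [norm_smul]; simp [hn0]
  · rw [inner_smul_right, Submodule.mem_orthogonal_singleton_iff_inner_right.mp hu, mul_zero]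

theorem exists_orbit (hn : 2 ≤ n) {Hs : V n → ℝ} {Z : V n → V n} {a C K : ℝ}
    (h : DualData Hs Z a C K) :
    ∃ (γ γ' : ℝ → V n) (v : V n) (T M K' C' c0 : ℝ), Orbit Hs γ γ' v T M K' C' c0 ∧
      ∀ u : Loop n, prim u 1 = 0 → action u = 1 →
        T ≤ ∫ t in (0 : ℝ)..1, Hs ((-Complex.I) • u (t : UnitAddCircle)) := by
  obtain ⟨T, γ, γ', hT, hd, hc, hcl, hZ, hH, hmin⟩ := exists_characteristic (by omega) h
  have cγ : Continuous γ := continuous_iff_continuousAt.mpr fun t => (hd t).continuousAt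
  have H0 : Hs 0 = 0 := by simpa using h.homH 0 le_rfl 0
  have ne0 : γ' 0 ≠ 0 := fun h0 => by
    have := hH 0
    rw [h0, smul_zero, H0] at this
    exact zero_ne_one this
  have p0 : 0 < ‖γ' 0‖ := norm_pos_iff.mpr ne0
  obtain ⟨K1, K10, hK1⟩ : ∃ K1 : ℝ, 0 < K1 ∧ ∀ s t, ‖γ' s - γ' t‖ ≤ K1 * ‖γ s - γ t‖ := by
    refine ⟨|K| + 1, by positivity, fun s t => ?_⟩
    have := h.expand ((-Complex.I) • γ' s) ((-Complex.I) • γ' t)
    rw [← smul_sub, norm_negI_smul, hZ, hZ] at this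
    exact this.trans (mul_le_mul_of_nonneg_right (by linarith [le_abs_self K]) (norm_nonneg _))
  obtain ⟨M, M0, hM⟩ : ∃ M : ℝ, 0 < M ∧ ∀ t ∈ Icc 0 T, ‖γ' t‖ ≤ M := by
    obtain ⟨M, hM⟩ := (isCompact_Icc (a := 0) (b := T)).exists_bound_of_continuousOn hc.continuousOn
    exact ⟨|M| + 1, by positivity, fun t ht => (hM t ht).trans (by linarith [le_abs_self M])⟩
  have lip : ∀ s ∈ Icc 0 T, ∀ t ∈ Icc 0 T, ‖γ s - γ t‖ ≤ M * |s - t| := fun s hs t ht => by
    have := (convex_Icc 0 T).norm_image_sub_le_of_norm_hasDerivWithin_le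
      (fun x _ => (hd x).hasDerivWithinAt) hM ht hs
    simpa using this
  have tay : ∀ s ∈ Icc 0 T, ∀ t ∈ Icc 0 T,
      ‖γ t - γ s - (t - s) • γ' s‖ ≤ K1 * M * |t - s| ^ 2 := fun s hs t ht => by
    have sub : uIcc s t ⊆ Icc 0 T := uIcc_subset_Icc hs ht
    have := (convex_uIcc s t).norm_image_sub_le_of_norm_hasDerivWithin_le
      (f := fun x => γ x - x • γ' s) (f' := fun x => γ' x - γ' s) (C := K1 * M * |t - s|)
      (fun x _ => by
        have := (hd x).sub ((hasDerivAt_id x).smul_const (γ' s))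
        rw [one_smul] at this
        exact this.hasDerivWithinAt)
      (fun x hx => by
        refine (hK1 x s).trans ?_
        rw [mul_assoc]
        refine mul_le_mul_of_nonneg_left ((lip x (sub hx) s hs).trans ?_) K10.le
        exact mul_le_mul_of_nonneg_left (abs_sub_left_of_mem_uIcc hx) M0.le)
      left_mem_uIcc right_mem_uIcc
    rw [Real.norm_eq_abs] at this
    calc ‖γ t - γ s - (t - s) • γ' s‖ = ‖γ t - t • γ' s - (γ s - s • γ' s)‖ := by
          congr 1; rw [sub_smul]; abel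
      _ ≤ _ := this
      _ = _ := by ring
  set δ := ‖γ' 0‖ / (2 * (K1 * M)) with hδ
  have δ0 : 0 < δ := by positivity
  have near : ∀ s ∈ Icc 0 T, γ' s = γ' 0 → ∀ t ∈ Icc 0 T, |t - s| ≤ δ →
      ‖γ' 0‖ / 2 * |t - s| ≤ ‖γ t - γ s‖ := fun s hs he t ht hts => by
    have a1 := tay s hs t ht
    rw [he] at a1
    have a2 : ‖(t - s) • γ' 0‖ ≤ ‖γ t - γ s‖ + ‖γ t - γ s - (t - s) • γ' 0‖ := by
      have := norm_sub_le (γ t - γ s) (γ t - γ s - (t - s) • γ' 0)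
      rwa [sub_sub_cancel] at this
    rw [norm_smul, Real.norm_eq_abs] at a2
    have a3 : K1 * M * |t - s| ≤ ‖γ' 0‖ / 2 := by
      rw [hδ, le_div_iff₀ (by positivity)] at hts
      linarith
    have a4 := mul_le_mul_of_nonneg_right a3 (abs_nonneg (t - s))
    nlinarith
  have z0 : (0 : ℝ) ∈ Icc 0 T := ⟨le_rfl, hT.le⟩
  have noret : ∀ t ∈ Icc 0 T, 0 < t → γ t = γ 0 → δ ≤ t := fun t ht t0 he => by
    by_contra hcon
    have := near 0 z0 rfl t ht (by rw [sub_zero, abs_of_pos t0]; linarith)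
    rw [he, sub_self, norm_zero, sub_zero, abs_of_pos t0] at this
    have : 0 < ‖γ' 0‖ / 2 * t := by positivity
    linarith
  have hS : IsCompact (Icc δ T ∩ {t | γ t = γ 0}) :=
    isCompact_Icc.inter_right (isClosed_eq cγ continuous_const)
  obtain ⟨T0, ⟨hT0, hT0e⟩, hmin0⟩ := hS.exists_isLeast
    ⟨T, ⟨noret T ⟨hT.le, le_rfl⟩ hT hcl, le_rfl⟩, hcl⟩
  have hT0e' : γ T0 = γ 0 := hT0e
  have T00 : 0 < T0 := δ0.trans_le hT0.1
  have sub : ∀ t ∈ Icc 0 T0, t ∈ Icc 0 T := fun t ht => ⟨ht.1, ht.2.trans hT0.2⟩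
  have mT0 : T0 ∈ Icc 0 T := ⟨T00.le, hT0.2⟩
  have d0 : γ' T0 = γ' 0 := by
    have := hK1 T0 0
    rw [hT0e', sub_self, norm_zero, mul_zero] at this
    exact sub_eq_zero.mp (norm_le_zero_iff.mp this)
  obtain ⟨μ, μ0, hμ⟩ : ∃ μ : ℝ, 0 < μ ∧ ∀ t ∈ Icc δ (T0 - δ), μ ≤ ‖γ t - γ 0‖ := by
    rcases (Icc δ (T0 - δ)).eq_empty_or_nonempty with he | hne
    · exact ⟨1, one_pos, fun t ht => by rw [he] at ht; exact absurd ht (notMem_empty t)⟩
    · obtain ⟨t1, ht1, hm⟩ := isCompact_Icc.exists_isMinOn hne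
        (f := fun t => ‖γ t - γ 0‖) (by fun_prop)
      refine ⟨‖γ t1 - γ 0‖, norm_pos_iff.mpr (sub_ne_zero.mpr fun he => ?_), fun t ht => hm ht⟩
      have := hmin0 ⟨⟨ht1.1, by linarith [ht1.2, hT0.2]⟩, he⟩
      linarith [ht1.2]
  obtain ⟨v, hv1, hv0⟩ := exists_unit_orth hn (γ' 0)
  have inn : ∀ x : V n, ‖(inner ℂ x v : ℂ)‖ ≤ ‖x‖ := fun x => by
    simpa [hv1] using norm_inner_le_norm (𝕜 := ℂ) x v
  refine ⟨γ, γ', v, T0, M, K1 * M, |C|, min (‖γ' 0‖ / 2) (μ / T0),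
    ⟨h.contH, T00, M0, by positivity, abs_nonneg _, by positivity, hd, hc, hT0e',
      fun ψ hψ => hM ψ (sub ψ hψ), fun ψ hψ => ?_, fun ψ => ?_, fun ψ w => ?_, hv1,
      fun ψ hψ => ?_, fun ψ hψ => ?_⟩, fun u h1 h2 => hT0.2.trans (hmin u h1 h2)⟩
  · have e0 : 0 ≤ dd T0 ψ := le_min hψ.1 (by linarith [hψ.2])
    by_cases c1 : ψ ≤ δ
    · have := near 0 z0 rfl ψ (sub ψ hψ) (by rwa [sub_zero, abs_of_nonneg hψ.1])
      rw [sub_zero, abs_of_nonneg hψ.1] at this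
      exact (mul_le_mul (min_le_left _ _) (min_le_left _ _) e0 (by positivity)).trans this
    by_cases c2 : T0 - ψ ≤ δ
    · have e1 : |ψ - T0| = T0 - ψ := by rw [abs_sub_comm, abs_of_nonneg (by linarith [hψ.2])]
      have := near T0 mT0 d0 ψ (sub ψ hψ) (by rwa [e1])
      rw [e1, hT0e'] at this
      exact (mul_le_mul (min_le_left _ _) (min_le_right _ _) e0 (by positivity)).trans this
    · have e1 : dd T0 ψ ≤ T0 := (min_le_left _ _).trans hψ.2
      refine (mul_le_mul (min_le_right _ _) e1 e0 (by positivity)).trans ?_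
      rw [div_mul_cancel₀ _ T00.ne']
      exact hμ ψ ⟨by linarith, by linarith⟩
  · have := h.euler ((-Complex.I) • γ' ψ)
    rw [hZ, hH, mul_one] at this
    exact this
  · have := h.quad ((-Complex.I) • γ' ψ) w
    rw [hZ, hH] at this
    have b := mul_le_mul_of_nonneg_right (le_abs_self C) (sq_nonneg ‖w‖)
    linarith
  · have e1 : (inner ℂ (γ' ψ) v : ℂ) = inner ℂ (γ' ψ - γ' 0) v := by
      rw [inner_sub_left, hv0, sub_zero]
    rw [e1]
    refine (inn _).trans ((hK1 ψ 0).trans ?_)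
    rw [mul_assoc]
    refine mul_le_mul_of_nonneg_left ?_ K10.le
    have a1 := lip ψ (sub ψ hψ) 0 z0
    have a2 := lip ψ (sub ψ hψ) T0 mT0
    rw [sub_zero, abs_of_nonneg hψ.1] at a1
    rw [hT0e', abs_sub_comm, abs_of_nonneg (by linarith [hψ.2])] at a2
    unfold dd
    rcases le_total ψ (T0 - ψ) with c | c
    · rwa [min_eq_left c]
    · rwa [min_eq_right c]
  · have e1 : ∀ c : ℝ, (inner ℂ (γ ψ - γ 0) v : ℂ) = inner ℂ (γ ψ - γ 0 - c • γ' 0) v := fun c => by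
      rw [inner_sub_left (γ ψ - γ 0), ← Complex.coe_smul, inner_smul_left, hv0, mul_zero, sub_zero]
    have a1 := tay 0 z0 ψ (sub ψ hψ)
    have a2 := tay T0 mT0 ψ (sub ψ hψ)
    rw [sub_zero, abs_of_nonneg hψ.1] at a1
    rw [hT0e', d0, abs_sub_comm, abs_of_nonneg (by linarith [hψ.2])] at a2
    unfold dd
    rcases le_total ψ (T0 - ψ) with c | c
    · rw [min_eq_left c, e1 ψ]
      exact (inn _).trans a1
    · rw [min_eq_right c, e1 (ψ - T0)]
      exact (inn _).trans a2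

end Pool.Agent.Lib.MP_f78106_gt
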