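import Pool.Agent.Lib.MP_f78106_gt.Cont
import Pool.Agent.Lib.MP_f78106_gt.Num
import Pool.Agent.Lib.MP_f78106_gt.Orb
import Pool.Agent.Lib.MP_f78106_gt.Geom
import Pool.Agent.Lib.MP_f78106_gt.Index

namespace Pool.Agent.Lib.MP_f78106_gt

open Filter

theorem linear_gap (n : ℕ) (hn : 2 ≤ n) (Ω : Set (V n))
    (hΩ : UnifConvex Ω) :
    limsup (fun k : ℕ => cap Ω k / k) atTop < cap Ω 1 ∧ cap Ω 1 < ⊤ := by
  obtain ⟨Z, a, C, K, hD⟩ := exists_dualData hΩ
  obtain ⟨γ, γ', v, T, M, K', C', c0, O, hmin⟩ := exists_orbit hn hD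
  obtain ⟨ε, ε0, ε1, hev⟩ := exists_good O.Tpos O.Mpos O.Knn O.Cnn O.c0pos
  have hT := O.Tpos
  have key : ∀ᶠ k : ℕ in atTop, 0 < k ∧ IndexGE shift (sublevel Ω (T * ((1 - ε) * k))) k := by
    filter_upwards [hev] with k hk
    obtain ⟨P, rfl, rfl, G⟩ := hk
    obtain ⟨F, hF, heq⟩ := Core.sphere_map O G (fun u => by positivity) hD.homH
    refine ⟨G.kpos, ?_⟩
    rw [← G.τeq]
    exact indexGE_of_map shift _ P.k F hF heq
  have low : ENNReal.ofReal T ≤ cap Ω 1 := by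
    refine le_iInf₂ fun L hL => ?_
    obtain ⟨u, h1, h2, h3⟩ := nonempty_of_indexGE _ _ hL
    exact ENNReal.ofReal_le_ofReal ((hmin u h1 h2).trans h3.le)
  constructor
  · refine lt_of_le_of_lt (b := ENNReal.ofReal (T * (1 - ε))) (limsup_le_of_le ?_ ?_)
      (lt_of_lt_of_le ?_ low)
    · isBoundedDefault
    · filter_upwards [key] with k hk
      have h1 : cap Ω k ≤ ENNReal.ofReal (T * ((1 - ε) * k)) :=
        iInf₂_le (f := fun (L : ℝ) (_ : IndexGE shift (sublevel Ω L) k) => ENNReal.ofReal L) _ hk.2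
      refine ENNReal.div_le_of_le_mul (h1.trans_eq ?_)
      rw [← mul_assoc, ENNReal.ofReal_mul (by nlinarith), ENNReal.ofReal_natCast]
    · rw [ENNReal.ofReal_lt_ofReal_iff hT]
      nlinarith
  · obtain ⟨k, hk0, hk⟩ := key.exists
    have h1 : IndexGE shift (sublevel Ω (T * ((1 - ε) * k))) 1 := fun j hj => hk j (by omega)
    exact lt_of_le_of_lt
      (iInf₂_le (f := fun (L : ℝ) (_ : IndexGE shift (sublevel Ω L) 1) => ENNReal.ofReal L) _ h1)
      ENNReal.ofReal_lt_top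

end Pool.Agent.Lib.MP_f78106_gt
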