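import Pool.Agent.Lib.MP_f78106_gt.Cross

/-!
The basic inequality for the perturbed loop: gradient step plus slow wave.
-/

namespace Pool.Agent.Lib.MP_f78106_gt

open MeasureTheory Set Filter Topology Function

/-- Bounded strongly measurable functions. -/
structure BM {E : Type} [NormedAddCommGroup E] (f : ℝ → E) : Prop where
  sm : StronglyMeasurable f
  bd : ∃ B, ∀ t, ‖f t‖ ≤ B

namespace BM

variable {E F G : Type} [NormedAddCommGroup E] [NormedAddCommGroup F] [NormedAddCommGroup G]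

theorem ii {f : ℝ → E} (h : BM f) (a b : ℝ) : IntervalIntegrable f volume a b := by
  obtain ⟨B, hB⟩ := h.bd
  rw [intervalIntegrable_iff]
  exact Measure.integrableOn_of_bounded (M := B) measure_Ioc_lt_top.ne h.sm.aestronglyMeasurable
    (Eventually.of_forall hB)

theorem const (c : E) : BM (fun _ : ℝ => c) := ⟨stronglyMeasurable_const, ‖c‖, fun _ => le_rfl⟩

theorem add {f g : ℝ → E} (hf : BM f) (hg : BM g) : BM (fun t => f t + g t) := by
  obtain ⟨A, hA⟩ := hf.bd
  obtain ⟨B, hB⟩ := hg.bd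
  exact ⟨hf.sm.add hg.sm, A + B, fun t => (norm_add_le _ _).trans (add_le_add (hA t) (hB t))⟩

theorem sub {f g : ℝ → E} (hf : BM f) (hg : BM g) : BM (fun t => f t - g t) := by
  obtain ⟨A, hA⟩ := hf.bd
  obtain ⟨B, hB⟩ := hg.bd
  exact ⟨hf.sm.sub hg.sm, A + B, fun t => (norm_sub_le _ _).trans (add_le_add (hA t) (hB t))⟩

theorem comp {f : ℝ → E} (hf : BM f) {c : ℝ → ℝ} (hc : Measurable c) : BM (fun t => f (c t)) := by
  obtain ⟨A, hA⟩ := hf.bd
  exact ⟨hf.sm.comp_measurable hc, A, fun t => hA _⟩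

theorem shift {f : ℝ → E} (hf : BM f) (c : ℝ) : BM (fun t => f (t + c)) :=
  hf.comp (measurable_id.add_const c)

theorem shift' {f : ℝ → E} (hf : BM f) (c : ℝ) : BM (fun t => f (t - c)) :=
  hf.comp (measurable_id.sub_const c)

theorem cont [ProperSpace E] {f : ℝ → E} (hf : BM f) {H : E → F} (hH : Continuous H) :
    BM (fun t => H (f t)) := by
  obtain ⟨A, hA⟩ := hf.bd
  obtain ⟨B, hB⟩ := (isCompact_closedBall (0 : E) A).exists_bound_of_continuousOn hH.continuousOn
  exact ⟨hH.comp_stronglyMeasurable hf.sm, B, fun t => hB _ (by simpa using hA t)⟩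

theorem prod {f : ℝ → E} {g : ℝ → F} (hf : BM f) (hg : BM g) : BM (fun t => (f t, g t)) := by
  obtain ⟨A, hA⟩ := hf.bd
  obtain ⟨B, hB⟩ := hg.bd
  exact ⟨hf.sm.prodMk hg.sm, max A B, fun t => by
    rw [Prod.norm_def]; exact max_le_max (hA t) (hB t)⟩

theorem cont₂ [ProperSpace E] [ProperSpace F] {f : ℝ → E} {g : ℝ → F} (hf : BM f) (hg : BM g)
    {H : E → F → G} (hH : Continuous fun p : E × F => H p.1 p.2) :
    BM (fun t => H (f t) (g t)) := (hf.prod hg).cont hH

theorem of_periodic [SecondCountableTopology E] {f : ℝ → E} {τ : ℝ} (hτ : 0 < τ)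
    (hc : Continuous f) (hp : Periodic f τ) : BM f := by
  obtain ⟨B, hB⟩ := (hp.compact_of_continuous hτ.ne' hc).isBounded.exists_norm_le
  exact ⟨hc.stronglyMeasurable, B, fun t => hB _ (mem_range_self t)⟩

end BM

section Per

variable {E : Type} [NormedAddCommGroup E] [NormedSpace ℝ E]

theorem shift_int {f : ℝ → E} {τ : ℝ} (hp : Periodic f τ) (c : ℝ) :
    ∫ t in (0 : ℝ)..τ, f (t + c) = ∫ t in (0 : ℝ)..τ, f t := by
  rw [intervalIntegral.integral_comp_add_right, zero_add, add_comm τ c,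
    hp.intervalIntegral_add_eq c 0, zero_add]

theorem base_int {f : ℝ → E} {τ : ℝ} (hp : Periodic f τ) (c : ℝ) :
    ∫ t in c..c + τ, f t = ∫ t in (0 : ℝ)..τ, f t := by
  rw [hp.intervalIntegral_add_eq c 0, zero_add]

theorem prim_periodic {f : ℝ → E} {τ : ℝ} (hp : Periodic f τ)
    (hi : ∀ a b, IntervalIntegrable f volume a b) (h0 : ∫ t in (0 : ℝ)..τ, f t = 0) :
    Periodic (fun t => ∫ σ in (0 : ℝ)..t, f σ) τ := fun t => by
  simp only
  rw [← intervalIntegral.integral_add_adjacent_intervals (hi 0 t) (hi t (t + τ)), base_int hp, h0,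
    add_zero]

theorem avg_int {f : ℝ → ℝ} {τ : ℝ} (hp : Periodic f τ)
    (hi : ∀ a b, IntervalIntegrable f volume a b) (h : ℝ) :
    ∫ t in (0 : ℝ)..τ, ∫ σ in t..t + h, f σ = h * ∫ t in (0 : ℝ)..τ, f t := by
  set P : ℝ → ℝ := fun t => ∫ σ in (0 : ℝ)..t, f σ with hP
  have cP : Continuous P := intervalIntegral.continuous_primitive hi 0
  have iP : ∀ a b, IntervalIntegrable P volume a b := fun a b => cP.intervalIntegrable a b
  have e1 : ∀ t, ∫ σ in t..t + h, f σ = P (t + h) - P t := fun t =>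
    (intervalIntegral.integral_interval_sub_left (hi 0 (t + h)) (hi 0 t)).symm
  have e2 : ∀ t, P (t + τ) = P t + P τ := fun t => by
    simp only [hP]
    rw [← intervalIntegral.integral_add_adjacent_intervals (hi 0 t) (hi t (t + τ)), base_int hp]
  simp only [e1]
  have cP' : Continuous fun t => P (t + h) := cP.comp (by fun_prop)
  rw [intervalIntegral.integral_sub (cP'.intervalIntegrable _ _) (iP _ _),
    intervalIntegral.integral_comp_add_right, zero_add,
    ← intervalIntegral.integral_add_adjacent_intervals (iP h τ) (iP τ (τ + h)),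
    ← intervalIntegral.integral_add_adjacent_intervals (iP 0 h) (iP h τ)]
  have e3 : ∫ t in τ..τ + h, P t = (∫ t in (0 : ℝ)..h, P t) + h * P τ := by
    have := intervalIntegral.integral_comp_add_right (a := 0) (b := h) P τ
    rw [zero_add, add_comm h τ] at this
    rw [← this]
    simp only [e2]
    rw [intervalIntegral.integral_add (iP _ _) intervalIntegrable_const]
    simp
  rw [e3]
  ring

end Per

variable {n : ℕ}

theorem BM.rin {f g : ℝ → V n} (hf : BM f) (hg : BM g) : BM (fun t => rin (f t) (g t)) :=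
  hf.cont₂ hg continuous_rin

theorem BM.om {f g : ℝ → V n} (hf : BM f) (hg : BM g) : BM (fun t => om (f t) (g t)) :=
  hf.cont₂ hg continuous_om

theorem BM.nsq {f : ℝ → V n} (hf : BM f) : BM (fun t => ‖f t‖ ^ 2) :=
  hf.cont (H := fun v => ‖v‖ ^ 2) (by fun_prop)

theorem BM.rsmul {f : ℝ → V n} (hf : BM f) (c : ℝ) : BM (fun t => c • f t) :=
  hf.cont (H := fun v => c • v) (by fun_prop)

theorem BM.csmul {f : ℝ → V n} (hf : BM f) (c : ℂ) : BM (fun t => c • f t) :=
  hf.cont (H := fun v => c • v) (by fun_prop)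

theorem BM.smulv {f : ℝ → ℂ} (hf : BM f) (v : V n) : BM (fun t => f t • v) :=
  hf.cont (H := fun c : ℂ => c • v) (by fun_prop)

/-- Discrete Laplacian with step `h`. -/
noncomputable def lap (h : ℝ) (e : ℝ → V n) (t : ℝ) : V n := (2 : ℝ) • e t - e (t + h) - e (t - h)

/-- Velocity of the gradient step. -/
noncomputable def yv (s h : ℝ) (e : ℝ → V n) (t : ℝ) : V n := (-s) • Complex.I • lap h e t

theorem BM.lap {e : ℝ → V n} (he : BM e) (h : ℝ) : BM (lap h e) :=
  ((he.rsmul 2).sub (he.shift h)).sub (he.shift' h)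

theorem BM.yv {e : ℝ → V n} (he : BM e) (s h : ℝ) : BM (yv s h e) :=
  ((he.lap h).csmul Complex.I).rsmul (-s)

theorem lap_periodic {e : ℝ → V n} {τ : ℝ} (pe : Periodic e τ) (h : ℝ) :
    Periodic (lap h e) τ := fun t => by
  simp only [lap]
  rw [pe t, add_right_comm, pe, show t + τ - h = t - h + τ by ring, pe]

theorem yv_periodic {e : ℝ → V n} {τ : ℝ} (pe : Periodic e τ) (s h : ℝ) :
    Periodic (yv s h e) τ := fun t => by
  simp only [yv, lap_periodic pe h t]

theorem om_yv (u : V n) (s h : ℝ) (e : ℝ → V n) (t : ℝ) :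
    om u (yv s h e t) = -s * rin u (lap h e t) := by
  rw [yv, om_smul_right, om, smul_smul]
  simp

theorem pair_id {u e : ℝ → V n} {τ : ℝ} (hu : BM u) (he : BM e) (pu : Periodic u τ)
    (pe : Periodic e τ) (h : ℝ) :
    ∫ t in (0 : ℝ)..τ, rin (u t) (lap h e t) =
      ∫ t in (0 : ℝ)..τ, rin (u (t + h) - u t) (e (t + h) - e t) := by
  have a1 : ∫ t in (0 : ℝ)..τ, rin (u (t + h)) (e (t + h)) = ∫ t in (0 : ℝ)..τ, rin (u t) (e t) :=
    shift_int (f := fun t => rin (u t) (e t)) (fun t => by simp only [pu t, pe t]) h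
  have a2 : ∫ t in (0 : ℝ)..τ, rin (u (t + h)) (e t) =
      ∫ t in (0 : ℝ)..τ, rin (u t) (e (t - h)) := by
    have := shift_int (f := fun t => rin (u t) (e (t - h))) (τ := τ) (fun t => by
      simp only [pu t]
      rw [show t + τ - h = t - h + τ by ring, pe]) h
    simpa using this
  have i1 := (hu.rin he).ii 0 τ
  have i2 := (hu.rin (he.shift h)).ii 0 τ
  have i3 := (hu.rin (he.shift' h)).ii 0 τ
  have i4 := ((hu.shift h).rin (he.shift h)).ii 0 τ
  have i5 := ((hu.shift h).rin he).ii 0 τ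
  simp only [lap, rin_sub_left, rin_sub_right, rin_smul_right]
  rw [intervalIntegral.integral_sub ((i1.const_mul 2).sub i2) i3,
    intervalIntegral.integral_sub (i1.const_mul 2) i2, intervalIntegral.integral_const_mul,
    intervalIntegral.integral_sub (i4.sub i2) (i5.sub i1), intervalIntegral.integral_sub i4 i2,
    intervalIntegral.integral_sub i5 i1, a1, a2]
  ring

theorem lap_int {e : ℝ → V n} {τ : ℝ} (he : BM e) (pe : Periodic e τ) (h : ℝ) :
    ∫ t in (0 : ℝ)..τ, lap h e t = 0 := by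
  simp only [lap]
  rw [intervalIntegral.integral_sub (((he.rsmul 2).sub (he.shift h)).ii _ _) ((he.shift' h).ii _ _),
    intervalIntegral.integral_sub ((he.rsmul 2).ii _ _) ((he.shift h).ii _ _),
    intervalIntegral.integral_smul, shift_int pe h]
  simp only [sub_eq_add_neg]
  rw [shift_int pe (-h), two_smul]
  abel

theorem yv_int {e : ℝ → V n} {τ : ℝ} (he : BM e) (pe : Periodic e τ) (s h : ℝ) :
    ∫ t in (0 : ℝ)..τ, yv s h e t = 0 := by
  simp only [yv]
  rw [intervalIntegral.integral_smul, intervalIntegral.integral_smul, lap_int he pe]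
  simp

theorem yv_sq {e : ℝ → V n} {τ : ℝ} (hτ : 0 < τ) (he : BM e) (pe : Periodic e τ) (s h : ℝ) :
    ∫ t in (0 : ℝ)..τ, ‖yv s h e t‖ ^ 2 ≤
      4 * s ^ 2 * ∫ t in (0 : ℝ)..τ, ‖e (t + h) - e t‖ ^ 2 := by
  have bD : BM (fun t => ‖e (t + h) - e t‖ ^ 2) := ((he.shift h).sub he).nsq
  have pD : Periodic (fun t => ‖e (t + h) - e t‖ ^ 2) τ := fun t => by
    simp only [pe t]
    rw [add_right_comm, pe]
  have h1 : ∀ t, ‖yv s h e t‖ ^ 2 ≤
      2 * s ^ 2 * (‖e (t + h) - e t‖ ^ 2 + ‖e (t + -h + h) - e (t + -h)‖ ^ 2) := fun t => by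
    have e1 : lap h e t = -(e (t + h) - e t) + (e (t + -h + h) - e (t + -h)) := by
      simp only [lap, neg_add_cancel_right, sub_eq_add_neg, two_smul]
      abel
    have e2 : ‖lap h e t‖ ≤ ‖e (t + h) - e t‖ + ‖e (t + -h + h) - e (t + -h)‖ := by
      rw [e1]
      exact (norm_add_le _ _).trans (by rw [norm_neg])
    have e3 : ‖yv s h e t‖ ^ 2 = s ^ 2 * ‖lap h e t‖ ^ 2 := by
      simp [yv, norm_smul, mul_pow]
    have e4 := pow_le_pow_left₀ (norm_nonneg _) e2 2
    rw [e3]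
    have e5 : ‖lap h e t‖ ^ 2 ≤
        2 * (‖e (t + h) - e t‖ ^ 2 + ‖e (t + -h + h) - e (t + -h)‖ ^ 2) := by
      nlinarith [sq_nonneg (‖e (t + h) - e t‖ - ‖e (t + -h + h) - e (t + -h)‖)]
    nlinarith [sq_nonneg s]
  refine (intervalIntegral.integral_mono_on hτ.le ((he.yv s h).nsq.ii _ _)
    (((bD.add (bD.shift (-h))).ii _ _).const_mul _) fun t _ => h1 t).trans_eq ?_
  rw [intervalIntegral.integral_const_mul, intervalIntegral.integral_add (bD.ii _ _)
    ((bD.shift (-h)).ii _ _), shift_int pD (-h)]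
  ring

theorem BM.prim {f : ℝ → V n} {τ : ℝ} (hτ : 0 < τ) (hf : BM f) (pf : Periodic f τ)
    (h0 : ∫ t in (0 : ℝ)..τ, f t = 0) : BM (fun t => ∫ σ in (0 : ℝ)..t, f σ) :=
  BM.of_periodic hτ (intervalIntegral.continuous_primitive hf.ii 0) (prim_periodic pf hf.ii h0)

theorem area_yv {e : ℝ → V n} {τ s h : ℝ} (hτ : 0 < τ) (he : BM e) (pe : Periodic e τ)
    (hs : 0 < s) (hh : 0 < h) (hh1 : h ≤ 1) :
    -(2 * s ^ 2 * ∫ t in (0 : ℝ)..τ, ‖e (t + h) - e t‖ ^ 2) ≤
      ∫ t in (0 : ℝ)..τ, om (∫ σ in (0 : ℝ)..t, yv s h e σ) (yv s h e t) := by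
  set y := yv s h e with hy
  set P : ℝ → V n := fun t => ∫ σ in (0 : ℝ)..t, y σ with hP
  have by' : BM y := he.yv s h
  have py : Periodic y τ := yv_periodic pe s h
  have y0 : ∫ t in (0 : ℝ)..τ, y t = 0 := yv_int he pe s h
  have bP : BM P := by'.prim hτ py y0
  have pP : Periodic P τ := prim_periodic py by'.ii y0
  have bD : BM (fun t => e (t + h) - e t) := (he.shift h).sub he
  have e1 : ∫ t in (0 : ℝ)..τ, om (P t) (y t) =
      -s * ∫ t in (0 : ℝ)..τ, rin (P (t + h) - P t) (e (t + h) - e t) := by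
    rw [← pair_id bP he pP pe, ← intervalIntegral.integral_const_mul]
    exact intervalIntegral.integral_congr fun t _ => om_yv _ _ _ _ _
  have h1 : ∀ t, rin (P (t + h) - P t) (e (t + h) - e t) ≤
      (4 * s)⁻¹ * (∫ σ in t..t + h, ‖y σ‖ ^ 2) + h * s * ‖e (t + h) - e t‖ ^ 2 := fun t => by
    have a1 : P (t + h) - P t = ∫ σ in t..t + h, y σ :=
      intervalIntegral.integral_interval_sub_left (by'.ii 0 (t + h)) (by'.ii 0 t)
    have a2 : rin (P (t + h) - P t) (e (t + h) - e t) =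
        ∫ σ in t..t + h, rin (y σ) (e (t + h) - e t) := by
      rw [a1]
      exact (((rinL n).flip (e (t + h) - e t)).intervalIntegral_comp_comm (by'.ii _ _)).symm
    rw [a2]
    refine (intervalIntegral.integral_mono_on (g := fun σ => (4 * s)⁻¹ * ‖y σ‖ ^ 2 +
      s * ‖e (t + h) - e t‖ ^ 2) (by linarith) ((by'.rin (BM.const _)).ii _ _)
      (((by'.nsq.ii _ _).const_mul _).add intervalIntegrable_const) fun σ _ => ?_).trans_eq ?_
    · refine ((le_abs_self _).trans (abs_rin_le _ _)).trans ?_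
      have := sq_nonneg (‖y σ‖ - 2 * s * ‖e (t + h) - e t‖)
      rw [← sub_nonneg]
      have e : (4 * s)⁻¹ * ‖y σ‖ ^ 2 + s * ‖e (t + h) - e t‖ ^ 2 - ‖y σ‖ * ‖e (t + h) - e t‖ =
          (4 * s)⁻¹ * (‖y σ‖ - 2 * s * ‖e (t + h) - e t‖) ^ 2 := by
        field_simp; ring
      rw [e]
      positivity
    · rw [intervalIntegral.integral_add ((by'.nsq.ii _ _).const_mul _) intervalIntegrable_const,
        intervalIntegral.integral_const_mul]
      simp only [intervalIntegral.integral_const, add_sub_cancel_left, smul_eq_mul, mul_assoc]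
  have cA : Continuous fun t => ∫ σ in t..t + h, ‖y σ‖ ^ 2 := by
    have : (fun t => ∫ σ in t..t + h, ‖y σ‖ ^ 2) = fun t =>
        (∫ σ in (0 : ℝ)..t + h, ‖y σ‖ ^ 2) - ∫ σ in (0 : ℝ)..t, ‖y σ‖ ^ 2 := by
      ext t
      exact (intervalIntegral.integral_interval_sub_left (by'.nsq.ii 0 (t + h))
        (by'.nsq.ii 0 t)).symm
    rw [this]
    have c := intervalIntegral.continuous_primitive by'.nsq.ii 0
    exact (c.comp (by fun_prop)).sub c
  have h2 := intervalIntegral.integral_mono_on (μ := volume) hτ.le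
    ((((bP.shift h).sub bP).rin bD).ii _ _)
    (((cA.intervalIntegrable _ _).const_mul _).add ((bD.nsq.ii _ _).const_mul _))
    fun t (_ : t ∈ Icc (0 : ℝ) τ) => h1 t
  rw [intervalIntegral.integral_add ((cA.intervalIntegrable _ _).const_mul _)
    ((bD.nsq.ii _ _).const_mul _), intervalIntegral.integral_const_mul,
    intervalIntegral.integral_const_mul,
    avg_int (f := fun σ => ‖y σ‖ ^ 2) (fun t => by simp only [py t]) by'.nsq.ii] at h2
  have h3 := yv_sq hτ he pe s h
  rw [← hy] at h3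
  set d := ∫ t in (0 : ℝ)..τ, ‖e (t + h) - e t‖ ^ 2
  have d0 : 0 ≤ d := intervalIntegral.integral_nonneg hτ.le fun t _ => sq_nonneg _
  have h4 : (4 * s)⁻¹ * (h * ∫ t in (0 : ℝ)..τ, ‖y t‖ ^ 2) ≤ h * s * d := by
    calc (4 * s)⁻¹ * (h * ∫ t in (0 : ℝ)..τ, ‖y t‖ ^ 2) ≤ (4 * s)⁻¹ * (h * (4 * s ^ 2 * d)) := by
          gcongr
      _ = h * s * d := by field_simp
  have h5 : h * s * d ≤ s * d := by
    have : 0 ≤ s * d := by positivity
    nlinarith
  rw [e1]
  nlinarith

theorem om_smul_unit {v : V n} (hv : ‖v‖ = 1) (c c' : ℂ) :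
    om (c • v) (c' • v) = ((starRingEnd ℂ) c * c').im := by
  have : (inner ℂ v v : ℂ) = 1 := by
    rw [inner_self_eq_norm_sq_to_K, hv]; simp
  simp only [om, rin, inner_smul_left, inner_smul_right, this]
  simp
  ring

theorem step_ineq {Hs : V n → ℝ} (hHc : Continuous Hs) {C τ s h ν a : ℝ} (hτ : 0 < τ)
    (hC : 0 ≤ C) (hs : 0 < s) (hsC : (8 * C + 1) * s ≤ 1 / 4) (hh : 0 < h) (hh1 : h ≤ 1)
    {g z : ℝ → V n} (hg : BM g) (hz : BM z) (pg : Periodic g τ) (pz : Periodic z τ)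
    (g0 : ∫ t in (0 : ℝ)..τ, g t = 0)
    (hq : ∀ t w, Hs ((-Complex.I) • g t + w) ≤ 1 + rin (z t) w + C * ‖w‖ ^ 2)
    {W W' : ℝ → ℂ} (hW' : BM W') (pW : Periodic W τ) (pW' : Periodic W' τ)
    (hW : ∀ t t', W t - W t' = ∫ σ in t'..t, W' σ) (hν : ∀ t, ‖W' t‖ ≤ ν)
    {v : V n} (hv : ‖v‖ = 1) {e U : ℝ → V n} (he : ∀ t, e t = z t - ∫ σ in (0 : ℝ)..t, g σ)
    (hU : ∀ t, U t = g t + (yv s h e t + a • W' t • v)) :
    ∫ t in (0 : ℝ)..τ, U t = 0 ∧
    (∫ t in (0 : ℝ)..τ, Hs ((-Complex.I) • U t)) -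
        1 / 2 * ∫ t in (0 : ℝ)..τ, om (∫ σ in (0 : ℝ)..t, U σ) (U t) ≤
      (τ - 1 / 2 * ∫ t in (0 : ℝ)..τ, om (∫ σ in (0 : ℝ)..t, g σ) (g t)) -
        s / 2 * (∫ t in (0 : ℝ)..τ, ‖e (t + h) - e t‖ ^ 2) +
        a * (∫ t in (0 : ℝ)..τ, om (e t) (W' t • v)) -
        a ^ 2 * (1 / 2 * (∫ t in (0 : ℝ)..τ, ((starRingEnd ℂ) (W t) * W' t).im) -
          (2 * C + 2) * ν ^ 2 * τ) := by
  set x : ℝ → V n := fun t => ∫ σ in (0 : ℝ)..t, g σ with hx
  have bx : BM x := hg.prim hτ pg g0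
  have px : Periodic x τ := prim_periodic pg hg.ii g0
  have he' : e = fun t => z t - x t := funext he
  have be : BM e := he' ▸ hz.sub bx
  have pe : Periodic e τ := fun t => by rw [he']; simp only [pz t, px t]
  set y := yv s h e with hy
  set w : ℝ → V n := fun t => W' t • v with hw
  have by' : BM y := be.yv s h
  have bw : BM w := hW'.smulv v
  have py : Periodic y τ := yv_periodic pe s h
  have pw : Periodic w τ := fun t => by simp only [hw, pW' t]
  have y0 : ∫ t in (0 : ℝ)..τ, y t = 0 := yv_int be pe s h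
  have W0 : ∫ t in (0 : ℝ)..τ, W' t = 0 := by
    rw [← hW, ← pW 0, zero_add, sub_self]
  have w0 : ∫ t in (0 : ℝ)..τ, w t = 0 := by
    simp only [hw]
    rw [intervalIntegral.integral_smul_const, W0, zero_smul]
  set ξ : ℝ → V n := fun t => y t + a • w t with hξ
  have bξ : BM ξ := by'.add (bw.rsmul a)
  have pξ : Periodic ξ τ := fun t => by simp only [hξ, py t, pw t]
  have Pξ : ∀ t, ∫ σ in (0 : ℝ)..t, ξ σ =
      (∫ σ in (0 : ℝ)..t, y σ) + a • ∫ σ in (0 : ℝ)..t, w σ := fun t => by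
    simp only [hξ]
    rw [intervalIntegral.integral_add (by'.ii _ _) ((bw.rsmul a).ii _ _),
      intervalIntegral.integral_smul]
  have ξ0 : ∫ t in (0 : ℝ)..τ, ξ t = 0 := by rw [Pξ, y0, w0]; simp
  have hU' : U = fun t => g t + ξ t := funext hU
  have PU : ∀ t, ∫ σ in (0 : ℝ)..t, U σ = x t + ∫ σ in (0 : ℝ)..t, ξ σ := fun t => by
    rw [hU', intervalIntegral.integral_add (hg.ii _ _) (bξ.ii _ _)]
  have bPξ := bξ.prim hτ pξ ξ0
  have bPy := by'.prim hτ py y0
  have bPw := bw.prim hτ pw w0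
  refine ⟨by rw [PU, ξ0]; simpa using g0, ?_⟩
  set d := ∫ t in (0 : ℝ)..τ, ‖e (t + h) - e t‖ ^ 2 with hd
  have d0 : 0 ≤ d := intervalIntegral.integral_nonneg hτ.le fun t _ => sq_nonneg _
  have bD : BM (fun t => e (t + h) - e t) := (be.shift h).sub be
  -- energy
  have s1 : ∫ t in (0 : ℝ)..τ, Hs ((-Complex.I) • U t) ≤
      τ + (∫ t in (0 : ℝ)..τ, om (z t) (ξ t)) + C * ∫ t in (0 : ℝ)..τ, ‖ξ t‖ ^ 2 := by
    have bU : BM U := hU' ▸ hg.add bξ
    refine (intervalIntegral.integral_mono_on (g := fun t => 1 + om (z t) (ξ t) + C * ‖ξ t‖ ^ 2)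
      hτ.le (((bU.csmul _).cont hHc).ii _ _)
      ((intervalIntegrable_const.add ((hz.om bξ).ii _ _)).add ((bξ.nsq.ii _ _).const_mul _))
      fun t _ => ?_).trans_eq ?_
    · have := hq t ((-Complex.I) • ξ t)
      rw [norm_negI_smul, ← smul_add] at this
      rw [hU']
      exact this
    · rw [intervalIntegral.integral_add (intervalIntegrable_const.add ((hz.om bξ).ii _ _))
        ((bξ.nsq.ii _ _).const_mul _), intervalIntegral.integral_add intervalIntegrable_const
        ((hz.om bξ).ii _ _), intervalIntegral.integral_const_mul]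
      simp
  -- area
  have s2 : ∫ t in (0 : ℝ)..τ, om (∫ σ in (0 : ℝ)..t, U σ) (U t) =
      (∫ t in (0 : ℝ)..τ, om (x t) (g t)) + 2 * (∫ t in (0 : ℝ)..τ, om (x t) (ξ t)) +
        ∫ t in (0 : ℝ)..τ, om (∫ σ in (0 : ℝ)..t, ξ σ) (ξ t) := by
    have sy := integral_om_prim_symm hτ.le (bξ.ii 0 τ) (hg.ii 0 τ) ξ0
    simp only [PU]
    rw [hU']
    simp only [om_add_left, om_add_right]
    rw [intervalIntegral.integral_add (((bx.om hg).ii _ _).add ((bPξ.om hg).ii _ _))
      (((bx.om bξ).ii _ _).add ((bPξ.om bξ).ii _ _)),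
      intervalIntegral.integral_add ((bx.om hg).ii _ _) ((bPξ.om hg).ii _ _),
      intervalIntegral.integral_add ((bx.om bξ).ii _ _) ((bPξ.om bξ).ii _ _), sy]
    ring
  have s3 : (∫ t in (0 : ℝ)..τ, om (z t) (ξ t)) - ∫ t in (0 : ℝ)..τ, om (x t) (ξ t) =
      -s * d + a * ∫ t in (0 : ℝ)..τ, om (e t) (w t) := by
    rw [← intervalIntegral.integral_sub ((hz.om bξ).ii _ _) ((bx.om bξ).ii _ _)]
    have a1 : ∫ t in (0 : ℝ)..τ, om (e t) (y t) = -s * d := by
      simp only [hy, om_yv]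
      rw [intervalIntegral.integral_const_mul, pair_id be be pe pe]
      simp only [rin_self, hd]
    rw [← a1, ← intervalIntegral.integral_const_mul,
      ← intervalIntegral.integral_add ((be.om by').ii _ _) (((be.om bw).ii _ _).const_mul _)]
    refine intervalIntegral.integral_congr fun t _ => ?_
    simp only [hξ]
    rw [← om_sub_left, ← om_smul_right, ← om_add_right, he t]
  have hν0 : 0 ≤ ν := (norm_nonneg _).trans (hν 0)
  have nw : ∀ t, ‖w t‖ ≤ ν := fun t => by simp only [hw, norm_smul, hv, mul_one, hν t]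
  have s4 : ∫ t in (0 : ℝ)..τ, ‖ξ t‖ ^ 2 ≤ 8 * s ^ 2 * d + 2 * a ^ 2 * ν ^ 2 * τ := by
    have a1 := yv_sq hτ be pe s h
    rw [← hy, ← hd] at a1
    have a2 := intervalIntegral.integral_mono_on (μ := volume) hτ.le (bξ.nsq.ii 0 τ)
      (g := fun t => 2 * ‖y t‖ ^ 2 + 2 * a ^ 2 * ν ^ 2)
      (((by'.nsq.ii _ _).const_mul _).add intervalIntegrable_const) (fun t _ => by
        have b1 : ‖ξ t‖ ≤ ‖y t‖ + |a| * ν := by
          refine (norm_add_le _ _).trans ?_
          rw [norm_smul, Real.norm_eq_abs]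
          gcongr
          exact nw t
        have b2 := pow_le_pow_left₀ (norm_nonneg _) b1 2
        have b3 : (|a| * ν) ^ 2 = a ^ 2 * ν ^ 2 := by rw [mul_pow, sq_abs]
        nlinarith [sq_nonneg (‖y t‖ - |a| * ν)])
    rw [intervalIntegral.integral_add ((by'.nsq.ii _ _).const_mul _) intervalIntegrable_const,
      intervalIntegral.integral_const_mul] at a2
    simp only [intervalIntegral.integral_const, sub_zero, smul_eq_mul] at a2
    linarith
  have s5 : ∫ t in (0 : ℝ)..τ, om (∫ σ in (0 : ℝ)..t, ξ σ) (ξ t) =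
      (∫ t in (0 : ℝ)..τ, om (∫ σ in (0 : ℝ)..t, y σ) (y t)) +
        2 * a * (∫ t in (0 : ℝ)..τ, om (∫ σ in (0 : ℝ)..t, w σ) (y t)) +
        a ^ 2 * ∫ t in (0 : ℝ)..τ, om (∫ σ in (0 : ℝ)..t, w σ) (w t) := by
    have sy := integral_om_prim_symm hτ.le (by'.ii 0 τ) (bw.ii 0 τ) y0
    simp only [Pξ]
    simp only [hξ, om_add_left, om_add_right, om_smul_left, om_smul_right]
    rw [intervalIntegral.integral_add
      (((bPy.om by').ii _ _).add (((bPw.om by').ii _ _).const_mul _))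
      ((((bPy.om bw).ii _ _).add (((bPw.om bw).ii _ _).const_mul _)).const_mul _),
      intervalIntegral.integral_add ((bPy.om by').ii _ _) (((bPw.om by').ii _ _).const_mul _),
      intervalIntegral.integral_const_mul, intervalIntegral.integral_const_mul,
      intervalIntegral.integral_add ((bPy.om bw).ii _ _) (((bPw.om bw).ii _ _).const_mul _),
      intervalIntegral.integral_const_mul, sy]
    ring
  have s6 := area_yv hτ be pe hs hh hh1
  rw [← hy, ← hd] at s6
  have Pw : ∀ t, ∫ σ in (0 : ℝ)..t, w σ = (W t - W 0) • v := fun t => by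
    simp only [hw]
    rw [intervalIntegral.integral_smul_const, hW]
  have s7 : ∫ t in (0 : ℝ)..τ, om (∫ σ in (0 : ℝ)..t, w σ) (w t) =
      ∫ t in (0 : ℝ)..τ, ((starRingEnd ℂ) (W t) * W' t).im := by
    have a0 : ∫ t in (0 : ℝ)..τ, om (W 0 • v) (w t) = 0 := by
      have := (omL n (W 0 • v)).intervalIntegral_comp_comm (bw.ii 0 τ)
      simp only [omL_apply] at this
      rw [this, w0, om_zero_right]
    have a1 : ∀ t, ((starRingEnd ℂ) (W t) * W' t).im =
        om (∫ σ in (0 : ℝ)..t, w σ) (w t) + om (W 0 • v) (w t) := fun t => by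
      rw [Pw, ← om_add_left, ← add_smul, sub_add_cancel, om_smul_unit hv]
    simp only [a1]
    rw [intervalIntegral.integral_add ((bPw.om bw).ii _ _) (((BM.const _).om bw).ii _ _), a0,
      add_zero]
  have s1' : s ≤ 1 := by nlinarith
  have s8 : -(s * d / 8 + 2 * a ^ 2 * ν ^ 2 * τ) ≤
      a * ∫ t in (0 : ℝ)..τ, om (∫ σ in (0 : ℝ)..t, w σ) (y t) := by
    set P : ℝ → V n := fun t => ∫ σ in (0 : ℝ)..t, w σ with hP
    have pP : Periodic P τ := prim_periodic pw bw.ii w0
    have a1 : ∫ t in (0 : ℝ)..τ, om (P t) (y t) =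
        -s * ∫ t in (0 : ℝ)..τ, rin (P (t + h) - P t) (e (t + h) - e t) := by
      rw [← pair_id bPw be pP pe, ← intervalIntegral.integral_const_mul]
      exact intervalIntegral.integral_congr fun t _ => om_yv _ _ _ _ _
    have a2 : ∀ t, ‖P (t + h) - P t‖ ≤ ν := fun t => by
      have b1 : P (t + h) - P t = ∫ σ in t..t + h, w σ :=
        intervalIntegral.integral_interval_sub_left (bw.ii 0 (t + h)) (bw.ii 0 t)
      rw [b1]
      refine (intervalIntegral.norm_integral_le_of_norm_le_const fun σ _ => nw σ).trans ?_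
      rw [add_sub_cancel_left, abs_of_pos hh]
      exact mul_le_of_le_one_right hν0 hh1
    have a3 := intervalIntegral.integral_mono_on (μ := volume) hτ.le
      (((((bPw.shift h).sub bPw).rin bD).ii 0 τ).const_mul a)
      (g := fun t => 8⁻¹ * ‖e (t + h) - e t‖ ^ 2 + 2 * a ^ 2 * ν ^ 2)
      (((bD.nsq.ii _ _).const_mul _).add intervalIntegrable_const) (fun t _ => by
        have b1 : a * rin (P (t + h) - P t) (e (t + h) - e t) ≤
            |a| * (ν * ‖e (t + h) - e t‖) := by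
          refine (le_abs_self _).trans ?_
          rw [abs_mul]
          exact mul_le_mul_of_nonneg_left ((abs_rin_le _ _).trans
            (mul_le_mul_of_nonneg_right (a2 t) (norm_nonneg _))) (abs_nonneg _)
        have b3 : (|a| * ν) ^ 2 = a ^ 2 * ν ^ 2 := by rw [mul_pow, sq_abs]
        nlinarith [sq_nonneg (‖e (t + h) - e t‖ - 4 * (|a| * ν))])
    rw [intervalIntegral.integral_add ((bD.nsq.ii _ _).const_mul _) intervalIntegrable_const,
      intervalIntegral.integral_const_mul, intervalIntegral.integral_const_mul] at a3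
    simp only [intervalIntegral.integral_const, sub_zero, smul_eq_mul] at a3
    rw [a1]
    have a4 : 0 ≤ τ * (2 * a ^ 2 * ν ^ 2) := by positivity
    have a5 := mul_le_mul_of_nonneg_left a3 hs.le
    have a6 := mul_le_mul_of_nonneg_right s1' a4
    rw [← hd] at a5
    linarith
  rw [s2, s5, s7]
  have s9 := mul_le_mul_of_nonneg_left s4 hC
  have s10 : (8 * C + 1) * s * (s * d) ≤ 1 / 4 * (s * d) :=
    mul_le_mul_of_nonneg_right hsC (by positivity)
  have s11 : 0 ≤ s * d := by positivity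
  linarith

end Pool.Agent.Lib.MP_f78106_gt
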