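import Mathlib

/-!
Statement vocabulary: Clarke's dual action functional of a convex body in `ℂⁿ = ℝ²ⁿ`, the
Fadell-Rabinowitz index of circle spaces (rational singular homology of the Borel construction)
and the resulting min-max values (Ekeland-Hofer spectral invariants).
-/

namespace Pool.Agent.Lib.MP_f78106_gt.S

open MeasureTheory Set CategoryTheory
open scoped ENNReal

section Index

variable {H : Type} [NormedAddCommGroup H] [NormedSpace ℂ H] {Y : Type}

/-- The unit sphere of `H`; for `H = ℓ²(ℕ, ℂ)` it is the model `ES¹`. -/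
abbrev ES (H : Type) [NormedAddCommGroup H] : Type := Metric.sphere (0 : H) 1

/-- The rotation by `θ` takes the unit vector `v` to `w`. -/
def Rot (θ : UnitAddCircle) (v w : ES H) : Prop :=
  ((θ.toCircle : Circle) : ℂ) • (v : H) = (w : H)

/-- Same orbit of the circle action on the unit sphere. -/
def RelB (v w : ES H) : Prop := ∃ θ : UnitAddCircle, Rot θ v w

/-- Same orbit of the diagonal circle action on `X × ES¹`. -/
def RelE (a : UnitAddCircle → Y → Y) (X : Set Y) (p q : X × ES H) : Prop :=
  ∃ θ : UnitAddCircle, a θ (p.1 : Y) = (q.1 : Y) ∧ Rot θ p.2 q.2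

/-- The projection `(X × ES¹) / S¹ → ES¹ / S¹ = BS¹` of the Borel construction of a subset `X` of
a space with circle action `a`. -/
noncomputable def borelProj (H : Type) [NormedAddCommGroup H] [NormedSpace ℂ H]
    [TopologicalSpace Y] (a : UnitAddCircle → Y → Y) (X : Set Y) :
    C(Quot (RelE (H := H) a X), Quot (RelB (H := H))) where
  toFun := Quot.map Prod.snd (fun _ _ h => h.imp fun _ h => h.2)
  continuous_toFun := continuous_quot_lift _ (continuous_quot_mk.comp continuous_snd)

/-- A continuous map is onto in rational singular homology in degree `j`. -/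
def HomologyOnto {A B : Type} [TopologicalSpace A] [TopologicalSpace B] (f : C(A, B)) (j : ℕ) :
    Prop :=
  Function.Surjective
    (((AlgebraicTopology.singularHomologyFunctor (ModuleCat ℚ) j).obj (ModuleCat.of ℚ ℚ)).map
      (TopCat.ofHom f)).hom

/-- Fadell-Rabinowitz index at least `k` (with `ES¹` the unit sphere of `H`): the projection of
the Borel construction to `BS¹` is onto in rational singular homology in all degrees below
`2 k`. -/
def IndexGE (H : Type) [NormedAddCommGroup H] [NormedSpace ℂ H] [TopologicalSpace Y]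
    (a : UnitAddCircle → Y → Y) (X : Set Y) (k : ℕ) : Prop :=
  ∀ j < 2 * k, HomologyOnto (borelProj H a X) j

/-- The Hilbert space `ℓ²(ℕ, ℂ)`. -/
abbrev Hil : Type := lp (fun _ : ℕ => ℂ) 2

end Index

section Clarke

variable {E : Type} [NormedAddCommGroup E]

/-- Velocities of loops: `L²(ℝ/ℤ, E)`. -/
abbrev Loop (E : Type) [NormedAddCommGroup E] : Type := Lp E 2 (volume : Measure UnitAddCircle)

/-- The composition `u ∘ f` of an `L²` function with a measure preserving map. -/
noncomputable def pull {T : Type} [MeasurableSpace T] {μ : Measure T} (f : T → T)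
    (hf : MeasurePreserving f μ μ) (u : Lp E 2 μ) : Lp E 2 μ :=
  Lp.compMeasurePreserving f hf u

/-- The circle action on loops by time shift: `shift θ u` is `t ↦ u (t + θ)`. -/
noncomputable def shift (θ : UnitAddCircle) (u : Loop E) : Loop E :=
  pull (fun t => t + θ) (measurePreserving_add_right volume θ) u

variable [InnerProductSpace ℂ E]

/-- The Euclidean (real) inner product. -/
noncomputable def rin (x y : E) : ℝ := (inner ℂ x y).re

/-- A uniformly convex domain with the origin in its interior: a compact convex set `{f ≤ 0}`,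
with `f` of class `C²`, `df ≠ 0` on the boundary `{f = 0}` and the Hessian of `f` positive
definite on the tangent spaces of the boundary. -/
def UnifConvex (Ω : Set E) : Prop :=
  IsCompact Ω ∧ Convex ℝ Ω ∧ (0 : E) ∈ interior Ω ∧
    ∃ f : E → ℝ, ContDiff ℝ 2 f ∧ Ω = {x | f x ≤ 0} ∧
      ∀ z, f z = 0 → fderiv ℝ f z ≠ 0 ∧
        ∀ v, v ≠ 0 → fderiv ℝ f z v = 0 → 0 < fderiv ℝ (fun y => fderiv ℝ f y v) z v

/-- The support function of `Ω`. -/
noncomputable def supp (Ω : Set E) (v : E) : ℝ :=
  sSup ((fun x => rin x v) '' Ω)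

/-- The path with velocity `u` starting at the origin. -/
noncomputable def prim (u : Loop E) (t : ℝ) : E :=
  ∫ s in (0 : ℝ)..t, u (s : UnitAddCircle)

/-- The symplectic action (area) `½ ∫ ⟨x, -J ẋ⟩` of the path `x` with velocity `u`. -/
noncomputable def action (u : Loop E) : ℝ :=
  (1 / 2) * ∫ t in (0 : ℝ)..1, rin (prim u t) ((-Complex.I) • u (t : UnitAddCircle))

/-- Clarke's dual functional `¼ ∫ h_Ω(-J ẋ)²`. -/
noncomputable def clarke (Ω : Set E) (u : Loop E) : ℝ :=
  ∫ t in (0 : ℝ)..1, supp Ω ((-Complex.I) • u (t : UnitAddCircle)) ^ 2 / 4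

/-- Closed loops of action one on which Clarke's functional is smaller than `L`. -/
def sublevel (Ω : Set E) (L : ℝ) : Set (Loop E) :=
  {u | prim u 1 = 0 ∧ action u = 1 ∧ clarke Ω u < L}

/-- The `k`-th min-max value: the infimum of the levels whose sublevel set of Clarke's functional
has index at least `k`. -/
noncomputable def cap (Ω : Set E) (k : ℕ) : ℝ≥0∞ :=
  ⨅ (L : ℝ) (_ : IndexGE Hil shift (sublevel Ω L) k), ENNReal.ofReal L

end Clarke

end Pool.Agent.Lib.MP_f78106_gt.S
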