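import Pool.Agent.Lib.MP_f78106_gt.Fam

/-!
The slow wave, first part: squared phases, Blaschke factors and the Poisson kernel.
-/

namespace Pool.Agent.Lib.MP_f78106_gt

open MeasureTheory Set Filter Topology Polynomial
open scoped Real

namespace Wave

/-- The squared phase. -/
noncomputable def uu (z : ℂ) : ℂ := z ^ 2 / ((‖z‖ ^ 2 : ℝ) : ℂ)

theorem uu_mul (z w : ℂ) : uu (z * w) = uu z * uu w := by
  unfold uu
  rw [div_mul_div_comm, norm_mul, mul_pow, mul_pow]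
  push_cast
  rfl

theorem uu_one : uu 1 = 1 := by simp [uu]

theorem uu_prod {ι : Type} (s : Finset ι) (f : ι → ℂ) : uu (∏ i ∈ s, f i) = ∏ i ∈ s, uu (f i) := by
  classical
  induction s using Finset.induction_on with
  | empty => simp [uu_one]
  | insert a s ha ih => rw [Finset.prod_insert ha, Finset.prod_insert ha, uu_mul, ih]

theorem norm_uu {z : ℂ} (hz : z ≠ 0) : ‖uu z‖ = 1 := by
  unfold uu
  rw [norm_div, norm_pow, Complex.norm_real, Real.norm_of_nonneg (by positivity)]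
  exact div_self (pow_ne_zero _ (norm_ne_zero_iff.2 hz))

theorem norm_uu_le (z : ℂ) : ‖uu z‖ ≤ 1 := by
  rcases eq_or_ne z 0 with rfl | hz
  · simp [uu]
  · exact (norm_uu hz).le

theorem uu_of_norm {z : ℂ} (hz : ‖z‖ = 1) : uu z = z ^ 2 := by simp [uu, hz]

theorem uu_eq {z : ℂ} (hz : z ≠ 0) : uu z = z / (starRingEnd ℂ) z := by
  unfold uu
  have h : ((‖z‖ ^ 2 : ℝ) : ℂ) = z * (starRingEnd ℂ) z := by
    rw [Complex.mul_conj, Complex.normSq_eq_norm_sq]
  have h' : (starRingEnd ℂ) z ≠ 0 := by simpa using hz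
  rw [h]
  field_simp

theorem continuousAt_uu {z : ℂ} (hz : z ≠ 0) : ContinuousAt uu z := by
  unfold uu
  refine ContinuousAt.div (by fun_prop) (by fun_prop) ?_
  exact_mod_cast pow_ne_zero _ (norm_ne_zero_iff.2 hz)

theorem measurable_uu : Measurable uu := by
  unfold uu
  exact Measurable.div (by fun_prop) (by fun_prop)

theorem norm_prod_le {ι : Type} (s : Finset ι) (f : ι → ℂ) (hf : ∀ i, ‖f i‖ ≤ 1) :
    ‖∏ i ∈ s, f i‖ ≤ 1 := by
  rw [norm_prod]
  exact Finset.prod_le_one (fun _ _ => norm_nonneg _) fun i _ => hf i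

theorem norm_prod_sub {ι : Type} (s : Finset ι) (f g : ι → ℂ) (hf : ∀ i, ‖f i‖ ≤ 1)
    (hg : ∀ i, ‖g i‖ ≤ 1) : ‖∏ i ∈ s, f i - ∏ i ∈ s, g i‖ ≤ ∑ i ∈ s, ‖f i - g i‖ := by
  classical
  induction s using Finset.induction_on with
  | empty => simp
  | insert a s ha ih =>
    rw [Finset.prod_insert ha, Finset.prod_insert ha, Finset.sum_insert ha]
    have e : f a * ∏ i ∈ s, f i - g a * ∏ i ∈ s, g i
        = (f a - g a) * ∏ i ∈ s, f i + g a * (∏ i ∈ s, f i - ∏ i ∈ s, g i) := by ring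
    rw [e]
    refine (norm_add_le _ _).trans (add_le_add ?_ ?_)
    · rw [norm_mul]
      exact mul_le_of_le_one_right (norm_nonneg _) (norm_prod_le s f hf)
    · rw [norm_mul]
      exact (mul_le_of_le_one_left (norm_nonneg _) (hg a)).trans ih

/-- The absolute Poisson kernel. -/
noncomputable def PP (a z : ℂ) : ℝ := |1 - ‖a‖ ^ 2| / ‖z - a‖ ^ 2

theorem PP_nonneg (a z : ℂ) : 0 ≤ PP a z := by unfold PP; positivity

theorem conj_sub {a z : ℂ} (hz : ‖z‖ = 1) :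
    (starRingEnd ℂ) (z - a) * z = 1 - (starRingEnd ℂ) a * z := by
  have h : (starRingEnd ℂ) z * z = 1 := by
    rw [Complex.conj_mul', hz]; simp
  rw [map_sub, sub_mul, h]

theorem norm_one_sub {a z : ℂ} (hz : ‖z‖ = 1) : ‖1 - (starRingEnd ℂ) a * z‖ = ‖z - a‖ := by
  rw [← conj_sub hz, norm_mul, hz, mul_one, Complex.norm_conj]

theorem uu_sub {a z : ℂ} (hz : ‖z‖ = 1) (ha : z ≠ a) :
    uu (z - a) = z * ((z - a) / (1 - (starRingEnd ℂ) a * z)) := by
  have h0 : z ≠ 0 := by rintro rfl; simp at hz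
  have h1 : (starRingEnd ℂ) (z - a) ≠ 0 := (_root_.map_ne_zero _).2 (sub_ne_zero.2 ha)
  rw [uu_eq (sub_ne_zero.2 ha), ← conj_sub hz]
  field_simp

theorem factor_le {a z w : ℂ} (hz : ‖z‖ = 1) (hw : ‖w‖ = 1) (hza : z ≠ a) (hwa : w ≠ a) :
    ‖uu (z - a) - uu (w - a)‖ ≤ ‖z - w‖ * (1 + (PP a z + PP a w) / 2) := by
  have hx : 0 < ‖z - a‖ := norm_pos_iff.2 (sub_ne_zero.2 hza)
  have hy : 0 < ‖w - a‖ := norm_pos_iff.2 (sub_ne_zero.2 hwa)
  have hz' : 1 - (starRingEnd ℂ) a * z ≠ 0 := by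
    rw [← norm_pos_iff, norm_one_sub hz]; exact hx
  have hw' : 1 - (starRingEnd ℂ) a * w ≠ 0 := by
    rw [← norm_pos_iff, norm_one_sub hw]; exact hy
  rw [uu_sub hz hza, uu_sub hw hwa]
  set bz := (z - a) / (1 - (starRingEnd ℂ) a * z) with hbz
  set bw := (w - a) / (1 - (starRingEnd ℂ) a * w) with hbw
  have n1 : ‖bz‖ = 1 := by rw [hbz, norm_div, norm_one_sub hz, div_self hx.ne']
  have e1 : bz - bw = (z - w) * ((1 - ‖a‖ ^ 2 : ℝ) : ℂ) /
      ((1 - (starRingEnd ℂ) a * z) * (1 - (starRingEnd ℂ) a * w)) := by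
    have h : ((1 - ‖a‖ ^ 2 : ℝ) : ℂ) = 1 - a * (starRingEnd ℂ) a := by
      rw [Complex.mul_conj, Complex.normSq_eq_norm_sq]; push_cast; ring
    rw [h, hbz, hbw, div_sub_div _ _ hz' hw']
    congr 1
    ring
  have n2 : ‖bz - bw‖ ≤ ‖z - w‖ * ((PP a z + PP a w) / 2) := by
    rw [e1, norm_div, norm_mul, norm_mul, norm_one_sub hz, norm_one_sub hw, Complex.norm_real,
      Real.norm_eq_abs, mul_div_assoc]
    refine mul_le_mul_of_nonneg_left ?_ (norm_nonneg _)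
    unfold PP
    have e : (|1 - ‖a‖ ^ 2| / ‖z - a‖ ^ 2 + |1 - ‖a‖ ^ 2| / ‖w - a‖ ^ 2) / 2
        - |1 - ‖a‖ ^ 2| / (‖z - a‖ * ‖w - a‖)
        = |1 - ‖a‖ ^ 2| * (‖z - a‖⁻¹ - ‖w - a‖⁻¹) ^ 2 / 2 := by
      field_simp
      ring
    have : 0 ≤ |1 - ‖a‖ ^ 2| * (‖z - a‖⁻¹ - ‖w - a‖⁻¹) ^ 2 / 2 := by positivity
    linarith
  have e2 : z * bz - w * bw = (z - w) * bz + w * (bz - bw) := by ring
  rw [e2]
  refine (norm_add_le _ _).trans ?_
  rw [norm_mul, norm_mul, n1, hw]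
  linarith

theorem PP_cont (a : ℂ) : Continuous fun θ : ℝ => PP a (circleMap 0 1 θ) := by
  rcases eq_or_ne ‖a‖ 1 with h | h
  · simp only [PP, h]
    simp [continuous_const]
  · unfold PP
    refine Continuous.div continuous_const (by fun_prop) fun θ => ?_
    refine pow_ne_zero _ (norm_ne_zero_iff.2 (sub_ne_zero.2 fun e => h ?_))
    rw [← e]; simp

theorem PP_int_lt {a : ℂ} (ha : ‖a‖ < 1) :
    ∫ θ in (0 : ℝ)..2 * π, PP a (circleMap 0 1 θ) = 2 * π := by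
  have h := DiffContOnCl.circleAverage_poissonKernel_smul' (f := fun _ : ℂ => (1 : ℂ)) (c := 0)
    (R := 1) (w := a) (diffContOnCl_const) (by simpa using ha)
  rw [Real.circleAverage_def] at h
  have e : ∀ θ : ℝ, ((‖circleMap 0 1 θ - 0‖ ^ 2 - ‖a - 0‖ ^ 2) /
      ‖(circleMap 0 1 θ - 0) - (a - 0)‖ ^ 2) • (1 : ℂ) = ((PP a (circleMap 0 1 θ) : ℝ) : ℂ) := by
    intro θ
    have : 0 ≤ 1 - ‖a‖ ^ 2 := by nlinarith [norm_nonneg a]
    simp [PP, abs_of_nonneg this]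
  simp only [e] at h
  rw [intervalIntegral.integral_ofReal, Complex.real_smul, ← Complex.ofReal_mul] at h
  have h2 : (2 * π)⁻¹ * ∫ θ in (0 : ℝ)..2 * π, PP a (circleMap 0 1 θ) = 1 := by exact_mod_cast h
  have hp : (2 * π : ℝ) ≠ 0 := by positivity
  field_simp at h2
  linarith

theorem PP_int (a : ℂ) : ∫ θ in (0 : ℝ)..2 * π, PP a (circleMap 0 1 θ) ≤ 2 * π := by
  rcases lt_trichotomy ‖a‖ 1 with h | h | h
  · exact (PP_int_lt h).le
  · simp only [PP, h]
    simp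
    positivity
  · have h0 : 0 < ‖a‖ := by linarith
    have ha : a ≠ 0 := norm_pos_iff.1 h0
    have ha' : (starRingEnd ℂ) a ≠ 0 := by simpa using ha
    have hb : ‖((starRingEnd ℂ) a)⁻¹‖ = ‖a‖⁻¹ := by simp
    refine le_of_eq (Eq.trans (intervalIntegral.integral_congr fun θ _ => ?_)
      (PP_int_lt (a := ((starRingEnd ℂ) a)⁻¹) (by rw [hb]; exact inv_lt_one_of_one_lt₀ h)))
    have hz : ‖circleMap 0 1 θ‖ = 1 := by simp
    change PP a (circleMap 0 1 θ) = PP _ (circleMap 0 1 θ)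
    generalize circleMap 0 1 θ = z at hz
    have e : ‖z - ((starRingEnd ℂ) a)⁻¹‖ = ‖z - a‖ * ‖a‖⁻¹ := by
      rw [← norm_one_sub (a := a) hz, ← hb, ← norm_mul, ← norm_neg]
      congr 1
      field_simp
      ring
    unfold PP
    rw [e, hb, abs_of_nonpos (by nlinarith), abs_of_nonneg]
    · field_simp
      ring
    · have : ‖a‖⁻¹ < 1 := inv_lt_one_of_one_lt₀ h
      have h' : 0 < ‖a‖⁻¹ := inv_pos.2 h0
      nlinarith

/-- The basic exponential. -/
noncomputable def ze (τ t : ℝ) : ℂ := circleMap 0 1 (2 * π / τ * t)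

theorem ze_eq (τ t : ℝ) : ze τ t = Complex.exp (((2 * π / τ * t : ℝ) : ℂ) * Complex.I) := by
  simp [ze, circleMap]

theorem norm_ze (τ t : ℝ) : ‖ze τ t‖ = 1 := by simp [ze]

theorem ze_add (τ t σ : ℝ) : ze τ (t + σ) = ze τ t * ze τ σ := by
  rw [ze_eq, ze_eq, ze_eq, ← Complex.exp_add]
  congr 1
  push_cast
  ring

theorem continuous_ze (τ : ℝ) : Continuous (ze τ) := by unfold ze; fun_prop

theorem ze_period {τ : ℝ} (hτ : 0 < τ) (t : ℝ) : ze τ (t + τ) = ze τ t := by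
  unfold ze
  have : 2 * π / τ * (t + τ) = 2 * π / τ * t + 2 * π := by field_simp
  rw [this, periodic_circleMap]

theorem norm_ze_sub {τ : ℝ} (hτ : 0 < τ) (t : ℝ) {σ : ℝ} (hσ : 0 ≤ σ) :
    ‖ze τ (t + σ) - ze τ t‖ ≤ 2 * π / τ * σ := by
  have e : ze τ (t + σ) - ze τ t = ze τ t * (ze τ σ - 1) := by rw [ze_add]; ring
  rw [e, norm_mul, norm_ze, one_mul, ze_eq, mul_comm _ Complex.I]
  refine Real.norm_exp_I_mul_ofReal_sub_one_le.trans (le_of_eq ?_)
  exact Real.norm_of_nonneg (by positivity)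

theorem ze_countable {τ : ℝ} (hτ : 0 < τ) {s : Set ℂ} (hs : s.Countable) (σ : ℝ) :
    {t | ze τ (t + σ) ∈ s}.Countable := by
  have h := (hs.preimage_circleMap 0 one_ne_zero).preimage
    (f := fun t : ℝ => 2 * π / τ * (t + σ)) (by
      intro x y hxy
      have : (2 * π / τ : ℝ) ≠ 0 := by positivity
      simpa [this] using hxy)
  exact h

theorem PP_ze_cont (τ : ℝ) (a : ℂ) (σ : ℝ) : Continuous fun t => PP a (ze τ (t + σ)) :=
  (PP_cont a).comp (f := fun t : ℝ => 2 * π / τ * (t + σ)) (by fun_prop)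

theorem PP_ze_int {τ : ℝ} (hτ : 0 < τ) (a : ℂ) (σ : ℝ) :
    ∫ t in (0 : ℝ)..τ, PP a (ze τ (t + σ)) ≤ τ := by
  have hper : Function.Periodic (fun t => PP a (ze τ t)) τ := fun t => by
    simp only [ze_period hτ]
  rw [intervalIntegral.integral_comp_add_right (fun t => PP a (ze τ t)), zero_add, add_comm τ σ,
    hper.intervalIntegral_add_eq σ 0, zero_add]
  have hc : (2 * π / τ : ℝ) ≠ 0 := by positivity
  unfold ze
  rw [intervalIntegral.integral_comp_mul_left (fun θ => PP a (circleMap 0 1 θ)) hc, mul_zero,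
    div_mul_cancel₀ _ hτ.ne', smul_eq_mul]
  refine (mul_le_mul_of_nonneg_left (PP_int a) (by positivity)).trans (le_of_eq ?_)
  field_simp

theorem exists_fn {d : ℕ} (s : Multiset ℂ) (hs : Multiset.card s = d) :
    ∃ v : Fin d → ℂ, Finset.univ.val.map v = s := by
  induction s using Quotient.inductionOn with
  | h l =>
    have hl : l.length = d := by simpa using hs
    subst hl
    refine ⟨l.get, ?_⟩
    rw [Fin.univ_val_map]
    simp

theorem exists_factor (N : ℕ) (c : ℕ → ℂ) (hc : ∃ i < N, c i ≠ 0) :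
    ∃ (d : ℕ) (k : ℂ) (a : Fin d → ℂ), d ≤ N ∧ k ≠ 0 ∧
      ∀ z : ℂ, ∑ j ∈ Finset.range N, c j * z ^ j = k * ∏ i, (z - a i) := by
  let p : ℂ[X] := ∑ j ∈ Finset.range N, C (c j) * X ^ j
  have hp : p ≠ 0 := by
    obtain ⟨i, hi, h⟩ := hc
    intro e
    have := congrArg (fun q : ℂ[X] => q.coeff i) e
    simp only [p, finsetSum_coeff, coeff_C_mul_X_pow, coeff_zero] at this
    rw [Finset.sum_ite_eq, if_pos (Finset.mem_range.2 hi)] at this
    exact h this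
  have hd : p.natDegree ≤ N := by
    refine natDegree_sum_le_of_forall_le _ _ fun j hj => ?_
    exact (natDegree_C_mul_X_pow_le _ _).trans (Finset.mem_range.1 hj).le
  have hs : p.Splits := IsAlgClosed.splits _
  obtain ⟨v, hv⟩ := exists_fn p.roots hs.natDegree_eq_card_roots.symm
  refine ⟨_, p.leadingCoeff, v, hd, leadingCoeff_ne_zero.2 hp, fun z => ?_⟩
  have e := congrArg (eval z) hs.eq_prod_roots
  rw [← hv, Multiset.map_map, eval_mul, eval_C] at e
  have e2 : eval z (Multiset.map ((fun a => X - C a) ∘ v) Finset.univ.val).prod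
      = ∏ i, (z - v i) := by
    change eval z (∏ i, (X - C (v i))) = _
    simp [eval_prod]
  rw [← e2, ← e]
  simp [p, eval_finsetSum]

theorem wf_factor (τ : ℝ) (m N : ℕ) (ρ s : ℕ → ℝ) (hρ : ∃ i < N, ρ i ≠ 0) :
    ∃ (d : ℕ) (k : ℂ) (a : Fin d → ℂ), d ≤ N ∧ k ≠ 0 ∧
      ∀ t, wf τ m N ρ s t = ze τ t ^ m * (k * ∏ i, (ze τ t - a i)) := by
  obtain ⟨d, k, a, hd, hk, h⟩ := exists_factor N
    (fun j => (ρ j : ℂ) * Complex.exp (-(2 * π * Complex.I * ((m + j : ℕ) * s j)))) (by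
      obtain ⟨i, hi, h⟩ := hρ
      exact ⟨i, hi, mul_ne_zero (by exact_mod_cast h) (Complex.exp_ne_zero _)⟩)
  refine ⟨d, k, a, hd, hk, fun t => ?_⟩
  rw [← h, wf, Finset.mul_sum]
  refine Finset.sum_congr rfl fun j _ => ?_
  rw [ze_eq, ← Complex.exp_nat_mul, ← Complex.exp_nat_mul, mul_left_comm, mul_assoc,
    mul_comm (Complex.exp _), mul_assoc, mul_assoc, ← Complex.exp_add, ← Complex.exp_add]
  congr 2
  push_cast
  ring

end Wave

end Pool.Agent.Lib.MP_f78106_gt
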